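import Pool.Agent.Lib_MP_af4de1_hd.CDefs

/-! # Part (c), piece C1: the window identity (real variable form) -/

namespace SokalHD

open MeasureTheory Filter Topology

/-- the continuous cut-off: `χ_n(x) = min 1 ((n+1) max 0 (-x))`. -/
private noncomputable def chi (n : ℕ) (x : ℝ) : ℝ := min 1 (max 0 (-x) * ((n : ℝ) + 1))

private lemma chi_continuous (n : ℕ) : Continuous (chi n) := by
  unfold chi; fun_prop

private lemma chi_nonneg (n : ℕ) (x : ℝ) : 0 ≤ chi n x := by
  unfold chi
  apply le_min zero_le_one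
  have : (0 : ℝ) ≤ (n : ℝ) + 1 := by positivity
  exact mul_nonneg (le_max_left _ _) this

private lemma chi_le_one (n : ℕ) (x : ℝ) : chi n x ≤ 1 := min_le_left _ _

private lemma chi_of_nonneg (n : ℕ) {x : ℝ} (hx : 0 ≤ x) : chi n x = 0 := by
  unfold chi
  rw [max_eq_left (by linarith), zero_mul]
  exact min_eq_right zero_le_one

private lemma chi_tendsto (x : ℝ) :
    Tendsto (fun n : ℕ => chi n x) atTop (𝓝 (if x < 0 then 1 else 0)) := by
  by_cases hx : x < 0
  · rw [if_pos hx]
    apply tendsto_const_nhds.congr'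
    filter_upwards [eventually_ge_atTop (Nat.ceil (1 / (-x)))] with n hn
    have h1 : 1 / (-x) ≤ (n : ℝ) := (Nat.le_ceil _).trans (by exact_mod_cast hn)
    have h2 : 0 < -x := by linarith
    have h3 : 1 ≤ (-x) * ((n : ℝ) + 1) := by
      rw [div_le_iff₀ h2] at h1
      nlinarith
    unfold chi
    rw [max_eq_right h2.le, min_eq_left h3]
  · rw [if_neg hx]
    push Not at hx
    simp only [chi_of_nonneg _ hx]
    exact tendsto_const_nhds

private lemma chi_cos_integral (n : ℕ) (a : ℝ) :
    ∫ θ in a..(a + 2 * Real.pi), chi n (Real.cos θ) ≤ Real.pi := by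
  have hc : Continuous fun θ => chi n (Real.cos θ) := (chi_continuous n).comp Real.continuous_cos
  have hp : Function.Periodic (fun θ => chi n (Real.cos θ)) (2 * Real.pi) := by
    intro θ; simp only [Real.cos_add_two_pi]
  rw [hp.intervalIntegral_add_eq a (-(Real.pi / 2))]
  have hs : ∫ θ in (-(Real.pi / 2))..(-(Real.pi / 2) + 2 * Real.pi), chi n (Real.cos θ)
      = (∫ θ in (-(Real.pi / 2))..(Real.pi / 2), chi n (Real.cos θ))
        + ∫ θ in (Real.pi / 2)..(-(Real.pi / 2) + 2 * Real.pi), chi n (Real.cos θ) :=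
    (intervalIntegral.integral_add_adjacent_intervals (hc.intervalIntegrable _ _)
      (hc.intervalIntegrable _ _)).symm
  have hpi := Real.pi_pos
  have h1 : ∫ θ in (-(Real.pi / 2))..(Real.pi / 2), chi n (Real.cos θ) = 0 := by
    rw [intervalIntegral.integral_congr (g := fun _ => (0 : ℝ))]
    · simp
    · intro θ hθ
      rw [Set.uIcc_of_le (by linarith)] at hθ
      exact chi_of_nonneg n (Real.cos_nonneg_of_mem_Icc hθ)
  have h2 : ∫ θ in (Real.pi / 2)..(-(Real.pi / 2) + 2 * Real.pi), chi n (Real.cos θ)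
      ≤ ∫ _θ in (Real.pi / 2)..(-(Real.pi / 2) + 2 * Real.pi), (1 : ℝ) := by
    apply intervalIntegral.integral_mono_on (by linarith) (hc.intervalIntegrable _ _)
      (by simp)
    intro θ _
    exact chi_le_one _ _
  rw [hs, h1, zero_add]
  refine h2.trans ?_
  simp
  linarith

/-- `cut w α` is measurable for continuous `w`. -/
private lemma cut_measurable {w : ℝ → ℝ} {α : ℝ} (hw : Continuous w) :
    Measurable (cut w α) := by
  classical
  have h1 : MeasurableSet {φ : ℝ | w φ < 0 ∧ 0 ≤ w (φ - α)} := by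
    apply MeasurableSet.inter
    · exact (isOpen_lt hw continuous_const).measurableSet
    · exact (isClosed_le continuous_const (hw.comp (by fun_prop))).measurableSet
  have h2 : cut w α = Set.indicator {φ : ℝ | w φ < 0 ∧ 0 ≤ w (φ - α)} (fun φ => - w φ) := by
    funext φ
    unfold cut
    by_cases h : w φ < 0 ∧ 0 ≤ w (φ - α)
    · rw [if_pos h, Set.indicator_of_mem (by exact h)]
    · rw [if_neg h, Set.indicator_of_notMem (by exact h)]
  rw [h2]
  exact (hw.measurable.neg).indicator h1

theorem cut_nonneg (w : ℝ → ℝ) (α φ : ℝ) : 0 ≤ cut w α φ := by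
  unfold cut
  split_ifs with h
  · linarith [h.1]
  · exact le_refl _

private lemma cut_le (w : ℝ → ℝ) (α φ : ℝ) : cut w α φ ≤ |w φ| := by
  unfold cut
  split_ifs with h
  · exact neg_le_abs _
  · exact abs_nonneg _

/-- `cut w α` is interval integrable for continuous `w` (bounded, measurable). -/
theorem cut_intervalIntegrable {w : ℝ → ℝ} {α : ℝ} (hw : Continuous w) (a b : ℝ) :
    IntervalIntegrable (cut w α) volume a b := by
  have h1 : IntervalIntegrable (fun φ => |w φ|) volume a b := (hw.abs).intervalIntegrable a b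
  refine h1.mono_fun' (cut_measurable hw).aestronglyMeasurable ?_
  refine Eventually.of_forall fun φ => ?_
  simp only [Real.norm_eq_abs, abs_of_nonneg (cut_nonneg w α φ)]
  exact cut_le w α φ

/-- periodic -/
theorem cut_periodic {w : ℝ → ℝ} {α : ℝ} (hper : ∀ φ, w (φ + 2 * Real.pi) = w φ) (φ : ℝ) :
    cut w α (φ + 2 * Real.pi) = cut w α φ := by
  unfold cut
  have h : φ + 2 * Real.pi - α = (φ - α) + 2 * Real.pi := by ring
  rw [hper, h, hper]

/-- PROOF.  `N := {φ | w φ < 0} = {φ | cos (Θ φ) < 0}`.  For `δ > 0` put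
`χ_δ(θ) := min 1 (max 0 (-cos θ) / δ)`: continuous, `2π`-periodic, `0 ≤ χ_δ ≤ 1`,
`χ_δ(θ) → 1_{cos θ < 0}` for every `θ` as `δ → 0+`, and `χ_δ(θ) ≤ 1_{cos θ < 0}`.
Substitution (`intervalIntegral.integral_comp_mul_deriv`, `Θ` is `C¹` because `w` is continuous):
`∫_0^{2π} χ_δ(Θ φ) (1 + w(φ+α) - w φ) dφ = ∫_{Θ 0}^{Θ 0 + 2π} χ_δ = ∫_0^{2π} χ_δ
 ≤ ∫_0^{2π} 1_{cos<0} = π`
(for the last steps: `Function.Periodic.intervalIntegral_add_eq`; alternatively bound
`χ_δ ≤ 1` on `[π/2, 3π/2]` and `χ_δ = 0` on the rest of `[-π/2, 3π/2]`).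
Let `δ → 0+` (dominated convergence, bound `1 + |w(φ+α)| + |w φ|`, e.g. along `δ = 1/(n+1)`):
`∫_0^{2π} 1_N(φ) (1 + w(φ+α) - w φ) dφ ≤ π`.
By periodicity `∫_0^{2π} 1_N(φ) w(φ+α) dφ = ∫_0^{2π} 1_N(φ-α) w φ dφ`.
So `∫_0^{2π} [1_N(φ) + (1_N(φ-α) - 1_N(φ)) w φ] dφ ≤ π`, and pointwise
`cut w α φ ≤ 1_N(φ) + (1_N(φ-α) - 1_N(φ)) w φ` (four cases; if `φ ∉ N` then `w φ ≥ 0`).
(`1_N(φ-α)`: `w(φ-α) < 0`.)  All functions are bounded and measurable on the interval, hence
interval integrable. -/
theorem cut_integral_le {w Θ ρ : ℝ → ℝ} {α : ℝ} (hw : Continuous w)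
    (hper : ∀ φ, w (φ + 2 * Real.pi) = w φ)
    (hΘ : ∀ φ, HasDerivAt Θ (1 + w (φ + α) - w φ) φ)
    (hΘper : ∀ φ, Θ (φ + 2 * Real.pi) = Θ φ + 2 * Real.pi)
    (hρ : ∀ φ, 0 < ρ φ) (hwρ : ∀ φ, w φ = ρ φ * Real.cos (Θ φ)) :
    ∫ φ in (0 : ℝ)..(2 * Real.pi), cut w α φ ≤ Real.pi := by
  classical
  have hpi := Real.pi_pos
  have hΘc : Continuous Θ := continuous_iff_continuousAt.2 fun φ => (hΘ φ).continuousAt
  have hsign : ∀ φ, Real.cos (Θ φ) < 0 ↔ w φ < 0 := by
    intro φ
    rw [hwρ φ]
    constructor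
    · intro h; exact mul_neg_of_pos_of_neg (hρ φ) h
    · intro h
      by_contra h'
      push Not at h'
      have := mul_nonneg (hρ φ).le h'
      linarith
  -- the continuous approximations
  set c : ℕ → ℝ → ℝ := fun n φ => chi n (Real.cos (Θ φ)) with hc_def
  have hcc : ∀ n, Continuous (c n) := fun n =>
    (chi_continuous n).comp (Real.continuous_cos.comp hΘc)
  have hc0 : ∀ n φ, 0 ≤ c n φ := fun n φ => chi_nonneg _ _
  have hc1 : ∀ n φ, c n φ ≤ 1 := fun n φ => chi_le_one _ _
  have hcper : ∀ n φ, c n (φ + 2 * Real.pi) = c n φ := by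
    intro n φ
    simp only [hc_def, hΘper, Real.cos_add_two_pi]
  have hclim : ∀ φ, Tendsto (fun n => c n φ) atTop (𝓝 (if w φ < 0 then 1 else 0)) := by
    intro φ
    have := chi_tendsto (Real.cos (Θ φ))
    simp only [hsign] at this
    exact this
  -- substitution
  have hsub : ∀ n, ∫ φ in (0 : ℝ)..(2 * Real.pi), c n φ * (1 + w (φ + α) - w φ) ≤ Real.pi := by
    intro n
    have h := intervalIntegral.integral_comp_mul_deriv (a := 0) (b := 2 * Real.pi)
      (f := Θ) (f' := fun φ => 1 + w (φ + α) - w φ)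
      (g := fun θ => chi n (Real.cos θ)) (fun φ _ => hΘ φ)
      (by
        apply Continuous.continuousOn
        fun_prop) ((chi_continuous n).comp Real.continuous_cos)
    have h2 : Θ (2 * Real.pi) = Θ 0 + 2 * Real.pi := by
      have := hΘper 0
      rwa [zero_add] at this
    rw [h2] at h
    have h3 := chi_cos_integral n (Θ 0)
    rw [← h] at h3
    exact h3
  -- shift
  have hshift : ∀ n, ∫ φ in (0 : ℝ)..(2 * Real.pi), c n φ * w (φ + α)
      = ∫ φ in (0 : ℝ)..(2 * Real.pi), c n (φ - α) * w φ := by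
    intro n
    have hp : Function.Periodic (fun φ => c n (φ - α) * w φ) (2 * Real.pi) := by
      intro φ
      have h : φ + 2 * Real.pi - α = (φ - α) + 2 * Real.pi := by ring
      simp only [h, hcper, hper]
    have h1 : ∫ φ in (0 : ℝ)..(2 * Real.pi), c n φ * w (φ + α)
        = ∫ φ in (0 : ℝ)..(2 * Real.pi), (fun φ => c n (φ - α) * w φ) (φ + α) := by
      apply intervalIntegral.integral_congr
      intro φ _
      simp only [add_sub_cancel_right]
    have h2 := intervalIntegral.integral_comp_add_right (a := (0 : ℝ)) (b := 2 * Real.pi)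
      (fun φ => c n (φ - α) * w φ) α
    have h3 := hp.intervalIntegral_add_eq α 0
    rw [h1, h2, add_comm (2 * Real.pi) α, zero_add, h3, zero_add]
  -- combined
  have hcomb : ∀ n, ∫ φ in (0 : ℝ)..(2 * Real.pi),
      (c n φ + (c n (φ - α) - c n φ) * w φ) ≤ Real.pi := by
    intro n
    have hi1 : Continuous fun φ => c n φ - c n φ * w φ := by
      have := hcc n
      fun_prop
    have hi2 : Continuous fun φ => c n φ * w (φ + α) := by
      have := hcc n
      fun_prop
    have hi3 : Continuous fun φ => c n (φ - α) * w φ := by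
      have := (hcc n).comp (continuous_sub_right α)
      exact this.mul hw
    have e1 : ∫ φ in (0 : ℝ)..(2 * Real.pi), (c n φ + (c n (φ - α) - c n φ) * w φ)
        = (∫ φ in (0 : ℝ)..(2 * Real.pi), (c n φ - c n φ * w φ))
          + ∫ φ in (0 : ℝ)..(2 * Real.pi), c n (φ - α) * w φ := by
      rw [← intervalIntegral.integral_add (hi1.intervalIntegrable _ _)
        (hi3.intervalIntegrable _ _)]
      apply intervalIntegral.integral_congr
      intro φ _
      simp only
      ring
    have e2 : ∫ φ in (0 : ℝ)..(2 * Real.pi), c n φ * (1 + w (φ + α) - w φ)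
        = (∫ φ in (0 : ℝ)..(2 * Real.pi), (c n φ - c n φ * w φ))
          + ∫ φ in (0 : ℝ)..(2 * Real.pi), c n φ * w (φ + α) := by
      rw [← intervalIntegral.integral_add (hi1.intervalIntegrable _ _)
        (hi2.intervalIntegrable _ _)]
      apply intervalIntegral.integral_congr
      intro φ _
      simp only
      ring
    rw [e1, ← hshift n, ← e2]
    exact hsub n
  -- the limit
  set g : ℝ → ℝ := fun φ => (if w φ < 0 then (1 : ℝ) else 0)
      + ((if w (φ - α) < 0 then (1 : ℝ) else 0) - (if w φ < 0 then (1 : ℝ) else 0)) * w φ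
    with hg_def
  have hgm : Measurable g := by
    have m1 : Measurable fun φ => (if w φ < 0 then (1 : ℝ) else 0) :=
      Measurable.ite (isOpen_lt hw continuous_const).measurableSet measurable_const
        measurable_const
    have m2 : Measurable fun φ => (if w (φ - α) < 0 then (1 : ℝ) else 0) :=
      Measurable.ite (isOpen_lt (hw.comp (continuous_sub_right α))
        continuous_const).measurableSet measurable_const measurable_const
    exact m1.add ((m2.sub m1).mul hw.measurable)
  have hbound : ∀ (a b x : ℝ), 0 ≤ a → a ≤ 1 → 0 ≤ b → b ≤ 1 → |a + (b - a) * x| ≤ 1 + |x| := by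
    intro a b x ha0 ha1 hb0 hb1
    have h1 : |b - a| ≤ 1 := abs_le.2 ⟨by linarith, by linarith⟩
    calc |a + (b - a) * x| ≤ |a| + |(b - a) * x| := abs_add_le _ _
      _ ≤ 1 + 1 * |x| := by
          rw [abs_mul, abs_of_nonneg ha0]
          exact add_le_add ha1 (mul_le_mul_of_nonneg_right h1 (abs_nonneg x))
      _ = 1 + |x| := by ring
  have hbi : IntervalIntegrable (fun φ => 1 + |w φ|) volume 0 (2 * Real.pi) := by
    apply Continuous.intervalIntegrable
    fun_prop
  have hgi : IntervalIntegrable g volume 0 (2 * Real.pi) := by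
    refine hbi.mono_fun' hgm.aestronglyMeasurable ?_
    refine Eventually.of_forall fun φ => ?_
    simp only [Real.norm_eq_abs, hg_def]
    apply hbound <;> split_ifs <;> norm_num
  have hlim : Tendsto (fun n : ℕ => ∫ φ in (0 : ℝ)..(2 * Real.pi),
      (c n φ + (c n (φ - α) - c n φ) * w φ)) atTop (𝓝 (∫ φ in (0 : ℝ)..(2 * Real.pi), g φ)) := by
    apply intervalIntegral.tendsto_integral_filter_of_dominated_convergence
      (bound := fun φ => 1 + |w φ|)
    · refine Eventually.of_forall fun n => ?_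
      apply Continuous.aestronglyMeasurable
      have h1 := hcc n
      have h2 := (hcc n).comp (continuous_sub_right α)
      exact h1.add ((h2.sub h1).mul hw)
    · refine Eventually.of_forall fun n => Eventually.of_forall fun φ _ => ?_
      rw [Real.norm_eq_abs]
      exact hbound _ _ _ (hc0 _ _) (hc1 _ _) (hc0 _ _) (hc1 _ _)
    · exact hbi
    · refine Eventually.of_forall fun φ _ => ?_
      exact (hclim φ).add (((hclim (φ - α)).sub (hclim φ)).mul_const _)
  have hgle : ∫ φ in (0 : ℝ)..(2 * Real.pi), g φ ≤ Real.pi :=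
    le_of_tendsto hlim (Eventually.of_forall hcomb)
  refine le_trans ?_ hgle
  apply intervalIntegral.integral_mono_on (by linarith) (cut_intervalIntegrable hw _ _) hgi
  intro φ _
  simp only [hg_def]
  unfold cut
  by_cases h1 : w φ < 0
  · by_cases h2 : w (φ - α) < 0
    · have h3 : ¬ (w φ < 0 ∧ 0 ≤ w (φ - α)) := fun h => by linarith [h.2]
      rw [if_neg h3, if_pos h1, if_pos h2]
      norm_num
    · have h3 : w φ < 0 ∧ 0 ≤ w (φ - α) := ⟨h1, by linarith⟩
      rw [if_pos h3, if_pos h1, if_neg h2]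
      linarith
  · have h3 : ¬ (w φ < 0 ∧ 0 ≤ w (φ - α)) := fun h => h1 h.1
    rw [if_neg h3, if_neg h1]
    push Not at h1
    split_ifs <;> linarith

end SokalHD
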