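import Pool.Agent.Lib_MP_af4de1_hd.C1

/-! # Part (c), piece C2: the window inequality for `F` -/

namespace SokalHD

open Complex SokalF MeasureTheory

/-- The circle. -/
private noncomputable def zc (r φ : ℝ) : ℂ := (r : ℂ) * exp ((φ : ℂ) * I)

private theorem zc_norm {r : ℝ} (hr : 0 < r) (φ : ℝ) : ‖zc r φ‖ = r := by
  unfold zc
  rw [norm_mul, norm_exp_ofReal_mul_I, mul_one, norm_real, Real.norm_of_nonneg hr.le]

private theorem zc_add (r φ α : ℝ) : zc r (φ + α) = exp ((α : ℂ) * I) * zc r φ := by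
  unfold zc
  push_cast
  rw [add_mul, exp_add]
  ring

private theorem zc_per (r φ : ℝ) : zc r (φ + 2 * Real.pi) = zc r φ := by
  rw [zc_add]
  push_cast
  rw [exp_two_pi_mul_I, one_mul]

private theorem zc_deriv (r φ : ℝ) : HasDerivAt (zc r) (zc r φ * I) φ := by
  unfold zc
  have h1 : HasDerivAt (fun z : ℂ => (r : ℂ) * exp (z * I)) ((r : ℂ) * (exp ((φ : ℂ) * I) * I))
      (φ : ℂ) := by
    have h2 : HasDerivAt (fun z : ℂ => z * I) I (φ : ℂ) := by
      simpa using (hasDerivAt_id (φ : ℂ)).mul_const I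
    exact h2.cexp.const_mul _
  have h3 := h1.comp_ofReal
  rw [← mul_assoc] at h3
  exact h3

private theorem A_deriv {q : ℂ} (hq : ‖q‖ = 1) {r : ℝ}
    (hr : 0 < r) (h0 : ∀ z : ℂ, ‖z‖ = r → F q z ≠ 0) (φ : ℝ) :
    HasDerivAt (fun φ => F q (zc r φ)) (I * Mf q (zc r φ) * F q (zc r φ)) φ := by
  have h1 := (hasDerivAt_F hq.le (zc r φ)).comp φ (zc_deriv r φ)
  have h2 : F q (q * zc r φ) * (zc r φ * I) = I * Mf q (zc r φ) * F q (zc r φ) := by
    unfold Mf
    have := h0 _ (zc_norm hr φ)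
    field_simp
  rw [h2] at h1
  exact h1

private theorem m_ne {q : ℂ} {α : ℝ} (hα : q = exp ((α : ℂ) * I)) {r : ℝ}
    (hr : 0 < r) (h0 : ∀ z : ℂ, ‖z‖ = r → F q z ≠ 0) (φ : ℝ) : Mf q (zc r φ) ≠ 0 := by
  unfold Mf
  rw [hα, ← zc_add, ← hα]
  have h1 := h0 _ (zc_norm hr φ)
  have h2 := h0 _ (zc_norm hr (φ + α))
  have h3 : zc r φ ≠ 0 := by
    rw [← norm_pos_iff, zc_norm hr]
    exact hr
  exact div_ne_zero (mul_ne_zero h3 h2) h1

private theorem m_deriv {q : ℂ} (hq : ‖q‖ = 1) {α : ℝ} (hα : q = exp ((α : ℂ) * I)) {r : ℝ}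
    (hr : 0 < r) (h0 : ∀ z : ℂ, ‖z‖ = r → F q z ≠ 0) (φ : ℝ) :
    HasDerivAt (fun φ => Mf q (zc r φ))
      (I * (1 + Mf q (zc r (φ + α)) - Mf q (zc r φ)) * Mf q (zc r φ)) φ := by
  have hA := A_deriv hq hr h0 φ
  have hB : HasDerivAt (fun φ => F q (zc r (φ + α)))
      (I * Mf q (zc r (φ + α)) * F q (zc r (φ + α))) φ := by
    have := (A_deriv hq hr h0 (φ + α)).comp_add_const φ α
    exact this
  have hfun : (fun φ => Mf q (zc r φ)) =
      fun φ => zc r φ * F q (zc r (φ + α)) / F q (zc r φ) := by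
    funext ψ
    unfold Mf
    rw [zc_add, ← hα]
  have hne := h0 _ (zc_norm hr φ)
  have h1 := ((zc_deriv r φ).mul hB).div hA hne
  have hm : Mf q (zc r φ) = zc r φ * F q (zc r (φ + α)) / F q (zc r φ) := congrFun hfun φ
  have h2 : ((zc r φ * I * F q (zc r (φ + α)) +
      zc r φ * (I * Mf q (zc r (φ + α)) * F q (zc r (φ + α)))) * F q (zc r φ) -
      zc r φ * F q (zc r (φ + α)) * (I * Mf q (zc r φ) * F q (zc r φ))) / F q (zc r φ) ^ 2 =
      I * (1 + Mf q (zc r (φ + α)) - Mf q (zc r φ)) * Mf q (zc r φ) := by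
    have h3 : zc r φ * F q (zc r (φ + α)) = Mf q (zc r φ) * F q (zc r φ) := by
      rw [hm, div_mul_cancel₀ _ hne]
    have h4 : (zc r φ * I * F q (zc r (φ + α)) +
      zc r φ * (I * Mf q (zc r (φ + α)) * F q (zc r (φ + α)))) * F q (zc r φ) -
      zc r φ * F q (zc r (φ + α)) * (I * Mf q (zc r φ) * F q (zc r φ)) =
      I * (1 + Mf q (zc r (φ + α)) - Mf q (zc r φ)) * Mf q (zc r φ) * F q (zc r φ) ^ 2 := by
      linear_combination (I * (1 + Mf q (zc r (φ + α)) - Mf q (zc r φ)) * F q (zc r φ)) * h3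
    rw [h4, mul_div_cancel_right₀ _ (pow_ne_zero 2 hne)]
  rw [hfun, ← h2]
  exact h1

/-- PROOF.  Put `z(φ) = r e^{iφ}`, `m(φ) = Mf q (z φ)`; numerator and denominator never vanish
(`q z(φ) = z(φ + α)` has modulus `r` too), so `m` is continuous, never `0`, `2π`-periodic and `C¹`
with `m' = i (1 + m(φ+α) - m(φ)) m(φ)`: indeed `d/dφ F(z) = i z F(qz)` (`hasDerivAt_F`),
`d/dφ F(qz) = i qz F(q·qz)`, so `m'/m = i + i (qz)F(q²z)/F(qz) - i zF(qz)/F(z)`, and
`m(φ+α) = qz F(q²z)/F(qz)`.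
Let `L φ = log (m 0) + ∫_0^φ i(1 + m(t+α) - m t) dt`; `m φ · exp(-L φ)` has derivative `0` and value
`1` at `0`, so `m = exp ∘ L`.  Put `Θ = Im L`, `ρ = exp (Re L) > 0`, `w = wf q r = Re m =
ρ cos Θ`.  `Θ' = 1 + w(φ+α) - w φ`.  `Θ(φ+2π) - Θ φ = ∫_φ^{φ+2π} (1 + w(t+α) - w t) dt = 2π` because
`∫ w(t+α) dt = ∫ w t dt` over a period (`Function.Periodic.intervalIntegral_add_eq`).
Apply `cut_integral_le`; general `a` by periodicity (`cut_periodic`). -/
theorem cut_F_le {q : ℂ} (hq : ‖q‖ = 1) {α : ℝ} (hα : q = exp ((α : ℂ) * I)) {r : ℝ} (hr : 0 < r)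
    (h0 : ∀ z : ℂ, ‖z‖ = r → F q z ≠ 0) (a : ℝ) :
    Continuous (wf q r) ∧ (∀ φ, wf q r (φ + 2 * Real.pi) = wf q r φ) ∧
    ∫ φ in a..(a + 2 * Real.pi), cut (wf q r) α φ ≤ Real.pi := by
  obtain ⟨m, hm⟩ : ∃ m : ℝ → ℂ, m = fun φ => Mf q (zc r φ) := ⟨_, rfl⟩
  have hw : wf q r = fun φ => (m φ).re := by
    rw [hm]
    rfl
  have hmd : ∀ φ, HasDerivAt m (I * (1 + m (φ + α) - m φ) * m φ) φ := by
    intro φ
    rw [hm]
    exact m_deriv hq hα hr h0 φ
  have hm0 : ∀ φ, m φ ≠ 0 := by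
    intro φ
    rw [hm]
    exact m_ne hα hr h0 φ
  have hmc : Continuous m := continuous_iff_continuousAt.2 fun φ => (hmd φ).continuousAt
  have hmper : ∀ φ, m (φ + 2 * Real.pi) = m φ := by
    intro φ
    rw [hm]
    simp only [zc_per]
  have hwc : Continuous (wf q r) := by
    rw [hw]
    exact continuous_re.comp hmc
  have hwper : ∀ φ, wf q r (φ + 2 * Real.pi) = wf q r φ := by
    intro φ
    rw [hw]
    simp only [hmper]
  refine ⟨hwc, hwper, ?_⟩
  -- the lift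
  obtain ⟨g, hg⟩ : ∃ g : ℝ → ℂ, g = fun t => I * (1 + m (t + α) - m t) := ⟨_, rfl⟩
  have hgc : Continuous g := by
    rw [hg]
    fun_prop
  obtain ⟨L, hL⟩ : ∃ L : ℝ → ℂ, L = fun φ => log (m 0) + ∫ t in (0 : ℝ)..φ, g t := ⟨_, rfl⟩
  have hLd : ∀ φ, HasDerivAt L (g φ) φ := by
    intro φ
    rw [hL]
    exact ((hgc.integral_hasStrictDerivAt 0 φ).hasDerivAt).const_add _
  have hDd : ∀ φ, HasDerivAt (fun φ => m φ * exp (-L φ)) 0 φ := by
    intro φ
    have h1 := (hmd φ).mul (hLd φ).neg.cexp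
    have h2 : I * (1 + m (φ + α) - m φ) * m φ * exp (-L φ) + m φ * (exp (-L φ) * -g φ) = 0 := by
      rw [hg]
      ring
    rw [← h2]
    exact h1
  have hD : ∀ φ, m φ * exp (-L φ) = 1 := by
    intro φ
    have h1 : (fun φ => m φ * exp (-L φ)) φ = (fun φ => m φ * exp (-L φ)) 0 :=
      is_const_of_deriv_eq_zero (fun x => (hDd x).differentiableAt) (fun x => (hDd x).deriv) φ 0
    have h2 : L 0 = log (m 0) := by
      rw [hL]
      simp
    simp only at h1
    rw [h1, h2, exp_neg, exp_log (hm0 0), mul_inv_cancel₀ (hm0 0)]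
  have hmL : ∀ φ, m φ = exp (L φ) := by
    intro φ
    have h1 := hD φ
    rw [exp_neg] at h1
    field_simp at h1
    exact h1
  -- the real form
  have hΘd : ∀ φ, HasDerivAt (fun φ => (L φ).im) (1 + wf q r (φ + α) - wf q r φ) φ := by
    intro φ
    have h1 : HasDerivAt (fun φ => (L φ).im) (g φ).im φ :=
      imCLM.hasFDerivAt.comp_hasDerivAt φ (hLd φ)
    have h2 : (g φ).im = 1 + wf q r (φ + α) - wf q r φ := by
      rw [hg, hw]
      simp
    rw [← h2]
    exact h1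
  have hΘc : Continuous fun φ => 1 + wf q r (φ + α) - wf q r φ := by fun_prop
  have hΘper : ∀ φ, (L (φ + 2 * Real.pi)).im = (L φ).im + 2 * Real.pi := by
    intro φ
    have h1 := intervalIntegral.integral_eq_sub_of_hasDerivAt (a := φ) (b := φ + 2 * Real.pi)
      (fun x _ => hΘd x) (hΘc.intervalIntegrable _ _)
    have h2 : ∫ t in φ..(φ + 2 * Real.pi), (1 + wf q r (t + α) - wf q r t) = 2 * Real.pi := by
      have i1 : IntervalIntegrable (fun t => wf q r (t + α)) volume φ (φ + 2 * Real.pi) :=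
        Continuous.intervalIntegrable (by fun_prop) _ _
      have i2 : IntervalIntegrable (fun t => wf q r t) volume φ (φ + 2 * Real.pi) :=
        Continuous.intervalIntegrable (by fun_prop) _ _
      have i0 : IntervalIntegrable (fun _ : ℝ => (1 : ℝ)) volume φ (φ + 2 * Real.pi) :=
        intervalIntegrable_const
      rw [intervalIntegral.integral_sub (i0.add i1) i2, intervalIntegral.integral_add i0 i1,
        intervalIntegral.integral_comp_add_right (fun t => wf q r t) α]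
      have hp : Function.Periodic (wf q r) (2 * Real.pi) := hwper
      have h3 := hp.intervalIntegral_add_eq (φ + α) φ
      rw [show φ + 2 * Real.pi + α = φ + α + 2 * Real.pi by ring, h3,
        intervalIntegral.integral_const]
      simp
    rw [h2] at h1
    linarith
  have hmain := cut_integral_le (w := wf q r) (Θ := fun φ => (L φ).im)
    (ρ := fun φ => Real.exp (L φ).re) (α := α) hwc hwper hΘd hΘper (fun φ => Real.exp_pos _)
    (fun φ => by
      rw [hw]
      simp only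
      rw [hmL, exp_re])
  have hcp : Function.Periodic (cut (wf q r) α) (2 * Real.pi) := fun φ => cut_periodic hwper φ
  have h5 := hcp.intervalIntegral_add_eq a 0
  rw [zero_add] at h5
  rw [h5]
  exact hmain

end SokalHD
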