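import Pool.Agent.Lib_MP_af4de1_hd.CDefs

/-! # Part (c), piece C3: the mass `> π/2` which a zero with E2 leaves in the cut integral -/

namespace SokalHD

open Complex SokalF MeasureTheory Filter Topology

theorem cut_partA {q : ℂ} (hq : ‖q‖ ≤ 1) {z₁ : ℂ} (hz₁ : z₁ ≠ 0) (hz : F q z₁ = 0)
    (hU : F q (q * z₁) ≠ 0) :
    ∃ C : ℝ, 0 < C ∧ ∃ s₀ : ℝ, 0 < s₀ ∧ ∀ s : ℂ, s ≠ 0 → ‖s‖ < s₀ →
      ‖Mf q (z₁ * exp s) - 1 / s‖ ≤ C := by
  set g : ℂ → ℂ := fun s => F q (z₁ * exp s) with hg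
  have hgd : ∀ s, HasDerivAt g (F q (q * (z₁ * exp s)) * (z₁ * exp s)) s := by
    intro s
    have h1 := HasDerivAt.comp s (hasDerivAt_F hq (z₁ * exp s)) ((hasDerivAt_exp s).const_mul z₁)
    exact h1
  have hg0 : g 0 = 0 := by simp [hg, hz]
  have hgdiff : Differentiable ℂ g := fun s => (hgd s).differentiableAt
  set h : ℂ → ℂ := dslope g 0 with hh
  have hhd : Differentiable ℂ h := by
    rw [← differentiableOn_univ]
    exact (Complex.differentiableOn_dslope Filter.univ_mem).2 hgdiff.differentiableOn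
  have hh0 : h 0 ≠ 0 := by
    rw [hh, dslope_same, (hgd 0).deriv]
    simp only [exp_zero, mul_one]
    exact mul_ne_zero hU hz₁
  have hgh : ∀ s, g s = s * h s := by
    intro s
    have h1 := sub_smul_dslope g 0 s
    rw [hg0] at h1
    simp only [sub_zero, smul_eq_mul] at h1
    rw [hh, h1]
  have hgh' : ∀ s, F q (q * (z₁ * exp s)) * (z₁ * exp s) = h s + s * deriv h s := by
    intro s
    have h1 : HasDerivAt g (1 * h s + s * deriv h s) s := by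
      have h2 : g = fun s => s * h s := funext hgh
      rw [h2]
      exact (hasDerivAt_id s).mul (hhd s).hasDerivAt
    rw [(hgd s).unique h1, one_mul]
  have hcont : ContinuousAt (fun s => deriv h s / h s) 0 := by
    refine ContinuousAt.div ?_ (hhd 0).continuousAt hh0
    exact ((hhd.contDiff (n := 1)).continuous_deriv le_rfl).continuousAt
  have hb : ∀ᶠ s in 𝓝 (0 : ℂ), ‖deriv h s / h s‖ < ‖deriv h 0 / h 0‖ + 1 := by
    have h1 := hcont.norm
    exact h1.eventually_lt continuousAt_const (by linarith)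
  have hne : ∀ᶠ s in 𝓝 (0 : ℂ), h s ≠ 0 := (hhd 0).continuousAt.eventually_ne hh0
  obtain ⟨s₀, hs₀, H⟩ := Metric.eventually_nhds_iff.1 (hb.and hne)
  refine ⟨‖deriv h 0 / h 0‖ + 1, by positivity, s₀, hs₀, fun s hs hs' => ?_⟩
  obtain ⟨h1, h2⟩ := H (by simpa using hs')
  have h3 : Mf q (z₁ * exp s) - 1 / s = deriv h s / h s := by
    unfold Mf
    have h4 : F q (z₁ * exp s) = s * h s := hgh s
    rw [mul_comm (z₁ * exp s) _, hgh' s, h4]
    field_simp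
    ring
  rw [h3]
  exact h1.le

theorem cut_partB {q : ℂ} (hq : ‖q‖ ≤ 1) (hq0 : q ≠ 0) {z₁ : ℂ} (hz : F q z₁ = 0)
    (hA : F q (z₁ / q) ≠ 0) :
    HasDerivAt (fun s => Mf q (z₁ / q * exp s))
      (z₁ ^ 2 / q * F q (q * z₁) / F q (z₁ / q)) 0 := by
  have hw : HasDerivAt (fun s : ℂ => z₁ / q * exp s) (z₁ / q) 0 := by
    have h1 := (hasDerivAt_exp (0 : ℂ)).const_mul (z₁ / q)
    simpa using h1
  have hw0 : z₁ / q * exp (0 : ℂ) = z₁ / q := by simp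
  have hqw0 : q * (z₁ / q * exp (0 : ℂ)) = z₁ := by rw [hw0]; field_simp
  have hD : HasDerivAt (fun s : ℂ => F q (z₁ / q * exp s)) (F q z₁ * (z₁ / q)) 0 := by
    have h1 := HasDerivAt.comp (0 : ℂ) (hasDerivAt_F hq (z₁ / q * exp 0)) hw
    rw [hqw0] at h1
    exact h1
  have hN1 : HasDerivAt (fun s : ℂ => F q (q * (z₁ / q * exp s)))
      (F q (q * z₁) * (q * (z₁ / q))) 0 := by
    have h1 := HasDerivAt.comp (0 : ℂ) (hasDerivAt_F hq (q * (z₁ / q * exp 0))) (hw.const_mul q)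
    rw [hqw0] at h1
    exact h1
  have hN := hw.mul hN1
  have hA' : F q (z₁ / q * exp (0 : ℂ)) ≠ 0 := by rw [hw0]; exact hA
  have h2 := hN.div hD hA'
  refine h2.congr_deriv ?_
  simp only [hz, exp_zero, mul_one, zero_mul, mul_zero, sub_zero, Pi.mul_apply]
  have h3 : q * (z₁ / q) = z₁ := by field_simp
  rw [h3]
  simp only [hz, mul_zero, zero_add]
  field_simp

/-- PROOF.  Write `z₁ = ρ e^{iφ₁}`.  By `E2`: `F q z₁ = 0`, `u₁ := F q (q z₁) ≠ 0`,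
`u₋ := F q (z₁/q) ≠ 0`, and `c := (z₁²/q) u₁/u₋` has `Re c < 0` (as
`Re c = Re (conj u₋ · (z₁²/q) u₁)/|u₋|²`).
(A) There are `C > 0`, `s₀ > 0` with `‖Mf q (z₁ e^s) - 1/s‖ ≤ C` for `0 < ‖s‖ < s₀`, `s ∈ ℂ`:
`g(s) := F q (z₁ e^s)` is entire, `g(0) = 0`, `g'(s) = z₁e^s F q (q z₁ e^s)`, `g'(0) = z₁u₁ ≠ 0`,
and `Mf q (z₁e^s) = g'(s)/g(s)`; `g'/g - 1/s = (s g' - g)/(s g)` where the numerator is `O(s²)` and
`s g ~ g'(0) s²` (Taylor with order 2: `g` analytic; `g = s·h`, `h(0) ≠ 0` analytic, then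
`g'/g - 1/s = h'/h` is bounded near `0`).
(B) `‖Mf q ((z₁/q) e^s) - c s‖ ≤ C‖s‖²` for `‖s‖ < s₀`: `n(s) := Mf q ((z₁/q)e^s)` is analytic
at `0` (`F q (z₁/q) ≠ 0`), `n(0) = 0`, `n'(0) = (z₁/q)·(z₁ F q (q z₁))/F q (z₁/q) = c`
(product rule, the factor `F q (z₁) = 0`).
Put `s = -ε + iεu`, `φ = φ₁ + εu`, so `ρe^{-ε}e^{iφ} = z₁e^s`, and
`ρe^{-ε}e^{i(φ-α)} = (z₁/q)e^s`.  Fix `K` below; for `|u| ≤ K`:
`Re(1/s) = -1/(ε(1+u²))`, so `wf(φ) ≤ -1/(ε(1+u²)) + C < 0` for small `ε` (uniformly in `|u| ≤ K`),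
`wf(φ-α) ≥ Re(c s) - C|s|² = ε(|Re c| - u Im c) - Cε²(1+u²)`.
Let `σ = 1` if `Im c ≥ 0`, else `-1`, `u₀ = |Re c|/(2(|Im c|+1)) > 0`; for `σu ≤ u₀` one has
`|Re c| - u Im c ≥ |Re c|/2 > 0`, so `wf(φ-α) ≥ 0` for small `ε`.  Therefore, for
`-K ≤ σu ≤ u₀` (`K ≥ u₀`), `cut (φ₁+εu) = -wf(φ) ≥ 1/(ε(1+u²)) - C`, and elsewhere `cut ≥ 0`:
`∫_{φ₁-Kε}^{φ₁+Kε} cut dφ ≥ ε ∫_{-K ≤ σu ≤ u₀} (1/(ε(1+u²)) - C) du
  ≥ arctan K + arctan u₀ - 2CKε`.
Choose `K ≥ u₀` with `arctan K > π/2 - (arctan u₀)/4`, `η := π/2 + (arctan u₀)/4`, and `ε` so small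
that `2CKε ≤ (arctan u₀)/4`.
(Integrability of `cut (wf q (ρe^{-ε})) α` on the interval: `hint` is a hypothesis; if it is more
convenient use the interval `(φ₁-Kε, φ₁+Kε)` only, where `wf` is continuous.) -/
theorem cut_local {q : ℂ} (hq : ‖q‖ = 1) {α : ℝ} (hα : q = exp ((α : ℂ) * I)) {ρ φ₁ : ℝ}
    (hρ : 0 < ρ) (hz : F q ((ρ : ℂ) * exp ((φ₁ : ℂ) * I)) = 0)
    (hE : E2 q ((ρ : ℂ) * exp ((φ₁ : ℂ) * I))) :
    ∃ K : ℝ, 0 < K ∧ ∃ η : ℝ, Real.pi / 2 < η ∧ ∀ᶠ ε : ℝ in 𝓝[>] 0,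
      (∀ a b : ℝ, IntervalIntegrable (cut (wf q (ρ * Real.exp (-ε))) α) volume a b) →
      η ≤ ∫ φ in (φ₁ - K * ε)..(φ₁ + K * ε), cut (wf q (ρ * Real.exp (-ε))) α φ := by
  set z₁ : ℂ := (ρ : ℂ) * exp ((φ₁ : ℂ) * I) with hz₁
  have hq0 : q ≠ 0 := by rw [hα]; exact exp_ne_zero _
  have hz₁0 : z₁ ≠ 0 := mul_ne_zero (by exact_mod_cast hρ.ne') (exp_ne_zero _)
  have hE' := hE hz
  have hU : F q (q * z₁) ≠ 0 := by
    intro h; rw [h] at hE'; simp at hE'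
  have hA : F q (z₁ / q) ≠ 0 := by
    intro h; rw [h] at hE'; simp at hE'
  set c : ℂ := z₁ ^ 2 / q * F q (q * z₁) / F q (z₁ / q) with hc
  have hcre : c.re < 0 := by
    have h1 : c = (starRingEnd ℂ) (F q (z₁ / q)) * (z₁ ^ 2 / q * F q (q * z₁)) /
        ((normSq (F q (z₁ / q)) : ℝ) : ℂ) := by
      rw [hc, ← mul_conj]
      have h2 : (starRingEnd ℂ) (F q (z₁ / q)) ≠ 0 := by
        simpa using hA
      field_simp
    rw [h1, div_ofReal_re]
    exact div_neg_of_neg_of_pos hE' (normSq_pos.2 hA)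
  obtain ⟨C, hC, s₀, hs₀, HA⟩ := cut_partA hq.le hz₁0 hz hU
  have HB := cut_partB hq.le hq0 hz hA
  rw [← hc] at HB
  set κ : ℝ := -c.re with hκ
  have hκ0 : 0 < κ := by rw [hκ]; linarith
  set u₀ : ℝ := κ / (2 * (|c.im| + 1)) with hu₀
  have hu₀0 : 0 < u₀ := by positivity
  have hat : 0 < Real.arctan u₀ := Real.arctan_pos.2 hu₀0
  obtain ⟨K, hKu, hK⟩ : ∃ K : ℝ, u₀ ≤ K ∧ Real.pi / 2 - Real.arctan u₀ / 4 < Real.arctan K := by
    have h1 : ∀ᶠ K : ℝ in atTop, Real.pi / 2 - Real.arctan u₀ / 4 < Real.arctan K := by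
      have h2 : Tendsto Real.arctan atTop (𝓝 (Real.pi / 2)) :=
        Real.tendsto_arctan_atTop.mono_right nhdsWithin_le_nhds
      exact h2.eventually_const_lt (by linarith)
    obtain ⟨K, hK⟩ := (h1.and (eventually_ge_atTop u₀)).exists
    exact ⟨K, hK.2, hK.1⟩
  have hK0 : 0 < K := hu₀0.trans_le hKu
  -- the interval of `u`
  obtain ⟨a, b, haK, ha0, hb0, hbK, hab, hsum⟩ : ∃ a b : ℝ, -K ≤ a ∧ a < 0 ∧ 0 < b ∧ b ≤ K ∧
      (∀ u, a ≤ u → u ≤ b → κ / 2 ≤ κ - u * c.im) ∧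
      Real.arctan b - Real.arctan a = Real.arctan K + Real.arctan u₀ := by
    have key : u₀ * |c.im| ≤ κ / 2 := by
      rw [hu₀]
      have : 0 ≤ |c.im| := abs_nonneg _
      rw [div_mul_eq_mul_div, div_le_div_iff₀ (by positivity) (by norm_num)]
      nlinarith
    rcases le_total 0 c.im with him | him
    · refine ⟨-K, u₀, le_rfl, by linarith, hu₀0, hKu, fun u _ hu => ?_, ?_⟩
      · rw [abs_of_nonneg him] at key
        have : u * c.im ≤ u₀ * c.im := mul_le_mul_of_nonneg_right hu him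
        linarith
      · rw [Real.arctan_neg]; ring
    · refine ⟨-u₀, K, by linarith, by linarith, hK0, le_rfl, fun u hu _ => ?_, ?_⟩
      · rw [abs_of_nonpos him] at key
        have : u * c.im ≤ (-u₀) * c.im := mul_le_mul_of_nonpos_right hu him
        linarith
      · rw [Real.arctan_neg]; ring
  refine ⟨K, hK0, Real.pi / 2 + Real.arctan u₀ / 4, by linarith, ?_⟩
  -- smallness
  have HB' : ∀ᶠ s in 𝓝 (0 : ℂ), ‖Mf q (z₁ / q * exp s) - c * s‖ ≤ κ / (2 * (1 + K)) * ‖s‖ := by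
    have h1 := (hasDerivAt_iff_isLittleO.1 HB).def (c := κ / (2 * (1 + K))) (by positivity)
    filter_upwards [h1] with s hs
    have h0 : Mf q (z₁ / q * exp (0 : ℂ)) = 0 := by
      unfold Mf
      have : q * (z₁ / q * exp (0 : ℂ)) = z₁ := by rw [exp_zero]; field_simp
      rw [this, hz]; simp
    rw [h0] at hs
    simpa [mul_comm] using hs
  obtain ⟨s₁, hs₁, HB''⟩ := Metric.eventually_nhds_iff.1 HB'
  have hlt : ∀ᶠ ε : ℝ in 𝓝[>] 0, ε < s₀ / (1 + K) ∧ ε < s₁ / (1 + K) ∧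
      ε < 1 / (C * (1 + K ^ 2)) ∧ ε < Real.arctan u₀ / (8 * (C * K)) := by
    have t : ∀ x : ℝ, 0 < x → ∀ᶠ ε : ℝ in 𝓝[>] 0, ε < x := fun x hx =>
      mem_nhdsWithin_of_mem_nhds (Iio_mem_nhds hx)
    exact (t _ (by positivity)).and ((t _ (by positivity)).and
      ((t _ (by positivity)).and (t _ (by positivity))))
  filter_upwards [hlt, self_mem_nhdsWithin] with ε ⟨he1, he2, he3, he4⟩ (hε : 0 < ε) hint
  rw [lt_div_iff₀ (by positivity)] at he1 he2 he3 he4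
  -- pointwise bounds
  have hpt : ∀ φ, φ₁ + a * ε ≤ φ → φ ≤ φ₁ + b * ε →
      1 / (1 + ((φ - φ₁) / ε) ^ 2) * (1 / ε) - C ≤ cut (wf q (ρ * Real.exp (-ε))) α φ := by
    intro φ h1 h2
    set u : ℝ := (φ - φ₁) / ε with hu
    have hφ : φ = φ₁ + ε * u := by rw [hu]; field_simp; ring
    have hua : a ≤ u := by rw [hu, le_div_iff₀ hε]; linarith
    have hub : u ≤ b := by rw [hu, div_le_iff₀ hε]; linarith
    have hu2 : u ^ 2 ≤ K ^ 2 := by
      have := abs_le.2 ⟨haK.trans hua, hub.trans hbK⟩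
      rw [← sq_abs u]
      exact pow_le_pow_left₀ (abs_nonneg _) this 2
    set s : ℂ := -(ε : ℂ) + ((ε * u : ℝ) : ℂ) * I with hs
    have hsre : s.re = -ε := by simp [hs]
    have hsim : s.im = ε * u := by simp [hs]
    have hs0 : s ≠ 0 := by
      intro h; rw [h] at hsre; simp at hsre; exact hε.ne' hsre
    have hnorm : ‖s‖ ≤ ε * (1 + K) := by
      refine (norm_le_abs_re_add_abs_im s).trans ?_
      rw [hsre, hsim, abs_neg, abs_of_pos hε, abs_mul, abs_of_pos hε]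
      have := abs_le.2 ⟨haK.trans hua, hub.trans hbK⟩
      nlinarith
    have hw1 : wf q (ρ * Real.exp (-ε)) φ = (Mf q (z₁ * exp s)).re := by
      unfold wf
      congr 2
      rw [hz₁, hφ, hs]
      push_cast
      rw [mul_assoc, mul_assoc, ← exp_add, ← exp_add]
      congr 2
      ring
    have hw2 : wf q (ρ * Real.exp (-ε)) (φ - α) = (Mf q (z₁ / q * exp s)).re := by
      unfold wf
      congr 2
      rw [hz₁, hφ, hs, div_mul_eq_mul_div, eq_div_iff hq0]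
      rw [hα]
      push_cast
      rw [mul_assoc, mul_assoc, mul_assoc, ← exp_add, ← exp_add, ← exp_add]
      congr 2
      ring
    have hA1 := HA s hs0 (by linarith)
    have hB1 := HB'' (y := s) (by rw [dist_zero_right]; linarith)
    have hnsq : normSq s = ε ^ 2 * (1 + u ^ 2) := by
      rw [normSq_apply, hsre, hsim]; ring
    have hinv : (1 / s : ℂ).re = -(1 / (1 + u ^ 2) * (1 / ε)) := by
      rw [one_div, inv_re, hsre, hnsq]
      field_simp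
    have h3 : wf q (ρ * Real.exp (-ε)) φ ≤ -(1 / (1 + u ^ 2) * (1 / ε)) + C := by
      rw [hw1, ← hinv]
      have := (abs_re_le_norm (Mf q (z₁ * exp s) - 1 / s)).trans hA1
      rw [sub_re] at this
      linarith [(abs_le.1 this).2]
    have h4 : C < 1 / (1 + u ^ 2) * (1 / ε) := by
      rw [one_div_mul_one_div, lt_div_iff₀ (by positivity)]
      have : C * ((1 + u ^ 2) * ε) ≤ C * ((1 + K ^ 2) * ε) := by gcongr
      linarith
    have h5 : 0 ≤ wf q (ρ * Real.exp (-ε)) (φ - α) := by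
      rw [hw2]
      have h6 := (abs_re_le_norm (Mf q (z₁ / q * exp s) - c * s)).trans hB1
      rw [sub_re, mul_re, hsre, hsim] at h6
      have h7 := (abs_le.1 h6).1
      have h8 := hab u hua hub
      have h9 : κ / (2 * (1 + K)) * ‖s‖ ≤ ε * (κ / 2) := by
        calc κ / (2 * (1 + K)) * ‖s‖ ≤ κ / (2 * (1 + K)) * (ε * (1 + K)) := by gcongr
          _ = ε * (κ / 2) := by field_simp
      have h10 : ε * (κ / 2) ≤ ε * (κ - u * c.im) := by gcongr
      rw [hκ] at h10 h9 h7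
      nlinarith
    unfold cut
    rw [if_pos ⟨by linarith, h5⟩]
    linarith
  have hcutnn : ∀ φ, 0 ≤ cut (wf q (ρ * Real.exp (-ε))) α φ := by
    intro φ
    unfold cut
    split_ifs with h
    · linarith [h.1]
    · exact le_rfl
  have hab' : φ₁ + a * ε ≤ φ₁ + b * ε := by
    have : a * ε ≤ b * ε := mul_le_mul_of_nonneg_right (by linarith) hε.le
    linarith
  have hmono : ∫ φ in (φ₁ + a * ε)..(φ₁ + b * ε), cut (wf q (ρ * Real.exp (-ε))) α φ ≤
      ∫ φ in (φ₁ - K * ε)..(φ₁ + K * ε), cut (wf q (ρ * Real.exp (-ε))) α φ := by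
    refine intervalIntegral.integral_mono_interval ?_ hab' ?_ ?_ (hint _ _)
    · nlinarith
    · nlinarith
    · exact Filter.Eventually.of_forall hcutnn
  refine le_trans ?_ hmono
  have hderiv : ∀ φ ∈ Set.uIcc (φ₁ + a * ε) (φ₁ + b * ε),
      HasDerivAt (fun φ => Real.arctan ((φ - φ₁) / ε) - C * φ)
        (1 / (1 + ((φ - φ₁) / ε) ^ 2) * (1 / ε) - C) φ := by
    intro φ _
    have h1 : HasDerivAt (fun φ : ℝ => (φ - φ₁) / ε) (1 / ε) φ :=
      ((hasDerivAt_id φ).sub_const φ₁).div_const ε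
    have h2 := h1.arctan
    have h3 := h2.sub ((hasDerivAt_id φ).const_mul C)
    rw [mul_one] at h3
    exact h3
  have hcontf : Continuous fun φ : ℝ => 1 / (1 + ((φ - φ₁) / ε) ^ 2) * (1 / ε) - C := by
    have h1 : ∀ φ : ℝ, 1 + ((φ - φ₁) / ε) ^ 2 ≠ 0 := fun φ => by positivity
    fun_prop (disch := exact h1 _)
  have hcmp : ∫ φ in (φ₁ + a * ε)..(φ₁ + b * ε), (1 / (1 + ((φ - φ₁) / ε) ^ 2) * (1 / ε) - C) ≤
      ∫ φ in (φ₁ + a * ε)..(φ₁ + b * ε), cut (wf q (ρ * Real.exp (-ε))) α φ :=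
    intervalIntegral.integral_mono_on hab' (hcontf.intervalIntegrable _ _) (hint _ _)
      fun φ hφ => hpt φ hφ.1 hφ.2
  refine le_trans ?_ hcmp
  rw [intervalIntegral.integral_eq_sub_of_hasDerivAt hderiv (hcontf.intervalIntegrable _ _)]
  have h1 : (φ₁ + b * ε - φ₁) / ε = b := by field_simp; ring
  have h2 : (φ₁ + a * ε - φ₁) / ε = a := by field_simp; ring
  simp only [h1, h2]
  have h3 : C * (b - a) * ε ≤ Real.arctan u₀ / 4 := by
    have : b - a ≤ 2 * K := by linarith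
    calc C * (b - a) * ε ≤ C * (2 * K) * ε := by gcongr
      _ ≤ Real.arctan u₀ / 4 := by nlinarith
  nlinarith


end SokalHD
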