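import Pool.Agent.Lib_MP_af4de1_hd.C2
import Pool.Agent.Lib_MP_af4de1_hd.C3

/-! # Part (c): assembly -/

namespace SokalHD

open Complex SokalF MeasureTheory Filter Topology

/-- The zeros of `F q` of modulus `< ρ` do not accumulate at the circle of radius `ρ`.
PROOF.  `F q` is entire (`hasDerivAt_F`) and `F q 0 = 1`, so it has finitely many zeros in the closed
disc of radius `ρ` (isolated zeros + compactness, `AnalyticOnNhd`); hence for `r < ρ` close to `ρ`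
there is none on the circle of radius `r`. -/
theorem no_zero_near {q : ℂ} (hq : ‖q‖ = 1) {ρ : ℝ} (hρ : 0 < ρ) :
    ∀ᶠ ε : ℝ in 𝓝[>] 0, ∀ z : ℂ, ‖z‖ = ρ * Real.exp (-ε) → F q z ≠ 0 := by
  have han : AnalyticOnNhd ℂ (F q) Set.univ := by
    have hd : Differentiable ℂ (F q) := fun z => (hasDerivAt_F hq.le z).differentiableAt
    exact fun z _ => hd.analyticAt z
  have hcod := han.preimage_zero_mem_codiscrete (x := 0) (by rw [F_zero]; exact one_ne_zero)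
  have hcl : IsClosed {z : ℂ | F q z = 0} := by
    have h1 := (mem_codiscrete'.mp hcod).1
    have h2 : (F q ⁻¹' {0}ᶜ)ᶜ = {z : ℂ | F q z = 0} := by
      ext z
      simp
    rw [← h2, isClosed_compl_iff]
    exact h1
  have hdis : IsDiscrete {z : ℂ | F q z = 0} := by
    have h1 := (mem_codiscrete'.mp hcod).2
    have h2 : (F q ⁻¹' {0}ᶜ)ᶜ = {z : ℂ | F q z = 0} := by
      ext z
      simp
    rw [h2] at h1
    exact h1
  have hfin : (Metric.closedBall (0 : ℂ) ρ ∩ {z : ℂ | F q z = 0}).Finite :=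
    ((isCompact_closedBall (0 : ℂ) ρ).inter_right hcl).finite (hdis.mono Set.inter_subset_right)
  set N : Set ℝ := (fun z : ℂ => ‖z‖) '' (Metric.closedBall (0 : ℂ) ρ ∩ {z : ℂ | F q z = 0}) \ {ρ}
    with hN
  have hNfin : N.Finite := (hfin.image _).subset Set.sdiff_subset
  have hopen : IsOpen Nᶜ := hNfin.isClosed.isOpen_compl
  have hmem : ρ ∈ Nᶜ := by
    rw [Set.mem_compl_iff, hN]
    exact fun h => h.2 rfl
  have htend : Tendsto (fun ε : ℝ => ρ * Real.exp (-ε)) (𝓝[>] 0) (𝓝 ρ) := by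
    have h1 : Continuous (fun ε : ℝ => ρ * Real.exp (-ε)) := by fun_prop
    have h2 := (h1.tendsto 0).mono_left (nhdsWithin_le_nhds (s := Set.Ioi (0 : ℝ)))
    simpa using h2
  filter_upwards [htend (hopen.mem_nhds hmem), self_mem_nhdsWithin] with ε h1 h2 z hz hF
  have hε : (0 : ℝ) < ε := h2
  have h3 : Real.exp (-ε) < 1 := Real.exp_lt_one_iff.2 (by linarith)
  have h4 : ρ * Real.exp (-ε) < ρ := by nlinarith
  refine h1 ⟨⟨z, ⟨?_, hF⟩, hz⟩, ?_⟩
  · rw [mem_closedBall_zero_iff, hz]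
    exact h4.le
  · exact h4.ne

/-- PROOF.  Let `α = arg q`, `q = e^{iα}`.  Simplicity: if `F q z = 0` and
`deriv (F q) z = F q (q z) = 0` (`deriv_F`), then `E2 q z` says `0 < 0`.
Distinct moduli: let `F q z = F q z' = 0`, `‖z‖ = ‖z'‖ = ρ`, `z ≠ z'`.  `ρ > 0` (`F_zero`).  Write
`z = ρe^{iφ₁}`, `z' = ρe^{iφ₂}` with `φ₁ < φ₂ < φ₁ + 2π` (exchange `z` and `z'` or add `2π`).
Take `K₁, η₁`, `K₂, η₂` from `cut_local` and `δ > 0` with `2δ < φ₂ - φ₁` and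
`2δ < 2π - (φ₂ - φ₁)`.  For small `ε > 0`: `K₁ε, K₂ε < δ`, no zero on the circle of radius
`r = ρe^{-ε}` (`no_zero_near`).  With `a = φ₁ - δ`: the intervals `(φ₁-K₁ε, φ₁+K₁ε)` and
`(φ₂-K₂ε, φ₂+K₂ε)` are disjoint and contained in `(a, a+2π)`, `cut ≥ 0`, so
`π < η₁ + η₂ ≤ ∫_a^{a+2π} cut ≤ π` (`cut_F_le`), a contradiction. -/
theorem partC' {q : ℂ} (hq : ‖q‖ = 1) (h : ∀ z, E2 q z) : Good q := by
  have hα : q = exp (((arg q : ℝ) : ℂ) * I) := by
    have h1 := Complex.norm_mul_exp_arg_mul_I q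
    rw [hq, ofReal_one, one_mul] at h1
    exact h1.symm
  have core : ∀ (ρ φ₁ φ₂ : ℝ), 0 < ρ → F q ((ρ : ℂ) * exp ((φ₁ : ℂ) * I)) = 0 →
      F q ((ρ : ℂ) * exp ((φ₂ : ℂ) * I)) = 0 → φ₁ < φ₂ → φ₂ < φ₁ + 2 * Real.pi → False := by
    intro ρ φ₁ φ₂ hρ hz₁ hz₂ h12 h21
    obtain ⟨K₁, hK₁, η₁, hη₁, hc₁⟩ := cut_local hq hα hρ hz₁ (h _)
    obtain ⟨K₂, hK₂, η₂, hη₂, hc₂⟩ := cut_local hq hα hρ hz₂ (h _)
    set δ : ℝ := min ((φ₂ - φ₁) / 4) ((2 * Real.pi - (φ₂ - φ₁)) / 4) with hδ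
    have hδ1 : δ ≤ (φ₂ - φ₁) / 4 := min_le_left _ _
    have hδ2 : δ ≤ (2 * Real.pi - (φ₂ - φ₁)) / 4 := min_le_right _ _
    have hδ0 : 0 < δ := lt_min (by linarith) (by linarith)
    have hsm : ∀ K : ℝ, 0 < K → ∀ᶠ ε : ℝ in 𝓝[>] 0, K * ε < δ := by
      intro K hK
      have h1 : Tendsto (fun ε : ℝ => K * ε) (𝓝[>] 0) (𝓝 0) := by
        have h2 : Continuous (fun ε : ℝ => K * ε) := by fun_prop
        have h3 := (h2.tendsto 0).mono_left (nhdsWithin_le_nhds (s := Set.Ioi (0 : ℝ)))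
        simpa using h3
      exact h1.eventually (gt_mem_nhds hδ0)
    obtain ⟨ε, hc₁, hc₂, hnz, hs₁, hs₂, hε⟩ := (hc₁.and (hc₂.and ((no_zero_near hq hρ).and
      ((hsm K₁ hK₁).and ((hsm K₂ hK₂).and
        (self_mem_nhdsWithin : ∀ᶠ ε : ℝ in 𝓝[>] 0, ε ∈ Set.Ioi (0 : ℝ))))))).exists
    have hε0 : (0 : ℝ) < ε := hε
    have hr : 0 < ρ * Real.exp (-ε) := mul_pos hρ (Real.exp_pos _)
    obtain ⟨hcont, -, hle⟩ := cut_F_le hq hα hr hnz (φ₁ - δ)
    have hint : ∀ a b : ℝ, IntervalIntegrable (cut (wf q (ρ * Real.exp (-ε))) (arg q)) volume a b :=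
      fun a b => cut_intervalIntegrable hcont a b
    have h1 := hc₁ hint
    have h2 := hc₂ hint
    have hK1ε : 0 < K₁ * ε := mul_pos hK₁ hε0
    have hK2ε : 0 < K₂ * ε := mul_pos hK₂ hε0
    have hnn : ∀ a b : ℝ, a ≤ b → 0 ≤ ∫ φ in a..b, cut (wf q (ρ * Real.exp (-ε))) (arg q) φ :=
      fun a b hab => intervalIntegral.integral_nonneg hab fun φ _ => cut_nonneg _ _ _
    have e1 := intervalIntegral.integral_add_adjacent_intervals (hint (φ₁ - δ) (φ₁ - K₁ * ε))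
      (hint (φ₁ - K₁ * ε) (φ₁ + K₁ * ε))
    have e2 := intervalIntegral.integral_add_adjacent_intervals (hint (φ₁ - δ) (φ₁ + K₁ * ε))
      (hint (φ₁ + K₁ * ε) (φ₂ - K₂ * ε))
    have e3 := intervalIntegral.integral_add_adjacent_intervals (hint (φ₁ - δ) (φ₂ - K₂ * ε))
      (hint (φ₂ - K₂ * ε) (φ₂ + K₂ * ε))
    have e4 := intervalIntegral.integral_add_adjacent_intervals (hint (φ₁ - δ) (φ₂ + K₂ * ε))
      (hint (φ₂ + K₂ * ε) (φ₁ - δ + 2 * Real.pi))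
    have n1 := hnn (φ₁ - δ) (φ₁ - K₁ * ε) (by linarith)
    have n2 := hnn (φ₁ + K₁ * ε) (φ₂ - K₂ * ε) (by linarith)
    have n3 := hnn (φ₂ + K₂ * ε) (φ₁ - δ + 2 * Real.pi) (by linarith)
    linarith
  refine ⟨?_, ?_⟩
  · intro z hz hd
    rw [deriv_F hq.le] at hd
    have h1 := h z hz
    rw [hd, mul_zero, mul_zero, zero_re] at h1
    exact lt_irrefl _ h1
  · intro z w hz hw hzw
    by_contra hne
    have hρ : 0 < ‖z‖ := by
      rw [norm_pos_iff]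
      rintro rfl
      rw [F_zero] at hz
      exact one_ne_zero hz
    have ez : ((‖z‖ : ℝ) : ℂ) * exp (((arg z : ℝ) : ℂ) * I) = z := Complex.norm_mul_exp_arg_mul_I z
    have ew : ((‖z‖ : ℝ) : ℂ) * exp (((arg w : ℝ) : ℂ) * I) = w := by
      rw [hzw]
      exact Complex.norm_mul_exp_arg_mul_I w
    have hπ := Real.pi_pos
    have a1 := Complex.neg_pi_lt_arg z
    have a2 := Complex.arg_le_pi z
    have a3 := Complex.neg_pi_lt_arg w
    have a4 := Complex.arg_le_pi w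
    rcases lt_trichotomy (arg z) (arg w) with hlt | heq | hgt
    · exact core ‖z‖ (arg z) (arg w) hρ (by rw [ez]; exact hz) (by rw [ew]; exact hw) hlt
        (by linarith)
    · apply hne
      rw [← ez, ← ew, heq]
    · exact core ‖z‖ (arg w) (arg z) hρ (by rw [ew]; exact hw) (by rw [ez]; exact hz) hgt
        (by linarith)

end SokalHD
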