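import Pool.Agent.Lib_MP_af4de1_hd.Defs

/-! # Part (c): definitions -/

namespace SokalHD

open Complex SokalF

/-- `M(z) = z F'(z)/F(z) = z F(qz)/F(z)`. -/
noncomputable def Mf (q z : ℂ) : ℂ := z * F q (q * z) / F q z

/-- `Re M` on the circle of radius `r`. -/
noncomputable def wf (q : ℂ) (r φ : ℝ) : ℝ := (Mf q ((r : ℂ) * exp ((φ : ℂ) * I))).re

/-- The part of `|w|` on `N \ (N + α)`, where `N = {w < 0}`. -/
noncomputable def cut (w : ℝ → ℝ) (α φ : ℝ) : ℝ := by
  classical exact if w φ < 0 ∧ 0 ≤ w (φ - α) then - w φ else 0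

end SokalHD
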