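import Pool.Agent.Lib_MP_af4de1_hd.Defs

/-!
# Part (d): definitions

`K` = closed half disc `‖q‖ ≤ 1, Re q ≤ 0` (any convex compact set of the closed unit disc, `1 ∉ K`).
`F q z = ∏_{j<k} (1 - q^j z / w_j(q)) · S (Cf d) q (q^k z)`, where `z_j = w_j / q^j` are the first `k`
zeros, the normalised zeros `w_j` are continuous on `K` (also at `q = 0`, `w_j 0 = -(j+1)`) and
holomorphic in the interior.
-/

namespace SokalHD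

open Complex SokalF Filter Topology Metric Set

/-- Coefficients of a family of entire functions on `X`. -/
def Ent (X : Set ℂ) (c : ℕ → ℂ → ℂ) : Prop :=
  (∀ n, ContinuousOn (c n) X) ∧
    ∀ R : ℝ, 0 < R → ∃ C : ℝ, 0 ≤ C ∧ ∀ n, ∀ q ∈ X, ‖c n q‖ * R ^ n ≤ C

/-- The sum of the family. -/
noncomputable def S (c : ℕ → ℂ → ℂ) (q ζ : ℂ) : ℂ := ∑' n, c n q * ζ ^ n

/-- The coefficients of `S c q ζ / (1 - ζ / w q)` (if `S c q (w q) = 0`). -/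
noncomputable def quot (c : ℕ → ℂ → ℂ) (w : ℂ → ℂ) (n : ℕ) (q : ℂ) : ℂ :=
  - ∑' l, c (n + 1 + l) q * w q ^ (l + 1)

/-- The coefficients `q^(n(n-1)/2) d_n(q)`. -/
noncomputable def Cf (d : ℕ → ℂ → ℂ) (n : ℕ) (q : ℂ) : ℂ := q ^ (n * (n - 1) / 2) * d n q

/-- The normalised quotient: `q^(n(n+1)/2) dquot d w n q = quot (Cf d) w n q`. -/
noncomputable def dquot (d : ℕ → ℂ → ℂ) (w : ℂ → ℂ) (n : ℕ) (q : ℂ) : ℂ :=
  - ∑' l, q ^ (n * l + l * (l + 1) / 2) * d (n + 1 + l) q * w q ^ (l + 1)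

/-- The coefficients of `1 / S c q`. -/
noncomputable def rcp (c : ℕ → ℂ → ℂ) (n : ℕ) (q : ℂ) : ℂ :=
  PowerSeries.coeff n (PowerSeries.mk fun m => c m q)⁻¹

/-- `z 0, …, z (k-1)` are the first `k` zeros of `F q`: simple, moduli strictly increasing, all other
zeros have larger modulus. -/
def First (q : ℂ) (k : ℕ) (z : ℕ → ℂ) : Prop :=
  (∀ j < k, F q (z j) = 0 ∧ F q (q * z j) ≠ 0) ∧ (∀ i j, i < j → j < k → ‖z i‖ < ‖z j‖) ∧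
    ∀ u, F q u = 0 → (∃ j < k, u = z j) ∨ ∀ j < k, ‖z j‖ < ‖u‖

/-- No `z i` with `i < j` lies on the ray `[1, ∞) q z_j`. -/
def StarN (q : ℂ) (k : ℕ) (z : ℕ → ℂ) : Prop :=
  ∀ i j, i < j → j < k → ∀ τ : ℝ, 1 ≤ τ → z i ≠ τ * (q * z j)

/-- The condition on the ray, for all zeros. -/
def Star (q : ℂ) : Prop :=
  ∀ z z', F q z = 0 → F q z' = 0 → ‖z'‖ < ‖z‖ → ∀ τ : ℝ, 1 ≤ τ → z' ≠ τ * (q * z)

/-- State of the induction over `k`. -/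
structure State (K : Set ℂ) (k : ℕ) (d : ℕ → ℂ → ℂ) (w : ℕ → ℂ → ℂ) : Prop where
  ent : Ent K d
  diff : ∀ n, DifferentiableOn ℂ (d n) (interior K)
  one : ∀ q ∈ K, d 0 q = 1
  wc : ∀ j < k, ContinuousOn (w j) K
  wne : ∀ j < k, ∀ q ∈ K, w j q ≠ 0
  fac : ∀ q ∈ K, q ≠ 0 → ∀ z, F q z =
    (∏ j ∈ Finset.range k, (1 - q ^ j * z / w j q)) * S (Cf d) q (q ^ k * z)
  lt : ∀ q ∈ K, q ≠ 0 → ∀ i j, i < j → j < k → ‖w i q / q ^ i‖ < ‖w j q / q ^ j‖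
  gt : ∀ q ∈ K, q ≠ 0 → ∀ j < k, ∀ z, S (Cf d) q (q ^ k * z) = 0 → ‖w j q / q ^ j‖ < ‖z‖
  d0 : (0 : ℂ) ∈ K → ∀ n, d n 0 = (k.factorial : ℂ) / ((n + k).factorial : ℂ)
  w0 : (0 : ℂ) ∈ K → ∀ j < k, w j 0 = -((j : ℂ) + 1)

end SokalHD
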