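import Pool.Agent.Lib_MP_af4de1_hd.DInd
import Pool.Agent.Lib_MP_af4de1_in.Circle

/-!
# The disc: simple zeros of distinct moduli inside, from the boundary and the corner

The passage to the interior for `K = closedBall 0 ρ`, `ρ` close to `1` (the circles of
`SokalIn.exists_circ`).
-/

namespace SokalHD

open Complex SokalF Filter Topology Metric Set

/-- The two versions of `First`. -/
theorem First.of_in {q : ℂ} {k : ℕ} {z : ℕ → ℂ} (h : SokalIn.First q k z) : First q (k + 1) z := by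
  have hm : ∀ i j, i < j → j < k + 1 → ‖z i‖ < ‖z j‖ := by
    intro i j hij hj
    induction j with
    | zero => omega
    | succ j ih =>
      have h1 := h.mono j (by omega)
      rcases Nat.lt_succ_iff_lt_or_eq.mp hij with h2 | h2
      · exact (ih h2 (by omega)).trans h1
      · rw [h2]; exact h1
  refine ⟨fun j hj => ⟨h.zero j (by omega), h.simple j (by omega)⟩, hm, fun u hu => ?_⟩
  by_cases hk : ‖u‖ ≤ ‖z k‖
  · obtain ⟨i, hi, rfl⟩ := h.complete u hu hk
    exact Or.inl ⟨i, by omega, rfl⟩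
  · push Not at hk
    refine Or.inr fun j hj => ?_
    rcases Nat.lt_succ_iff_lt_or_eq.mp hj with h2 | h2
    · exact (hm j k h2 (by omega)).trans hk
    · rw [h2]; exact hk

theorem good_of_circ {ρ : ℝ} (hρ0 : 0 < ρ) (hρ1 : ρ < 1) {k : ℕ} {z : ℝ → ℕ → ℂ}
    (h : SokalIn.Circ ρ k z) {q : ℂ} (hq0 : q ≠ 0) (hq : ‖q‖ ≤ ρ) : ∃ z, First q (k + 1) z := by
  have hK : IsCompact (closedBall (0 : ℂ) ρ) := isCompact_closedBall 0 ρ
  have h1 : ∀ q ∈ closedBall (0 : ℂ) ρ, ‖q‖ ≤ 1 := fun q hq => by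
    rw [mem_closedBall_zero_iff] at hq; linarith
  have h2 : (1 : ℂ) ∉ closedBall (0 : ℂ) ρ := by
    rw [mem_closedBall_zero_iff, norm_one]; linarith
  have hi : (interior (closedBall (0 : ℂ) ρ)).Nonempty := by
    rw [interior_closedBall _ hρ0.ne']
    exact ⟨0, mem_ball_self hρ0⟩
  have hB : ∀ p ∈ frontier (closedBall (0 : ℂ) ρ), p ≠ 0 →
      ∃ z, First p (k + 1) z ∧ StarN p (k + 1) z := by
    intro p hp _
    rw [frontier_closedBall _ hρ0.ne', mem_sphere_zero_iff_norm] at hp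
    have hqq : SokalIn.qq ρ p.arg 1 = p := by
      unfold SokalIn.qq
      rw [ofReal_one, one_mul, exp_add, ← ofReal_exp, Real.exp_log hρ0, ← hp]
      exact norm_mul_exp_arg_mul_I p
    have h3 := h.first p.arg
    rw [hqq] at h3
    refine ⟨z p.arg, First.of_in h3, fun i j hij hj τ hτ he => ?_⟩
    -- the gap
    have hgap : ∀ j, j < k + 1 → ∀ i, i < j → ‖z p.arg i‖ < ρ * ‖z p.arg j‖ := by
      intro j hj i hij
      obtain ⟨l, rfl⟩ : ∃ l, j = l + 1 := ⟨j - 1, by omega⟩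
      have h4 := h.gap p.arg l (by omega)
      rcases Nat.lt_succ_iff_lt_or_eq.mp hij with h5 | h5
      · exact ((First.of_in h3).2.1 i l h5 (by omega)).trans h4
      · rw [h5]; exact h4
    have h4 := hgap j hj i hij
    rw [he, norm_mul, norm_mul, hp, norm_real, Real.norm_of_nonneg (by linarith)] at h4
    nlinarith [mul_nonneg hρ0.le (norm_nonneg (z p.arg j))]
  obtain ⟨d, w, hs⟩ := exists_state hK (convex_closedBall 0 ρ) hi h1 h2 hB
  exact ⟨_, hs.first h1 (mem_closedBall_zero_iff.mpr hq) hq0⟩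

/-- The interior of the disc. -/
theorem good_disc (hfirst : ∀ q : ℂ, ‖q‖ = 1 → q ≠ 1 → ∀ k, ∃ z, SokalIn.First q k z)
    (hT : ∀ k, SokalIn.TIP k) {q : ℂ} (hq0 : q ≠ 0) (hq1 : ‖q‖ < 1) : Good q := by
  refine good_of_first hq1.le fun k => ?_
  obtain ⟨ρ, h1, h2, h3, z, hz⟩ := SokalIn.exists_circ hfirst (hT k) hq1
  obtain ⟨z', hz'⟩ := good_of_circ h2 h3 hz hq0 h1.le
  exact ⟨z', hz'.mono (by omega)⟩

end SokalHD
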