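import Pool.Agent.Lib_MP_af4de1_hd.DDefs

/-! # Part (d): families of entire functions -/

namespace SokalHD

open Complex SokalF Filter Topology Metric Set

variable {X : Set ℂ} {c : ℕ → ℂ → ℂ} {w : ℂ → ℂ}

/-! ## Piece [HD-D1] (this block) -/

/-- PROOF.  Given `r ≥ 0` put `R = 2 r + 1`: `‖c n q ζ^n‖ ≤ C R^{-n} r^n ≤ C 2^{-n}` for `‖ζ‖ ≤ r`. -/
theorem Ent.geom (h : Ent X c) {r : ℝ} (hr : 0 ≤ r) : ∃ C : ℝ, 0 ≤ C ∧ ∀ n, ∀ q ∈ X, ∀ ζ : ℂ,
    ‖ζ‖ ≤ r → ‖c n q * ζ ^ n‖ ≤ C * (1 / 2) ^ n := by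
  obtain ⟨C, hC0, hC⟩ := h.2 (2 * r + 1) (by positivity)
  refine ⟨C, hC0, fun n q hq ζ hζ => ?_⟩
  have h1 : ‖ζ‖ ^ n ≤ (2 * r + 1) ^ n * (1 / 2) ^ n := by
    rw [← mul_pow]
    exact pow_le_pow_left₀ (norm_nonneg _) (by linarith) n
  calc ‖c n q * ζ ^ n‖ = ‖c n q‖ * ‖ζ‖ ^ n := by rw [norm_mul, norm_pow]
    _ ≤ ‖c n q‖ * ((2 * r + 1) ^ n * (1 / 2) ^ n) :=
        mul_le_mul_of_nonneg_left h1 (norm_nonneg _)
    _ = (‖c n q‖ * (2 * r + 1) ^ n) * (1 / 2) ^ n := by ring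
    _ ≤ C * (1 / 2) ^ n := mul_le_mul_of_nonneg_right (hC n q hq) (by positivity)

theorem Ent.summable (h : Ent X c) {q : ℂ} (hq : q ∈ X) (ζ : ℂ) :
    Summable fun n => c n q * ζ ^ n := by
  obtain ⟨C, -, hC⟩ := h.geom (norm_nonneg ζ)
  refine Summable.of_norm_bounded (g := fun n : ℕ => C * (1 / 2 : ℝ) ^ n) ?_
    (fun n => hC n q hq ζ le_rfl)
  exact (summable_geometric_of_lt_one (by norm_num) (by norm_num)).mul_left C

/-- PROOF.  `continuousOn_tsum` on `X ×ˢ ball 0 r` for every `r` (bound `C (1/2)^n`), then localise. -/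
theorem Ent.continuousOn (h : Ent X c) :
    ContinuousOn (fun p : ℂ × ℂ => S c p.1 p.2) (X ×ˢ univ) := by
  rintro ⟨q, ζ⟩ ⟨hq, -⟩
  have hr : (0 : ℝ) ≤ ‖ζ‖ + 1 := by positivity
  obtain ⟨C, -, hC⟩ := h.geom hr
  have hcont : ContinuousOn (fun p : ℂ × ℂ => S c p.1 p.2) (X ×ˢ ball 0 (‖ζ‖ + 1)) := by
    refine continuousOn_tsum (u := fun n : ℕ => C * (1 / 2 : ℝ) ^ n)
      (f := fun (n : ℕ) (p : ℂ × ℂ) => c n p.1 * p.2 ^ n) ?_ ?_ ?_
    · intro n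
      refine ContinuousOn.mul ?_ (by fun_prop)
      exact (h.1 n).comp continuousOn_fst (fun p hp => hp.1)
    · exact (summable_geometric_of_lt_one (by norm_num) (by norm_num)).mul_left C
    · rintro n ⟨q', ζ'⟩ ⟨hq', hζ'⟩
      have h2 : ‖ζ'‖ < ‖ζ‖ + 1 := by simpa using hζ'
      exact hC n q' hq' ζ' h2.le
  have hmem : (q, ζ) ∈ X ×ˢ ball (0 : ℂ) (‖ζ‖ + 1) := ⟨hq, by simp⟩
  refine (hcont (q, ζ) hmem).mono_of_mem_nhdsWithin ?_
  have h3 : (univ : Set ℂ) ×ˢ ball (0 : ℂ) (‖ζ‖ + 1) ∈ 𝓝 (q, ζ) :=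
    prod_mem_nhds univ_mem (isOpen_ball.mem_nhds (by simp))
  filter_upwards [mem_nhdsWithin_of_mem_nhds h3, self_mem_nhdsWithin] with p hp1 hp2
  exact ⟨hp2.1, hp1.2⟩

/-- PROOF.  Power series in `ζ` with infinite radius; e.g.
`differentiableOn_tsum_of_summable_norm` on balls. -/
theorem Ent.differentiable (h : Ent X c) {q : ℂ} (hq : q ∈ X) : Differentiable ℂ (S c q) := by
  intro ζ
  have hr : (0 : ℝ) ≤ ‖ζ‖ + 1 := by positivity
  obtain ⟨C, -, hC⟩ := h.geom hr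
  have hd : DifferentiableOn ℂ (fun z => ∑' n, c n q * z ^ n) (ball 0 (‖ζ‖ + 1)) := by
    refine differentiableOn_tsum_of_summable_norm (u := fun n : ℕ => C * (1 / 2 : ℝ) ^ n)
      ?_ ?_ isOpen_ball ?_
    · exact (summable_geometric_of_lt_one (by norm_num) (by norm_num)).mul_left C
    · intro n
      fun_prop
    · intro n z hz
      have h2 : ‖z‖ < ‖ζ‖ + 1 := by simpa using hz
      exact hC n q hq z h2.le
  exact (hd ζ (by simp)).differentiableAt (isOpen_ball.mem_nhds (by simp))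

/-- PROOF.  `differentiableOn_tsum_of_summable_norm` with bound `C (1/2)^n`, `r = B`. -/
theorem Ent.differentiableOn {U : Set ℂ} (hU : IsOpen U) (hUX : U ⊆ X) (h : Ent X c)
    (hd : ∀ n, DifferentiableOn ℂ (c n) U) {W : ℂ → ℂ} (hW : DifferentiableOn ℂ W U) {B : ℝ}
    (hWb : ∀ q ∈ U, ‖W q‖ ≤ B) : DifferentiableOn ℂ (fun q => S c q (W q)) U := by
  rcases U.eq_empty_or_nonempty with hE | ⟨q0, hq0⟩
  · rw [hE]; exact differentiableOn_empty
  have hB : 0 ≤ B := (norm_nonneg _).trans (hWb q0 hq0)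
  obtain ⟨C, -, hC⟩ := h.geom hB
  refine differentiableOn_tsum_of_summable_norm (u := fun n : ℕ => C * (1 / 2 : ℝ) ^ n)
    (F := fun (n : ℕ) (q : ℂ) => c n q * W q ^ n) ?_ ?_ hU ?_
  · exact (summable_geometric_of_lt_one (by norm_num) (by norm_num)).mul_left C
  · intro n
    exact (hd n).mul (hW.pow n)
  · intro n q hq
    exact hC n q (hUX hq) (W q) (hWb q hq)

theorem S_zero (c : ℕ → ℂ → ℂ) (q : ℂ) : S c q 0 = c 0 q := by
  unfold S
  rw [tsum_eq_single 0]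
  · simp
  · intro n hn
    simp [hn]

/-! ## Piece [HD-D2] (this block) -/

/-- PROOF.  Take `R' = max (2B) (max R 1)` and `C` for `R'`:
`‖c (n+1+l) q w^(l+1)‖ ≤ C R'^{-(n+1+l)} B^(l+1) ≤ C R'^{-n} (1/2)^(l+1)`. -/
theorem Ent.quot_bound (h : Ent X c) {B : ℝ} (hB : 0 ≤ B) {R : ℝ} (hR : 0 < R) : ∃ C : ℝ, 0 ≤ C ∧
    ∀ n l, ∀ q ∈ X, ∀ ζ : ℂ, ‖ζ‖ ≤ B → ‖c (n + 1 + l) q * ζ ^ (l + 1)‖ * R ^ n ≤ C * (1 / 2) ^ l := by
  obtain ⟨C, hC, hb⟩ := h.2 (max (2 * B) R) (lt_max_of_lt_right hR)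
  refine ⟨C, hC, fun n l q hq ζ hζ => ?_⟩
  have h1 := hb (n + 1 + l) q hq
  have hR' : 0 < max (2 * B) R := lt_max_of_lt_right hR
  have h2 : (2 * ‖ζ‖) ^ (l + 1) ≤ max (2 * B) R ^ (l + 1) := by
    refine pow_le_pow_left₀ (by positivity) ?_ _
    exact le_trans (by linarith) (le_max_left _ _)
  have h3 : R ^ n ≤ max (2 * B) R ^ n := pow_le_pow_left₀ hR.le (le_max_right _ _) _
  have h4 : (2 * ‖ζ‖) ^ (l + 1) * R ^ n ≤ max (2 * B) R ^ (n + 1 + l) := by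
    calc (2 * ‖ζ‖) ^ (l + 1) * R ^ n ≤ max (2 * B) R ^ (l + 1) * max (2 * B) R ^ n :=
          mul_le_mul h2 h3 (by positivity) (by positivity)
      _ = max (2 * B) R ^ (n + 1 + l) := by
          rw [← pow_add]
          congr 1
          ring
  have h5 : ‖c (n + 1 + l) q‖ * ((2 * ‖ζ‖) ^ (l + 1) * R ^ n) ≤ C :=
    (mul_le_mul_of_nonneg_left h4 (norm_nonneg _)).trans h1
  have h6 : ‖c (n + 1 + l) q * ζ ^ (l + 1)‖ * R ^ n =
      (‖c (n + 1 + l) q‖ * ((2 * ‖ζ‖) ^ (l + 1) * R ^ n)) * (1 / 2) ^ (l + 1) := by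
    rw [norm_mul, norm_pow, mul_pow, one_div, inv_pow]
    field_simp
  rw [h6]
  calc ‖c (n + 1 + l) q‖ * ((2 * ‖ζ‖) ^ (l + 1) * R ^ n) * (1 / 2) ^ (l + 1)
      ≤ C * (1 / 2) ^ (l + 1) := mul_le_mul_of_nonneg_right h5 (by positivity)
    _ ≤ C * (1 / 2) ^ l := by
        refine mul_le_mul_of_nonneg_left ?_ hC
        rw [pow_succ]
        have : (0 : ℝ) < (1 / 2) ^ l := by positivity
        linarith

private theorem quot_bound_hdd (h : Ent X c) {B : ℝ} (hB : ∀ q ∈ X, ‖w q‖ ≤ B) {R : ℝ} (hR : 0 < R) :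
    ∃ C : ℝ, 0 ≤ C ∧ ∀ n l, ∀ q ∈ X, ‖c (n + 1 + l) q * w q ^ (l + 1)‖ * R ^ n ≤ C * (1 / 2) ^ l := by
  obtain ⟨C, hC, hb⟩ := h.quot_bound (le_max_right B 0) hR
  exact ⟨C, hC, fun n l q hq => hb n l q hq (w q) ((hB q hq).trans (le_max_left _ _))⟩

private theorem summable_geo_hdd (C : ℝ) : Summable fun l : ℕ => C * (1 / 2 : ℝ) ^ l :=
  (summable_geometric_of_lt_one (by norm_num) (by norm_num)).mul_left C

/-- PROOF.  Continuity: `continuousOn_tsum` with `quot_bound` (`R = 1`); bound: sum over `l`. -/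
theorem Ent.quot (h : Ent X c) (hw : ContinuousOn w X) {B : ℝ} (hB : ∀ q ∈ X, ‖w q‖ ≤ B) :
    Ent X (quot c w) := by
  refine ⟨fun n => ?_, fun R hR => ?_⟩
  · obtain ⟨C, hC, hb⟩ := quot_bound_hdd h hB one_pos
    have h1 : ContinuousOn (fun q => ∑' l, c (n + 1 + l) q * w q ^ (l + 1)) X := by
      refine continuousOn_tsum (fun l => (h.1 _).mul (hw.pow _)) (summable_geo_hdd C) fun l q hq => ?_
      have h2 := hb n l q hq
      rwa [one_pow, mul_one] at h2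
    exact h1.neg
  · obtain ⟨C, hC, hb⟩ := quot_bound_hdd h hB hR
    refine ⟨C * 2, by positivity, fun n q hq => ?_⟩
    have hRn : 0 < R ^ n := pow_pos hR n
    have h1 : ‖∑' l, c (n + 1 + l) q * w q ^ (l + 1)‖ ≤ C * 2 / R ^ n := by
      have hg : HasSum (fun l : ℕ => C * (1 / 2 : ℝ) ^ l / R ^ n) (C * 2 / R ^ n) :=
        (hasSum_geometric_two.mul_left C).div_const _
      refine tsum_of_norm_bounded hg fun l => ?_
      rw [le_div_iff₀ hRn]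
      exact hb n l q hq
    have h2 : ‖SokalHD.quot c w n q‖ = ‖∑' l, c (n + 1 + l) q * w q ^ (l + 1)‖ := norm_neg _
    rw [h2]
    rwa [le_div_iff₀ hRn] at h1

theorem Ent.quot_differentiableOn {U : Set ℂ} (hU : IsOpen U) (hUX : U ⊆ X) (h : Ent X c)
    (hd : ∀ n, DifferentiableOn ℂ (c n) U) (hw : DifferentiableOn ℂ w U) {B : ℝ}
    (hB : ∀ q ∈ U, ‖w q‖ ≤ B) (n : ℕ) : DifferentiableOn ℂ (SokalHD.quot c w n) U := by
  have hU' : Ent U c := ⟨fun n => (h.1 n).mono hUX, fun R hR => by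
    obtain ⟨C, hC, hb⟩ := h.2 R hR
    exact ⟨C, hC, fun n q hq => hb n q (hUX hq)⟩⟩
  obtain ⟨C, hC, hb⟩ := quot_bound_hdd hU' hB one_pos
  have h1 : DifferentiableOn ℂ (fun q => ∑' l, c (n + 1 + l) q * w q ^ (l + 1)) U := by
    refine differentiableOn_tsum_of_summable_norm (summable_geo_hdd C)
      (fun l => (hd _).mul (hw.pow _)) hU fun l q hq => ?_
    have h2 := hb n l q hq
    rwa [one_pow, mul_one] at h2
  exact h1.neg

/-- PROOF.  `S c q (w q) = c 0 q + ∑_l c (1 + l) q w^(l+1)`. -/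
theorem Ent.quot_zero (h : Ent X c) {q : ℂ} (hq : q ∈ X) (h0 : S c q (w q) = 0) :
    SokalHD.quot c w 0 q = c 0 q := by
  have h1 := (h.summable hq (w q)).tsum_eq_zero_add
  have h2 : (∑' n, c n q * w q ^ n) = 0 := h0
  rw [h2, pow_zero, mul_one] at h1
  show -(∑' l, c (0 + 1 + l) q * w q ^ (l + 1)) = c 0 q
  have h3 : (∑' l, c (0 + 1 + l) q * w q ^ (l + 1)) = ∑' l, c (l + 1) q * w q ^ (l + 1) := by
    refine tsum_congr fun l => ?_
    rw [zero_add, add_comm 1 l]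
  rw [h3]
  linear_combination h1

private theorem quot_succ_hdd (h : Ent X c) {B : ℝ} (hB : ∀ q ∈ X, ‖w q‖ ≤ B) {q : ℂ} (hq : q ∈ X)
    (n : ℕ) : w q * c (n + 1) q = w q * SokalHD.quot c w (n + 1) q - SokalHD.quot c w n q := by
  obtain ⟨C, hC, hb⟩ := quot_bound_hdd h hB one_pos
  have hs : Summable fun l => c (n + 1 + l) q * w q ^ (l + 1) := by
    refine Summable.of_norm_bounded (summable_geo_hdd C) fun l => ?_
    have h2 := hb n l q hq
    rwa [one_pow, mul_one] at h2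
  have h1 := hs.tsum_eq_zero_add
  have h3 : (∑' l, c (n + 1 + (l + 1)) q * w q ^ (l + 1 + 1)) =
      w q * ∑' l, c (n + 1 + 1 + l) q * w q ^ (l + 1) := by
    rw [← tsum_mul_left]
    refine tsum_congr fun l => ?_
    have e : n + 1 + (l + 1) = n + 1 + 1 + l := by ring
    rw [e, pow_succ _ (l + 1)]
    ring
  rw [h3, add_zero, zero_add, pow_one] at h1
  show w q * c (n + 1) q = w q * (-(∑' l, c (n + 1 + 1 + l) q * w q ^ (l + 1))) -
    -(∑' l, c (n + 1 + l) q * w q ^ (l + 1))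
  rw [h1]
  ring

/-- PROOF.  `w quot_0 = w c_0` (`quot_zero`) and, for `n ≥ 1`, `quot_{n-1} = -c_n w + w quot_n`
(shift of the sum), so `w c_n = w quot_n - quot_{n-1}`; multiply by `ζ^n` and sum. -/
theorem Ent.quot_mul (h : Ent X c) (hw : ContinuousOn w X) {B : ℝ} (hB : ∀ q ∈ X, ‖w q‖ ≤ B)
    {q : ℂ} (hq : q ∈ X) (h0 : S c q (w q) = 0) (ζ : ℂ) :
    w q * S c q ζ = (w q - ζ) * S (SokalHD.quot c w) q ζ := by
  have hQ : Ent X (SokalHD.quot c w) := Ent.quot h hw hB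
  have s1 := h.summable hq ζ
  have s2 := hQ.summable hq ζ
  have e1 := s1.tsum_eq_zero_add
  have e2 := s2.tsum_eq_zero_add
  have s1' := (summable_nat_add_iff 1).2 s1
  have s2' := (summable_nat_add_iff 1).2 s2
  have e3 : w q * (∑' n, c (n + 1) q * ζ ^ (n + 1)) =
      w q * (∑' n, SokalHD.quot c w (n + 1) q * ζ ^ (n + 1)) - ζ * ∑' n, SokalHD.quot c w n q * ζ ^ n := by
    rw [← tsum_mul_left, ← tsum_mul_left, ← tsum_mul_left, ← (s2'.mul_left (w q)).tsum_sub (s2.mul_left ζ)]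
    refine tsum_congr fun n => ?_
    have e4 := quot_succ_hdd h hB hq n
    rw [pow_succ]
    linear_combination (ζ ^ n * ζ) * e4
  have e5 := h.quot_zero hq h0
  rw [pow_zero, mul_one] at e1 e2
  show w q * (∑' n, c n q * ζ ^ n) = (w q - ζ) * ∑' n, SokalHD.quot c w n q * ζ ^ n
  rw [e5] at e2
  rw [e1]
  linear_combination e3 - w q * e2

/-! ## Piece [HD-D3] (this block) -/

variable {d : ℕ → ℂ → ℂ}

private theorem exp_add_dent3 (n l : ℕ) :
    (n + 1 + l) * (n + 1 + l - 1) / 2 = n * (n + 1) / 2 + (n * l + l * (l + 1) / 2) := by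
  obtain ⟨a, ha⟩ := Nat.even_mul_succ_self n
  obtain ⟨b, hb⟩ := Nat.even_mul_succ_self l
  have h1 : n + 1 + l - 1 = n + l := by omega
  have h2 : (n + 1 + l) * (n + l) = n * (n + 1) + 2 * (n * l) + l * (l + 1) := by ring
  rw [h1, h2, ha, hb]
  omega

private theorem exp_succ_dent3 (n : ℕ) : n * (n + 1) / 2 = n * (n - 1) / 2 + n := by
  rcases n with _ | m
  · simp
  · obtain ⟨a, ha⟩ := Nat.even_mul_succ_self m
    have h1 : m + 1 - 1 = m := by omega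
    have h2 : (m + 1) * (m + 1 + 1) = m * (m + 1) + 2 * (m + 1) := by ring
    have h3 : (m + 1) * m = m * (m + 1) := by ring
    rw [h1, h2, h3, ha]
    omega

theorem Ent.Cf (h : Ent X d) (hX : ∀ q ∈ X, ‖q‖ ≤ 1) : Ent X (SokalHD.Cf d) := by
  refine ⟨fun n => ?_, fun R hR => ?_⟩
  · exact (continuous_id.pow _).continuousOn.mul (h.1 n)
  · obtain ⟨C, hC, hb⟩ := h.2 R hR
    refine ⟨C, hC, fun n q hq => le_trans ?_ (hb n q hq)⟩
    refine mul_le_mul_of_nonneg_right ?_ (pow_nonneg hR.le n)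
    unfold SokalHD.Cf
    rw [norm_mul, norm_pow]
    exact mul_le_of_le_one_left (norm_nonneg _) (pow_le_one₀ (norm_nonneg _) (hX q hq))

/-- The common bound of the terms of `dquot`. -/
private theorem dquot_bound_dent3 (h : Ent X d) (hX : ∀ q ∈ X, ‖q‖ ≤ 1) {B : ℝ} (hB : 0 ≤ B) {R : ℝ}
    (hR : 0 < R) : ∃ C : ℝ, 0 ≤ C ∧ ∀ n l, ∀ q ∈ X, ∀ ζ : ℂ, ‖ζ‖ ≤ B →
      ‖q ^ (n * l + l * (l + 1) / 2) * d (n + 1 + l) q * ζ ^ (l + 1)‖ * R ^ n ≤ C * (1 / 2) ^ l := by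
  obtain ⟨C, hC, hb⟩ := h.quot_bound hB hR
  refine ⟨C, hC, fun n l q hq ζ hζ => le_trans ?_ (hb n l q hq ζ hζ)⟩
  refine mul_le_mul_of_nonneg_right ?_ (pow_nonneg hR.le n)
  rw [mul_assoc, norm_mul, norm_pow]
  exact mul_le_of_le_one_left (norm_nonneg _) (pow_le_one₀ (norm_nonneg _) (hX q hq))

private theorem summable_half_dent3 (C : ℝ) : Summable fun l : ℕ => C * (1 / 2 : ℝ) ^ l :=
  (summable_geometric_of_lt_one (by norm_num) (by norm_num)).mul_left C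

/-- PROOF.  Same as `Ent.quot`, the factor `q^(..)` has norm `≤ 1`. -/
theorem Ent.dquot (h : Ent X d) (hX : ∀ q ∈ X, ‖q‖ ≤ 1) (hw : ContinuousOn w X) {B : ℝ}
    (hB : ∀ q ∈ X, ‖w q‖ ≤ B) : Ent X (SokalHD.dquot d w) := by
  have hB' : ∀ q ∈ X, ‖w q‖ ≤ max B 0 := fun q hq => (hB q hq).trans (le_max_left _ _)
  refine ⟨fun n => ?_, fun R hR => ?_⟩
  · obtain ⟨C, hC, hb⟩ := dquot_bound_dent3 h hX (le_max_right B 0) one_pos
    unfold SokalHD.dquot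
    refine ContinuousOn.neg (continuousOn_tsum (fun l => ?_) (summable_half_dent3 C) fun l q hq => ?_)
    · exact ((continuous_id.pow _).continuousOn.mul (h.1 _)).mul (hw.pow _)
    · have h1 := hb n l q hq (w q) (hB' q hq)
      rwa [one_pow, mul_one] at h1
  · obtain ⟨C, hC, hb⟩ := dquot_bound_dent3 h hX (le_max_right B 0) hR
    refine ⟨2 * C, by positivity, fun n q hq => ?_⟩
    have hRn : 0 < R ^ n := pow_pos hR n
    have h2 : ∀ l, ‖q ^ (n * l + l * (l + 1) / 2) * d (n + 1 + l) q * w q ^ (l + 1)‖ ≤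
        C * (1 / 2) ^ l / R ^ n := fun l => by
      rw [le_div_iff₀ hRn]
      exact hb n l q hq (w q) (hB' q hq)
    have h3 : HasSum (fun l : ℕ => C * (1 / 2 : ℝ) ^ l / R ^ n) (C * 2 / R ^ n) := by
      have h4 : HasSum (fun l : ℕ => (1 / 2 : ℝ) ^ l) 2 := by
        have := hasSum_geometric_of_lt_one (r := (1 / 2 : ℝ)) (by norm_num) (by norm_num)
        norm_num at this ⊢
        exact this
      exact (h4.mul_left C).div_const _
    have h5 := tsum_of_norm_bounded h3 h2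
    unfold SokalHD.dquot
    rw [norm_neg]
    calc _ ≤ C * 2 / R ^ n * R ^ n := mul_le_mul_of_nonneg_right h5 hRn.le
      _ = 2 * C := by rw [div_mul_cancel₀ _ hRn.ne', mul_comm]

theorem Ent.dquot_differentiableOn {U : Set ℂ} (hU : IsOpen U) (hUX : U ⊆ X) (h : Ent X d)
    (hX : ∀ q ∈ X, ‖q‖ ≤ 1) (hd : ∀ n, DifferentiableOn ℂ (d n) U)
    (hw : DifferentiableOn ℂ w U) {B : ℝ} (hB : ∀ q ∈ U, ‖w q‖ ≤ B) (n : ℕ) :
    DifferentiableOn ℂ (SokalHD.dquot d w n) U := by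
  have hB' : ∀ q ∈ U, ‖w q‖ ≤ max B 0 := fun q hq => (hB q hq).trans (le_max_left _ _)
  obtain ⟨C, hC, hb⟩ := dquot_bound_dent3 h hX (le_max_right B 0) one_pos
  have h1 : DifferentiableOn ℂ
      (fun q => ∑' l, q ^ (n * l + l * (l + 1) / 2) * d (n + 1 + l) q * w q ^ (l + 1)) U := by
    refine differentiableOn_tsum_of_summable_norm (summable_half_dent3 C) (fun l => ?_) hU
      (fun l q hq => ?_)
    · exact ((differentiable_id.pow _).differentiableOn.mul (hd _)).mul (hw.pow _)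
    · have h1 := hb n l q (hUX hq) (w q) (hB' q hq)
      rwa [one_pow, mul_one] at h1
  exact h1.neg

/-- PROOF.  `(n+1+l)(n+l)/2 = n(n+1)/2 + (n l + l(l+1)/2)` in `ℕ`. -/
theorem quot_Cf (d : ℕ → ℂ → ℂ) (w : ℂ → ℂ) (n : ℕ) (q : ℂ) :
    quot (Cf d) w n q = q ^ (n * (n + 1) / 2) * dquot d w n q := by
  unfold quot dquot Cf
  rw [mul_neg, ← tsum_mul_left]
  congr 1
  refine tsum_congr fun l => ?_
  rw [exp_add_dent3, pow_add]
  ring

/-- PROOF.  `quot_Cf`, `n(n+1)/2 = n(n-1)/2 + n`. -/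
theorem S_quot_Cf (d : ℕ → ℂ → ℂ) (w : ℂ → ℂ) (q ζ : ℂ) :
    S (quot (Cf d) w) q ζ = S (Cf (dquot d w)) q (q * ζ) := by
  unfold S
  refine tsum_congr fun n => ?_
  rw [quot_Cf, exp_succ_dent3, pow_add, mul_pow]
  unfold Cf
  ring

/-- PROOF.  Only `l = 0` survives at `q = 0`, also for `n = 0` (exponent `l (l+1)/2`). -/
theorem dquot_at_zero (d : ℕ → ℂ → ℂ) (w : ℂ → ℂ) (n : ℕ) :
    dquot d w n 0 = - (d (n + 1) 0 * w 0) := by
  unfold dquot
  congr 1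
  rw [tsum_eq_single 0]
  · simp
  · intro l hl
    have h1 : n * l + l * (l + 1) / 2 ≠ 0 := by
      obtain ⟨b, hb⟩ := Nat.even_mul_succ_self l
      have h2 : 0 < l * (l + 1) := Nat.mul_pos (Nat.pos_of_ne_zero hl) (Nat.succ_pos l)
      rw [hb] at h2 ⊢
      omega
    rw [zero_pow h1, zero_mul, zero_mul]

/-- PROOF.  `Cf d n 0 = 0` for `n ≥ 2`. -/
theorem S_Cf_at_zero (d : ℕ → ℂ → ℂ) (ζ : ℂ) : S (Cf d) 0 ζ = d 0 0 + d 1 0 * ζ := by
  unfold S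
  rw [tsum_eq_sum (s := Finset.range 2)]
  · simp [Finset.sum_range_succ, Cf]
  · intro n hn
    have h2 : 2 ≤ n := by
      rw [Finset.mem_range] at hn
      omega
    have h1 : n * (n - 1) / 2 ≠ 0 := by
      have h3 : 2 * 1 ≤ n * (n - 1) := Nat.mul_le_mul h2 (by omega)
      omega
    unfold Cf
    rw [zero_pow h1, zero_mul, zero_mul]

end SokalHD
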