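import Pool.Agent.Lib_MP_af4de1_hd.DRay2

/-!
# The imaginary ray: `Good (s i)` and `Star (s i)` for `0 < s ≤ 1`

Notation: `u = i z²`, `F(z; s i) = e(u) + z o(-u)`, and `v = u` or `v = conj u`, `Im v > 0`.
-/

namespace SokalHD

open Complex SokalF Filter Topology Metric Set

/-! ## Piece [HD-R4] (this block): logarithms -/

theorem hd4_logOn {U : Set ℂ} (hU : IsOpen U) (hst : StarConvex ℝ 0 U) (h0 : (0 : ℂ) ∈ U)
    {u : ℂ → ℂ} (hu : ContinuousOn u U) (hne : ∀ y ∈ U, u y ≠ 0) :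
    ∃ L : ℂ → ℂ, ContinuousOn L U ∧ ∀ y ∈ U, exp (L y) = u y := by
  have hc : ContractibleSpace U := hst.contractibleSpace ⟨0, h0⟩
  have hsc : IsSimplyConnected U := by
    unfold IsSimplyConnected
    infer_instance
  obtain ⟨f, hf, he⟩ := Complex.exists_continuousOn_eqOn_exp_comp hsc hU hu (by
    rintro ⟨y, hy, h⟩
    exact hne y hy h)
  exact ⟨f, hf, fun y hy => he hy⟩

/-- a continuous function with constant exponential is constant -/
theorem hd4_const {D : Type*} [TopologicalSpace D] [PreconnectedSpace D] {f : D → ℂ}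
    (hf : Continuous f) {c : ℂ} (h : ∀ t, exp (f t) = c) (s t : D) : f s = f t := by
  have hloc : IsLocallyConstant f := by
    rw [IsLocallyConstant.iff_eventually_eq]
    intro t₀
    have hball : f ⁻¹' Metric.ball (f t₀) (2 * Real.pi) ∈ 𝓝 t₀ :=
      hf.continuousAt (Metric.ball_mem_nhds _ (by positivity))
    filter_upwards [hball] with t' ht'
    have hexp : exp (f t') = exp (f t₀) := by rw [h, h]
    rw [Complex.exp_eq_exp_iff_exists_int] at hexp
    obtain ⟨m, hm⟩ := hexp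
    have hd : dist (f t') (f t₀) < 2 * Real.pi := ht'
    rw [dist_eq_norm, hm, add_sub_cancel_left] at hd
    have hn : ‖(m : ℂ) * (2 * Real.pi * I)‖ = |(m : ℝ)| * (2 * Real.pi) := by
      rw [norm_mul, norm_mul, norm_mul, Complex.norm_I, mul_one, Complex.norm_intCast,
        Complex.norm_real, Real.norm_eq_abs, abs_of_pos Real.pi_pos]
      simp
    rw [hn] at hd
    have h1 : |(m : ℝ)| < 1 := by
      have : 0 < 2 * Real.pi := by positivity
      by_contra hcon
      push Not at hcon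
      nlinarith
    have h2 : m = 0 := by
      have : |m| < 1 := by exact_mod_cast h1
      exact Int.abs_lt_one_iff.1 this
    rw [hm, h2]
    simp
  exact hloc.apply_eq_of_preconnectedSpace s t

theorem hd4_deriv {l f : ℂ → ℂ} {x : ℂ} (hf : DifferentiableAt ℂ f x) (hl : ContinuousAt l x)
    (he : ∀ᶠ y in 𝓝 x, exp (l y) = f y) : HasDerivAt l (deriv f x / f x) x := by
  have hfx : f x = exp (l x) := he.self_of_nhds.symm
  have hne : f x ≠ 0 := by
    rw [hfx]
    exact exp_ne_zero _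
  have h1 : l =ᶠ[𝓝 x] fun y => l x + log (f y / f x) := by
    have hb : ∀ᶠ y in 𝓝 x, l y ∈ ball (l x) 1 := hl.eventually (ball_mem_nhds _ one_pos)
    filter_upwards [he, hb] with y hy hy2
    have h3 : |(l y - l x).im| < 1 := by
      refine (abs_im_le_norm _).trans_lt ?_
      rwa [mem_ball, dist_eq_norm] at hy2
    rw [abs_lt] at h3
    have hpi := Real.pi_gt_three
    rw [← hy, hfx, ← exp_sub, log_exp (by linarith) (by linarith)]
    ring
  have h2 : HasDerivAt (fun y => l x + log (f y / f x)) (deriv f x / f x) x := by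
    have h3 : HasDerivAt (fun y => f y / f x) (deriv f x / f x) x := hf.hasDerivAt.div_const _
    have h4 := (h3.clog (by rw [div_self hne]; exact one_mem_slitPlane)).const_add (l x)
    rw [div_self hne, div_one] at h4
    exact h4
  exact h2.congr_of_eventuallyEq h1

/-- Logarithm of an entire function without zeros off the real axis.
PROOF.  `U = {x | x.im ≠ 0} ∪ ball 0 a` is open and star-shaped about `0`, `f ≠ 0` on `U` for a small
`a` (`f 0 = 1`).  `U` is contractible, hence simply connected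
(`StarConvex.contractibleSpace`), so `Complex.exists_continuousOn_eqOn_exp_comp` gives `ℓ₀` continuous
on `U`, `exp ℓ₀ = f`; `ℓ = ℓ₀ - ℓ₀ 0`.  Derivative: near `x₀`, `ℓ x = ℓ x₀ + log (f x / f x₀)`.
Conjugation: `ℓ (conj x)` and `conj (ℓ x)` are continuous on `U` and have the same exponential, so they
differ by a constant in `2πiℤ`, which is `0` at `x = 0`. -/
theorem exists_log_off_real {f : ℂ → ℂ} (hf : Differentiable ℂ f) (h0 : f 0 = 1)
    (hc : ∀ x, f ((starRingEnd ℂ) x) = (starRingEnd ℂ) (f x)) (hne : ∀ x : ℂ, x.im ≠ 0 → f x ≠ 0) :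
    ∃ ℓ : ℂ → ℂ, ℓ 0 = 0 ∧ (∀ x : ℂ, x.im ≠ 0 → exp (ℓ x) = f x) ∧
      (∀ x : ℂ, x.im ≠ 0 → HasDerivAt ℓ (deriv f x / f x) x) ∧
      (∀ x : ℂ, x.im ≠ 0 → ContinuousOn (fun t : ℝ => ℓ (t * x)) (Icc 0 1)) ∧
      ∀ x : ℂ, x.im ≠ 0 → ℓ ((starRingEnd ℂ) x) = (starRingEnd ℂ) (ℓ x) := by
  have hev : ∀ᶠ y in 𝓝 (0 : ℂ), f y ≠ 0 :=
    hf.continuous.continuousAt.eventually_ne (by rw [h0]; exact one_ne_zero)
  obtain ⟨r, hr, hball⟩ := Metric.eventually_nhds_iff_ball.1 hev
  set U : Set ℂ := {x : ℂ | x.im ≠ 0} ∪ ball 0 r with hUdef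
  have hV : IsOpen {x : ℂ | x.im ≠ 0} := isOpen_ne_fun continuous_im continuous_const
  have hU : IsOpen U := hV.union isOpen_ball
  have hU0 : (0 : ℂ) ∈ U := Or.inr (mem_ball_self hr)
  have hmul : ∀ x ∈ U, ∀ t : ℝ, 0 ≤ t → t ≤ 1 → (t : ℂ) * x ∈ U := by
    intro x hx t ht0 ht1
    rcases ht0.eq_or_lt with h | h
    · rw [← h]
      simpa using hU0
    · rcases hx with hx | hx
      · left
        change ((t : ℂ) * x).im ≠ 0
        rw [im_ofReal_mul]
        exact mul_ne_zero h.ne' hx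
      · right
        rw [mem_ball_zero_iff] at hx ⊢
        rw [norm_mul, norm_real, Real.norm_of_nonneg ht0]
        have := norm_nonneg x
        nlinarith
  have hst : StarConvex ℝ (0 : ℂ) U := by
    rw [starConvex_zero_iff]
    intro x hx t ht0 ht1
    rw [Complex.real_smul]
    exact hmul x hx t ht0 ht1
  have hneU : ∀ y ∈ U, f y ≠ 0 := by
    rintro y (hy | hy)
    · exact hne y hy
    · exact hball y hy
  have hconjU : ∀ y ∈ U, (starRingEnd ℂ) y ∈ U := by
    rintro y (hy | hy)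
    · left
      change ((starRingEnd ℂ) y).im ≠ 0
      rw [conj_im]
      exact neg_ne_zero.2 hy
    · right
      rw [mem_ball_zero_iff] at hy ⊢
      rwa [norm_conj]
  obtain ⟨L, hL, he⟩ := hd4_logOn hU hst hU0 hf.continuous.continuousOn hneU
  have heU : ∀ y ∈ U, exp (L y - L 0) = f y := by
    intro y hy
    rw [exp_sub, he y hy, he 0 hU0, h0, div_one]
  have hLc : ContinuousOn (fun y => L y - L 0) U := hL.sub continuousOn_const
  have hmaps : ∀ x : ℂ, x.im ≠ 0 → MapsTo (fun t : ℝ => (t : ℂ) * x) (Icc 0 1) U :=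
    fun x hx t ht => hmul x (Or.inl hx) t ht.1 ht.2
  have hseg : ∀ x : ℂ, x.im ≠ 0 →
      ContinuousOn (fun t : ℝ => L ((t : ℂ) * x) - L 0) (Icc 0 1) := by
    intro x hx
    exact hLc.comp (t := U) (f := fun t : ℝ => (t : ℂ) * x)
      (by fun_prop) (hmaps x hx)
  refine ⟨fun y => L y - L 0, sub_self _, fun x hx => heU x (Or.inl hx), fun x hx => ?_, hseg,
    fun x hx => ?_⟩
  · refine hd4_deriv (hf x) (hLc.continuousAt (hU.mem_nhds (Or.inl hx))) ?_
    filter_upwards [hU.mem_nhds (Or.inl hx)] with y hy using heU y hy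
  · have hxc : ((starRingEnd ℂ) x).im ≠ 0 := by
      rw [conj_im]
      exact neg_ne_zero.2 hx
    have hd : ContinuousOn (fun t : ℝ => (L ((t : ℂ) * (starRingEnd ℂ) x) - L 0) -
        (starRingEnd ℂ) (L ((t : ℂ) * x) - L 0)) (Icc 0 1) :=
      (hseg _ hxc).sub (continuous_conj.comp_continuousOn (hseg x hx))
    have hd' := continuousOn_iff_continuous_domRestrict.1 hd
    have hpre : PreconnectedSpace (Icc (0 : ℝ) 1) :=
      Subtype.preconnectedSpace isPreconnected_Icc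
    have hexp : ∀ t : Icc (0 : ℝ) 1, exp ((Icc (0 : ℝ) 1).domRestrict
        (fun t : ℝ => (L ((t : ℂ) * (starRingEnd ℂ) x) - L 0) -
        (starRingEnd ℂ) (L ((t : ℂ) * x) - L 0)) t) = 1 := by
      rintro ⟨t, ht⟩
      change exp ((L ((t : ℂ) * (starRingEnd ℂ) x) - L 0) -
        (starRingEnd ℂ) (L ((t : ℂ) * x) - L 0)) = 1
      have h1 : (t : ℂ) * (starRingEnd ℂ) x = (starRingEnd ℂ) ((t : ℂ) * x) := by
        rw [map_mul, conj_ofReal]
      have h2 := hmaps x hx ht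
      have h3 := hmaps _ hxc ht
      simp only at h2 h3
      rw [exp_sub, exp_conj, heU _ h3, heU _ h2, h1, hc]
      refine div_self ?_
      rw [map_ne_zero]
      exact hneU _ h2
    have h5 := hd4_const hd' hexp ⟨1, right_mem_Icc.2 zero_le_one⟩
      ⟨0, left_mem_Icc.2 zero_le_one⟩
    change (L (((1 : ℝ) : ℂ) * (starRingEnd ℂ) x) - L 0) -
        (starRingEnd ℂ) (L (((1 : ℝ) : ℂ) * x) - L 0) =
      (L (((0 : ℝ) : ℂ) * (starRingEnd ℂ) x) - L 0) -
        (starRingEnd ℂ) (L (((0 : ℝ) : ℂ) * x) - L 0) at h5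
    simp only [ofReal_one, ofReal_zero, one_mul, zero_mul, sub_self, map_zero] at h5
    exact sub_eq_zero.1 h5

/-- The two logarithms. -/
structure Logs (s : ℝ) (a b : ℂ → ℂ) : Prop where
  a0 : a 0 = 0
  aexp : ∀ x : ℂ, x.im ≠ 0 → exp (a x) = ev s x
  ader : ∀ x : ℂ, x.im ≠ 0 → HasDerivAt a (deriv (ev s) x / ev s x) x
  acont : ∀ x : ℂ, x.im ≠ 0 → ContinuousOn (fun t : ℝ => a (t * x)) (Icc 0 1)
  aconj : ∀ x : ℂ, x.im ≠ 0 → a ((starRingEnd ℂ) x) = (starRingEnd ℂ) (a x)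
  b0 : b 0 = 0
  bexp : ∀ x : ℂ, x.im ≠ 0 → exp (b x) = od s x
  bder : ∀ x : ℂ, x.im ≠ 0 → HasDerivAt b (deriv (od s) x / od s x) x
  bcont : ∀ x : ℂ, x.im ≠ 0 → ContinuousOn (fun t : ℝ => b (t * x)) (Icc 0 1)
  bconj : ∀ x : ℂ, x.im ≠ 0 → b ((starRingEnd ℂ) x) = (starRingEnd ℂ) (b x)

theorem norm_ofReal_le {s : ℝ} (hs0 : 0 < s) (hs1 : s ≤ 1) : ‖(s : ℂ)‖ ≤ 1 := by
  rwa [norm_real, Real.norm_of_nonneg hs0.le]

theorem exists_Logs {s : ℝ} (hs0 : 0 < s) (hs1 : s ≤ 1) : ∃ a b, Logs s a b := by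
  have hs := norm_ofReal_le hs0 hs1
  obtain ⟨a, a1, a2, a3, a4, a5⟩ := exists_log_off_real (f := ev s)
    (fun x => (hasDerivAt_ev hs x).differentiableAt) (ev_zero _) (ev_conj s)
    (fun x hx => ev_ne_zero hs0 hs1 hx)
  obtain ⟨b, b1, b2, b3, b4, b5⟩ := exists_log_off_real (f := od s)
    (differentiable_od hs) (od_zero _) (od_conj s) (fun x hx => od_ne_zero hs0 hs1 hx)
  exact ⟨a, b, a1, a2, a3, a4, a5, b1, b2, b3, b4, b5⟩

/-- The function `𝓛(v) = ℓ_e(v) - ℓ_o(-v) - (log v - iπ/2)/2`. -/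
noncomputable def LL (a b : ℂ → ℂ) (v : ℂ) : ℂ := a v - b (-v) - (log v - Real.pi / 2 * I) / 2

/-! ## Piece [HD-R5] (this block): `𝓛` is univalent in `log v` -/

/-- PROOF.  `d/dv = e'/e (v) + o'/o (-v) - 1/(2v)`; `v ↦ -v` in `b`; `v ∈ slitPlane`. -/
theorem LL_deriv {s : ℝ} {a b : ℂ → ℂ} (h : Logs s a b) {v : ℂ} (hv : 0 < v.im) :
    HasDerivAt (LL a b) (deriv (ev s) v / ev s v + deriv (od s) (-v) / od s (-v) - 1 / (2 * v)) v := by
  have hne : v ≠ 0 := by
    rintro rfl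
    simp at hv
  have h1 := h.ader v hv.ne'
  have hv' : (-v).im ≠ 0 := by
    rw [neg_im]
    exact neg_ne_zero.2 hv.ne'
  have h2 : HasDerivAt (fun w => b (-w)) (-(deriv (od s) (-v) / od s (-v))) v := by
    have := (h.bder (-v) hv').comp v (hasDerivAt_neg v)
    rw [mul_neg_one] at this
    exact this
  have h3 : HasDerivAt (fun w : ℂ => (log w - Real.pi / 2 * I) / 2) (v⁻¹ / 2) v :=
    ((Complex.hasDerivAt_log (Or.inr hv.ne')).sub_const _).div_const 2
  have h4 := (h1.sub h2).sub h3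
  refine (h4.congr_deriv ?_)
  rw [one_div, mul_inv]
  ring

private theorem deriv_conj_hd5 {f : ℂ → ℂ}
    (hc : ∀ x, f ((starRingEnd ℂ) x) = (starRingEnd ℂ) (f x)) (x : ℂ) :
    deriv f ((starRingEnd ℂ) x) = (starRingEnd ℂ) (deriv f x) := by
  have h1 : f = (starRingEnd ℂ) ∘ f ∘ (starRingEnd ℂ) := by
    funext y
    simp only [Function.comp_apply]
    rw [hc, Complex.conj_conj]
  have h2 : deriv f x = (starRingEnd ℂ) (deriv f ((starRingEnd ℂ) x)) := by
    conv_lhs => rw [h1]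
    exact congrFun deriv_conj_conj x
  rw [h2, Complex.conj_conj]

/-- PROOF.  `v 𝓛'(v) = v e'(v)/e(v) - (-v) o'(-v)/o(-v) - 1/2`; `ev_im` and, for
`x = -v` in the lower half plane, `Im (x o'(x)/o(x)) < 0` by `od_im` for `conj x`, `od_conj` (and
`deriv (od s) (conj x) = conj (deriv (od s) x)`). -/
theorem LL_im {s : ℝ} (hs0 : 0 < s) (hs1 : s ≤ 1) {v : ℂ} (hv : 0 < v.im) :
    0 < (v * (deriv (ev s) v / ev s v + deriv (od s) (-v) / od s (-v) - 1 / (2 * v))).im := by
  have hne : v ≠ 0 := by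
    rintro rfl
    simp at hv
  have h1 := ev_im hs0 hs1 hv
  have h2 : 0 < (v * (deriv (od s) (-v) / od s (-v))).im := by
    have hy : 0 < ((starRingEnd ℂ) (-v)).im := by
      rw [conj_im, neg_im, neg_neg]
      exact hv
    have h3 := od_im hs0 hs1 hy
    rw [deriv_conj_hd5 (od_conj s), od_conj, ← map_mul, ← map_div₀, conj_im] at h3
    have e : v * (deriv (od s) (-v) / od s (-v)) = -(-v * deriv (od s) (-v) / od s (-v)) := by
      ring
    rw [e, neg_im]
    exact h3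
  have e : v * (deriv (ev s) v / ev s v + deriv (od s) (-v) / od s (-v) - 1 / (2 * v)) =
      v * deriv (ev s) v / ev s v + v * (deriv (od s) (-v) / od s (-v)) - ((1 / 2 : ℝ) : ℂ) := by
    have : v * (1 / (2 * v)) = ((1 / 2 : ℝ) : ℂ) := by
      push_cast
      field_simp
    rw [← this]
    ring
  rw [e, sub_im, add_im, ofReal_im, sub_zero]
  exact add_pos h1 h2

private theorem re_ofReal_mul_im_hd5 (t : ℝ) (z : ℂ) : ((t : ℂ) * z).im = t * z.im := by
  rw [mul_im, ofReal_re, ofReal_im, zero_mul, add_zero]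

/-- PROOF.  `g (λ) = 𝓛 (exp λ)` on the strip `0 < Im λ < π`, `Im g'(λ) > 0` (`LL_im`).  With
`δ = λ₂ - λ₁`, the function `t ↦ Im ((g (λ₁ + t δ) - g λ₁)/δ)` vanishes at `0` and has positive
derivative `Im g'`, so it is positive at `t = 1`. -/
theorem LL_univ {s : ℝ} (hs0 : 0 < s) (hs1 : s ≤ 1) {a b : ℂ → ℂ} (h : Logs s a b) {v₁ v₂ : ℂ}
    (h1 : 0 < v₁.im) (h2 : 0 < v₂.im) (hne : v₁ ≠ v₂) :
    0 < ((LL a b v₂ - LL a b v₁) / (log v₂ - log v₁)).im := by
  have hn1 : v₁ ≠ 0 := by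
    rintro rfl
    simp at h1
  have hn2 : v₂ ≠ 0 := by
    rintro rfl
    simp at h2
  set δ : ℂ := log v₂ - log v₁ with hδ
  have hδ0 : δ ≠ 0 := by
    intro h0
    apply hne
    rw [← exp_log hn1, ← exp_log hn2, sub_eq_zero.1 h0]
  have ha1 : 0 < (log v₁).im ∧ (log v₁).im < Real.pi := by
    rw [log_im]
    exact ⟨lt_of_le_of_ne (arg_nonneg_iff.2 h1.le) fun h0 => by
      have := arg_eq_zero_iff.1 h0.symm
      exact h1.ne' this.2, lt_of_le_of_ne (arg_le_pi _) fun h0 => by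
      have := arg_eq_pi_iff.1 h0
      exact h1.ne' this.2⟩
  have ha2 : 0 < (log v₂).im ∧ (log v₂).im < Real.pi := by
    rw [log_im]
    exact ⟨lt_of_le_of_ne (arg_nonneg_iff.2 h2.le) fun h0 => by
      have := arg_eq_zero_iff.1 h0.symm
      exact h2.ne' this.2, lt_of_le_of_ne (arg_le_pi _) fun h0 => by
      have := arg_eq_pi_iff.1 h0
      exact h2.ne' this.2⟩
  have hpos : ∀ t ∈ Icc (0 : ℝ) 1, 0 < (exp (log v₁ + t * δ)).im := by
    intro t ht
    have him : (log v₁ + t * δ).im = (1 - t) * (log v₁).im + t * (log v₂).im := by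
      rw [add_im, re_ofReal_mul_im_hd5, hδ, sub_im]
      ring
    rw [exp_im]
    apply mul_pos (Real.exp_pos _)
    apply Real.sin_pos_of_pos_of_lt_pi
    · rw [him]
      rcases eq_or_lt_of_le ht.1 with h0 | h0
      · rw [← h0]
        simpa using ha1.1
      · have := mul_pos h0 ha2.1
        have := mul_nonneg (sub_nonneg.2 ht.2) ha1.1.le
        linarith
    · rw [him]
      rcases eq_or_lt_of_le ht.1 with h0 | h0
      · rw [← h0]
        simpa using ha1.2
      · have e1 := mul_lt_mul_of_pos_left ha2.2 h0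
        have e2 := mul_le_mul_of_nonneg_left ha1.2.le (sub_nonneg.2 ht.2)
        linarith
  set φ : ℝ → ℝ := fun t => ((LL a b (exp (log v₁ + t * δ)) - LL a b v₁) / δ).im with hφ
  have hder : ∀ t ∈ Icc (0 : ℝ) 1, ∃ c : ℝ, 0 < c ∧ HasDerivAt φ c t := by
    intro t ht
    set w : ℂ := exp (log v₁ + t * δ) with hw
    have hwp : 0 < w.im := hpos t ht
    refine ⟨_, LL_im hs0 hs1 hwp, ?_⟩
    have e1 : HasDerivAt (fun z : ℂ => log v₁ + z * δ) δ (t : ℂ) := by
      have := ((hasDerivAt_id (t : ℂ)).mul_const δ).const_add (log v₁)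
      simpa using this
    have e2 : HasDerivAt (fun z : ℂ => exp (log v₁ + z * δ)) (w * δ) (t : ℂ) := e1.cexp
    have e3 := (LL_deriv h hwp).comp (t : ℂ) e2
    have e4 := ((e3.sub_const (LL a b v₁)).div_const δ).comp_ofReal
    have e5 := Complex.imCLM.hasFDerivAt.comp_hasDerivAt t e4
    refine e5.congr_deriv ?_
    rw [Complex.imCLM_apply]
    congr 1
    field_simp
  have hmono : StrictMonoOn φ (Icc 0 1) := by
    apply strictMonoOn_of_deriv_pos (convex_Icc 0 1)
    · intro t ht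
      obtain ⟨c, _, hc⟩ := hder t ht
      exact hc.continuousAt.continuousWithinAt
    · intro t ht
      obtain ⟨c, hc0, hc⟩ := hder t (interior_subset ht)
      rw [hc.deriv]
      exact hc0
  have h01 := hmono (left_mem_Icc.2 zero_le_one) (right_mem_Icc.2 zero_le_one) zero_lt_one
  have hφ0 : φ 0 = 0 := by
    simp only [hφ, ofReal_zero, zero_mul, add_zero, exp_log hn1, sub_self, zero_div, zero_im]
  have hφ1 : φ 1 = ((LL a b v₂ - LL a b v₁) / δ).im := by
    simp only [hφ, ofReal_one, one_mul]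
    rw [hδ, add_sub_cancel, exp_log hn2]
  rw [hφ0, hφ1] at h01
  exact h01

/-- PROOF.  `r ↦ Im 𝓛 (r v)` has derivative `Im (v 𝓛'(r v)) = Im (r v 𝓛'(r v))/r > 0`; or `LL_univ` for
`v₁ = r v`, `v₂ = v`: `log v₂ - log v₁` is a positive real number. -/
theorem LL_radial {s : ℝ} (hs0 : 0 < s) (hs1 : s ≤ 1) {a b : ℂ → ℂ} (h : Logs s a b) {v : ℂ}
    (hv : 0 < v.im) {r : ℝ} (hr : 0 < r) (hr1 : r ≤ 1) :
    (LL a b (r * v)).im ≤ (LL a b v).im := by
  have hn : v ≠ 0 := by
    rintro rfl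
    simp at hv
  rcases eq_or_lt_of_le hr1 with h1 | h1
  · rw [h1, ofReal_one, one_mul]
  · have hrv : 0 < ((r : ℂ) * v).im := by
      rw [re_ofReal_mul_im_hd5]
      exact mul_pos hr hv
    have hne : (r : ℂ) * v ≠ v := by
      intro h0
      have h2 : ((r : ℂ) * v).im = v.im := by rw [h0]
      rw [re_ofReal_mul_im_hd5] at h2
      have h3 := mul_lt_mul_of_pos_right h1 hv
      linarith
    have hu := LL_univ hs0 hs1 h hrv hv hne
    have hlog : log v - log ((r : ℂ) * v) = ((-Real.log r : ℝ) : ℂ) := by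
      rw [Complex.log_ofReal_mul hr hn]
      push_cast
      ring
    rw [hlog, Complex.div_ofReal_im, sub_im] at hu
    have hl : 0 < -Real.log r := by
      have := Real.log_neg hr h1
      linarith
    have h4 := (div_pos_iff_of_pos_right hl).1 hu
    linarith

/-! ## Piece [HD-R6] (this block): the reflected point -/

/-- logarithmic derivative of `od s` at conjugate points (auxiliary) -/
private theorem r6_od_im_neg {s : ℝ} (hs0 : 0 < s) (hs1 : s ≤ 1) {y : ℂ} (hy : y.im < 0) :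
    (y * deriv (od s) y / od s y).im < 0 := by
  have hy' : 0 < ((starRingEnd ℂ) y).im := by rw [conj_im]; linarith
  have h1 := od_im hs0 hs1 hy'
  have hfun : (starRingEnd ℂ) ∘ od s ∘ (starRingEnd ℂ) = od s := by
    funext x
    simp only [Function.comp_apply]
    rw [od_conj, Complex.conj_conj]
  have h2 : deriv (od s) ((starRingEnd ℂ) y) = (starRingEnd ℂ) (deriv (od s) y) := by
    have h3 : HasDerivAt (od s) (deriv (od s) y) y :=
      ((differentiable_od (norm_ofReal_le hs0 hs1)) y).hasDerivAt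
    have h4 := h3.conj_conj
    rw [hfun] at h4
    exact h4.deriv
  rw [h2, od_conj, ← map_mul, ← map_div₀, conj_im] at h1
  linarith

private theorem r6_sin_pos_of {w : ℂ} (h : 0 < (exp w).im) : 0 < Real.sin w.im := by
  rw [exp_im] at h
  exact (mul_pos_iff_of_pos_left (Real.exp_pos _)).1 h

private theorem r6_sin_neg_of {w : ℂ} (h : (exp w).im < 0) : Real.sin w.im < 0 := by
  rw [exp_im] at h
  by_contra hcon
  exact absurd h (not_lt.2 (mul_nonneg (Real.exp_pos _).le (not_lt.1 hcon)))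

/-- PROOF.  `f t = arg v + Im b(s² t v) - Im a(t v)` is continuous on `[0,1]`, `f 0 = arg v ∈ (0, π)`.
`sin (f t) > 0`: for `t > 0`, `exp (log v + b(s² t v) - a(t v)) = v o(s² t v)/e(t v) =
(2/(s t)) · x e'(x)/e(x)`, `x = t v` (`hasDerivAt_ev`), has positive imaginary part (`ev_im`).  If
`f 1 ∉ (0, π)` then `f` takes the value `0` or `π`. -/
theorem bracket1 {s : ℝ} (hs0 : 0 < s) (hs1 : s ≤ 1) {a b : ℂ → ℂ} (h : Logs s a b) {v : ℂ}
    (hv : 0 < v.im) : 0 < arg v + (b (s ^ 2 * v)).im - (a v).im := by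
  have hv0 : v ≠ 0 := by rintro rfl; simp at hv
  have hs := norm_ofReal_le hs0 hs1
  have hsv : ((s : ℂ) ^ 2 * v).im = s ^ 2 * v.im := by
    rw [← ofReal_pow, im_ofReal_mul]
  have hsv0 : ((s : ℂ) ^ 2 * v).im ≠ 0 := by
    rw [hsv]; positivity
  set f : ℝ → ℝ := fun t => arg v + (b (t * (s ^ 2 * v))).im - (a (t * v)).im with hf
  have hcont : ContinuousOn f (Icc 0 1) :=
    (continuousOn_const.add (continuous_im.comp_continuousOn (h.bcont _ hsv0))).sub
      (continuous_im.comp_continuousOn (h.acont v hv.ne'))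
  have hf0 : f 0 = arg v := by
    simp [hf, h.a0, h.b0]
  have hf1 : f 1 = arg v + (b (s ^ 2 * v)).im - (a v).im := by
    simp [hf]
  have hargpos : 0 < arg v := by
    rcases lt_or_eq_of_le (arg_nonneg_iff.2 hv.le) with h1 | h1
    · exact h1
    · exfalso
      have h2 := arg_eq_zero_iff.1 h1.symm
      exact hv.ne' h2.2
  rw [← hf1]
  by_contra hcon
  have hmem : (0 : ℝ) ∈ Icc (f 1) (f 0) := ⟨not_lt.1 hcon, by rw [hf0]; exact hargpos.le⟩
  obtain ⟨t, ht, hft⟩ := intermediate_value_Icc' (zero_le_one) hcont hmem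
  have ht0 : 0 < t := by
    rcases lt_or_eq_of_le ht.1 with h1 | h1
    · exact h1
    · exfalso
      rw [← h1, hf0] at hft
      exact hargpos.ne' hft
  have hx : 0 < ((t : ℂ) * v).im := by rw [im_ofReal_mul]; positivity
  have hsx : ((t : ℂ) * (s ^ 2 * v)).im ≠ 0 := by
    rw [im_ofReal_mul, hsv]; positivity
  have hexp : exp (log v + b (t * (s ^ 2 * v)) - a (t * v)) =
      ((2 / (s * t) : ℝ) : ℂ) * ((t * v) * deriv (ev s) (t * v) / ev s (t * v)) := by
    rw [exp_sub, exp_add, exp_log hv0, h.bexp _ hsx, h.aexp _ hx.ne', (hasDerivAt_ev hs (t * v)).deriv]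
    have he := ev_ne_zero hs0 hs1 hx.ne'
    have ht' : (t : ℂ) ≠ 0 := ofReal_ne_zero.2 ht0.ne'
    have hs' : (s : ℂ) ≠ 0 := ofReal_ne_zero.2 hs0.ne'
    rw [show (t : ℂ) * (s ^ 2 * v) = s ^ 2 * (t * v) by ring]
    push_cast
    field_simp
  have h3 : 0 < (exp (log v + b (t * (s ^ 2 * v)) - a (t * v))).im := by
    rw [hexp, im_ofReal_mul]
    exact mul_pos (by positivity) (ev_im hs0 hs1 hx)
  have h4 := r6_sin_pos_of h3
  have h5 : (log v + b (t * (s ^ 2 * v)) - a (t * v)).im = f t := by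
    simp only [hf, sub_im, add_im, log_im]
  rw [h5, hft, Real.sin_zero] at h4
  exact lt_irrefl _ h4

/-- PROOF.  `f t = Im a(-s² t v) - Im b(-t v)`, `f 0 = 0`, `sin (f t) < 0` for `t > 0`:
`exp (a(-s² t v) - b(-t v)) = e(s² x)/o(x) = 1 + 2 x o'(x)/o(x)`, `x = -t v` (`od_deriv`), imaginary
part negative.  If `f 1 ≥ 0` then `f 1 > 0`, even `f 1 > π` (`sin < 0`), so `f` takes the value `π/2`:
contradiction. -/
theorem bracket2 {s : ℝ} (hs0 : 0 < s) (hs1 : s ≤ 1) {a b : ℂ → ℂ} (h : Logs s a b) {v : ℂ}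
    (hv : 0 < v.im) : (a (-(s ^ 2 * v))).im - (b (-v)).im < 0 := by
  have hs := norm_ofReal_le hs0 hs1
  have hsv : (-((s : ℂ) ^ 2 * v)).im = -(s ^ 2 * v.im) := by
    rw [neg_im, ← ofReal_pow, im_ofReal_mul]
  have hsv0 : (-((s : ℂ) ^ 2 * v)).im ≠ 0 := by
    rw [hsv]; exact neg_ne_zero.2 (by positivity)
  have hv1 : (-v).im ≠ 0 := by rw [neg_im]; exact neg_ne_zero.2 hv.ne'
  set f : ℝ → ℝ := fun t => (a (t * (-(s ^ 2 * v)))).im - (b (t * (-v))).im with hf
  have hcont : ContinuousOn f (Icc 0 1) :=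
    (continuous_im.comp_continuousOn (h.acont _ hsv0)).sub
      (continuous_im.comp_continuousOn (h.bcont _ hv1))
  have hf0 : f 0 = 0 := by
    simp [hf, h.a0, h.b0]
  have hf1 : f 1 = (a (-(s ^ 2 * v))).im - (b (-v)).im := by
    simp [hf]
  have hsin : ∀ t : ℝ, 0 < t → Real.sin (f t) < 0 := by
    intro t ht0
    have hx : ((t : ℂ) * (-v)).im < 0 := by
      rw [im_ofReal_mul, neg_im]
      have := mul_pos ht0 hv
      linarith
    have hsx : ((t : ℂ) * (-(s ^ 2 * v))).im ≠ 0 := by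
      rw [im_ofReal_mul, hsv]
      exact mul_ne_zero ht0.ne' (neg_ne_zero.2 (by positivity))
    have ho := od_ne_zero hs0 hs1 hx.ne
    have hexp : exp (a (t * (-(s ^ 2 * v))) - b (t * (-v))) =
        1 + ((2 : ℝ) : ℂ) * ((t * (-v)) * deriv (od s) (t * (-v)) / od s (t * (-v))) := by
      rw [exp_sub, h.bexp _ hx.ne, h.aexp _ hsx,
        show (t : ℂ) * (-(s ^ 2 * v)) = s ^ 2 * (t * (-v)) by ring, ← od_deriv hs (t * (-v)),
        add_div, div_self ho]
      push_cast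
      ring
    have h3 : (exp (a (t * (-(s ^ 2 * v))) - b (t * (-v)))).im < 0 := by
      rw [hexp, add_im, one_im, im_ofReal_mul]
      have := r6_od_im_neg hs0 hs1 hx
      linarith
    have h4 := r6_sin_neg_of h3
    rwa [sub_im] at h4
  rw [← hf1]
  by_contra hcon
  have h1 : 0 ≤ f 1 := not_lt.1 hcon
  have h2 : Real.pi < f 1 := by
    by_contra hcon2
    exact absurd (hsin 1 one_pos) (not_lt.2 (Real.sin_nonneg_of_nonneg_of_le_pi h1 (not_lt.1 hcon2)))
  have hmem : Real.pi / 2 ∈ Icc (f 0) (f 1) :=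
    ⟨by rw [hf0]; positivity, by have := Real.pi_pos; linarith⟩
  obtain ⟨t, ht, hft⟩ := intermediate_value_Icc (zero_le_one) hcont hmem
  have ht0 : 0 < t := by
    rcases lt_or_eq_of_le ht.1 with h5 | h5
    · exact h5
    · exfalso
      rw [← h5, hf0] at hft
      have := Real.pi_pos
      linarith
  have h6 := hsin t ht0
  rw [hft, Real.sin_pi_div_two] at h6
  linarith

/-- PROOF.  `aconj`, `bconj`: `Im 𝓛(-s² v̄) = -Im a(-s² v) + Im b(s² v) - π/4 + arg v/2`
(`arg (-v̄) = π - arg v`), `Im 𝓛 v = Im a v - Im b(-v) - arg v/2 + π/4`; so the difference is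
`[arg v + Im b(s² v) - Im a v] - [Im a(-s² v) - Im b(-v)] - π/2 > -π/2`. -/
theorem LL_reflect {s : ℝ} (hs0 : 0 < s) (hs1 : s ≤ 1) {a b : ℂ → ℂ} (h : Logs s a b) {v : ℂ}
    (hv : 0 < v.im) :
    (LL a b v).im - Real.pi / 2 < (LL a b (-(s ^ 2 * (starRingEnd ℂ) v))).im := by
  have h1 := bracket1 hs0 hs1 h hv
  have h2 := bracket2 hs0 hs1 h hv
  have hs2 : 0 < s ^ 2 := by positivity
  have hsv : ((s : ℂ) ^ 2 * v).im = s ^ 2 * v.im := by
    rw [← ofReal_pow, im_ofReal_mul]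
  have hsv0 : ((s : ℂ) ^ 2 * v).im ≠ 0 := by
    rw [hsv]; positivity
  have hsv1 : (-((s : ℂ) ^ 2 * v)).im ≠ 0 := by
    rw [neg_im]; exact neg_ne_zero.2 hsv0
  have e1 : -((s : ℂ) ^ 2 * (starRingEnd ℂ) v) = (starRingEnd ℂ) (-((s : ℂ) ^ 2 * v)) := by
    rw [map_neg, map_mul, map_pow, conj_ofReal]
  have e2 : (s : ℂ) ^ 2 * (starRingEnd ℂ) v = (starRingEnd ℂ) ((s : ℂ) ^ 2 * v) := by
    rw [map_mul, map_pow, conj_ofReal]
  have ea : (a (-(s ^ 2 * (starRingEnd ℂ) v))).im = -(a (-(s ^ 2 * v))).im := by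
    rw [e1, h.aconj _ hsv1, conj_im]
  have eb : (b (s ^ 2 * (starRingEnd ℂ) v)).im = -(b (s ^ 2 * v)).im := by
    rw [e2, h.bconj _ hsv0, conj_im]
  have earg : arg (-((s : ℂ) ^ 2 * (starRingEnd ℂ) v)) = Real.pi - arg v := by
    rw [show -((s : ℂ) ^ 2 * (starRingEnd ℂ) v) = ((s ^ 2 : ℝ) : ℂ) * (-(starRingEnd ℂ) v) by
      push_cast; ring, arg_real_mul _ hs2]
    have h4 : ((starRingEnd ℂ) v).im < 0 := by rw [conj_im]; linarith
    rw [arg_neg_eq_arg_add_pi_of_im_neg h4, arg_conj]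
    have h5 : arg v ≠ Real.pi := by
      intro h6
      exact hv.ne' (arg_eq_pi_iff.1 h6).2
    rw [if_neg h5]
    ring
  have eL : ∀ w : ℂ, (LL a b w).im = (a w).im - (b (-w)).im - arg w / 2 + Real.pi / 4 := by
    intro w
    have e3 : (((log w : ℂ) - Real.pi / 2 * I) / 2).im = arg w / 2 - Real.pi / 4 := by
      rw [show ((log w : ℂ) - Real.pi / 2 * I) / 2 = ((1 / 2 : ℝ) : ℂ) * log w - ((Real.pi / 4 : ℝ) : ℂ) * I by
        push_cast; ring, sub_im, im_ofReal_mul, im_ofReal_mul, log_im, I_im]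
      ring
    unfold LL
    rw [sub_im, sub_im, e3]
    ring
  rw [eL, eL, neg_neg, ea, eb, earg]
  linarith

/-! ## Piece [HD-R7] (this block): zeros -/

/-- `v` attached to a zero `z`: `u = i z²` or its conjugate, in the upper half plane. -/
def Att (s : ℝ) (z v : ℂ) : Prop :=
  0 < v.im ∧ ((v = I * z ^ 2 ∧ ev s v + z * od s (-v) = 0) ∨
    (v = (starRingEnd ℂ) (I * z ^ 2) ∧ ev s v + (starRingEnd ℂ) z * od s (-v) = 0))

/-- PROOF.  `F_I`; `u = i z²`.  `Im u ≠ 0`: if `u` is real and `> 0`, then `e(u) > 0` and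
`z = -e(u)/o(-u)`, `o(-u)` real (`≠ 0` as `e(u) ≠ 0`), so `z` is real, `u = i z²` not real; if
`u < 0`: `o(-u) > 0`, `e(u)` real, the same; `u = 0`: `z = 0`, `F = 1`.  If `Im u > 0`
take `v = u`, otherwise conjugate (`ev_conj`, `od_conj`). -/
theorem exists_Att {s : ℝ} (hs0 : 0 < s) (hs1 : s ≤ 1) {z : ℂ} (hz : F (s * I) z = 0) :
    ∃ v, Att s z v := by
  have hs := norm_ofReal_le hs0 hs1
  rw [F_I hs] at hz
  rcases lt_trichotomy 0 (I * z ^ 2).im with h | h | h
  · exact ⟨I * z ^ 2, h, Or.inl ⟨rfl, hz⟩⟩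
  · exfalso
    set u := I * z ^ 2 with hu
    have hur : (starRingEnd ℂ) u = u := conj_eq_iff_im.2 h.symm
    have hE : (ev s u).im = 0 := by
      rw [← conj_eq_iff_im, ← ev_conj, hur]
    have hO : (od s (-u)).im = 0 := by
      rw [← conj_eq_iff_im, ← od_conj, map_neg, hur]
    have hux : u = (u.re : ℂ) := by
      apply Complex.ext
      · rw [ofReal_re]
      · rw [ofReal_im]
        exact h.symm
    have hOne : od s (-u) ≠ 0 := by
      intro h0
      rcases le_total 0 u.re with hx | hx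
      · obtain ⟨r, hr, hr1⟩ := ev_pos hs0.le hs1 hx
        rw [← hux] at hr1
        rw [h0, mul_zero, add_zero, hr1] at hz
        exact hr.ne' (by exact_mod_cast hz)
      · obtain ⟨r, hr, hr1⟩ := od_pos hs0.le hs1 (neg_nonneg.2 hx)
        rw [ofReal_neg, ← hux, h0] at hr1
        exact hr.ne (by exact_mod_cast hr1)
    have hzz : z = -(ev s u) / od s (-u) := by
      rw [eq_div_iff hOne]
      linear_combination hz
    have hzr : (starRingEnd ℂ) z = z := by
      rw [hzz, map_div₀, map_neg, conj_eq_iff_im.2 hE, conj_eq_iff_im.2 hO]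
    have hzi : z.im = 0 := conj_eq_iff_im.1 hzr
    have h2 : u.im = z.re ^ 2 := by
      rw [hu, show z ^ 2 = z * z from sq z, mul_im, mul_re, mul_im, I_re, I_im, hzi]
      ring
    have h3 : z.re = 0 := by
      rw [← h] at h2
      exact pow_eq_zero_iff (two_ne_zero) |>.1 h2.symm
    have h4 : z = 0 := Complex.ext h3 hzi
    rw [hu, h4] at hz
    simp [ev_zero] at hz
  · refine ⟨(starRingEnd ℂ) (I * z ^ 2), ?_, Or.inr ⟨rfl, ?_⟩⟩
    · rw [conj_im]
      linarith
    · have h1 := congrArg (starRingEnd ℂ) hz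
      rw [map_add, map_mul, map_zero, ← ev_conj, ← od_conj, map_neg] at h1
      exact h1

/-- PROOF.  `(e(v)/o(-v))² = z² = -i v` or `= conj z² = i v`; `exp (2 𝓛 v) = (e(v)/o(-v))²/(-i v)
= ±1`. -/
theorem LL_int {s : ℝ} (hs0 : 0 < s) (hs1 : s ≤ 1) {a b : ℂ → ℂ} (h : Logs s a b) {z v : ℂ}
    (hv : Att s z v) : ∃ n : ℤ, LL a b v = n * (Real.pi / 2 * I) := by
  have hvi := hv.1
  have hv0 : v ≠ 0 := by
    rintro rfl
    simp at hvi
  have hne : (-v).im ≠ 0 := by
    rw [neg_im]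
    linarith
  have ha := h.aexp v hvi.ne'
  have hb := h.bexp (-v) hne
  have hod : od s (-v) ≠ 0 := by
    rw [← hb]
    exact exp_ne_zero _
  have hq : (ev s v / od s (-v)) ^ 4 = -v ^ 2 := by
    rcases hv.2 with ⟨h1, h2⟩ | ⟨h1, h2⟩
    · have h3 : ev s v / od s (-v) = -z := by
        rw [div_eq_iff hod]
        linear_combination h2
      rw [h3, h1, mul_pow, I_sq]
      ring
    · have h3 : ev s v / od s (-v) = -(starRingEnd ℂ) z := by
        rw [div_eq_iff hod]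
        linear_combination h2
      rw [h3, h1, map_mul, map_pow, conj_I, mul_pow, neg_sq, I_sq]
      ring
  have h4 : exp (4 * LL a b v) = 1 := by
    have e1 : 4 * LL a b v = (4 : ℕ) * a v - (4 : ℕ) * b (-v) - (2 : ℕ) * log v + Real.pi * I := by
      unfold LL
      push_cast
      ring
    rw [e1, exp_add, exp_sub, exp_sub, exp_nat_mul, exp_nat_mul, exp_nat_mul, ha, hb, exp_log hv0,
      exp_pi_mul_I, ← div_pow, hq]
    field_simp
  obtain ⟨n, hn⟩ := exp_eq_one_iff.1 h4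
  refine ⟨n, ?_⟩
  linear_combination hn / 4

private theorem Att_norm_R7 {s : ℝ} {z v : ℂ} (h : Att s z v) : ‖v‖ = ‖z‖ ^ 2 := by
  rcases h.2 with ⟨h1, -⟩ | ⟨h1, -⟩
  · rw [h1, norm_mul, norm_I, one_mul, norm_pow]
  · rw [h1, norm_conj, norm_mul, norm_I, one_mul, norm_pow]

/-- PROOF.  `v₁ ≠ v₂`: `log v₂ - log v₁ = i δ`, `LL v₂ - LL v₁` is `i` times a real number
(`LL_int`), so the quotient is real: contradiction to `LL_univ`.  `v₁ = v₂`: `z = -e(v)/o(-v)` or its
conjugate, and the two cases exclude each other (`z² = -i v`, `conj z² = i v`). -/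
theorem eq_of_norm_eq {s : ℝ} (hs0 : 0 < s) (hs1 : s ≤ 1) {z₁ z₂ v₁ v₂ : ℂ} (h1 : Att s z₁ v₁)
    (h2 : Att s z₂ v₂) (hn : ‖z₁‖ = ‖z₂‖) : z₁ = z₂ := by
  obtain ⟨a, b, h⟩ := exists_Logs hs0 hs1
  by_cases hv : v₁ = v₂
  · subst hv
    have hod : od s (-v₁) ≠ 0 := by
      refine od_ne_zero hs0 hs1 ?_
      rw [neg_im]
      linarith [h1.1]
    have hvi := h1.1
    rcases h1.2 with ⟨g1, g2⟩ | ⟨g1, g2⟩ <;> rcases h2.2 with ⟨k1, k2⟩ | ⟨k1, k2⟩
    · exact mul_right_cancel₀ hod (by linear_combination g2 - k2)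
    · exfalso
      have e : z₁ = (starRingEnd ℂ) z₂ := mul_right_cancel₀ hod (by linear_combination g2 - k2)
      rw [map_mul, map_pow, conj_I, ← e] at k1
      have e2 : v₁ = -v₁ := by
        rw [g1] at k1 ⊢
        linear_combination k1
      have e3 := congrArg Complex.im e2
      rw [neg_im] at e3
      linarith
    · exfalso
      have e : (starRingEnd ℂ) z₁ = z₂ := mul_right_cancel₀ hod (by linear_combination g2 - k2)
      rw [map_mul, map_pow, conj_I, e] at g1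
      have e2 : v₁ = -v₁ := by
        rw [k1] at g1 ⊢
        linear_combination g1
      have e3 := congrArg Complex.im e2
      rw [neg_im] at e3
      linarith
    · have e : (starRingEnd ℂ) z₁ = (starRingEnd ℂ) z₂ :=
        mul_right_cancel₀ hod (by linear_combination g2 - k2)
      exact (starRingEnd ℂ).injective e
  · exfalso
    have hu := LL_univ hs0 hs1 h h1.1 h2.1 hv
    obtain ⟨n₁, hn₁⟩ := LL_int hs0 hs1 h h1
    obtain ⟨n₂, hn₂⟩ := LL_int hs0 hs1 h h2
    have hnv : ‖v₁‖ = ‖v₂‖ := by rw [Att_norm_R7 h1, Att_norm_R7 h2, hn]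
    have hlog : log v₂ - log v₁ = ((arg v₂ - arg v₁ : ℝ) : ℂ) * I := by
      unfold Complex.log
      rw [hnv]
      push_cast
      ring
    have hLL : LL a b v₂ - LL a b v₁ = (((n₂ - n₁) * (Real.pi / 2) : ℝ) : ℂ) * I := by
      rw [hn₁, hn₂]
      push_cast
      ring
    rw [hlog, hLL, mul_div_mul_right _ _ I_ne_zero, ← ofReal_div, ofReal_im] at hu
    exact lt_irrefl _ hu

private theorem ne_R7 {s : ℝ} (hs0 : 0 < s) (hs1 : s ≤ 1) {J z D : ℂ} (hv : 0 < (J * z ^ 2).im)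
    (h0 : ev s (J * z ^ 2) + z * od s (-(J * z ^ 2)) = 0)
    (hD : HasDerivAt (fun ζ => ev s (J * ζ ^ 2) + ζ * od s (-(J * ζ ^ 2))) D z) : D ≠ 0 := by
  have hs := norm_ofReal_le hs0 hs1
  have hq : HasDerivAt (fun ζ : ℂ => J * ζ ^ 2) (J * (2 * z)) z := by
    have := (hasDerivAt_pow 2 z).const_mul J
    simpa using this
  set u := J * z ^ 2 with hu
  have he : HasDerivAt (ev s) (deriv (ev s) u) u := (hasDerivAt_ev hs u).differentiableAt.hasDerivAt
  have ho : HasDerivAt (od s) (deriv (od s) (-u)) (-u) := (differentiable_od hs (-u)).hasDerivAt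
  have h1 : HasDerivAt (fun ζ => ev s (J * ζ ^ 2)) (deriv (ev s) u * (J * (2 * z))) z := by
    have h9 : HasDerivAt (ev s ∘ fun ζ : ℂ => J * ζ ^ 2) (deriv (ev s) u * (J * (2 * z))) z :=
      HasDerivAt.comp z he hq
    exact h9
  have h2 : HasDerivAt (fun ζ => od s (-(J * ζ ^ 2))) (deriv (od s) (-u) * (-(J * (2 * z)))) z := by
    have h9 : HasDerivAt (od s ∘ fun ζ : ℂ => -(J * ζ ^ 2)) (deriv (od s) (-u) * (-(J * (2 * z)))) z :=
      HasDerivAt.comp z ho hq.neg
    exact h9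
  have h3 := h1.add ((hasDerivAt_id z).mul h2)
  have h4 : D = deriv (ev s) u * (J * (2 * z)) +
      (1 * od s (-u) + z * (deriv (od s) (-u) * (-(J * (2 * z))))) := hD.unique h3
  have hu0 : u ≠ 0 := by
    intro h
    rw [h, zero_im] at hv
    exact lt_irrefl _ hv
  have hz0 : z ≠ 0 := by
    rintro rfl
    exact hu0 (by rw [hu]; ring)
  have hev : ev s u ≠ 0 := ev_ne_zero hs0 hs1 hv.ne'
  have hod : od s (-u) ≠ 0 := by
    refine od_ne_zero hs0 hs1 ?_
    rw [neg_im]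
    linarith
  have h5 := LL_im hs0 hs1 hv
  set X := u * (deriv (ev s) u / ev s u + deriv (od s) (-u) / od s (-u) - 1 / (2 * u)) with hX
  have h6 : z * D = 2 * ev s u * X := by
    have e1 : X = u * (deriv (ev s) u / ev s u) + u * (deriv (od s) (-u) / od s (-u)) - 1 / 2 := by
      rw [hX]
      field_simp
    have e2 : ev s u = -(z * od s (-u)) := by linear_combination h0
    have e3 : 2 * ev s u * X = 2 * u * deriv (ev s) u +
        2 * (ev s u / od s (-u)) * (u * deriv (od s) (-u)) - ev s u := by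
      rw [e1]
      field_simp
    have e4 : ev s u / od s (-u) = -z := by
      rw [div_eq_iff hod]
      linear_combination h0
    rw [e3, e4, h4]
    linear_combination (-(2 : ℂ)) * (deriv (ev s) u) * hu + (2 * z * deriv (od s) (-u)) * hu + h0
  intro h
  rw [h, mul_zero] at h6
  have h7 : X = 0 := by
    rcases mul_eq_zero.1 h6.symm with h8 | h8
    · rcases mul_eq_zero.1 h8 with h9 | h9
      · exact absurd h9 two_ne_zero
      · exact absurd h9 hev
    · exact h8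
  rw [h7, zero_im] at h5
  exact lt_irrefl _ h5

/-- PROOF.  `z F'(z) = e(u)[2u e'(u)/e(u) - 1 - 2(-u) o'(-u)/o(-u)]` at a zero, with imaginary part
of the bracket `> 0` for `Im u > 0` and `< 0` for `Im u < 0`. -/
theorem simple_I {s : ℝ} (hs0 : 0 < s) (hs1 : s ≤ 1) {z : ℂ} (hz : F (s * I) z = 0) :
    deriv (F (s * I)) z ≠ 0 := by
  have hs := norm_ofReal_le hs0 hs1
  have hsI : ‖(s : ℂ) * I‖ ≤ 1 := by
    rwa [norm_mul, norm_I, mul_one]
  obtain ⟨v, hv, hvv⟩ := exists_Att hs0 hs1 hz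
  have hF : F (s * I) = fun ζ => ev s (I * ζ ^ 2) + ζ * od s (-(I * ζ ^ 2)) := funext fun ζ => F_I hs ζ
  have hd : HasDerivAt (F (s * I)) (deriv (F (s * I)) z) z :=
    (hasDerivAt_F hsI z).differentiableAt.hasDerivAt
  rcases hvv with ⟨h1, h2⟩ | ⟨h1, h2⟩
  · rw [h1] at hv h2
    refine ne_R7 hs0 hs1 hv h2 ?_
    rw [← hF]
    exact hd
  · have e1 : (starRingEnd ℂ) (I * z ^ 2) = -I * ((starRingEnd ℂ) z) ^ 2 := by
      rw [map_mul, map_pow, conj_I]
    rw [h1, e1] at hv h2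
    have h3 := hd.conj_conj
    have e2 : (⇑(starRingEnd ℂ) ∘ F (s * I) ∘ ⇑(starRingEnd ℂ)) =
        fun ζ => ev s (-I * ζ ^ 2) + ζ * od s (-(-I * ζ ^ 2)) := by
      funext ζ
      show (starRingEnd ℂ) (F (s * I) ((starRingEnd ℂ) ζ)) = _
      rw [F_I hs, map_add, map_mul, ← ev_conj, ← od_conj, map_neg, map_mul, map_pow, conj_I, conj_conj]
    rw [e2] at h3
    intro h
    exact ne_R7 hs0 hs1 hv h2 h3 (by rw [h, map_zero])

private theorem re_ofReal_mul_im_R7 (r : ℝ) (w : ℂ) : ((r : ℂ) * w).im = r * w.im := by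
  rw [mul_im, ofReal_re, ofReal_im]
  ring

/-- PROOF.  Let `z' = τ q z`, `q = s i`, `u = i z²`, `u' = i z'² = -σ u`, `σ = (τ s)²`,
`s² ≤ σ < 1`.  `v` for `z`, then `v' = -σ conj v` is attached to `z'`.  `LL_univ`: `LL v' - LL v =
i (π/2)(n' - n)`, `log v' - log v = log σ + i y`, so `(n' - n) log σ > 0`, `n' ≤ n - 1`.  `LL_radial` for
`-σ conj v` and `s²/σ`: `Im LL v' ≥ Im LL(-s² conj v)`, and `LL_reflect`: `> Im LL v - π/2`.  So
`n' > n - 1`: contradiction. -/
theorem star_I {s : ℝ} (hs0 : 0 < s) (hs1 : s ≤ 1) : Star (s * I) := by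
  intro z z' hz hz' hlt τ hτ he
  obtain ⟨a, b, h⟩ := exists_Logs hs0 hs1
  have hs := norm_ofReal_le hs0 hs1
  obtain ⟨v, hv⟩ := exists_Att hs0 hs1 hz
  have hvi := hv.1
  have hτs : 0 < τ * s := by nlinarith
  have hnz' : ‖z'‖ = τ * s * ‖z‖ := by
    rw [he, norm_mul, norm_mul, norm_mul, norm_I, norm_real, norm_real, Real.norm_of_nonneg hs0.le,
      Real.norm_of_nonneg (by linarith)]
    ring
  have hτ1 : τ * s < 1 := by
    by_contra hc
    push Not at hc
    rw [hnz'] at hlt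
    nlinarith [norm_nonneg z]
  set σ : ℝ := (τ * s) ^ 2 with hσ
  have hσ0 : 0 < σ := by positivity
  have hσ1 : σ < 1 := by nlinarith
  have hσs : s ^ 2 ≤ σ := by
    rw [hσ, mul_pow]
    nlinarith [sq_nonneg s, sq_nonneg (τ - 1)]
  have hu' : I * z' ^ 2 = -(σ * (I * z ^ 2)) := by
    rw [he, hσ]
    push_cast
    linear_combination (τ : ℂ) ^ 2 * s ^ 2 * z ^ 2 * I * I_sq
  have hz'2 := hz'
  rw [F_I hs] at hz'2
  set v' : ℂ := -(σ * (starRingEnd ℂ) v) with hv'
  have hv'i : v'.im = σ * v.im := by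
    rw [hv', neg_im, re_ofReal_mul_im_R7, conj_im]
    ring
  have hA' : Att s z' v' := by
    refine ⟨by rw [hv'i]; positivity, ?_⟩
    rcases hv.2 with ⟨h1, h2⟩ | ⟨h1, h2⟩
    · right
      have e1 : v' = (starRingEnd ℂ) (I * z' ^ 2) := by
        rw [hu', map_neg, map_mul, conj_ofReal, hv', h1]
      refine ⟨e1, ?_⟩
      have h3 := congrArg (starRingEnd ℂ) hz'2
      rw [map_add, map_mul, map_zero, ← ev_conj, ← od_conj, map_neg, ← e1] at h3
      exact h3
    · left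
      have e1 : v' = I * z' ^ 2 := by
        rw [hu', hv', h1, conj_conj]
      refine ⟨e1, ?_⟩
      rw [← e1] at hz'2
      exact hz'2
  have hnv : ‖v'‖ = σ * ‖v‖ := by
    rw [hv', norm_neg, norm_mul, norm_conj, norm_real, Real.norm_of_nonneg hσ0.le]
  have hv0 : 0 < ‖v‖ := by
    rw [norm_pos_iff]
    rintro rfl
    simp at hvi
  have hne : v ≠ v' := by
    intro hc
    rw [← hc] at hnv
    nlinarith
  have hu := LL_univ hs0 hs1 h hvi hA'.1 hne
  obtain ⟨n, hn⟩ := LL_int hs0 hs1 h hv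
  obtain ⟨n', hn'⟩ := LL_int hs0 hs1 h hA'
  have hLL : LL a b v' - LL a b v = (((n' - n) * (Real.pi / 2) : ℝ) : ℂ) * I := by
    rw [hn, hn']
    push_cast
    ring
  have hlre : (log v' - log v).re = Real.log σ := by
    rw [sub_re, log_re, log_re, hnv, Real.log_mul hσ0.ne' hv0.ne']
    ring
  have hlσ : Real.log σ < 0 := Real.log_neg hσ0 hσ1
  have hκ : ((n' : ℝ) - n) * (Real.pi / 2) < 0 := by
    set κ : ℝ := ((n' : ℝ) - n) * (Real.pi / 2) with hκd
    set w := log v' - log v with hw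
    rw [hLL, div_im] at hu
    have e1 : ((κ : ℂ) * I).im = κ := by simp
    have e2 : ((κ : ℂ) * I).re = 0 := by simp
    rw [e1, e2, hlre, zero_mul, zero_div, sub_zero] at hu
    have e3 : 0 ≤ normSq w := normSq_nonneg w
    have e4 : 0 < κ * Real.log σ := by
      by_contra hc
      push Not at hc
      exact absurd hu (not_lt.2 (div_nonpos_of_nonpos_of_nonneg hc e3))
    by_contra hc
    push Not at hc
    nlinarith
  have hnn : n' ≤ n - 1 := by
    have hpi := Real.pi_pos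
    have e1 : (n' : ℝ) < n := by
      by_contra hc
      push Not at hc
      have : 0 ≤ ((n' : ℝ) - n) * (Real.pi / 2) := by
        apply mul_nonneg
        · linarith
        · positivity
      linarith
    have e2 : n' < n := by exact_mod_cast e1
    omega
  have him : (LL a b v').im ≤ (LL a b v).im - Real.pi / 2 := by
    rw [hn, hn']
    have e1 : ∀ m : ℤ, ((m : ℂ) * (Real.pi / 2 * I)).im = m * (Real.pi / 2) := by
      intro m
      have : (m : ℂ) * (Real.pi / 2 * I) = (((m : ℝ) * (Real.pi / 2) : ℝ) : ℂ) * I := by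
        push_cast
        ring
      rw [this]
      simp
    rw [e1, e1]
    have e2 : (n' : ℝ) ≤ n - 1 := by exact_mod_cast hnn
    nlinarith [Real.pi_pos]
  have hrad := LL_radial hs0 hs1 h hA'.1 (r := s ^ 2 / σ) (by positivity)
    ((div_le_one hσ0).2 hσs)
  have hrv : ((s ^ 2 / σ : ℝ) : ℂ) * v' = -(s ^ 2 * (starRingEnd ℂ) v) := by
    have hσc : (σ : ℂ) ≠ 0 := by exact_mod_cast hσ0.ne'
    rw [hv']
    push_cast
    field_simp
  rw [hrv] at hrad
  have href := LL_reflect hs0 hs1 h hvi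
  linarith

theorem good_I {s : ℝ} (hs0 : 0 < s) (hs1 : s ≤ 1) : Good (s * I) := by
  refine ⟨fun z hz => simple_I hs0 hs1 hz, fun z w hz hw hzw => ?_⟩
  obtain ⟨v, hv⟩ := exists_Att hs0 hs1 hz
  obtain ⟨v', hv'⟩ := exists_Att hs0 hs1 hw
  exact eq_of_norm_eq hs0 hs1 hv hv' hzw

end SokalHD
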