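import Pool.Agent.Lib_MP_af4de1_hd.DInd
import Pool.Agent.Lib_MP_af4de1_hd.DRay3

/-! # Part (d): the half disc -/

namespace SokalHD

open Complex SokalF Filter Topology Metric Set

/-- The closed left half disc. -/
def HD : Set ℂ := {q | ‖q‖ ≤ 1 ∧ q.re ≤ 0}

/-! ## Piece [HD-R8] (this file) -/

theorem HD_compact : IsCompact HD := by
  have : HD = closedBall (0 : ℂ) 1 ∩ {c : ℂ | c.re ≤ 0} := by
    ext q
    simp [HD]
  rw [this]
  exact (isCompact_closedBall _ _).inter_right (isClosed_le Complex.continuous_re continuous_const)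

theorem HD_convex : Convex ℝ HD := by
  have : HD = closedBall (0 : ℂ) 1 ∩ {c : ℂ | c.re ≤ 0} := by
    ext q
    simp [HD]
  rw [this]
  exact (convex_closedBall _ _).inter (convex_halfSpace_re_le 0)

private theorem HD_open_sub : {q : ℂ | ‖q‖ < 1 ∧ q.re < 0} ⊆ interior HD := by
  apply interior_maximal
  · intro q hq
    exact ⟨hq.1.le, hq.2.le⟩
  · exact (isOpen_lt continuous_norm continuous_const).inter
      (isOpen_lt Complex.continuous_re continuous_const)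

/-- PROOF.  `-1/2` is an interior point: the open set `{‖q‖ < 1, Re q < 0}` is contained in `HD`. -/
theorem HD_interior : (interior HD).Nonempty := by
  refine ⟨-(1 / 2), HD_open_sub ⟨?_, ?_⟩⟩
  · rw [norm_neg]
    norm_num
  · norm_num

/-- PROOF.  `{‖q‖ < 1, Re q < 0} ⊆ interior HD`, `frontier HD ⊆ HD`. -/
theorem HD_frontier {q : ℂ} (hq : q ∈ frontier HD) : q ∈ HD ∧ (‖q‖ = 1 ∨ q.re = 0) := by
  have h1 : q ∈ HD := HD_compact.isClosed.frontier_subset hq
  refine ⟨h1, ?_⟩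
  by_contra hc
  push Not at hc
  exact hq.2 (HD_open_sub ⟨lt_of_le_of_ne h1.1 hc.1, lt_of_le_of_ne h1.2 hc.2⟩)

/-- PROOF.  `‖q‖ = 1`, `‖τ q z‖ = τ ‖z‖ ≥ ‖z‖ > ‖z'‖`. -/
theorem star_of_norm {q : ℂ} (hq : ‖q‖ = 1) : Star q := by
  intro z z' _ _ hlt τ hτ heq
  rw [heq, norm_mul, norm_mul, hq, one_mul, Complex.norm_real, Real.norm_eq_abs,
    abs_of_nonneg (by linarith)] at hlt
  nlinarith [norm_nonneg z]

/-- PROOF.  `F_conj`; `deriv (F (conj q)) (conj z) = conj (deriv (F q) z)` (or `deriv_F`). -/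
theorem Good.conj {q : ℂ} (hq : ‖q‖ ≤ 1) (h : Good q) : Good ((starRingEnd ℂ) q) := by
  have h0 : ∀ z : ℂ, F ((starRingEnd ℂ) q) z = 0 → F q ((starRingEnd ℂ) z) = 0 := by
    intro z hz
    have h1 := F_conj q ((starRingEnd ℂ) z)
    rw [Complex.conj_conj, hz] at h1
    exact (map_eq_zero _).1 h1.symm
  have hq' : ‖(starRingEnd ℂ) q‖ ≤ 1 := by rw [RCLike.norm_conj]; exact hq
  refine ⟨fun z hz => ?_, fun z w hz hw hzw => ?_⟩
  · have h1 := h.1 _ (h0 z hz)
    rw [deriv_F hq] at h1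
    rw [deriv_F hq']
    have h2 := F_conj q (q * (starRingEnd ℂ) z)
    rw [map_mul, Complex.conj_conj] at h2
    rw [h2]
    exact (map_ne_zero _).2 h1
  · have h1 := h.2 _ _ (h0 z hz) (h0 w hw) (by rw [RCLike.norm_conj, RCLike.norm_conj]; exact hzw)
    exact (starRingEnd ℂ).injective h1

theorem Star.conj {q : ℂ} (h : Star q) : Star ((starRingEnd ℂ) q) := by
  have h0 : ∀ z : ℂ, F ((starRingEnd ℂ) q) z = 0 → F q ((starRingEnd ℂ) z) = 0 := by
    intro z hz
    have h1 := F_conj q ((starRingEnd ℂ) z)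
    rw [Complex.conj_conj, hz] at h1
    exact (map_eq_zero _).1 h1.symm
  intro z z' hz hz' hlt τ hτ heq
  refine h _ _ (h0 z hz) (h0 z' hz') (by rw [RCLike.norm_conj, RCLike.norm_conj]; exact hlt) τ hτ ?_
  rw [heq, map_mul, map_mul, Complex.conj_conj, Complex.conj_ofReal]

/-- PROOF.  `q = s I` with `s = q.im`, `0 < |s| ≤ 1`; `s > 0`: `good_I`, `star_I`; `s < 0`:
`q = conj (|s| I)`. -/
theorem imag_axis {q : ℂ} (hq0 : q ≠ 0) (hq : ‖q‖ ≤ 1) (hre : q.re = 0) : Good q ∧ Star q := by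
  have him : |q.im| ≤ 1 := (Complex.abs_im_le_norm q).trans hq
  have hqs : q = (q.im : ℂ) * I := by
    apply Complex.ext <;> simp [hre]
  have hne : q.im ≠ 0 := by
    intro h0
    apply hq0
    rw [hqs, h0]
    simp
  rcases lt_or_gt_of_ne hne with h1 | h1
  · have h2 : 0 < -q.im := by linarith
    have h3 : -q.im ≤ 1 := by
      rw [abs_of_neg h1] at him
      exact him
    have h4 : q = (starRingEnd ℂ) (((-q.im : ℝ) : ℂ) * I) := by
      apply Complex.ext <;> simp [hre]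
    have h5 : ‖((-q.im : ℝ) : ℂ) * I‖ ≤ 1 := by
      rw [norm_mul, Complex.norm_I, mul_one, Complex.norm_real, Real.norm_eq_abs, abs_of_pos h2]
      exact h3
    rw [h4]
    exact ⟨Good.conj h5 (good_I h2 h3), Star.conj (star_I h2 h3)⟩
  · have h3 : q.im ≤ 1 := by
      rw [abs_of_pos h1] at him
      exact him
    rw [hqs]
    exact ⟨good_I h1 h3, star_I h1 h3⟩

/-- Part (d). -/
theorem partD' (h : ∀ q : ℂ, ‖q‖ = 1 → q.re ≤ 0 → Good q) {q : ℂ} (hq0 : 0 < ‖q‖) (hq1 : ‖q‖ ≤ 1)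
    (hre : q.re ≤ 0) : Good q := by
  refine good_of_frontier HD_compact HD_convex HD_interior (fun q hq => hq.1) (fun h1 => ?_)
    (fun p hp hp0 => ?_) (show q ∈ HD from ⟨hq1, hre⟩) (norm_pos_iff.mp hq0)
  · have h2 : (1 : ℂ).re ≤ 0 := h1.2
    norm_num at h2
  · obtain ⟨h3, h4⟩ := HD_frontier hp
    rcases h4 with h4 | h4
    · exact ⟨h p h4 h3.2, star_of_norm h4⟩
    · exact imag_axis hp0 h3.1 h4

end SokalHD
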