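import Pool.Agent.Lib_MP_af4de1_hd.DDefs

/-! # Part (d): `F q` has infinitely many zeros for `0 < ‖q‖ ≤ 1`, `q ≠ 1` -/

namespace SokalHD

open Complex SokalF Filter Topology Metric Set

/-! ## Piece [HD-D10] (this file) -/

theorem norm_F_le {q : ℂ} (hq : ‖q‖ ≤ 1) (z : ℂ) : ‖F q z‖ ≤ Real.exp ‖z‖ := by
  unfold F
  have h1 : ∑' k : ℕ, ‖z‖ ^ k / (Nat.factorial k : ℝ) = Real.exp ‖z‖ := by
    rw [Real.exp_eq_exp_ℝ, NormedSpace.exp_eq_tsum_div]
  rw [← h1]
  exact tsum_of_norm_bounded (Real.summable_pow_div_factorial ‖z‖).hasSum (norm_term_le hq z)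

/-- A zero free entire function of exponential type is `exp (a + b z)`. -/
theorem eq_exp_of_ne_zero {g : ℂ → ℂ} (hg : Differentiable ℂ g) (h0 : ∀ z, g z ≠ 0) {C : ℝ}
    (hC : ∀ z, ‖g z‖ ≤ C * Real.exp (C * ‖z‖)) : ∃ a b : ℂ, ∀ z, g z = exp (a + b * z) := by
  have hdg : Differentiable ℂ (deriv g) := fun z => (hg.analyticAt z).deriv.differentiableAt
  have hf : Differentiable ℂ (fun z => deriv g z / g z) := hdg.div hg h0
  obtain ⟨h, hh0, hh⟩ := hf.isExactOn_univ.with_val_at 0 (log (g 0))
  have hhd : ∀ z, HasDerivAt h (deriv g z / g z) z := fun z => hh z (mem_univ z)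
  -- `exp (h z) = g z`
  have hexp : ∀ z, exp (h z) = g z := by
    have hd : ∀ z, HasDerivAt (fun z => g z * exp (-(h z))) 0 z := by
      intro z
      have h1 := (hg z).hasDerivAt.mul ((hhd z).neg.cexp)
      refine h1.congr_deriv ?_
      have := h0 z
      field_simp
      ring
    have hconst : ∀ z, g z * exp (-(h z)) = 1 := by
      intro z
      have h1 := is_const_of_deriv_eq_zero (f := fun z => g z * exp (-(h z)))
        (fun z => (hd z).differentiableAt) (fun z => (hd z).deriv) z 0
      rw [h1, hh0, exp_neg, exp_log (h0 0)]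
      exact mul_inv_cancel₀ (h0 0)
    intro z
    have h2 := hconst z
    rw [exp_neg] at h2
    have h3 := exp_ne_zero (h z)
    field_simp at h2
    exact h2.symm
  have hhdiff : Differentiable ℂ h := fun z => (hhd z).differentiableAt
  -- bound on the real part
  have hCpos : 0 < C := by
    have h1 := hC 0
    have h2 : 0 < ‖g 0‖ := norm_pos_iff.mpr (h0 0)
    simp only [norm_zero, mul_zero, Real.exp_zero, mul_one] at h1
    linarith
  have hre : ∀ z, (h z).re ≤ Real.log C + C * ‖z‖ := by
    intro z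
    have h1 := hC z
    rw [← hexp z, norm_exp] at h1
    have h2 : C * Real.exp (C * ‖z‖) = Real.exp (Real.log C + C * ‖z‖) := by
      rw [Real.exp_add, Real.exp_log hCpos]
    rw [h2, Real.exp_le_exp] at h1
    exact h1
  set H : ℂ → ℂ := fun z => h z - h 0 with hH
  have hHd : Differentiable ℂ H := hhdiff.sub_const _
  have hH0 : H 0 = 0 := by simp [hH]
  set A : ℝ := |Real.log C| + ‖h 0‖ + 1 with hA
  have hApos : 0 < A := by positivity
  have hHb : ∀ z, 1 ≤ ‖z‖ → ‖H z‖ ≤ 2 * (A + 2 * C) * ‖z‖ := by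
    intro z hz
    have hz0 : 0 < ‖z‖ := by linarith
    have hM : 0 < A + C * (2 * ‖z‖) := by positivity
    have h1 := borelCaratheodory_zero (f := H) (R := 2 * ‖z‖) (M := A + C * (2 * ‖z‖)) (z := z) hM
      hHd.differentiableOn (by
        intro x hx
        rw [mem_ball_zero_iff] at hx
        show (h x - h 0).re ≤ _
        rw [sub_re]
        have h2 := hre x
        have h3 : -(h 0).re ≤ ‖h 0‖ := (neg_le_abs _).trans (abs_re_le_norm _)
        have h4 := le_abs_self (Real.log C)
        have h5 : C * ‖x‖ ≤ C * (2 * ‖z‖) := by gcongr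
        rw [hA]; linarith) (by positivity) (by
        rw [mem_ball_zero_iff]; linarith) hH0
    refine h1.trans ?_
    have h2 : 2 * ‖z‖ - ‖z‖ = ‖z‖ := by ring
    rw [h2, mul_div_assoc, div_self hz0.ne', mul_one]
    nlinarith [mul_nonneg hApos.le (sub_nonneg.mpr hz)]
  -- `H z = b z` by Liouville
  have hds : Differentiable ℂ (dslope H 0) := by
    rw [← differentiableOn_univ] at hHd ⊢
    exact (differentiableOn_dslope univ_mem).mpr hHd
  have hbd : Bornology.IsBounded (range (dslope H 0)) := by
    obtain ⟨B, hB⟩ := (isCompact_closedBall (0 : ℂ) 1).exists_bound_of_continuousOn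
      hds.continuous.continuousOn
    refine isBounded_iff_forall_norm_le.mpr ⟨max B (2 * (A + 2 * C)), ?_⟩
    rintro _ ⟨z, rfl⟩
    by_cases hz : ‖z‖ ≤ 1
    · exact (hB z (by rwa [mem_closedBall_zero_iff])).trans (le_max_left _ _)
    · push Not at hz
      have hz0 : z ≠ 0 := norm_pos_iff.mp (by linarith)
      rw [dslope_of_ne _ hz0, slope_def_field, hH0, sub_zero, sub_zero, norm_div]
      refine le_trans ?_ (le_max_right _ _)
      rw [div_le_iff₀ (by linarith)]
      exact hHb z hz.le
  have hconst : ∀ z, H z = dslope H 0 0 * z := by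
    intro z
    have h1 := hds.apply_eq_apply_of_bounded hbd z 0
    by_cases hz : z = 0
    · rw [hz, hH0, mul_zero]
    · rw [dslope_of_ne _ hz, slope_def_field, hH0, sub_zero, sub_zero] at h1
      rw [← h1]
      field_simp
  refine ⟨h 0, dslope H 0 0, fun z => ?_⟩
  rw [← hexp z, ← hconst z]
  congr 1
  simp [hH]

/-- Polynomial times `exp (-t)`. -/
theorem tendsto_poly_exp (Q : Polynomial ℂ) (β : ℂ) :
    Tendsto (fun t : ℝ => Q.eval ((t : ℂ) * β) * (Real.exp (-t) : ℂ)) atTop (𝓝 0) := by
  induction Q using Polynomial.induction_on' with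
  | add p q hp hq =>
    have := hp.add hq
    rw [add_zero] at this
    refine this.congr fun t => ?_
    rw [Polynomial.eval_add]; ring
  | monomial n a =>
    have h1 : Tendsto (fun t : ℝ => ((t ^ n * Real.exp (-t) : ℝ) : ℂ)) atTop (𝓝 ((0 : ℝ) : ℂ)) :=
      (continuous_ofReal.tendsto _).comp (Real.tendsto_pow_mul_exp_neg_atTop_nhds_zero n)
    have h2 := h1.const_mul (a * β ^ n)
    rw [ofReal_zero, mul_zero] at h2
    refine h2.congr fun t => ?_
    rw [Polynomial.eval_monomial, mul_pow]
    push_cast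
    ring

/-- `F q` divided by finitely many of its zeros still has a zero. -/
theorem exists_zero {q : ℂ} (hq0 : q ≠ 0) (hq : ‖q‖ ≤ 1) (hq1 : q ≠ 1) {k : ℕ} {z : ℕ → ℂ}
    (hz : ∀ j < k, z j ≠ 0) {g : ℂ → ℂ} (hg : Differentiable ℂ g)
    (h : ∀ u, F q u = (∏ j ∈ Finset.range k, (1 - u / z j)) * g u) : ∃ u, g u = 0 := by
  by_contra hcon
  push Not at hcon
  set P : Polynomial ℂ := ∏ j ∈ Finset.range k, (1 - Polynomial.C (z j)⁻¹ * Polynomial.X) with hP
  have hPe : ∀ u, P.eval u = ∏ j ∈ Finset.range k, (1 - u / z j) := by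
    intro u
    rw [hP, Polynomial.eval_prod]
    refine Finset.prod_congr rfl fun j _ => ?_
    simp only [Polynomial.eval_sub, Polynomial.eval_one, Polynomial.eval_mul, Polynomial.eval_C,
      Polynomial.eval_X]
    rw [div_eq_mul_inv, mul_comm]
  have hP0 : P.eval 0 = 1 := by rw [hPe]; simp
  have hfac : ∀ u, F q u = P.eval u * g u := fun u => by rw [hPe]; exact h u
  -- growth of `g`
  set R : ℝ := 1 + ∑ j ∈ Finset.range k, 2 * ‖z j‖ with hR
  have hRpos : 0 < R := by positivity
  obtain ⟨B, hB⟩ := (isCompact_closedBall (0 : ℂ) R).exists_bound_of_continuousOn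
    hg.continuous.continuousOn
  have hgrow : ∀ u, ‖g u‖ ≤ max B 1 * Real.exp (max B 1 * ‖u‖) := by
    intro u
    have hm1 : (1 : ℝ) ≤ max B 1 := le_max_right _ _
    have hexp1 : (1 : ℝ) ≤ Real.exp (max B 1 * ‖u‖) :=
      Real.one_le_exp (by positivity)
    by_cases hu : ‖u‖ ≤ R
    · calc ‖g u‖ ≤ B := hB u (by rwa [mem_closedBall_zero_iff])
        _ ≤ max B 1 * 1 := by rw [mul_one]; exact le_max_left _ _
        _ ≤ _ := by gcongr
    · push Not at hu
      have hP1 : 1 ≤ ‖P.eval u‖ := by
        rw [hPe, norm_prod]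
        refine le_trans (le_of_eq (Finset.prod_const_one (s := Finset.range k)).symm)
          (Finset.prod_le_prod (fun _ _ => zero_le_one) fun j hj => ?_)
        have hj' := hz j (Finset.mem_range.mp hj)
        have hzj : 0 < ‖z j‖ := norm_pos_iff.mpr hj'
        have h1 : 2 * ‖z j‖ ≤ ∑ j ∈ Finset.range k, 2 * ‖z j‖ :=
          Finset.single_le_sum (f := fun j => 2 * ‖z j‖) (fun i _ => by positivity) hj
        have h2 : 2 ≤ ‖u / z j‖ := by
          rw [norm_div, le_div_iff₀ hzj]; linarith
        have h3 := norm_sub_norm_le (u / z j) 1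
        rw [norm_one] at h3
        rw [norm_sub_rev]
        linarith
      have h1 : ‖g u‖ ≤ ‖F q u‖ := by
        rw [hfac, norm_mul]
        nlinarith [norm_nonneg (g u)]
      calc ‖g u‖ ≤ Real.exp ‖u‖ := h1.trans (norm_F_le hq u)
        _ ≤ Real.exp (max B 1 * ‖u‖) := by
            rw [Real.exp_le_exp]; nlinarith [norm_nonneg u]
        _ ≤ max B 1 * Real.exp (max B 1 * ‖u‖) := by
            nlinarith [Real.exp_pos (max B 1 * ‖u‖)]
  obtain ⟨a, b, hab⟩ := eq_exp_of_ne_zero hg hcon hgrow
  -- the functional equation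
  have hfe : ∀ u, (P.derivative.eval u + b * P.eval u) = P.eval (q * u) * exp (b * (q - 1) * u) := by
    intro u
    have h1 : HasDerivAt (F q) (F q (q * u)) u := hasDerivAt_F hq u
    have h2 : HasDerivAt (F q) (P.derivative.eval u * g u + P.eval u * (g u * b)) u := by
      have h3 : HasDerivAt (fun u => P.eval u * exp (a + b * u))
          (P.derivative.eval u * exp (a + b * u) + P.eval u * (exp (a + b * u) * b)) u := by
        refine (P.hasDerivAt u).mul ?_
        have h4 : HasDerivAt (fun u => a + b * u) b u := by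
          simpa using ((hasDerivAt_id u).const_mul b).const_add a
        exact h4.cexp
      have h5 : F q = fun u => P.eval u * exp (a + b * u) := by
        funext v; rw [hfac, hab]
      rw [h5, hab]
      exact h3
    have h3 := h1.unique h2
    rw [hfac, hab, hab] at h3
    have h4 : exp (a + b * (q * u)) = exp (b * (q - 1) * u) * exp (a + b * u) := by
      rw [← exp_add]; congr 1; ring
    rw [h4] at h3
    have h5 := exp_ne_zero (a + b * u)
    have h6 : (P.derivative.eval u + b * P.eval u) * exp (a + b * u) =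
        (P.eval (q * u) * exp (b * (q - 1) * u)) * exp (a + b * u) := by
      rw [mul_assoc (P.eval (q * u)), h3]; ring
    exact mul_right_cancel₀ h5 h6
  have hq1' : q - 1 ≠ 0 := sub_ne_zero.mpr hq1
  by_cases hb : b = 0
  · -- `P' = P (q ·)`
    have h1 : P.derivative = P.comp (Polynomial.C q * Polynomial.X) := by
      apply Polynomial.funext
      intro u
      have h2 := hfe u
      rw [hb, zero_mul, add_zero, zero_mul, zero_mul, exp_zero, mul_one] at h2
      rw [h2, Polynomial.eval_comp]
      simp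
    by_cases hdeg : P.natDegree = 0
    · have h2 : P.derivative = 0 := by
        rw [Polynomial.eq_C_of_natDegree_eq_zero hdeg]; simp
      have h3 : (P.comp (Polynomial.C q * Polynomial.X)).eval 0 = 1 := by
        rw [Polynomial.eval_comp]; simpa using hP0
      rw [← h1, h2, Polynomial.eval_zero] at h3
      exact zero_ne_one h3
    · have h2 := Polynomial.natDegree_derivative_lt hdeg
      rw [h1, Polynomial.natDegree_comp, Polynomial.natDegree_C_mul_X q hq0, mul_one] at h2
      exact lt_irrefl _ h2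
  · -- exponential decay
    have hβ : b * (q - 1) ≠ 0 := mul_ne_zero hb hq1'
    set β : ℂ := (b * (q - 1))⁻¹ with hβd
    have h1 := tendsto_poly_exp (P.derivative + Polynomial.C b * P) β
    have h2 : ∀ t : ℝ, (P.derivative + Polynomial.C b * P).eval ((t : ℂ) * β) *
        (Real.exp (-t) : ℂ) = P.eval (q * (t * β)) := by
      intro t
      rw [Polynomial.eval_add, Polynomial.eval_mul, Polynomial.eval_C, hfe]
      have h3 : b * (q - 1) * (t * β) = t := by
        rw [hβd]; field_simp
      rw [h3, mul_assoc, ofReal_exp, ← exp_add]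
      simp
    have h3 : Tendsto (fun t : ℝ => P.eval (q * (t * β))) atTop (𝓝 0) := h1.congr h2
    by_cases hdeg : 0 < P.degree
    · have h4 : Tendsto (fun t : ℝ => ‖q * ((t : ℂ) * β)‖) atTop atTop := by
        have h5 : (fun t : ℝ => ‖q * ((t : ℂ) * β)‖) = fun t : ℝ => ‖q‖ * ‖β‖ * |t| := by
          funext t
          rw [norm_mul, norm_mul, norm_real, Real.norm_eq_abs]; ring
        rw [h5]
        have h6 : 0 < ‖q‖ * ‖β‖ := mul_pos (norm_pos_iff.mpr hq0)
          (norm_pos_iff.mpr (inv_ne_zero hβ))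
        exact (tendsto_abs_atTop_atTop).const_mul_atTop h6
      have h5 := P.tendsto_norm_atTop hdeg h4
      have h6 := h3.norm
      rw [norm_zero] at h6
      exact not_tendsto_nhds_of_tendsto_atTop h5 0 h6
    · rw [not_lt] at hdeg
      rw [Polynomial.eq_C_of_degree_le_zero hdeg] at h3 hP0
      simp only [Polynomial.eval_C] at h3 hP0
      rw [hP0] at h3
      exact one_ne_zero (tendsto_nhds_unique tendsto_const_nhds h3)

end SokalHD
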