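import Pool.Agent.Lib_MP_af4de1_hd.DStep
import Pool.Agent.Lib_MP_af4de1_hd.DN

/-! # Part (d): induction; `Good` and `First` -/

namespace SokalHD

open Complex SokalF Filter Topology Metric Set

variable {K : Set ℂ} {k : ℕ} {d : ℕ → ℂ → ℂ} {w : ℕ → ℂ → ℂ}

theorem First.mono {q : ℂ} {k l : ℕ} {z : ℕ → ℂ} (h : First q l z) (hkl : k ≤ l) : First q k z := by
  obtain ⟨h1, h2, h3⟩ := h
  refine ⟨fun j hj => h1 j (by omega), fun i j hij hj => h2 i j hij (by omega), fun u hu => ?_⟩
  rcases h3 u hu with ⟨j, hj, hju⟩ | h4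
  · by_cases hjk : j < k
    · exact Or.inl ⟨j, hjk, hju⟩
    · exact Or.inr fun i hi => by rw [hju]; exact h2 i j (by omega) hj
  · exact Or.inr fun i hi => h4 i (by omega)

theorem StarN.mono {q : ℂ} {k l : ℕ} {z : ℕ → ℂ} (h : StarN q l z) (hkl : k ≤ l) : StarN q k z :=
  fun i j hij hj => h i j hij (by omega)

theorem exists_state (hK : IsCompact K) (hcv : Convex ℝ K) (hi : (interior K).Nonempty)
    (h1 : ∀ q ∈ K, ‖q‖ ≤ 1) (h2 : (1 : ℂ) ∉ K)
    (hB : ∀ q ∈ frontier K, q ≠ 0 → ∃ z, First q k z ∧ StarN q k z) :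
    ∃ d w, State K k d w := by
  induction k with
  | zero => exact ⟨_, _, State.init h1 (fun _ _ => 0)⟩
  | succ k ih =>
    obtain ⟨d, w, h⟩ := ih fun q hq hq0 => by
      obtain ⟨z, hz, hs⟩ := hB q hq hq0
      exact ⟨z, hz.mono (by omega), hs.mono (by omega)⟩
    exact h.step hK hcv hi h1 h2 hB

/-! ## Piece [HD-D16] (this block) -/

/-- PROOF.  `State.complete`; simple: `F q (q z_j) = F'(z_j) = -(1/z_j) ∏_{i ≠ j} (1 - z_j/z_i) ·
S (Cf d) q (q^k z_j)`, `z_j ≠ z_i` for `i ≠ j` (`State.lt`), and `S (Cf d) q (q^k z_j) = 0` would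
give `‖z_j‖ < ‖z_j‖` (`State.gt`). -/
theorem State.first (h1 : ∀ q ∈ K, ‖q‖ ≤ 1) (h : State K k d w) {q : ℂ} (hq : q ∈ K)
    (hq0 : q ≠ 0) : First q k (fun j => w j q / q ^ j) := by
  have hqn := h1 q hq
  obtain ⟨hz, hc⟩ := h.complete hq hq0
  refine ⟨fun j hj => ⟨hz j hj, fun h0 => ?_⟩, fun i j hij hj => h.lt q hq hq0 i j hij hj,
    fun u hu => ?_⟩
  · obtain ⟨a, ha⟩ : ∃ a : ℕ → ℂ, a = fun i => w i q / q ^ i := ⟨_, rfl⟩
    have haj : w j q / q ^ j = a j := by rw [ha]
    have haj0 : a j ≠ 0 := by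
      rw [← haj]
      exact div_ne_zero (h.wne j hj q hq) (pow_ne_zero _ hq0)
    obtain ⟨G, hG⟩ : ∃ G : ℂ → ℂ, G = fun z =>
        (∏ i ∈ (Finset.range k).erase j, (1 - z / a i)) * S (Cf d) q (q ^ k * z) := ⟨_, rfl⟩
    have hGd : Differentiable ℂ G := by
      rw [hG]
      refine Differentiable.mul ?_ ?_
      · exact Differentiable.fun_finsetProd fun i _ =>
          (differentiable_const _).sub (differentiable_id.div_const _)
      · exact ((h.ent.Cf h1).differentiable hq).comp (differentiable_id.const_mul _)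
    have hfac : F q = fun z => (1 - z / a j) * G z := by
      funext z
      rw [h.fac q hq hq0 z, hG]
      simp only
      rw [← mul_assoc, Finset.mul_prod_erase (Finset.range k) (fun i => 1 - z / a i)
        (Finset.mem_range.2 hj)]
      congr 1
      refine Finset.prod_congr rfl fun i _ => ?_
      rw [ha]
      simp only
      rw [div_div_eq_mul_div, mul_comm z]
    have hd1 : HasDerivAt (F q) (F q (q * a j)) (a j) := hasDerivAt_F hqn _
    have hd2 : HasDerivAt (F q) (-(1 / a j) * G (a j) + (1 - a j / a j) * deriv G (a j)) (a j) := by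
      rw [hfac]
      exact (((hasDerivAt_id (a j)).div_const (a j)).const_sub 1).mul (hGd (a j)).hasDerivAt
    have h2 := hd1.unique hd2
    simp only [haj] at h0
    rw [h0, div_self haj0, sub_self, zero_mul, add_zero, eq_comm, mul_eq_zero, neg_eq_zero] at h2
    rcases h2 with h2 | h2
    · exact one_div_ne_zero haj0 h2
    · rw [hG] at h2
      simp only at h2
      rcases mul_eq_zero.1 h2 with h3 | h3
      · obtain ⟨i, hi, hi0⟩ := Finset.prod_eq_zero_iff.1 h3
        rw [Finset.mem_erase, Finset.mem_range] at hi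
        have hai0 : a i ≠ 0 := by
          rw [ha]
          exact div_ne_zero (h.wne i hi.2 q hq) (pow_ne_zero _ hq0)
        have h4 : a j = a i := by
          rw [sub_eq_zero, eq_comm, div_eq_one_iff_eq hai0] at hi0
          exact hi0
        rcases lt_or_gt_of_ne hi.1 with h5 | h5
        · have h6 := h.lt q hq hq0 i j h5 hj
          have h7 : ‖a i‖ < ‖a j‖ := by rw [ha]; exact h6
          rw [h4] at h7
          exact lt_irrefl _ h7
        · have h6 := h.lt q hq hq0 j i h5 hi.2
          have h7 : ‖a j‖ < ‖a i‖ := by rw [ha]; exact h6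
          rw [h4] at h7
          exact lt_irrefl _ h7
      · have h4 := h.gt q hq hq0 j hj (a j) h3
        rw [haj] at h4
        exact lt_irrefl _ h4
  · rcases hc u hu with h2 | h2
    · exact Or.inl h2
    · exact Or.inr h2.2

/-- Bounded sets contain finitely many zeros.
PROOF.  `F q` is entire and `F q 0 = 1`. -/
theorem finite_zeros {q : ℂ} (hq : ‖q‖ ≤ 1) (R : ℝ) : {z : ℂ | F q z = 0 ∧ ‖z‖ ≤ R}.Finite := by
  by_contra hinf
  obtain ⟨x, -, hx⟩ := Set.Infinite.exists_accPt_of_subset_isCompact (K := closedBall (0 : ℂ) R)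
    hinf (isCompact_closedBall _ _) fun z hz => mem_closedBall_zero_iff.2 hz.2
  have han : AnalyticOnNhd ℂ (F q) univ :=
    DifferentiableOn.analyticOnNhd (fun z _ =>
      (hasDerivAt_F hq z).differentiableAt.differentiableWithinAt) isOpen_univ
  have hfr : ∃ᶠ z in 𝓝[≠] x, F q z = 0 :=
    (accPt_iff_frequently_nhdsNE.1 hx).mono fun z hz => hz.1
  have h0 := han.eqOn_zero_of_preconnected_of_frequently_eq_zero isPreconnected_univ
    (mem_univ x) hfr (mem_univ (0 : ℂ))
  rw [F_zero] at h0
  exact one_ne_zero h0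

/-- PROOF.  Let `F q u = 0`, `N` = number of zeros of modulus `≤ ‖u‖` (`finite_zeros`).  Take `First q
(N+1) z`: if `u` is none of the `z j`, all `N+1` different zeros `z j` have modulus `< ‖u‖`:
contradiction.  So `u = z j` is simple (`deriv_F`), and if `‖v‖ = ‖u‖`, `F q v = 0`, then by
completeness `v = z i` (the other case gives `‖u‖ < ‖v‖`) and `‖z i‖ = ‖z j‖` gives `i = j`. -/
theorem good_of_first {q : ℂ} (hq : ‖q‖ ≤ 1) (h : ∀ k, ∃ z, First q k z) : Good q := by
  have key : ∀ u, F q u = 0 → ∃ k z, First q k z ∧ ∃ j < k, u = z j := by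
    intro u hu
    obtain ⟨N, hN⟩ : ∃ N : ℕ, N = (finite_zeros hq ‖u‖).toFinset.card := ⟨_, rfl⟩
    obtain ⟨z, hz⟩ := h (N + 1)
    rcases hz.2.2 u hu with h1 | h1
    · exact ⟨N + 1, z, hz, h1⟩
    · exfalso
      have h2 : (Finset.range (N + 1)).card ≤ (finite_zeros hq ‖u‖).toFinset.card := by
        refine Finset.card_le_card_of_injOn z (fun j hj => ?_) fun i hi j hj hij => ?_
        · have hj' : j < N + 1 := by simpa using hj
          simp only [Set.Finite.coe_toFinset, mem_setOf_eq]
          exact ⟨(hz.1 j hj').1, (h1 j hj').le⟩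
        · have hi' : i < N + 1 := by simpa using hi
          have hj' : j < N + 1 := by simpa using hj
          rcases lt_trichotomy i j with h3 | h3 | h3
          · have h4 := hz.2.1 i j h3 hj'
            rw [hij] at h4
            exact absurd h4 (lt_irrefl _)
          · exact h3
          · have h4 := hz.2.1 j i h3 hi'
            rw [hij] at h4
            exact absurd h4 (lt_irrefl _)
      rw [Finset.card_range, ← hN] at h2
      omega
  refine ⟨fun u hu => ?_, fun u v hu hv huv => ?_⟩
  · obtain ⟨k, z, hz, j, hj, rfl⟩ := key u hu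
    rw [deriv_F hq]
    exact (hz.1 j hj).2
  · obtain ⟨k, z, hz, j, hj, rfl⟩ := key u hu
    rcases hz.2.2 v hv with ⟨i, hi, rfl⟩ | h1
    · rcases lt_trichotomy i j with h3 | h3 | h3
      · have h4 := hz.2.1 i j h3 hj
        rw [huv] at h4
        exact absurd h4 (lt_irrefl _)
      · rw [h3]
      · have h4 := hz.2.1 j i h3 hi
        rw [huv] at h4
        exact absurd h4 (lt_irrefl _)
    · have h4 := h1 j hj
      rw [huv] at h4
      exact absurd h4 (lt_irrefl _)

/-! ## Piece [HD-D17] (this block) -/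

/-- Division by simple zeros.
PROOF.  Induction on `k`: divide the entire function by one zero (`dslope` is entire,
`Complex.differentiableOn_dslope`). -/
theorem exists_div {q : ℂ} (hq : ‖q‖ ≤ 1) {k : ℕ} {z : ℕ → ℂ} (hz : ∀ j < k, F q (z j) = 0)
    (hne : ∀ i j, i < j → j < k → z i ≠ z j) :
    ∃ g : ℂ → ℂ, Differentiable ℂ g ∧
      ∀ u, F q u = (∏ j ∈ Finset.range k, (1 - u / z j)) * g u := by
  induction k with
  | zero => exact ⟨F q, fun z => (hasDerivAt_F hq z).differentiableAt, fun u => by simp⟩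
  | succ k ih =>
    obtain ⟨g, hg, hfac⟩ :=
      ih (fun j hj => hz j (by omega)) (fun i j hij hj => hne i j hij (by omega))
    have hz0 : ∀ j < k + 1, z j ≠ 0 := by
      intro j hj h0
      have := hz j hj
      rw [h0, F_zero] at this
      exact one_ne_zero this
    have hgk : g (z k) = 0 := by
      have h1 := hfac (z k)
      rw [hz k (by omega)] at h1
      rcases mul_eq_zero.mp h1.symm with h2 | h2
      · exfalso
        obtain ⟨j, hj, hj2⟩ := Finset.prod_eq_zero_iff.mp h2
        have hjk := Finset.mem_range.mp hj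
        have hj0 := hz0 j (by omega)
        have h3 : z k / z j = 1 := (sub_eq_zero.mp hj2).symm
        rw [div_eq_one_iff_eq hj0] at h3
        exact hne j k hjk (by omega) h3.symm
      · exact h2
    have hds : Differentiable ℂ (dslope g (z k)) := by
      rw [← differentiableOn_univ] at hg ⊢
      exact (differentiableOn_dslope univ_mem).mpr hg
    refine ⟨fun u => -z k * dslope g (z k) u, hds.const_mul _, fun u => ?_⟩
    have h1 : g u = (u - z k) * dslope g (z k) u := by
      have := sub_smul_dslope g (z k) u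
      rw [hgk, sub_zero, smul_eq_mul] at this
      exact this.symm
    have h2 := hz0 k (by omega)
    have h3 : u - z k = (1 - u / z k) * (-z k) := by
      field_simp
      ring
    rw [hfac, Finset.prod_range_succ, h1, h3]
    ring

/-- PROOF.  Induction on `k`.  Given `First q k z`, `F q = ∏ (1 - u/z_j) g` (`exists_div`); by
`exists_zero` `g u = 0` for some `u`; `u ≠ z_j` because the zeros of `F q` are simple.  Let `z k` be
a zero of `F q` of smallest modulus among those different from the `z j`, `j < k` (`finite_zeros`).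
By completeness of the list and `Good` it is larger than the `z j` and every other zero not in the
list is larger than `z k`. -/
theorem first_of_good {q : ℂ} (hq0 : q ≠ 0) (hq : ‖q‖ ≤ 1) (hq1 : q ≠ 1) (h : Good q) (k : ℕ) :
    ∃ z, First q k z := by
  induction k with
  | zero =>
    exact ⟨fun _ => 0, fun j hj => absurd hj (by omega), fun i j _ hj => absurd hj (by omega),
      fun u _ => Or.inr fun j hj => absurd hj (by omega)⟩
  | succ k ih =>
    obtain ⟨z, hz1, hz2, hz3⟩ := ih
    have hz0 : ∀ j < k, z j ≠ 0 := by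
      intro j hj h0
      have := (hz1 j hj).1
      rw [h0, F_zero] at this
      exact one_ne_zero this
    obtain ⟨g, hg, hfac⟩ := exists_div hq (fun j hj => (hz1 j hj).1)
      (fun i j hij hj he => absurd (congrArg norm he) (hz2 i j hij hj).ne)
    obtain ⟨u₀, hu₀⟩ := exists_zero hq0 hq hq1 hz0 hg hfac
    have hFu₀ : F q u₀ = 0 := by rw [hfac, hu₀, mul_zero]
    have hu₀z : ∀ j < k, u₀ ≠ z j := by
      intro j hj he
      apply h.1 u₀ hFu₀
      have hP : HasDerivAt (fun u : ℂ => ∏ j ∈ Finset.range k, (1 - u / z j))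
          (deriv (fun u : ℂ => ∏ j ∈ Finset.range k, (1 - u / z j)) u₀) u₀ := by
        apply DifferentiableAt.hasDerivAt
        fun_prop
      have h1 := (hP.mul (hg u₀).hasDerivAt).deriv
      have h2 : F q = fun u => (∏ j ∈ Finset.range k, (1 - u / z j)) * g u := funext hfac
      have h3 : (∏ i ∈ Finset.range k, (1 - u₀ / z i)) = 0 := by
        refine Finset.prod_eq_zero (Finset.mem_range.mpr hj) ?_
        rw [he, div_self (hz0 j hj), sub_self]
      rw [h2]
      refine Eq.trans h1 ?_
      rw [hu₀, h3]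
      ring
    obtain ⟨v, ⟨⟨hv1, hv2⟩, hv3⟩, hvmin⟩ := exists_min_image
      ({u : ℂ | F q u = 0 ∧ ‖u‖ ≤ ‖u₀‖} ∩ {u : ℂ | ∀ j < k, u ≠ z j}) (fun u => ‖u‖)
      ((finite_zeros hq ‖u₀‖).inter_of_left _) ⟨u₀, ⟨hFu₀, le_rfl⟩, hu₀z⟩
    have hlt : ∀ j < k, ‖z j‖ < ‖v‖ := by
      rcases hz3 v hv1 with ⟨j, hj, hjv⟩ | h4
      · exact absurd hjv (hv3 j hj)
      · exact h4
    refine ⟨fun j => if j < k then z j else v, fun j hj => ?_, fun i j hij hj => ?_,
      fun u hu => ?_⟩
    · by_cases hjk : j < k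
      · simp only [hjk, if_true]
        exact hz1 j hjk
      · simp only [hjk, if_false]
        refine ⟨hv1, ?_⟩
        rw [← deriv_F hq v]
        exact h.1 v hv1
    · have hik : i < k := by omega
      by_cases hjk : j < k
      · simp only [hik, hjk, if_true]
        exact hz2 i j hij hjk
      · simp only [hik, hjk, if_true, if_false]
        exact hlt i hik
    · by_cases hul : ∃ j < k, u = z j
      · obtain ⟨j, hj, hju⟩ := hul
        exact Or.inl ⟨j, by omega, by simp only [hj, if_true]; exact hju⟩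
      · by_cases huv : u = v
        · exact Or.inl ⟨k, by omega, by simp only [lt_irrefl, if_false]; exact huv⟩
        · refine Or.inr fun j hj => ?_
          by_cases hjk : j < k
          · simp only [hjk, if_true]
            rcases hz3 u hu with h5 | h5
            · exact absurd h5 hul
            · exact h5 j hjk
          · simp only [hjk, if_false]
            have hle : ‖v‖ ≤ ‖u‖ := by
              by_cases hR : ‖u‖ ≤ ‖u₀‖
              · exact hvmin u ⟨⟨hu, hR⟩, fun j hj hju => hul ⟨j, hj, hju⟩⟩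
              · push Not at hR
                exact hv2.trans hR.le
            exact lt_of_le_of_ne hle fun he => huv (h.2 v u hv1 hu he).symm

/-- PROOF.  `‖z i‖ < ‖z j‖ = ‖q z j‖ ≤ ‖τ q z j‖`. -/
theorem starN_of_norm {q : ℂ} (hq : ‖q‖ = 1) {k : ℕ} {z : ℕ → ℂ} (h : First q k z) :
    StarN q k z := by
  intro i j hij hj τ hτ he
  have h1 := h.2.1 i j hij hj
  have h2 : ‖z i‖ = |τ| * ‖z j‖ := by
    rw [he, norm_mul, norm_mul, hq, one_mul, Complex.norm_real, Real.norm_eq_abs]
  have h3 : 1 ≤ |τ| := hτ.trans (le_abs_self τ)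
  nlinarith [norm_nonneg (z j)]

/-- The general theorem: from the frontier of a convex compact set to the set. -/
theorem good_of_frontier (hK : IsCompact K) (hcv : Convex ℝ K) (hi : (interior K).Nonempty)
    (h1 : ∀ q ∈ K, ‖q‖ ≤ 1) (h2 : (1 : ℂ) ∉ K)
    (hB : ∀ q ∈ frontier K, q ≠ 0 → Good q ∧ Star q) {q : ℂ} (hq : q ∈ K) (hq0 : q ≠ 0) :
    Good q := by
  refine good_of_first (h1 q hq) fun k => ?_
  have hB' : ∀ p ∈ frontier K, p ≠ 0 → ∃ z, First p k z ∧ StarN p k z := by
    intro p hp hp0
    have hpK : p ∈ K := hK.isClosed.frontier_subset hp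
    obtain ⟨hg, hs⟩ := hB p hp hp0
    obtain ⟨z, hz⟩ := first_of_good hp0 (h1 p hpK) (fun h => h2 (h ▸ hpK)) hg k
    refine ⟨z, hz, fun i j hij hj τ hτ => ?_⟩
    exact hs (z j) (z i) (hz.1 j hj).1 (hz.1 i (by omega)).1 (hz.2.1 i j hij hj) τ hτ
  obtain ⟨d, w, h⟩ := exists_state hK hcv hi h1 h2 hB'
  exact ⟨_, h.first h1 hq hq0⟩

end SokalHD
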