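import Mathlib

/-! # Continuous logarithms -/

namespace SokalHD

open Complex Set Topology Metric Filter

/-- Piece [HD-D4].
PROOF.  `X × [0,1]` is compact, `φ` is uniformly continuous and `‖φ‖ ≥ m > 0` there.  Choose `N` with
`‖φ q t - φ q t'‖ < m` for `q ∈ X`, `|t - t'| ≤ 1/N`.  Then `φ q ((i+1)/N) / φ q (i/N)` lies in the
ball of radius `1` about `1`, hence in `slitPlane`, and
`ℓ q = ∑_{i<N} log (φ q ((i+1)/N) / φ q (i/N))` is continuous on `X`;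
`exp (ℓ q) = ∏ φ q ((i+1)/N) / φ q (i/N) = φ q 1 / φ q 0` (`Finset.prod_range_div`). -/
theorem exists_log {X : Set ℂ} (hX : IsCompact X) {φ : ℂ → ℝ → ℂ}
    (hφ : ContinuousOn (fun p : ℂ × ℝ => φ p.1 p.2) (X ×ˢ Icc (0 : ℝ) 1))
    (h0 : ∀ q ∈ X, ∀ t ∈ Icc (0 : ℝ) 1, φ q t ≠ 0) (h1 : ∀ q ∈ X, φ q 0 = 1) :
    ∃ ℓ : ℂ → ℂ, ContinuousOn ℓ X ∧ ∀ q ∈ X, exp (ℓ q) = φ q 1 := by
  classical
  rcases X.eq_empty_or_nonempty with rfl | hne
  · exact ⟨fun _ => 0, continuousOn_const, fun q hq => absurd hq (Set.notMem_empty q)⟩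
  have hY : IsCompact (X ×ˢ Icc (0 : ℝ) 1) := hX.prod isCompact_Icc
  obtain ⟨q₀, hq₀⟩ := hne
  obtain ⟨p₀, hp₀, hmin⟩ := hY.exists_isMinOn ⟨(q₀, 0), ⟨hq₀, by simp⟩⟩ hφ.norm
  set m : ℝ := ‖φ p₀.1 p₀.2‖ with hm
  have hm0 : 0 < m := norm_pos_iff.2 (h0 p₀.1 hp₀.1 p₀.2 hp₀.2)
  have hmle : ∀ q ∈ X, ∀ t ∈ Icc (0 : ℝ) 1, m ≤ ‖φ q t‖ := fun q hq t ht =>
    hmin (show (q, t) ∈ X ×ˢ Icc (0 : ℝ) 1 from ⟨hq, ht⟩)
  obtain ⟨δ, hδ, hunif⟩ := Metric.uniformContinuousOn_iff.1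
    (hY.uniformContinuousOn_of_continuous hφ) m hm0
  obtain ⟨n, hn⟩ := exists_nat_one_div_lt hδ
  set N : ℕ := n + 1 with hN
  have hNpos : (0 : ℝ) < N := by rw [hN]; positivity
  have hIcc : ∀ i : ℕ, i ≤ N → (i : ℝ) / N ∈ Icc (0 : ℝ) 1 := by
    intro i hi
    refine ⟨by positivity, ?_⟩
    rw [div_le_one hNpos]
    exact_mod_cast hi
  have hslit : ∀ q ∈ X, ∀ i ∈ Finset.range N,
      φ q (((i + 1 : ℕ) : ℝ) / N) / φ q ((i : ℝ) / N) ∈ slitPlane := by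
    intro q hq i hi
    have hi' := Finset.mem_range.1 hi
    have ht1 := hIcc (i + 1) hi'
    have ht0 := hIcc i hi'.le
    have hd : dist (q, ((i + 1 : ℕ) : ℝ) / N) (q, (i : ℝ) / N) < δ := by
      rw [Prod.dist_eq, dist_self, max_eq_right dist_nonneg, Real.dist_eq]
      have e : ((i + 1 : ℕ) : ℝ) / N - (i : ℝ) / N = 1 / N := by
        push_cast
        ring
      rw [e, abs_of_pos (by positivity)]
      have e2 : (N : ℝ) = (n : ℝ) + 1 := by rw [hN]; push_cast; ring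
      rw [e2]
      exact hn
    have h3 := hunif (q, ((i + 1 : ℕ) : ℝ) / N) ⟨hq, ht1⟩ (q, (i : ℝ) / N) ⟨hq, ht0⟩ hd
    have h4 : ‖φ q (((i + 1 : ℕ) : ℝ) / N) - φ q ((i : ℝ) / N)‖ < m := by
      rw [← dist_eq_norm]
      exact h3
    have hne0 := h0 q hq _ ht0
    have h5 : φ q (((i + 1 : ℕ) : ℝ) / N) / φ q ((i : ℝ) / N)
        = 1 + (φ q (((i + 1 : ℕ) : ℝ) / N) - φ q ((i : ℝ) / N)) / φ q ((i : ℝ) / N) := by
      field_simp
      ring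
    rw [h5]
    apply mem_slitPlane_of_norm_lt_one
    rw [norm_div, div_lt_one (norm_pos_iff.2 hne0)]
    exact h4.trans_le (hmle q hq _ ht0)
  have hcont : ∀ t ∈ Icc (0 : ℝ) 1, ContinuousOn (fun q => φ q t) X := by
    intro t ht
    have h6 : ContinuousOn (fun q : ℂ => ((q, t) : ℂ × ℝ)) X := by fun_prop
    exact hφ.comp h6 (fun q hq => ⟨hq, ht⟩)
  refine ⟨fun q => ∑ i ∈ Finset.range N, log (φ q (((i + 1 : ℕ) : ℝ) / N) / φ q ((i : ℝ) / N)), ?_, ?_⟩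
  · refine continuousOn_finsetSum _ (fun i hi => ?_)
    have hi' := Finset.mem_range.1 hi
    refine ContinuousOn.clog ?_ (fun q hq => hslit q hq i hi)
    exact (hcont _ (hIcc (i + 1) hi')).div (hcont _ (hIcc i hi'.le))
      (fun q hq => h0 q hq _ (hIcc i hi'.le))
  · intro q hq
    rw [Complex.exp_sum]
    have h7 : ∀ i ∈ Finset.range N, exp (log (φ q (((i + 1 : ℕ) : ℝ) / N) / φ q ((i : ℝ) / N)))
        = φ q (((i + 1 : ℕ) : ℝ) / N) / φ q ((i : ℝ) / N) := by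
      intro i hi
      exact exp_log (slitPlane_ne_zero (hslit q hq i hi))
    rw [Finset.prod_congr rfl h7]
    have h8 : ∀ k : ℕ, k ≤ N →
        ∏ i ∈ Finset.range k, φ q (((i + 1 : ℕ) : ℝ) / N) / φ q ((i : ℝ) / N) = φ q ((k : ℝ) / N) := by
      intro k
      induction k with
      | zero =>
        intro _
        rw [Finset.prod_range_zero, Nat.cast_zero, zero_div, h1 q hq]
      | succ k ih =>
        intro hk
        rw [Finset.prod_range_succ, ih (by omega),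
          mul_div_cancel₀ _ (h0 q hq _ (hIcc k (by omega)))]
    rw [h8 N le_rfl, div_self hNpos.ne']

/-- PROOF.  Apply `exists_log` to `φ q t = g (a + t (q - a)) / g a` and add a logarithm of `g a`. -/
theorem exists_log_convex {K : Set ℂ} (hK : IsCompact K) (hc : Convex ℝ K) {a : ℂ} (ha : a ∈ K)
    {g : ℂ → ℂ} (hg : ContinuousOn g K) (h0 : ∀ q ∈ K, g q ≠ 0) :
    ∃ ℓ : ℂ → ℂ, ContinuousOn ℓ K ∧ ∀ q ∈ K, exp (ℓ q) = g q := by
  have hga := h0 a ha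
  have hmem : ∀ q ∈ K, ∀ t ∈ Icc (0 : ℝ) 1, a + (t : ℂ) * (q - a) ∈ K := by
    intro q hq t ht
    have h1 := hc.add_smul_sub_mem ha hq ht
    rwa [Complex.real_smul] at h1
  have k1 : ContinuousOn (fun p : ℂ × ℝ => g (a + (p.2 : ℂ) * (p.1 - a)) / g a)
      (K ×ˢ Icc (0 : ℝ) 1) := by
    refine ContinuousOn.div_const (hg.comp (f := fun p : ℂ × ℝ => a + (p.2 : ℂ) * (p.1 - a)) ?_ ?_) _
    · fun_prop
    · rintro ⟨q, t⟩ ⟨hq, ht⟩
      exact hmem q hq t ht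
  have k2 : ∀ q ∈ K, ∀ t ∈ Icc (0 : ℝ) 1, g (a + (t : ℂ) * (q - a)) / g a ≠ 0 := fun q hq t ht =>
    div_ne_zero (h0 _ (hmem q hq t ht)) hga
  have k3 : ∀ q ∈ K, g (a + ((0 : ℝ) : ℂ) * (q - a)) / g a = 1 := by
    intro q hq
    have e : a + ((0 : ℝ) : ℂ) * (q - a) = a := by
      rw [ofReal_zero]
      ring
    rw [e, div_self hga]
  obtain ⟨ℓ, hℓ, hexp⟩ := exists_log hK (φ := fun q t => g (a + (t : ℂ) * (q - a)) / g a) k1 k2 k3
  refine ⟨fun q => ℓ q + log (g a), hℓ.add continuousOn_const, fun q hq => ?_⟩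
  rw [exp_add, hexp q hq, exp_log hga]
  have e : a + ((1 : ℝ) : ℂ) * (q - a) = q := by
    rw [ofReal_one]
    ring
  rw [e, div_mul_cancel₀ _ hga]

end SokalHD
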