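import Pool.Agent.Lib_MP_af4de1_hd.DEnt

/-! # Part (d): the unique smallest zero depends continuously on `q` -/

namespace SokalHD

open Complex SokalF Filter Topology Metric Set

/-! ## Piece [HD-D11] (this file) -/

private theorem unif_dmin {X : Set ℂ} {c : ℕ → ℂ → ℂ} (hX : IsCompact X) (hc : Ent X c)
    {q₀ : ℂ} (hq₀ : q₀ ∈ X) {T : Set ℂ} (hT : IsCompact T) {m : ℝ} (hm : 0 < m) :
    ∀ᶠ q in 𝓝[X] q₀, ∀ ζ ∈ T, ‖S c q ζ - S c q₀ ζ‖ < m := by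
  have hcont : ContinuousOn (fun p : ℂ × ℂ => S c p.1 p.2) (X ×ˢ T) :=
    hc.continuousOn.mono (prod_mono subset_rfl (subset_univ T))
  have huc := (hX.prod hT).uniformContinuousOn_of_continuous hcont
  obtain ⟨δ, hδ, h⟩ := Metric.uniformContinuousOn_iff.1 huc m hm
  filter_upwards [self_mem_nhdsWithin, mem_nhdsWithin_of_mem_nhds (Metric.ball_mem_nhds q₀ hδ)]
    with q hq hqb ζ hζ
  have h1 := h (q, ζ) ⟨hq, hζ⟩ (q₀, ζ) ⟨hq₀, hζ⟩ (by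
    rw [Prod.dist_eq, dist_self, max_eq_left dist_nonneg]
    exact hqb)
  rwa [dist_eq_norm] at h1

private theorem bound_dmin {X : Set ℂ} {c : ℕ → ℂ → ℂ} (hc : Ent X c)
    {q₀ : ℂ} (hq₀ : q₀ ∈ X) {T : Set ℂ} (hT : IsCompact T) (h0 : ∀ ζ ∈ T, S c q₀ ζ ≠ 0) :
    ∃ m : ℝ, 0 < m ∧ ∀ ζ ∈ T, m ≤ ‖S c q₀ ζ‖ := by
  rcases T.eq_empty_or_nonempty with rfl | hne
  · exact ⟨1, one_pos, fun ζ hζ => absurd hζ (notMem_empty ζ)⟩
  · obtain ⟨x, hx, hmin⟩ := hT.exists_isMinOn hne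
      ((hc.differentiable hq₀).continuous.norm.continuousOn (s := T))
    exact ⟨‖S c q₀ x‖, norm_pos_iff.2 (h0 x hx), fun ζ hζ => hmin hζ⟩

private theorem isolated_dmin {X : Set ℂ} {c : ℕ → ℂ → ℂ} (hc : Ent X c)
    (h1 : ∀ q ∈ X, c 0 q = 1) {q₀ : ℂ} (hq₀ : q₀ ∈ X) (ζ₀ : ℂ) :
    ∃ r : ℝ, 0 < r ∧ ∀ ζ, ζ ≠ ζ₀ → ‖ζ - ζ₀‖ < r → S c q₀ ζ ≠ 0 := by
  have hd := hc.differentiable hq₀
  have han : AnalyticOnNhd ℂ (S c q₀) univ := hd.differentiableOn.analyticOnNhd isOpen_univ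
  rcases (han ζ₀ (mem_univ _)).eventually_eq_zero_or_eventually_ne_zero with h | h
  · exfalso
    have h2 : S c q₀ = fun _ => 0 :=
      han.eq_of_eventuallyEq (g := fun _ => (0 : ℂ)) (fun _ _ => analyticAt_const) h
    have h3 := congrFun h2 0
    rw [S_zero, h1 q₀ hq₀] at h3
    exact one_ne_zero h3
  · rw [eventually_nhdsWithin_iff, Metric.eventually_nhds_iff] at h
    obtain ⟨r, hr, h⟩ := h
    exact ⟨r, hr, fun ζ hne hζ => h (by rwa [dist_eq_norm]) hne⟩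

/-- Zeros persist.
PROOF.  Zeros of `S c q₀` are isolated (`S c q₀` is entire, value `1` at `0`): choose `0 < ε' ≤ ε`
with `S c q₀ ≠ 0` on the sphere `‖ζ - ζ₀‖ = ε'`, `m` the minimum of `‖S c q₀‖` there.  By uniform
continuity of `S c` on compact sets (`Ent.continuousOn`), for `q ∈ X` near `q₀`
`‖S c q - S c q₀‖ < m/2` on the closed ball.  If `S c q` had no zero in the closed ball, the maximum
principle for `1 / S c q` would give `‖S c q ζ₀‖ ≥ min_sphere > m/2`, but `‖S c q ζ₀‖ < m/2`. -/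
theorem zero_persists {X : Set ℂ} {c : ℕ → ℂ → ℂ} (hX : IsCompact X) (hc : Ent X c)
    (h1 : ∀ q ∈ X, c 0 q = 1) {q₀ : ℂ} (hq₀ : q₀ ∈ X) {ζ₀ : ℂ} (h0 : S c q₀ ζ₀ = 0) {ε : ℝ}
    (hε : 0 < ε) : ∀ᶠ q in 𝓝[X] q₀, ∃ ζ, ‖ζ - ζ₀‖ < ε ∧ S c q ζ = 0 := by
  obtain ⟨r, hr, hiso⟩ := isolated_dmin hc h1 hq₀ ζ₀
  obtain ⟨ρ, hρ⟩ : ∃ ρ : ℝ, ρ = min ε r / 2 := ⟨_, rfl⟩
  have hmin : 0 < min ε r := lt_min hε hr
  have hρ0 : 0 < ρ := by rw [hρ]; linarith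
  have hρε : ρ < ε := by rw [hρ]; linarith [min_le_left ε r]
  have hρr : ρ < r := by rw [hρ]; linarith [min_le_right ε r]
  obtain ⟨m, hm, hmb⟩ := bound_dmin hc hq₀ (isCompact_sphere ζ₀ ρ) (fun ζ hζ => by
    rw [mem_sphere_iff_norm] at hζ
    refine hiso ζ (fun e => ?_) (by rw [hζ]; exact hρr)
    rw [e, sub_self, norm_zero] at hζ
    exact hρ0.ne hζ)
  filter_upwards [self_mem_nhdsWithin,
    unif_dmin hX hc hq₀ (isCompact_closedBall ζ₀ ρ) (half_pos hm)] with q hq hu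
  by_contra hcon
  push Not at hcon
  have hd := hc.differentiable hq
  have hne : ∀ ζ ∈ closedBall ζ₀ ρ, S c q ζ ≠ 0 := fun ζ hζ => by
    rw [mem_closedBall_iff_norm] at hζ
    exact hcon ζ (hζ.trans_lt hρε)
  have hdiff : DiffContOnCl ℂ (fun ζ => (S c q ζ)⁻¹) (ball ζ₀ ρ) := by
    refine DifferentiableOn.diffContOnCl ?_
    rw [closure_ball ζ₀ hρ0.ne']
    exact hd.differentiableOn.inv hne
  have hfr : ∀ ζ ∈ frontier (ball ζ₀ ρ), ‖(S c q ζ)⁻¹‖ ≤ (m / 2)⁻¹ := by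
    intro ζ hζ
    rw [frontier_ball ζ₀ hρ0.ne'] at hζ
    rw [norm_inv]
    refine inv_anti₀ (half_pos hm) ?_
    have h2 := hmb ζ hζ
    have h3 := hu ζ (sphere_subset_closedBall hζ)
    have h4 : ‖S c q₀ ζ‖ ≤ ‖S c q ζ‖ + ‖S c q ζ - S c q₀ ζ‖ := by
      have h5 := norm_sub_le (S c q ζ) (S c q ζ - S c q₀ ζ)
      rwa [sub_sub_cancel] at h5
    linarith
  have h5 := Complex.norm_le_of_forall_mem_frontier_norm_le Metric.isBounded_ball hdiff hfr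
    (subset_closure (mem_ball_self hρ0))
  rw [norm_inv] at h5
  have h6 := hu ζ₀ (mem_closedBall_self hρ0.le)
  rw [h0, sub_zero] at h6
  have h7 : 0 < ‖S c q ζ₀‖ := norm_pos_iff.2 (hne ζ₀ (mem_closedBall_self hρ0.le))
  have h8 := (inv_le_inv₀ h7 (half_pos hm)).1 h5
  linarith

/-- PROOF.  Let `q₀ ∈ X`, `ε > 0`.  Suppose `w q ∉ ball (w q₀) ε` for `q ∈ X` arbitrarily close to
`q₀`; choose a sequence `q n → q₀`.  By `zero_persists`, `‖w (q n)‖ ≤ ‖w q₀‖ + δ` eventually for each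
`δ > 0` (`w (q n)` is the smallest zero), so a subsequence of `w (q n)` converges to some `ζ*` with
`‖ζ*‖ ≤ ‖w q₀‖`, `S c q₀ ζ* = 0` (`Ent.continuousOn`), `‖ζ* - w q₀‖ ≥ ε`: contradiction with
`hmin`. -/
theorem continuousOn_min {X : Set ℂ} {c : ℕ → ℂ → ℂ} (hX : IsCompact X) (hc : Ent X c)
    (h1 : ∀ q ∈ X, c 0 q = 1) {w : ℂ → ℂ} (hw : ∀ q ∈ X, S c q (w q) = 0)
    (hmin : ∀ q ∈ X, ∀ ζ, S c q ζ = 0 → ‖w q‖ < ‖ζ‖ ∨ ζ = w q) : ContinuousOn w X := by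
  intro q₀ hq₀
  rw [ContinuousWithinAt, Metric.tendsto_nhds]
  intro ε hε
  -- a radius `‖w q₀‖ + δ` such that `S c q₀` has no zero outside `ball (w q₀) ε` up to this radius
  obtain ⟨δ, hδ, hzf⟩ : ∃ δ : ℝ, 0 < δ ∧ ∀ ζ ∈ closedBall (0 : ℂ) (‖w q₀‖ + δ) \ ball (w q₀) ε,
      S c q₀ ζ ≠ 0 := by
    obtain ⟨A, hA⟩ : ∃ A : Set ℂ, A = (closedBall (0 : ℂ) (‖w q₀‖ + 1) \ ball (w q₀) ε) ∩
        S c q₀ ⁻¹' {0} := ⟨_, rfl⟩
    have hAc : IsCompact A := by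
      rw [hA]
      exact ((isCompact_closedBall _ _).diff isOpen_ball).inter_right
        (isClosed_singleton.preimage (hc.differentiable hq₀).continuous)
    rcases A.eq_empty_or_nonempty with he | hne
    · refine ⟨1, one_pos, fun ζ hζ h => ?_⟩
      have : ζ ∈ A := by rw [hA]; exact ⟨hζ, h⟩
      rw [he] at this
      exact this
    · obtain ⟨x, hx, hxm⟩ := hAc.exists_isMinOn hne continuous_norm.continuousOn
      have hx' := hx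
      rw [hA] at hx'
      have h2 : ‖w q₀‖ < ‖x‖ := by
        rcases hmin q₀ hq₀ x hx'.2 with h | h
        · exact h
        · exfalso
          refine hx'.1.2 ?_
          rw [h]
          exact mem_ball_self hε
      have h3 : ‖x‖ ≤ ‖w q₀‖ + 1 := by
        have := hx'.1.1
        rwa [mem_closedBall_zero_iff] at this
      refine ⟨(‖x‖ - ‖w q₀‖) / 2, by linarith, fun ζ hζ h => ?_⟩
      have h4 : ‖ζ‖ ≤ ‖w q₀‖ + (‖x‖ - ‖w q₀‖) / 2 := by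
        have := hζ.1
        rwa [mem_closedBall_zero_iff] at this
      have h5 : ζ ∈ A := by
        rw [hA]
        refine ⟨⟨?_, hζ.2⟩, h⟩
        rw [mem_closedBall_zero_iff]
        linarith
      have h6 : ‖x‖ ≤ ‖ζ‖ := hxm h5
      linarith
  obtain ⟨m, hm, hmb⟩ := bound_dmin hc hq₀
    ((isCompact_closedBall (0 : ℂ) (‖w q₀‖ + δ)).diff (isOpen_ball (x := w q₀) (ε := ε))) hzf
  filter_upwards [self_mem_nhdsWithin,
    unif_dmin hX hc hq₀ ((isCompact_closedBall (0 : ℂ) (‖w q₀‖ + δ)).diff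
      (isOpen_ball (x := w q₀) (ε := ε))) hm,
    zero_persists hX hc h1 hq₀ (hw q₀ hq₀) hδ] with q hq hu hz
  obtain ⟨ζ, hζ, hζ0⟩ := hz
  have h2 : ‖w q‖ ≤ ‖w q₀‖ + δ := by
    have h3 : ‖w q‖ ≤ ‖ζ‖ := by
      rcases hmin q hq ζ hζ0 with h | h
      · exact h.le
      · rw [h]
    have h4 : ‖ζ‖ ≤ ‖w q₀‖ + ‖ζ - w q₀‖ := by
      have h5 := norm_add_le (w q₀) (ζ - w q₀)
      rwa [add_sub_cancel] at h5
    linarith
  by_contra hcon
  have h3 : w q ∈ closedBall (0 : ℂ) (‖w q₀‖ + δ) \ ball (w q₀) ε :=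
    ⟨mem_closedBall_zero_iff.2 h2, hcon⟩
  have h4 := hu _ h3
  rw [hw q hq, zero_sub, norm_neg] at h4
  exact absurd (hmb _ h3) (not_le.2 h4)

end SokalHD
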