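import Pool.Agent.Lib_MP_af4de1_hd.DDefs

/-!
# The imaginary ray `q = s i`, `0 < s ≤ 1`: series

`F(x;s) = e(x²) + x o(x²)` and `F(z; s i) = e(i z²) + z o(-i z²)`.
-/

namespace SokalHD

open Complex SokalF Filter Topology Metric Set

/-- Even part: `e(x) = ∑ q^(j(2j-1)) x^j / (2j)!`. -/
noncomputable def ev (q x : ℂ) : ℂ :=
  ∑' j : ℕ, q ^ (j * (2 * j - 1)) * x ^ j / ((2 * j).factorial : ℂ)

/-- Odd part: `o(x) = ∑ q^(j(2j+1)) x^j / (2j+1)!`. -/
noncomputable def od (q x : ℂ) : ℂ :=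
  ∑' j : ℕ, q ^ (j * (2 * j + 1)) * x ^ j / ((2 * j + 1).factorial : ℂ)

private theorem fact_le_HDR1 (j : ℕ) : (j.factorial : ℝ) ≤ ((2 * j).factorial : ℝ) := by
  exact_mod_cast Nat.factorial_le (by omega)

private theorem fact_le2_HDR1 (j : ℕ) : (j.factorial : ℝ) ≤ ((2 * j + 1).factorial : ℝ) := by
  exact_mod_cast Nat.factorial_le (by omega)

private theorem term_le_HDR1 {a : ℕ → ℂ} (ha : ∀ j, ‖a j‖ ≤ 1 / (j.factorial : ℝ)) (x : ℂ) (j : ℕ) :
    ‖a j * x ^ j‖ ≤ ‖x‖ ^ j / (j.factorial : ℝ) := by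
  rw [norm_mul, norm_pow]
  calc ‖a j‖ * ‖x‖ ^ j ≤ 1 / (j.factorial : ℝ) * ‖x‖ ^ j :=
        mul_le_mul_of_nonneg_right (ha j) (by positivity)
    _ = ‖x‖ ^ j / (j.factorial : ℝ) := by ring

private theorem summ_HDR1 {a : ℕ → ℂ} (ha : ∀ j, ‖a j‖ ≤ 1 / (j.factorial : ℝ)) (x : ℂ) :
    Summable fun j : ℕ => a j * x ^ j :=
  Summable.of_norm_bounded (Real.summable_pow_div_factorial ‖x‖) (term_le_HDR1 ha x)

private theorem sumR_HDR1 (R : ℝ) :
    Summable fun k : ℕ => (k : ℝ) * R ^ (k - 1) / (Nat.factorial k : ℝ) := by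
  rw [← summable_nat_add_iff 1]
  refine (Real.summable_pow_div_factorial R).congr fun k => ?_
  rw [Nat.add_sub_cancel, Nat.factorial_succ]
  push_cast
  field_simp

private theorem dterm_le_HDR1 {a : ℕ → ℂ} (ha : ∀ j, ‖a j‖ ≤ 1 / (j.factorial : ℝ)) {x : ℂ} {R : ℝ}
    (hx : ‖x‖ ≤ R) (k : ℕ) :
    ‖a k * (k * x ^ (k - 1))‖ ≤ (k : ℝ) * R ^ (k - 1) / (Nat.factorial k : ℝ) := by
  rw [norm_mul, norm_mul, norm_pow, Complex.norm_natCast]
  have hR : 0 ≤ R := (norm_nonneg x).trans hx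
  calc ‖a k‖ * ((k : ℝ) * ‖x‖ ^ (k - 1)) ≤ 1 / (k.factorial : ℝ) * ((k : ℝ) * R ^ (k - 1)) := by
        refine mul_le_mul (ha k) ?_ (by positivity) (by positivity)
        gcongr
    _ = (k : ℝ) * R ^ (k - 1) / (Nat.factorial k : ℝ) := by ring

private theorem hasDeriv_HDR1 {a : ℕ → ℂ} (ha : ∀ j, ‖a j‖ ≤ 1 / (j.factorial : ℝ)) (x : ℂ) :
    HasDerivAt (fun w : ℂ => ∑' j, a j * w ^ j) (∑' k : ℕ, a k * (k * x ^ (k - 1))) x := by
  set R : ℝ := ‖x‖ + 1 with hR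
  have hR0 : 0 ≤ R := by positivity
  have hz : x ∈ Metric.ball (0 : ℂ) R := by
    rw [mem_ball_zero_iff, hR]; linarith
  exact hasDerivAt_tsum_of_isPreconnected (𝕜 := ℂ) (F := ℂ)
    (g := fun (k : ℕ) (w : ℂ) => a k * w ^ k)
    (g' := fun (k : ℕ) (w : ℂ) => a k * (k * w ^ (k - 1)))
    (y₀ := x) (y := x) (sumR_HDR1 R) Metric.isOpen_ball (convex_ball (0 : ℂ) R).isPreconnected
    (by
      intro k w _
      exact (hasDerivAt_pow k w).const_mul _)
    (by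
      intro k w hw
      rw [mem_ball_zero_iff] at hw
      exact dterm_le_HDR1 ha hw.le k)
    hz (summ_HDR1 ha x) hz

private theorem dsumm_HDR1 {a : ℕ → ℂ} (ha : ∀ j, ‖a j‖ ≤ 1 / (j.factorial : ℝ)) (x : ℂ) :
    Summable fun k : ℕ => a k * (k * x ^ (k - 1)) :=
  Summable.of_norm_bounded (sumR_HDR1 ‖x‖) (dterm_le_HDR1 ha le_rfl)

/-- the coefficients of the even part -/
private noncomputable def ea_HDR1 (q : ℂ) (j : ℕ) : ℂ := q ^ (j * (2 * j - 1)) / ((2 * j).factorial : ℂ)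

/-- the coefficients of the odd part -/
private noncomputable def oa_HDR1 (q : ℂ) (j : ℕ) : ℂ :=
  q ^ (j * (2 * j + 1)) / ((2 * j + 1).factorial : ℂ)

private theorem ev_eq_HDR1 (q : ℂ) : ev q = fun x => ∑' j, ea_HDR1 q j * x ^ j := by
  funext x
  unfold ev ea_HDR1
  exact tsum_congr fun j => by ring

private theorem od_eq_HDR1 (q : ℂ) : od q = fun x => ∑' j, oa_HDR1 q j * x ^ j := by
  funext x
  unfold od oa_HDR1
  exact tsum_congr fun j => by ring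

private theorem ea_le_HDR1 {q : ℂ} (hq : ‖q‖ ≤ 1) (j : ℕ) : ‖ea_HDR1 q j‖ ≤ 1 / (j.factorial : ℝ) := by
  unfold ea_HDR1
  rw [norm_div, norm_pow, Complex.norm_natCast]
  exact div_le_div₀ zero_le_one (pow_le_one₀ (norm_nonneg _) hq) (by positivity) (fact_le_HDR1 j)

private theorem oa_le_HDR1 {q : ℂ} (hq : ‖q‖ ≤ 1) (j : ℕ) : ‖oa_HDR1 q j‖ ≤ 1 / (j.factorial : ℝ) := by
  unfold oa_HDR1
  rw [norm_div, norm_pow, Complex.norm_natCast]
  exact div_le_div₀ zero_le_one (pow_le_one₀ (norm_nonneg _) hq) (by positivity) (fact_le2_HDR1 j)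

/-! ## Piece [HD-R1] (this file) -/

theorem ev_zero (q : ℂ) : ev q 0 = 1 := by
  unfold ev
  rw [tsum_eq_single 0]
  · simp
  · intro k hk
    simp [hk]

theorem od_zero (q : ℂ) : od q 0 = 1 := by
  unfold od
  rw [tsum_eq_single 0]
  · simp
  · intro k hk
    simp [hk]

/-- PROOF.  `tsum_even_add_odd` (`Summable`: `summable_term`), `2j(2j-1)/2 = j(2j-1)`,
`(2j+1)(2j)/2 = j(2j+1)`. -/
theorem F_eq_even_odd {q : ℂ} (hq : ‖q‖ ≤ 1) (x : ℂ) : F q x = ev q (x ^ 2) + x * od q (x ^ 2) := by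
  have hs := summable_term hq x
  have he : Summable fun j : ℕ => q ^ ((2 * j) * ((2 * j) - 1) / 2) * x ^ (2 * j) /
      (Nat.factorial (2 * j) : ℂ) :=
    hs.comp_injective (i := fun j : ℕ => 2 * j) fun a b h => by
      have : 2 * a = 2 * b := h
      omega
  have ho : Summable fun j : ℕ => q ^ ((2 * j + 1) * ((2 * j + 1) - 1) / 2) * x ^ (2 * j + 1) /
      (Nat.factorial (2 * j + 1) : ℂ) :=
    hs.comp_injective (i := fun j : ℕ => 2 * j + 1) fun a b h => by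
      have : 2 * a + 1 = 2 * b + 1 := h
      omega
  have h := tsum_even_add_odd (f := fun k : ℕ => q ^ (k * (k - 1) / 2) * x ^ k /
    (Nat.factorial k : ℂ)) he ho
  have hF : F q x = ∑' k : ℕ, q ^ (k * (k - 1) / 2) * x ^ k / (Nat.factorial k : ℂ) := rfl
  rw [hF, ← h]
  congr 1
  · unfold ev
    refine tsum_congr fun j => ?_
    rw [mul_assoc 2 j, Nat.mul_div_cancel_left _ two_pos, pow_mul x]
  · unfold od
    rw [← tsum_mul_left]
    refine tsum_congr fun j => ?_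
    have h1 : (2 * j + 1) * ((2 * j + 1) - 1) / 2 = j * (2 * j + 1) := by
      rw [Nat.add_sub_cancel, mul_comm, mul_assoc, Nat.mul_div_cancel_left _ two_pos]
    rw [h1, pow_succ, pow_mul x]
    ring

private theorem I_even_HDR1 (j : ℕ) : I ^ (j * (2 * j - 1)) = I ^ j := by
  rcases j with _ | i
  · simp
  · obtain ⟨m, hm⟩ := Nat.even_mul_succ_self i
    have h : (i + 1) * (2 * (i + 1) - 1) = (i + 1) + 4 * m := by
      have h1 : 2 * (i + 1) - 1 = 2 * i + 1 := by omega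
      rw [h1]
      nlinarith
    rw [h, pow_add, pow_mul, I_pow_four, one_pow, mul_one]

private theorem I_odd_HDR1 (j : ℕ) : I ^ (j * (2 * j + 1)) = (-I) ^ j := by
  rcases j with _ | i
  · simp
  · obtain ⟨m, hm⟩ := Nat.even_mul_succ_self i
    have h : (i + 1) * (2 * (i + 1) + 1) = 3 * (i + 1) + 4 * m := by nlinarith
    rw [h, pow_add, pow_mul, pow_mul, I_pow_four, one_pow, mul_one, I_pow_three]

/-- PROOF.  Same; `(s I)^(j(2j-1)) = s^(j(2j-1)) I^j` and `(s I)^(j(2j+1)) = s^(j(2j+1)) (-I)^j`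
(`I^(j(2j-1)) · I^j = I^(2j²) = (-1)^j` ... ; induction on `j` or `I^4 = 1`). -/
theorem F_I {q : ℂ} (hq : ‖q‖ ≤ 1) (z : ℂ) :
    F (q * I) z = ev q (I * z ^ 2) + z * od q (-(I * z ^ 2)) := by
  have hq' : ‖q * I‖ ≤ 1 := by
    rw [norm_mul, norm_I, mul_one]
    exact hq
  rw [F_eq_even_odd hq']
  congr 1
  · unfold ev
    refine tsum_congr fun j => ?_
    rw [mul_pow, I_even_HDR1, mul_pow I]
    ring
  · congr 1
    unfold od
    refine tsum_congr fun j => ?_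
    rw [mul_pow, I_odd_HDR1, ← neg_mul, mul_pow (-I)]
    ring

/-- PROOF.  Termwise differentiation as in `SokalF.hasDerivAt_F`:
`e'(x) = (q/2) o(q² x)`, since `(i+1)(2i+1) = i(2i+1) + 2i + 1`. -/
theorem hasDerivAt_ev {q : ℂ} (hq : ‖q‖ ≤ 1) (x : ℂ) :
    HasDerivAt (ev q) (q / 2 * od q (q ^ 2 * x)) x := by
  have h := hasDeriv_HDR1 (ea_le_HDR1 hq) x
  rw [ev_eq_HDR1]
  convert h using 1
  rw [(dsumm_HDR1 (ea_le_HDR1 hq) x).tsum_eq_zero_add]
  simp only [CharP.cast_eq_zero, zero_mul, mul_zero, zero_add]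
  unfold od
  rw [← tsum_mul_left]
  refine tsum_congr fun j => ?_
  unfold ea_HDR1
  have h1 : (j + 1) * (2 * (j + 1) - 1) = j * (2 * j + 1) + 2 * j + 1 := by
    have : 2 * (j + 1) - 1 = 2 * j + 1 := by omega
    rw [this]
    ring
  have h2 : ((2 * (j + 1)).factorial : ℂ) = (2 * (j + 1)) * ((2 * j + 1).factorial : ℂ) := by
    have : 2 * (j + 1) = (2 * j + 1) + 1 := by ring
    rw [this, Nat.factorial_succ]
    push_cast
    ring
  have h3 : ((2 * j + 1).factorial : ℂ) ≠ 0 := by exact_mod_cast Nat.factorial_ne_zero _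
  have h4 : ((j : ℂ) + 1) ≠ 0 := by exact_mod_cast Nat.succ_ne_zero j
  rw [h1, h2, Nat.add_sub_cancel, mul_pow, ← pow_mul, pow_add, pow_add, pow_one]
  push_cast
  field_simp

private theorem hasDerivAt_od_HDR1 {q : ℂ} (hq : ‖q‖ ≤ 1) (x : ℂ) :
    HasDerivAt (od q) (∑' k : ℕ, oa_HDR1 q k * (k * x ^ (k - 1))) x := by
  rw [od_eq_HDR1]
  exact hasDeriv_HDR1 (oa_le_HDR1 hq) x

/-- PROOF.  Power series with infinite radius. -/
theorem differentiable_od {q : ℂ} (hq : ‖q‖ ≤ 1) : Differentiable ℂ (od q) :=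
  fun x => (hasDerivAt_od_HDR1 hq x).differentiableAt

/-- PROOF.  `∑ q^(j(2j+1)) (1+2j) x^j/(2j+1)! = ∑ q^(j(2j-1)) (q² x)^j/(2j)!`. -/
theorem od_deriv {q : ℂ} (hq : ‖q‖ ≤ 1) (x : ℂ) :
    od q x + 2 * x * deriv (od q) x = ev q (q ^ 2 * x) := by
  rw [(hasDerivAt_od_HDR1 hq x).deriv, ← tsum_mul_left]
  have h1 : od q x = ∑' j, oa_HDR1 q j * x ^ j := by rw [od_eq_HDR1]
  rw [h1, ← (summ_HDR1 (oa_le_HDR1 hq) x).tsum_add ((dsumm_HDR1 (oa_le_HDR1 hq) x).mul_left _)]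
  unfold ev
  refine tsum_congr fun j => ?_
  have h3 : ((2 * j).factorial : ℂ) ≠ 0 := by exact_mod_cast Nat.factorial_ne_zero _
  have h4 : ((2 : ℂ) * j + 1) ≠ 0 := by exact_mod_cast Nat.succ_ne_zero (2 * j)
  have h2 : ((2 * j + 1).factorial : ℂ) = (2 * j + 1) * ((2 * j).factorial : ℂ) := by
    rw [Nat.factorial_succ]
    push_cast
    ring
  have h5 : j * (2 * j + 1) = j * (2 * j - 1) + 2 * j := by
    rcases j with _ | i
    · rfl
    · have : 2 * (i + 1) - 1 = 2 * i + 1 := by omega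
      rw [this]
      ring
  have h6 : 2 * x * (oa_HDR1 q j * (j * x ^ (j - 1))) = oa_HDR1 q j * (2 * j * x ^ j) := by
    rcases j with _ | i
    · simp
    · rw [Nat.add_sub_cancel, pow_succ]
      ring
  rw [h6]
  unfold oa_HDR1
  rw [h2, h5, pow_add, mul_pow, ← pow_mul]
  field_simp
  ring

theorem ev_conj (s : ℝ) (x : ℂ) :
    ev s ((starRingEnd ℂ) x) = (starRingEnd ℂ) (ev s x) := by
  unfold ev
  rw [Complex.conj_tsum]
  refine tsum_congr fun j => ?_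
  rw [map_div₀, map_mul, map_pow, map_pow, Complex.conj_ofReal, Complex.conj_natCast]

theorem od_conj (s : ℝ) (x : ℂ) :
    od s ((starRingEnd ℂ) x) = (starRingEnd ℂ) (od s x) := by
  unfold od
  rw [Complex.conj_tsum]
  refine tsum_congr fun j => ?_
  rw [map_div₀, map_mul, map_pow, map_pow, Complex.conj_ofReal, Complex.conj_natCast]

private theorem norm_le_HDR1 {s : ℝ} (hs : 0 ≤ s) (hs1 : s ≤ 1) : ‖(s : ℂ)‖ ≤ 1 := by
  rw [Complex.norm_real, Real.norm_of_nonneg hs]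
  exact hs1

/-- PROOF.  A sum of nonnegative reals with first term `1`. -/
theorem ev_pos {s : ℝ} (hs : 0 ≤ s) (hs1 : s ≤ 1) {x : ℝ} (hx : 0 ≤ x) :
    ∃ r : ℝ, 0 < r ∧ ev s x = r := by
  have hsum := summ_HDR1 (ea_le_HDR1 (norm_le_HDR1 hs hs1)) (x : ℂ)
  have hr : ∀ j, ea_HDR1 s j * (x : ℂ) ^ j =
      ((s ^ (j * (2 * j - 1)) / ((2 * j).factorial : ℝ) * x ^ j : ℝ) : ℂ) := by
    intro j
    unfold ea_HDR1
    push_cast
    ring
  have hsum' : Summable fun j : ℕ => s ^ (j * (2 * j - 1)) / ((2 * j).factorial : ℝ) * x ^ j := by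
    rw [← Complex.summable_ofReal]
    exact hsum.congr hr
  refine ⟨∑' j : ℕ, s ^ (j * (2 * j - 1)) / ((2 * j).factorial : ℝ) * x ^ j, ?_, ?_⟩
  · refine hsum'.tsum_pos (fun j => by positivity) 0 ?_
    simp
  · rw [ev_eq_HDR1, Complex.ofReal_tsum]
    exact tsum_congr hr

theorem od_pos {s : ℝ} (hs : 0 ≤ s) (hs1 : s ≤ 1) {x : ℝ} (hx : 0 ≤ x) :
    ∃ r : ℝ, 0 < r ∧ od s x = r := by
  have hsum := summ_HDR1 (oa_le_HDR1 (norm_le_HDR1 hs hs1)) (x : ℂ)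
  have hr : ∀ j, oa_HDR1 s j * (x : ℂ) ^ j =
      ((s ^ (j * (2 * j + 1)) / ((2 * j + 1).factorial : ℝ) * x ^ j : ℝ) : ℂ) := by
    intro j
    unfold oa_HDR1
    push_cast
    ring
  have hsum' : Summable fun j : ℕ =>
      s ^ (j * (2 * j + 1)) / ((2 * j + 1).factorial : ℝ) * x ^ j := by
    rw [← Complex.summable_ofReal]
    exact hsum.congr hr
  refine ⟨∑' j : ℕ, s ^ (j * (2 * j + 1)) / ((2 * j + 1).factorial : ℝ) * x ^ j, ?_, ?_⟩
  · refine hsum'.tsum_pos (fun j => by positivity) 0 ?_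
    simp
  · rw [od_eq_HDR1, Complex.ofReal_tsum]
    exact tsum_congr hr

/-- `F(conj z; conj q) = conj F(z; q)`. -/
theorem F_conj (q z : ℂ) :
    F ((starRingEnd ℂ) q) ((starRingEnd ℂ) z) = (starRingEnd ℂ) (F q z) := by
  unfold F
  rw [Complex.conj_tsum]
  refine tsum_congr fun j => ?_
  rw [map_div₀, map_mul, map_pow, map_pow, Complex.conj_natCast]

end SokalHD
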