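import Pool.Agent.Lib_MP_af4de1_hd.DRay1
import Pool.Agent.Lib_MP_af4de1_Ray.Limit

/-!
# The imaginary ray: the functions `e`, `o` have only negative zeros

`h n x = E s n (x/n) = ∏_{j<n} (1 + τ_j x)`, `τ_j > 0`, `∑ τ_j = 1` (library `Lib_MP_af4de1_Ray`), `h n → F s`
locally uniformly; `h n x = e_n(x²) + x o_n(x²)` with polynomials `e_n`, `o_n`.
-/

namespace SokalHD

open Complex SokalF SokalRay Filter Topology Metric Set

/-! ## Piece [HD-R2] (this block) -/

/-- Real rootedness of the approximants.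
PROOF.  `rooted` (`s < 1`) resp. `E_one` (`s = 1`), `power_sums`: `t_j / n`; the file
`Lib_MP_af4de1_Ray/Limit.lean`, theorem `approx`, contains this argument. -/
theorem approx_real {s : ℝ} (hs0 : 0 < s) (hs1 : s ≤ 1) {n : ℕ} (hn : 0 < n) :
    ∃ t : ℕ → ℝ, (∀ j < n, 0 < t j) ∧ (∑ j ∈ Finset.range n, t j = 1) ∧
      ∀ x : ℂ, E s n (x / n) = ∏ j ∈ Finset.range n, (1 + t j * x) := by
  have hn0 : (0 : ℝ) < n := by exact_mod_cast hn
  obtain ⟨t, ht, he⟩ : ∃ t : ℕ → ℝ, (∀ j < n, 0 < t j) ∧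
      ∀ x : ℂ, E s n x = ∏ j ∈ Finset.range n, (1 + t j * x) := by
    rcases hs1.lt_or_eq with h | rfl
    · obtain ⟨t, ht, -, he⟩ := rooted hs0 h n
      exact ⟨t, ht, he⟩
    · refine ⟨fun _ => 1, fun _ _ => one_pos, fun x => ?_⟩
      have := E_one n x
      simpa using this
  obtain ⟨p1, -⟩ := power_sums he
  refine ⟨fun j => t j / n, fun j hj => div_pos (ht j hj) hn0, ?_, fun x => ?_⟩
  · rw [← Finset.sum_div, p1]
    exact div_self hn0.ne'
  · rw [he]
    refine Finset.prod_congr rfl fun j _ => ?_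
    push_cast
    ring

/-- Auxiliary: `∏ (1 + a_j) ≥ 1 + ∑ a_j` for `a_j ≥ 0`. -/
private theorem one_add_sum_le (a : ℕ → ℝ) (n : ℕ) (ha : ∀ j < n, 0 ≤ a j) :
    1 + ∑ j ∈ Finset.range n, a j ≤ ∏ j ∈ Finset.range n, (1 + a j) := by
  induction n with
  | zero => simp
  | succ n ih =>
    rw [Finset.sum_range_succ, Finset.prod_range_succ]
    have h1 := ih fun j hj => ha j (by omega)
    have h2 := ha n (by omega)
    have h3 : 0 ≤ ∑ j ∈ Finset.range n, a j :=
      Finset.sum_nonneg fun j hj => ha j (by have := Finset.mem_range.1 hj; omega)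
    nlinarith

/-- Auxiliary: the estimate for one factor. -/
private theorem factor_norm {t : ℝ} (ht0 : 0 < t) (ht1 : t ≤ 1) {x : ℂ} (hx : 0 < x.re) :
    1 ≤ ‖1 + (t : ℂ) * x‖ ^ 2 ∧ (1 + t * (4 * x.re / (1 + ‖x‖) ^ 2)) * ‖1 + (t : ℂ) * (-x)‖ ^ 2 ≤
      ‖1 + (t : ℂ) * x‖ ^ 2 := by
  have h1 : ‖1 + (t : ℂ) * x‖ ^ 2 = (1 + t * x.re) ^ 2 + (t * x.im) ^ 2 := by
    rw [← Complex.normSq_eq_norm_sq, Complex.normSq_apply]
    simp
    ring
  have h2 : ‖1 + (t : ℂ) * (-x)‖ ^ 2 = (1 - t * x.re) ^ 2 + (t * x.im) ^ 2 := by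
    rw [← Complex.normSq_eq_norm_sq, Complex.normSq_apply]
    simp
    ring
  have h3 : ‖1 + (t : ℂ) * (-x)‖ ≤ 1 + ‖x‖ := by
    refine (norm_add_le _ _).trans ?_
    rw [norm_one, norm_mul, norm_neg, Complex.norm_real, Real.norm_of_nonneg ht0.le]
    have := norm_nonneg x
    nlinarith
  have h4 : ‖1 + (t : ℂ) * (-x)‖ ^ 2 ≤ (1 + ‖x‖) ^ 2 := pow_le_pow_left₀ (norm_nonneg _) h3 2
  have h5 : 0 < (1 + ‖x‖) ^ 2 := by have := norm_nonneg x; positivity
  have h6 : 0 < t * x.re := mul_pos ht0 hx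
  constructor
  · rw [h1]
    nlinarith [sq_nonneg (t * x.im), sq_nonneg (t * x.re)]
  · have h7 : t * (4 * x.re / (1 + ‖x‖) ^ 2) * ‖1 + (t : ℂ) * (-x)‖ ^ 2 ≤ 4 * (t * x.re) := by
      calc t * (4 * x.re / (1 + ‖x‖) ^ 2) * ‖1 + (t : ℂ) * (-x)‖ ^ 2
          ≤ t * (4 * x.re / (1 + ‖x‖) ^ 2) * (1 + ‖x‖) ^ 2 := by
            refine mul_le_mul_of_nonneg_left h4 ?_
            positivity
        _ = 4 * (t * x.re) := by field_simp
    rw [add_mul, one_mul]
    refine (add_le_add_right h7 _).trans ?_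
    rw [h1, h2]
    nlinarith

/-- PROOF.  `‖1 + t x‖² - ‖1 - t x‖² = 4 t Re x`, `‖1 - t x‖ ≤ 1 + ‖x‖` for `0 < t ≤ 1`, so
`‖1 + t_j x‖² ≥ (1 + 4 t_j Re x/(1 + ‖x‖)²) ‖1 - t_j x‖²`; product: `∏ (1 + a_j) ≥ 1 + ∑ a_j`
(`Finset.one_add_sum_le_prod_one_add` or induction), `∑ t_j = 1`.  And `‖1 + t x‖ ≥ 1`. -/
theorem approx_norm {s : ℝ} (hs0 : 0 < s) (hs1 : s ≤ 1) {n : ℕ} (hn : 0 < n) {x : ℂ}
    (hx : 0 < x.re) : 1 ≤ ‖E s n (x / n)‖ ∧
      (1 + 4 * x.re / (1 + ‖x‖) ^ 2) * ‖E s n (-x / n)‖ ^ 2 ≤ ‖E s n (x / n)‖ ^ 2 := by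
  obtain ⟨t, ht, hsum, he⟩ := approx_real hs0 hs1 hn
  have hle1 : ∀ j < n, t j ≤ 1 := fun j hj => by
    rw [← hsum]
    exact Finset.single_le_sum (f := t) (fun i hi => (ht i (Finset.mem_range.1 hi)).le)
      (Finset.mem_range.2 hj)
  rw [he x, he (-x), norm_prod, norm_prod]
  have hf := fun (j : ℕ) (hj : j < n) => factor_norm (ht j hj) (hle1 j hj) hx
  have hc : 0 ≤ 4 * x.re / (1 + ‖x‖) ^ 2 := by
    have := norm_nonneg x
    positivity
  constructor
  · have h1 : ∀ j ∈ Finset.range n, (1 : ℝ) ≤ ‖1 + (t j : ℂ) * x‖ := by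
      intro j hj
      have h2 := (hf j (Finset.mem_range.1 hj)).1
      nlinarith [norm_nonneg (1 + (t j : ℂ) * x)]
    have h3 := Finset.prod_le_prod (s := Finset.range n) (f := fun _ => (1 : ℝ))
      (g := fun j => ‖1 + (t j : ℂ) * x‖) (fun _ _ => zero_le_one) h1
    rwa [Finset.prod_const_one] at h3
  · rw [← Finset.prod_pow, ← Finset.prod_pow]
    have h1 : 1 + 4 * x.re / (1 + ‖x‖) ^ 2 ≤
        ∏ j ∈ Finset.range n, (1 + t j * (4 * x.re / (1 + ‖x‖) ^ 2)) := by
      refine le_trans (le_of_eq ?_) (one_add_sum_le _ n fun j hj => ?_)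
      · rw [← Finset.sum_mul, hsum, one_mul]
      · exact mul_nonneg (ht j hj).le hc
    refine (mul_le_mul_of_nonneg_right h1 (Finset.prod_nonneg fun j _ => by positivity)).trans ?_
    rw [← Finset.prod_mul_distrib]
    refine Finset.prod_le_prod (fun j hj => ?_) fun j hj => (hf j (Finset.mem_range.1 hj)).2
    have := mul_nonneg (ht j (Finset.mem_range.1 hj)).le hc
    positivity

/-- PROOF.  Limit of `approx_norm` (`tendsto_E` at the points `x`, `-x`). -/
theorem F_norm {s : ℝ} (hs0 : 0 < s) (hs1 : s ≤ 1) {x : ℂ} (hx : 0 < x.re) :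
    1 ≤ ‖F s x‖ ∧ (1 + 4 * x.re / (1 + ‖x‖) ^ 2) * ‖F s (-x)‖ ^ 2 ≤ ‖F s x‖ ^ 2 := by
  have hq : ‖(s : ℂ)‖ ≤ 1 := by
    rw [Complex.norm_real, Real.norm_of_nonneg hs0.le]
    exact hs1
  have h1 : Tendsto (fun n : ℕ => ‖E s n (x / n)‖) atTop (𝓝 ‖F s x‖) :=
    ((tendsto_E hq).tendsto_at (Set.mem_univ x)).norm
  have h2 : Tendsto (fun n : ℕ => ‖E s n (-x / n)‖) atTop (𝓝 ‖F s (-x)‖) :=
    ((tendsto_E hq).tendsto_at (Set.mem_univ (-x))).norm
  constructor
  · refine ge_of_tendsto h1 ?_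
    filter_upwards [eventually_gt_atTop 0] with n hn
    exact (approx_norm hs0 hs1 hn hx).1
  · refine le_of_tendsto_of_tendsto ((h2.pow 2).const_mul _) (h1.pow 2) ?_
    filter_upwards [eventually_gt_atTop 0] with n hn
    exact (approx_norm hs0 hs1 hn hx).2

/-- Auxiliary: `F s x ≠ ± F s (-x)` in terms of norms. -/
private theorem F_norm_ne {s : ℝ} (hs0 : 0 < s) (hs1 : s ≤ 1) {x : ℂ} (hx : 0 < x.re) :
    ‖F s (-x)‖ ≠ ‖F s x‖ := by
  intro h
  obtain ⟨h1, h2⟩ := F_norm hs0 hs1 hx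
  rw [h] at h2
  have h3 : 0 < 4 * x.re / (1 + ‖x‖) ^ 2 := by
    have := norm_nonneg x
    positivity
  have h4 : 0 < ‖F s x‖ ^ 2 := pow_pos (by linarith) 2
  have h5 := mul_pos h3 h4
  rw [add_mul, one_mul] at h2
  linarith

/-- Auxiliary: the square root in the right half plane. -/
private theorem sqrt_right {y : ℂ} (hy : y.im ≠ 0) : ∃ x : ℂ, x ^ 2 = y ∧ 0 < x.re := by
  obtain ⟨x, hx⟩ : ∃ x : ℂ, x ^ 2 = y := IsAlgClosed.exists_pow_nat_eq y (by norm_num)
  have h0 : x.re ≠ 0 := by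
    intro h
    apply hy
    rw [← hx, pow_two, Complex.mul_im, h]
    ring
  rcases lt_or_gt_of_ne h0 with h | h
  · refine ⟨-x, by rw [neg_sq]; exact hx, ?_⟩
    rw [Complex.neg_re]
    linarith
  · exact ⟨x, hx, h⟩

/-- PROOF.  `y = x²` with `Re x > 0` (square root), `2 e(y) = F s x + F s (-x)`,
`2 x o(y) = F s x - F s (-x)` (`F_eq_even_odd`), `‖F s (-x)‖ < ‖F s x‖` (`F_norm`). -/
theorem ev_ne_zero {s : ℝ} (hs0 : 0 < s) (hs1 : s ≤ 1) {y : ℂ} (hy : y.im ≠ 0) : ev s y ≠ 0 := by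
  obtain ⟨x, rfl, hx⟩ := sqrt_right hy
  intro h
  have hq : ‖(s : ℂ)‖ ≤ 1 := by
    rw [Complex.norm_real, Real.norm_of_nonneg hs0.le]
    exact hs1
  apply F_norm_ne hs0 hs1 hx
  rw [F_eq_even_odd hq (-x), F_eq_even_odd hq x, neg_sq, h, zero_add, zero_add, neg_mul, norm_neg]

theorem od_ne_zero {s : ℝ} (hs0 : 0 < s) (hs1 : s ≤ 1) {y : ℂ} (hy : y.im ≠ 0) : od s y ≠ 0 := by
  obtain ⟨x, rfl, hx⟩ := sqrt_right hy
  intro h
  have hq : ‖(s : ℂ)‖ ≤ 1 := by
    rw [Complex.norm_real, Real.norm_of_nonneg hs0.le]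
    exact hs1
  apply F_norm_ne hs0 hs1 hx
  rw [F_eq_even_odd hq (-x), F_eq_even_odd hq x, neg_sq, h, mul_zero, mul_zero]

/-! ## Piece [HD-R3] (this block) -/

private theorem msum_im_R3 (s : Multiset ℂ) : (s.sum).im = (s.map Complex.im).sum := by
  induction s using Multiset.induction_on with
  | empty => simp
  | cons a s ih => simp [ih]

private theorem msum_re_R3 (s : Multiset ℂ) : (s.sum).re = (s.map Complex.re).sum := by
  induction s using Multiset.induction_on with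
  | empty => simp
  | cons a s ih => simp [ih]

/-- PROOF.  `p'/p (y) = ∑_{w root} 1/(y - w)` (`Polynomial.eval_derivative_div_eval_of_ne_zero_of_splits`
or similar, as in Gauss-Lucas); at `y = 0`: `c = p'(0) = ∑ 1/|w|` (roots negative), so `|w| ≥ 1` for
each root.  `Im (y/(y - w)) = |w| Im y / ‖y - w‖² ≥ (1/|w|) Im y/(1 + ‖y‖/|w|)² ≥
(1/|w|) Im y/(1 + ‖y‖)²`; sum. -/
theorem poly_im {p : Polynomial ℂ} (h0 : p.eval 0 = 1)
    (hr : ∀ w, p.eval w = 0 → w.im = 0 ∧ w.re < 0) {c : ℝ} (hc : p.derivative.eval 0 = c)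
    (hc1 : c ≤ 1) {y : ℂ} (hy : 0 < y.im) :
    c * y.im / (1 + ‖y‖) ^ 2 ≤ (y * p.derivative.eval y / p.eval y).im := by
  have hp0 : p ≠ 0 := by
    rintro rfl
    simp at h0
  have hsp : p.Splits := IsAlgClosed.splits p
  have hroot : ∀ w ∈ p.roots, w.im = 0 ∧ w.re < 0 := fun w hw => hr w (Polynomial.isRoot_of_mem_roots hw)
  have hyne : p.eval y ≠ 0 := fun h => hy.ne' (hr y h).1
  have h1 := hsp.eval_derivative_div_eval_of_ne_zero hyne
  have h2 := hsp.eval_derivative_div_eval_of_ne_zero (x := 0) (by rw [h0]; exact one_ne_zero)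
  rw [h0, hc, div_one] at h2
  -- the value at zero
  have h3 : c = (p.roots.map fun w => 1 / (-w.re)).sum := by
    have h4 := congrArg Complex.re h2
    rw [msum_re_R3, Multiset.map_map, Complex.ofReal_re] at h4
    rw [h4]
    congr 1
    refine Multiset.map_congr rfl fun w hw => ?_
    have hw' : w = ((w.re : ℝ) : ℂ) := Complex.ext rfl (by rw [(hroot w hw).1]; simp)
    show (1 / (0 - w)).re = 1 / (-w.re)
    rw [zero_sub]
    conv_lhs => rw [hw']
    rw [← Complex.ofReal_neg, ← Complex.ofReal_one, ← Complex.ofReal_div, Complex.ofReal_re]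
  have h5 : ∀ w ∈ p.roots, 1 ≤ -w.re := by
    intro w hw
    have hw1 := (hroot w hw).2
    have h6 : 1 / (-w.re) ≤ (p.roots.map fun w => 1 / (-w.re)).sum := by
      refine Multiset.single_le_sum ?_ _ (Multiset.mem_map_of_mem _ hw)
      intro a ha
      obtain ⟨v, hv, rfl⟩ := Multiset.mem_map.1 ha
      have := (hroot v hv).2
      exact one_div_nonneg.2 (by linarith)
    rw [← h3] at h6
    have h7 := h6.trans hc1
    rwa [div_le_one (by linarith)] at h7
  -- the value at `y`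
  have h6 : (y * p.derivative.eval y / p.eval y).im = (p.roots.map fun w => (y * (1 / (y - w))).im).sum := by
    rw [mul_div_assoc, h1, ← Multiset.sum_map_mul_left, msum_im_R3, Multiset.map_map]
    rfl
  rw [h6, h3]
  have h7 : (p.roots.map fun w => 1 / (-w.re)).sum * y.im / (1 + ‖y‖) ^ 2 =
      (p.roots.map fun w => 1 / (-w.re) * (y.im / (1 + ‖y‖) ^ 2)).sum := by
    rw [Multiset.sum_map_mul_right, mul_div_assoc]
  rw [h7]
  refine Multiset.sum_map_le_sum_map _ _ fun w hw => ?_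
  have hw1 := h5 w hw
  set r : ℝ := -w.re with hrdef
  have hw' : w = -((r : ℝ) : ℂ) := by
    apply Complex.ext
    · rw [Complex.neg_re, Complex.ofReal_re, hrdef, neg_neg]
    · rw [Complex.neg_im, Complex.ofReal_im, neg_zero, (hroot w hw).1]
  rw [hw', sub_neg_eq_add]
  have hN : 0 < Complex.normSq (y + r) := by
    apply Complex.normSq_pos.2
    intro h
    have := congrArg Complex.im h
    simp at this
    exact hy.ne' this
  have e1 : (y * (1 / (y + r))).im = r * y.im / Complex.normSq (y + r) := by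
    rw [mul_one_div, Complex.div_im]
    simp
    field_simp
    ring
  rw [e1]
  have e2 : Complex.normSq (y + r) ≤ (r * (1 + ‖y‖)) ^ 2 := by
    rw [Complex.normSq_eq_norm_sq]
    have h8 : ‖y + r‖ ≤ ‖y‖ + r := by
      refine (norm_add_le _ _).trans ?_
      rw [Complex.norm_of_nonneg (by linarith)]
    have h9 : ‖y‖ + r ≤ r * (1 + ‖y‖) := by nlinarith [norm_nonneg y]
    exact pow_le_pow_left₀ (norm_nonneg _) (h8.trans h9) 2
  rw [div_mul_div_comm, one_mul, div_le_div_iff₀ (by positivity) hN]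
  calc y.im * Complex.normSq (y + r) ≤ y.im * (r * (1 + ‖y‖)) ^ 2 := mul_le_mul_of_nonneg_left e2 hy.le
    _ = r * y.im * (r * (1 + ‖y‖) ^ 2) := by ring

/-- The coefficients of `h n`: `h n x = ∑_k hco n k x^k`. -/
noncomputable def hco (s : ℝ) (n k : ℕ) : ℝ := (n.choose k : ℝ) * s ^ (k * (k - 1) / 2) / (n : ℝ) ^ k

/-- Even part of `h n`. -/
noncomputable def ep (s : ℝ) (n : ℕ) : Polynomial ℂ :=
  ∑ j ∈ Finset.range (n + 1), Polynomial.C ((hco s n (2 * j) : ℝ) : ℂ) * Polynomial.X ^ j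

/-- Odd part of `h n`. -/
noncomputable def op (s : ℝ) (n : ℕ) : Polynomial ℂ :=
  ∑ j ∈ Finset.range (n + 1), Polynomial.C ((hco s n (2 * j + 1) : ℝ) : ℂ) * Polynomial.X ^ j

private theorem sum_pairs_R3 (f : ℕ → ℂ) (m : ℕ) :
    ∑ k ∈ Finset.range (2 * m), f k = ∑ j ∈ Finset.range m, (f (2 * j) + f (2 * j + 1)) := by
  induction m with
  | zero => simp
  | succ m ih =>
    have e : 2 * (m + 1) = 2 * m + 1 + 1 := by ring
    rw [e, Finset.sum_range_succ, Finset.sum_range_succ, ih, Finset.sum_range_succ]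
    ring

/-- PROOF.  `E s n (x/n) = ∑_{k ≤ n} hco n k x^k`, `hco n k = 0` for `k > n`; split into even and odd
`k` (`k < 2n+2`). -/
theorem E_even_odd (s : ℝ) {n : ℕ} (hn : 0 < n) (x : ℂ) :
    E s n (x / n) = (ep s n).eval (x ^ 2) + x * (op s n).eval (x ^ 2) := by
  have hn0 : (n : ℂ) ≠ 0 := by exact_mod_cast hn.ne'
  have h1 : E s n (x / n) = ∑ k ∈ Finset.range (n + 1), ((hco s n k : ℝ) : ℂ) * x ^ k := by
    unfold E
    refine Finset.sum_congr rfl fun k _ => ?_
    unfold hco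
    push_cast
    rw [div_pow]
    ring
  have h2 : ∑ k ∈ Finset.range (n + 1), ((hco s n k : ℝ) : ℂ) * x ^ k =
      ∑ k ∈ Finset.range (2 * (n + 1)), ((hco s n k : ℝ) : ℂ) * x ^ k := by
    refine Finset.sum_subset (Finset.range_subset_range.2 (by omega)) fun k _ hk => ?_
    rw [Finset.mem_range, not_lt] at hk
    unfold hco
    rw [Nat.choose_eq_zero_of_lt (by omega)]
    simp
  rw [h1, h2, sum_pairs_R3]
  unfold ep op
  rw [Polynomial.eval_finsetSum, Polynomial.eval_finsetSum, Finset.mul_sum, ← Finset.sum_add_distrib]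
  refine Finset.sum_congr rfl fun j _ => ?_
  simp only [Polynomial.eval_mul, Polynomial.eval_C, Polynomial.eval_pow, Polynomial.eval_X]
  rw [← pow_mul, pow_succ]
  ring

private theorem sqrt_R3 {w : ℂ} (hw : ¬ (w.im = 0 ∧ w.re ≤ 0)) : ∃ x : ℂ, 0 < x.re ∧ x ^ 2 = w := by
  obtain ⟨z, hz⟩ := IsAlgClosed.exists_pow_nat_eq w (n := 2) (by norm_num)
  rcases lt_trichotomy z.re 0 with h | h | h
  · exact ⟨-z, by rw [Complex.neg_re]; linarith, by rw [neg_sq, hz]⟩
  · exfalso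
    apply hw
    rw [← hz, sq]
    constructor
    · rw [Complex.mul_im, h]
      ring
    · rw [Complex.mul_re, h]
      nlinarith [sq_nonneg z.im]
  · exact ⟨z, h, hz⟩

private theorem contra_R3 {s : ℝ} (hs0 : 0 < s) (hs1 : s ≤ 1) {n : ℕ} (hn : 0 < n) {x : ℂ}
    (hx : 0 < x.re) (h : ‖E s n (x / n)‖ = ‖E s n (-x / n)‖) : False := by
  obtain ⟨h1, h2⟩ := approx_norm hs0 hs1 hn hx
  rw [← h] at h2
  have h3 : 0 < 4 * x.re / (1 + ‖x‖) ^ 2 := by positivity
  have h4 : 0 < ‖E s n (x / n)‖ ^ 2 := by positivity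
  have h5 := mul_pos h3 h4
  linarith

private theorem ep_zero_R3 (s : ℝ) (n : ℕ) : (ep s n).eval 0 = 1 := by
  unfold ep
  rw [Polynomial.eval_finsetSum, Finset.sum_range_succ']
  simp [hco]

private theorem op_zero_R3 (s : ℝ) {n : ℕ} (hn : 0 < n) : (op s n).eval 0 = 1 := by
  have hn0 : (n : ℝ) ≠ 0 := by exact_mod_cast hn.ne'
  unfold op
  rw [Polynomial.eval_finsetSum, Finset.sum_range_succ']
  simp [hco, hn.ne']

private theorem split_R3 {w : ℂ} (hw : w.im = 0 ∧ w.re ≤ 0) (h0 : w ≠ 0) : w.im = 0 ∧ w.re < 0 :=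
  ⟨hw.1, lt_of_le_of_ne hw.2 fun h => h0 (Complex.ext h hw.1)⟩

/-- PROOF.  `w = x²` with `Re x > 0` unless `w` is real `≤ 0`; `2 ep(x²) = E(x/n) + E(-x/n)`,
`approx_norm`; `ep(0) = 1`. -/
theorem ep_roots {s : ℝ} (hs0 : 0 < s) (hs1 : s ≤ 1) {n : ℕ} (hn : 0 < n) {w : ℂ}
    (hw : (ep s n).eval w = 0) : w.im = 0 ∧ w.re < 0 := by
  by_cases h : w.im = 0 ∧ w.re ≤ 0
  · refine split_R3 h ?_
    rintro rfl
    rw [ep_zero_R3] at hw
    exact one_ne_zero hw
  · obtain ⟨x, hx, rfl⟩ := sqrt_R3 h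
    exfalso
    apply contra_R3 hs0 hs1 hn hx
    rw [E_even_odd s hn x, E_even_odd s hn (-x), neg_sq, hw, zero_add, zero_add, neg_mul, norm_neg]

theorem op_roots {s : ℝ} (hs0 : 0 < s) (hs1 : s ≤ 1) {n : ℕ} (hn : 0 < n) {w : ℂ}
    (hw : (op s n).eval w = 0) : w.im = 0 ∧ w.re < 0 := by
  by_cases h : w.im = 0 ∧ w.re ≤ 0
  · refine split_R3 h ?_
    rintro rfl
    rw [op_zero_R3 s hn] at hw
    exact one_ne_zero hw
  · obtain ⟨x, hx, rfl⟩ := sqrt_R3 h
    exfalso
    apply contra_R3 hs0 hs1 hn hx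
    rw [E_even_odd s hn x, E_even_odd s hn (-x), neg_sq, hw, mul_zero, mul_zero]

private theorem even_deriv_r3b {h e : ℂ → ℂ} (hh : Differentiable ℂ h) {x : ℂ}
    (he : DifferentiableAt ℂ e (x ^ 2)) (H : ∀ z, 2 * e (z ^ 2) = h z + h (-z)) :
    4 * x * deriv e (x ^ 2) = deriv h x - deriv h (-x) := by
  have hp : HasDerivAt (fun z : ℂ => z ^ 2) (2 * x) x := by
    simpa using hasDerivAt_pow 2 x
  have h1 : HasDerivAt (fun z => 2 * e (z ^ 2)) (2 * (deriv e (x ^ 2) * (2 * x))) x :=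
    (HasDerivAt.comp x he.hasDerivAt hp).const_mul 2
  have h2 : HasDerivAt (fun z => h z + h (-z)) (deriv h x + deriv h (-x) * (-1)) x :=
    (hh x).hasDerivAt.add (HasDerivAt.comp x (hh (-x)).hasDerivAt (hasDerivAt_neg x))
  have h4 : (fun z => 2 * e (z ^ 2)) = fun z => h z + h (-z) := funext H
  rw [h4] at h1
  have := h1.unique h2
  linear_combination this

private theorem odd_deriv_r3b {h o : ℂ → ℂ} (hh : Differentiable ℂ h) {x : ℂ}
    (ho : DifferentiableAt ℂ o (x ^ 2)) (H : ∀ z, 2 * z * o (z ^ 2) = h z - h (-z)) :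
    2 * o (x ^ 2) + 4 * x ^ 2 * deriv o (x ^ 2) = deriv h x + deriv h (-x) := by
  have hp : HasDerivAt (fun z : ℂ => z ^ 2) (2 * x) x := by
    simpa using hasDerivAt_pow 2 x
  have h0 : HasDerivAt (fun z : ℂ => 2 * z) (2 * 1) x := (hasDerivAt_id x).const_mul 2
  have h1 : HasDerivAt (fun z => 2 * z * o (z ^ 2))
      (2 * 1 * o (x ^ 2) + 2 * x * (deriv o (x ^ 2) * (2 * x))) x :=
    h0.mul (HasDerivAt.comp x ho.hasDerivAt hp)
  have h2 : HasDerivAt (fun z => h z - h (-z)) (deriv h x - deriv h (-x) * (-1)) x :=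
    (hh x).hasDerivAt.sub (HasDerivAt.comp x (hh (-x)).hasDerivAt (hasDerivAt_neg x))
  have h4 : (fun z => 2 * z * o (z ^ 2)) = fun z => h z - h (-z) := funext H
  rw [h4] at h1
  have := h1.unique h2
  linear_combination this

private theorem tendsto_deriv_r3b {q : ℂ} (hq : ‖q‖ ≤ 1) (x : ℂ) :
    Tendsto (fun n : ℕ => deriv (fun z => E q n (z / n)) x) atTop (𝓝 (deriv (F q) x)) := by
  have h := (tendsto_E hq).deriv
    (.of_forall fun n => (differentiable_H q n).differentiableOn) isOpen_univ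
  exact h.tendsto_at (mem_univ x)

private theorem ep_coeff_r3b (s : ℝ) {n j : ℕ} (hj : j ≤ n) :
    (ep s n).coeff j = ((hco s n (2 * j) : ℝ) : ℂ) := by
  unfold ep
  rw [Polynomial.finset_sum_coeff, Finset.sum_eq_single j]
  · simp [Polynomial.coeff_C_mul]
  · intro i _ hij
    rw [Polynomial.coeff_C_mul, Polynomial.coeff_X_pow, if_neg (Ne.symm hij), mul_zero]
  · intro h
    exact absurd (Finset.mem_range.2 (by omega)) h

private theorem op_coeff_r3b (s : ℝ) {n j : ℕ} (hj : j ≤ n) :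
    (op s n).coeff j = ((hco s n (2 * j + 1) : ℝ) : ℂ) := by
  unfold op
  rw [Polynomial.finset_sum_coeff, Finset.sum_eq_single j]
  · simp [Polynomial.coeff_C_mul]
  · intro i _ hij
    rw [Polynomial.coeff_C_mul, Polynomial.coeff_X_pow, if_neg (Ne.symm hij), mul_zero]
  · intro h
    exact absurd (Finset.mem_range.2 (by omega)) h

private theorem hco_two_r3b {s : ℝ} (hs0 : 0 < s) (hs1 : s ≤ 1) {n : ℕ} (hn : 2 ≤ n) :
    s / 4 ≤ hco s n 2 ∧ hco s n 2 ≤ 1 := by
  have hn2 : (2 : ℝ) ≤ n := by exact_mod_cast hn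
  have hn0 : (0 : ℝ) < n := by linarith
  have e : hco s n 2 = s * ((n - 1) / (2 * n)) := by
    unfold hco
    rw [Nat.cast_choose_two]
    norm_num
    field_simp
  have h1 : (1 : ℝ) / 4 ≤ (n - 1) / (2 * n) := by
    rw [div_le_div_iff₀ (by norm_num) (by positivity)]
    linarith
  have h2 : ((n : ℝ) - 1) / (2 * n) ≤ 1 := by
    rw [div_le_one (by positivity)]
    linarith
  rw [e]
  constructor
  · nlinarith
  · nlinarith

private theorem hco_three_r3b {s : ℝ} (hs0 : 0 < s) (hs1 : s ≤ 1) {n : ℕ} (hn : 3 ≤ n) :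
    s ^ 3 / 27 ≤ hco s n 3 ∧ hco s n 3 ≤ 1 := by
  have hn2 : (3 : ℝ) ≤ n := by exact_mod_cast hn
  have hn0 : (0 : ℝ) < n := by linarith
  have h3 : (n.choose 3 : ℝ) * 3 = n.choose 2 * (n - 2) := by
    have := Nat.choose_succ_right_eq n 2
    have h4 : ((n - 2 : ℕ) : ℝ) = (n : ℝ) - 2 := by
      rw [Nat.cast_sub (by omega)]
      norm_num
    rw [← h4]
    exact_mod_cast this
  have h5 : (n.choose 3 : ℝ) = n * (n - 1) * (n - 2) / 6 := by
    rw [Nat.cast_choose_two] at h3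
    linarith
  have e : hco s n 3 = s ^ 3 * ((n - 1) * (n - 2) / (6 * n ^ 2)) := by
    unfold hco
    rw [h5]
    norm_num
    field_simp
  have h1 : (1 : ℝ) / 27 ≤ (n - 1) * (n - 2) / (6 * n ^ 2) := by
    rw [div_le_div_iff₀ (by norm_num) (by positivity)]
    nlinarith
  have h2 : ((n : ℝ) - 1) * (n - 2) / (6 * n ^ 2) ≤ 1 := by
    rw [div_le_one (by positivity)]
    nlinarith
  have hs3 : 0 < s ^ 3 := by positivity
  have hs31 : s ^ 3 ≤ 1 := pow_le_one₀ hs0.le hs1
  rw [e]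
  constructor
  · nlinarith
  · nlinarith

private theorem norm_s_r3b {s : ℝ} (hs0 : 0 < s) (hs1 : s ≤ 1) : ‖(s : ℂ)‖ ≤ 1 := by
  rw [Complex.norm_real, Real.norm_of_nonneg hs0.le]
  exact hs1

/-- PROOF.  `poly_im` for `p = ep s n`: `p(0) = hco n 0 = 1`, `p'(0) = hco n 2 = (1-1/n) s/2 ≤ 1`;
with `y = x²`: `y p'(y) = x/4 · (h n'(x) - h n'(-x))`, `p(y) = (h n x + h n (-x))/2`, and
`h n → F s`, `(h n)' → (F s)'` pointwise (`tendsto_E`, `TendstoLocallyUniformlyOn.deriv`); the limit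
is `y e'(y)/e(y)` (`F_eq_even_odd`), and `hco n 2 → s/2 > 0`. -/
theorem ev_im {s : ℝ} (hs0 : 0 < s) (hs1 : s ≤ 1) {y : ℂ} (hy : 0 < y.im) :
    0 < (y * deriv (ev s) y / ev s y).im := by
  have hq := norm_s_r3b hs0 hs1
  obtain ⟨x, hx⟩ : ∃ x : ℂ, x ^ 2 = y := IsAlgClosed.exists_pow_nat_eq y two_pos
  have hx0 : x ≠ 0 := by
    rintro rfl
    rw [← hx] at hy
    simp at hy
  have hT1 : Tendsto (fun n => (ep s n).eval y) atTop (𝓝 (ev s y)) := by
    have h1 := ((tendsto_E hq).tendsto_at (mem_univ x)).add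
      ((tendsto_E hq).tendsto_at (mem_univ (-x)))
    have h2 := h1.div_const 2
    have h3 : (F s x + F s (-x)) / 2 = ev s y := by
      rw [F_eq_even_odd hq x, F_eq_even_odd hq (-x), neg_sq, hx]
      ring
    rw [h3] at h2
    refine h2.congr' ?_
    filter_upwards [eventually_gt_atTop 0] with n hn
    have a := E_even_odd s hn x
    have b := E_even_odd s hn (-x)
    rw [neg_sq, hx] at b
    rw [hx] at a
    rw [a, b]
    ring
  have hT2 : Tendsto (fun n => (ep s n).derivative.eval y) atTop (𝓝 (deriv (ev s) y)) := by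
    have h1 := ((tendsto_deriv_r3b hq x).sub (tendsto_deriv_r3b hq (-x))).div_const (4 * x)
    have h3 : (deriv (F s) x - deriv (F s) (-x)) / (4 * x) = deriv (ev s) y := by
      have h4 := even_deriv_r3b (h := F s) (e := ev s) (differentiable_F hq) (x := x)
        (hasDerivAt_ev hq _).differentiableAt (fun z => by
          rw [F_eq_even_odd hq z, F_eq_even_odd hq (-z), neg_sq]
          ring)
      rw [← h4, hx]
      field_simp
    rw [h3] at h1
    refine h1.congr' ?_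
    filter_upwards [eventually_gt_atTop 0] with n hn
    have h4 := even_deriv_r3b (h := fun z => E s n (z / n)) (e := fun z => (ep s n).eval z)
      (differentiable_H _ n) (x := x) (Polynomial.differentiable _).differentiableAt (fun z => by
          have a := E_even_odd s hn z
          have b := E_even_odd s hn (-z)
          rw [neg_sq] at b
          beta_reduce
          rw [a, b]
          ring)
    rw [Polynomial.deriv, hx] at h4
    rw [← h4]
    field_simp
  have hne := ev_ne_zero hs0 hs1 hy.ne'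
  have hT := (Complex.continuous_im.tendsto _).comp ((hT2.const_mul y).div hT1 hne)
  have hge : s / 4 * y.im / (1 + ‖y‖) ^ 2 ≤ (y * deriv (ev s) y / ev s y).im := by
    refine ge_of_tendsto hT ?_
    filter_upwards [eventually_ge_atTop 2] with n hn
    obtain ⟨c1, c2⟩ := hco_two_r3b hs0 hs1 hn
    have h0 : (ep s n).eval 0 = 1 := by
      rw [← Polynomial.coeff_zero_eq_eval_zero, ep_coeff_r3b s (Nat.zero_le n)]
      simp [hco]
    have hd : (ep s n).derivative.eval 0 = ((hco s n 2 : ℝ) : ℂ) := by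
      rw [← Polynomial.coeff_zero_eq_eval_zero, Polynomial.coeff_derivative,
        ep_coeff_r3b s (show 0 + 1 ≤ n by omega)]
      simp
    have h5 := poly_im h0 (fun w hw => ep_roots hs0 hs1 (by omega) hw) hd c2 hy
    refine le_trans ?_ h5
    gcongr
  have hpos : 0 < s / 4 * y.im / (1 + ‖y‖) ^ 2 := by positivity
  linarith

/-- PROOF.  Same with `op s n`: `p(0) = hco n 1 = 1`, `p'(0) = hco n 3 → s³/6`; `x p(x²) =
(h n x - h n (-x))/2`. -/
theorem od_im {s : ℝ} (hs0 : 0 < s) (hs1 : s ≤ 1) {y : ℂ} (hy : 0 < y.im) :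
    0 < (y * deriv (od s) y / od s y).im := by
  have hq := norm_s_r3b hs0 hs1
  obtain ⟨x, hx⟩ : ∃ x : ℂ, x ^ 2 = y := IsAlgClosed.exists_pow_nat_eq y two_pos
  have hx0 : x ≠ 0 := by
    rintro rfl
    rw [← hx] at hy
    simp at hy
  have hy0 : y ≠ 0 := by
    rintro rfl
    simp at hy
  have hT1 : Tendsto (fun n => (op s n).eval y) atTop (𝓝 (od s y)) := by
    have h1 := ((tendsto_E hq).tendsto_at (mem_univ x)).sub
      ((tendsto_E hq).tendsto_at (mem_univ (-x)))
    have h2 := h1.div_const (2 * x)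
    have h3 : (F s x - F s (-x)) / (2 * x) = od s y := by
      rw [F_eq_even_odd hq x, F_eq_even_odd hq (-x), neg_sq, hx]
      field_simp
      ring
    rw [h3] at h2
    refine h2.congr' ?_
    filter_upwards [eventually_gt_atTop 0] with n hn
    have a := E_even_odd s hn x
    have b := E_even_odd s hn (-x)
    rw [neg_sq, hx] at b
    rw [hx] at a
    rw [a, b]
    field_simp
    ring
  have hT2 : Tendsto (fun n => (op s n).derivative.eval y) atTop (𝓝 (deriv (od s) y)) := by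
    have h1 := (((tendsto_deriv_r3b hq x).add (tendsto_deriv_r3b hq (-x))).sub
      (hT1.const_mul 2)).div_const (4 * y)
    have h3 : (deriv (F s) x + deriv (F s) (-x) - 2 * od s y) / (4 * y) = deriv (od s) y := by
      have h4 := odd_deriv_r3b (h := F s) (o := od s) (differentiable_F hq) (x := x)
        (differentiable_od hq _) (fun z => by
          rw [F_eq_even_odd hq z, F_eq_even_odd hq (-z), neg_sq]
          ring)
      rw [← h4, hx]
      field_simp
      ring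
    rw [h3] at h1
    refine h1.congr' ?_
    filter_upwards [eventually_gt_atTop 0] with n hn
    have h4 := odd_deriv_r3b (h := fun z => E s n (z / n)) (o := fun z => (op s n).eval z)
      (differentiable_H _ n) (x := x) (Polynomial.differentiable _).differentiableAt (fun z => by
          have a := E_even_odd s hn z
          have b := E_even_odd s hn (-z)
          rw [neg_sq] at b
          beta_reduce
          rw [a, b]
          ring)
    rw [Polynomial.deriv, hx] at h4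
    rw [← h4]
    field_simp
    ring
  have hne := od_ne_zero hs0 hs1 hy.ne'
  have hT := (Complex.continuous_im.tendsto _).comp ((hT2.const_mul y).div hT1 hne)
  have hge : s ^ 3 / 27 * y.im / (1 + ‖y‖) ^ 2 ≤ (y * deriv (od s) y / od s y).im := by
    refine ge_of_tendsto hT ?_
    filter_upwards [eventually_ge_atTop 3] with n hn
    obtain ⟨c1, c2⟩ := hco_three_r3b hs0 hs1 hn
    have hn0 : (n : ℝ) ≠ 0 := by
      have : 0 < n := by omega
      exact_mod_cast this.ne'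
    have h0 : (op s n).eval 0 = 1 := by
      rw [← Polynomial.coeff_zero_eq_eval_zero, op_coeff_r3b s (Nat.zero_le n)]
      have : hco s n (2 * 0 + 1) = 1 := by
        unfold hco
        simp [hn0]
      rw [this]
      simp
    have hd : (op s n).derivative.eval 0 = ((hco s n 3 : ℝ) : ℂ) := by
      rw [← Polynomial.coeff_zero_eq_eval_zero, Polynomial.coeff_derivative,
        op_coeff_r3b s (show 0 + 1 ≤ n by omega)]
      simp
    have h5 := poly_im h0 (fun w hw => op_roots hs0 hs1 (by omega) hw) hd c2 hy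
    refine le_trans ?_ h5
    gcongr
  have hpos : 0 < s ^ 3 / 27 * y.im / (1 + ‖y‖) ^ 2 := by positivity
  linarith

end SokalHD
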