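import Pool.Agent.Lib_MP_af4de1_hd.DEnt

/-! # Part (d): the coefficients of `1 / S c q` -/

namespace SokalHD

open Complex SokalF Filter Topology Metric Set

variable {X : Set ℂ} {c : ℕ → ℂ → ℂ} {w : ℂ → ℂ}

/-! ## Piece [HD-D7] (this block) -/

/-- PROOF.  `PowerSeries.coeff_inv`. -/
theorem rcp_zero (c : ℕ → ℂ → ℂ) {q : ℂ} (h : c 0 q = 1) : rcp c 0 q = 1 := by
  rw [rcp, PowerSeries.coeff_inv, if_pos rfl, ← PowerSeries.coeff_zero_eq_constantCoeff_apply,
    PowerSeries.coeff_mk, h, inv_one]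

private theorem rcp_succ_hd7 (c : ℕ → ℂ → ℂ) {q : ℂ} (h : c 0 q = 1) {n : ℕ} (hn : n ≠ 0) :
    rcp c n q = -∑ x ∈ Finset.HasAntidiagonal.antidiagonal n, if x.2 < n then c x.1 q * rcp c x.2 q else 0 := by
  have h1 : PowerSeries.constantCoeff (PowerSeries.mk fun m => c m q) = 1 := by
    rw [← PowerSeries.coeff_zero_eq_constantCoeff_apply, PowerSeries.coeff_mk, h]
  rw [rcp, PowerSeries.coeff_inv, if_neg hn, h1, inv_one, neg_one_mul]
  simp only [PowerSeries.coeff_mk, rcp]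

/-- PROOF.  Strong induction with `PowerSeries.coeff_inv` (the constant coefficient is `1` on `X`). -/
theorem rcp_continuousOn (hc : ∀ n, ContinuousOn (c n) X) (h0 : ∀ q ∈ X, c 0 q = 1) (n : ℕ) :
    ContinuousOn (rcp c n) X := by
  induction n using Nat.strong_induction_on with
  | _ n ih =>
    by_cases hn : n = 0
    · subst hn
      exact (continuousOn_const (c := (1 : ℂ))).congr fun q hq => rcp_zero c (h0 q hq)
    · have h1 : ContinuousOn (fun q => -∑ x ∈ Finset.HasAntidiagonal.antidiagonal n,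
          if x.2 < n then c x.1 q * rcp c x.2 q else 0) X := by
        refine ContinuousOn.neg (continuousOn_finsetSum _ fun x _ => ?_)
        by_cases hx : x.2 < n
        · simp only [if_pos hx]
          exact (hc x.1).mul (ih x.2 hx)
        · simp only [if_neg hx]
          exact continuousOn_const
      exact h1.congr fun q hq => rcp_succ_hd7 c (h0 q hq) hn

theorem rcp_differentiableOn {U : Set ℂ} (hc : ∀ n, DifferentiableOn ℂ (c n) U)
    (h0 : ∀ q ∈ U, c 0 q = 1) (n : ℕ) : DifferentiableOn ℂ (rcp c n) U := by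
  induction n using Nat.strong_induction_on with
  | _ n ih =>
    by_cases hn : n = 0
    · subst hn
      exact (differentiableOn_const (1 : ℂ)).congr fun q hq => rcp_zero c (h0 q hq)
    · have h1 : DifferentiableOn ℂ (fun q => -∑ x ∈ Finset.HasAntidiagonal.antidiagonal n,
          if x.2 < n then c x.1 q * rcp c x.2 q else 0) U := by
        refine DifferentiableOn.neg (DifferentiableOn.fun_sum fun x _ => ?_)
        by_cases hx : x.2 < n
        · simp only [if_pos hx]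
          exact (hc x.1).mul (ih x.2 hx)
        · simp only [if_neg hx]
          exact differentiableOn_const _
      exact h1.congr fun q hq => rcp_succ_hd7 c (h0 q hq) hn

/-- uniqueness of the coefficients of a power series -/
private theorem uniq_hd7 {b : ℕ → ℂ} {ρ : ℝ} (hρ : 0 < ρ)
    (hs : ∀ u : ℂ, ‖u‖ < ρ → Summable fun n => ‖b n * u ^ n‖)
    (h0 : ∀ u : ℂ, ‖u‖ < ρ → HasSum (fun n => b n * u ^ n) 0) (n : ℕ) : b n = 0 := by
  set p := FormalMultilinearSeries.ofScalars ℂ b with hp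
  obtain ⟨r, hr⟩ : ∃ r : NNReal, r = ⟨ρ / 2, by positivity⟩ := ⟨_, rfl⟩
  have hr1 : (r : ℝ) = ρ / 2 := by rw [hr]; rfl
  have hrad : (r : ENNReal) ≤ p.radius := by
    refine p.le_radius_of_summable ?_
    have h1 := hs ((ρ / 2 : ℝ) : ℂ) (by
      rw [Complex.norm_real, Real.norm_of_nonneg (by positivity)]
      linarith)
    refine h1.congr fun n => ?_
    rw [hp, FormalMultilinearSeries.ofScalars_norm, norm_mul, norm_pow, Complex.norm_real,
      Real.norm_of_nonneg (by positivity), hr1]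
  have hfp : HasFPowerSeriesOnBall (0 : ℂ → ℂ) p 0 r := by
    refine ⟨hrad, ?_, fun {y} hy => ?_⟩
    · rw [ENNReal.coe_pos, ← NNReal.coe_pos, hr1]
      positivity
    · have hy1 : ‖y‖ < ρ := by
        rw [Metric.mem_eball, edist_zero_right, enorm_lt_coe] at hy
        have h2 : ‖y‖ < (r : ℝ) := hy
        rw [hr1] at h2
        linarith
      have h2 := h0 y hy1
      simp only [hp, FormalMultilinearSeries.ofScalars_apply_eq, smul_eq_mul]
      exact h2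
  have h3 : p = 0 := hfp.hasFPowerSeriesAt.eq_zero
  have h4 : p n (fun _ => (1 : ℂ)) = 0 := by
    rw [h3]
    rfl
  rw [hp, FormalMultilinearSeries.ofScalars_apply_eq, one_pow, smul_eq_mul, mul_one] at h4
  exact h4

/-- Coefficients of the reciprocal of a zero free function.
PROOF.  `f = 1/φ` is differentiable on `ball 0 ρ`, continuous on the closed ball; `α n =
iteratedDeriv n f 0 / n!`, `‖α n‖ ≤ M / ρ^n` (Cauchy estimate), `∑ α n u^n = f u` for `‖u‖ < ρ`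
(Taylor).  `(∑ a n u^n)(∑ α n u^n) = 1` for small `u` and uniqueness of power series give
`PowerSeries.mk a * PowerSeries.mk α = 1`, so `α n = coeff n (mk a)⁻¹`. -/
theorem recip_coeff {a : ℕ → ℂ} {φ : ℂ → ℂ} {ρ M : ℝ} (hρ : 0 < ρ) (hd : Differentiable ℂ φ)
    (hs : ∀ u, HasSum (fun n => a n * u ^ n) (φ u)) (h0 : ∀ u, ‖u‖ ≤ ρ → φ u ≠ 0)
    (hM : ∀ u, ‖u‖ ≤ ρ → ‖(φ u)⁻¹‖ ≤ M) :
    (∀ n, ‖PowerSeries.coeff n (PowerSeries.mk a)⁻¹‖ ≤ M / ρ ^ n) ∧
      ∀ u, ‖u‖ < ρ → HasSum (fun n => PowerSeries.coeff n (PowerSeries.mk a)⁻¹ * u ^ n) (φ u)⁻¹ := by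
  obtain ⟨R, hR⟩ : ∃ R : NNReal, R = ⟨ρ, hρ.le⟩ := ⟨_, rfl⟩
  have hR1 : (R : ℝ) = ρ := by rw [hR]; rfl
  have hRpos : 0 < R := by
    rw [← NNReal.coe_pos, hR1]
    exact hρ
  have hdf : DifferentiableOn ℂ (fun u => (φ u)⁻¹) (closedBall 0 R) := by
    intro u hu
    rw [mem_closedBall_zero_iff, hR1] at hu
    exact ((hd u).inv (h0 u hu)).differentiableWithinAt
  have hfp := hdf.hasFPowerSeriesOnBall hRpos
  set p := cauchyPowerSeries (fun u => (φ u)⁻¹) 0 R with hp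
  obtain ⟨α, hα⟩ : ∃ α : ℕ → ℂ, ∀ n, α n = p.coeff n := ⟨fun n => p.coeff n, fun _ => rfl⟩
  -- the power series of `1/φ`
  have hsum : ∀ u, ‖u‖ < ρ → HasSum (fun n => α n * u ^ n) (φ u)⁻¹ := by
    intro u hu
    have h1 : u ∈ Metric.eball (0 : ℂ) R := by
      rw [Metric.mem_eball, edist_zero_right, enorm_lt_coe, ← NNReal.coe_lt_coe, hR1]
      exact hu
    have h2 := hfp.hasSum h1
    rw [zero_add] at h2
    have h3 : (fun n => α n * u ^ n) = fun n => p n fun _ => u := by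
      funext n
      rw [FormalMultilinearSeries.apply_eq_pow_smul_coeff, smul_eq_mul, hα, mul_comm]
    rw [h3]
    exact h2
  -- Cauchy bound
  have hM0 : 0 ≤ M := (norm_nonneg _).trans (hM 0 (by rw [norm_zero]; exact hρ.le))
  have hbd : ∀ n, ‖α n‖ ≤ M / ρ ^ n := by
    intro n
    have h1 := norm_cauchyPowerSeries_le (fun u => (φ u)⁻¹) 0 R n
    rw [← hp, hR1, abs_of_pos hρ] at h1
    have h2 : ∫ θ : ℝ in (0 : ℝ)..2 * Real.pi, ‖(φ (circleMap 0 ρ θ))⁻¹‖ ≤ 2 * Real.pi * M := by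
      have h3 : ‖∫ θ : ℝ in (0 : ℝ)..2 * Real.pi, ‖(φ (circleMap 0 ρ θ))⁻¹‖‖ ≤
          M * |2 * Real.pi - 0| := by
        refine intervalIntegral.norm_integral_le_of_norm_le_const fun θ _ => ?_
        rw [norm_norm]
        refine hM _ ?_
        have h4 : ‖circleMap 0 ρ θ‖ = |ρ| := norm_circleMap_zero ρ θ
        rw [h4, abs_of_pos hρ]
      rw [sub_zero, abs_of_pos Real.two_pi_pos] at h3
      calc ∫ θ : ℝ in (0 : ℝ)..2 * Real.pi, ‖(φ (circleMap 0 ρ θ))⁻¹‖ ≤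
          ‖∫ θ : ℝ in (0 : ℝ)..2 * Real.pi, ‖(φ (circleMap 0 ρ θ))⁻¹‖‖ := Real.le_norm_self _
        _ ≤ M * (2 * Real.pi) := h3
        _ = 2 * Real.pi * M := by ring
    have h5 : ‖α n‖ = ‖p n‖ := by
      rw [hα]
      exact (FormalMultilinearSeries.norm_apply_eq_norm_coef).symm
    rw [h5]
    refine h1.trans ?_
    have h6 : (2 * Real.pi)⁻¹ * ∫ θ : ℝ in (0 : ℝ)..2 * Real.pi, ‖(φ (circleMap 0 ρ θ))⁻¹‖ ≤ M := by
      have h7 := mul_le_mul_of_nonneg_left h2 (inv_nonneg.2 Real.two_pi_pos.le)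
      rwa [← mul_assoc, inv_mul_cancel₀ Real.two_pi_pos.ne', one_mul] at h7
    calc _ ≤ M * ρ⁻¹ ^ n := mul_le_mul_of_nonneg_right h6 (by positivity)
      _ = M / ρ ^ n := by rw [inv_pow, div_eq_mul_inv]
  -- summability
  have hna : ∀ u : ℂ, Summable fun n => ‖a n * u ^ n‖ := fun u => (hs u).summable.norm
  have hnα : ∀ u : ℂ, ‖u‖ < ρ → Summable fun n => ‖α n * u ^ n‖ := fun u hu =>
    (hsum u hu).summable.norm
  -- the product
  have hprod : ∀ n, ∑ x ∈ Finset.HasAntidiagonal.antidiagonal n, a x.1 * α x.2 - (if n = 0 then 1 else 0) = 0 := by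
    have hterm : ∀ (u : ℂ) (n : ℕ), ∑ x ∈ Finset.HasAntidiagonal.antidiagonal n, (a x.1 * u ^ x.1) * (α x.2 * u ^ x.2) =
        (∑ x ∈ Finset.HasAntidiagonal.antidiagonal n, a x.1 * α x.2) * u ^ n := by
      intro u n
      rw [Finset.sum_mul]
      refine Finset.sum_congr rfl fun x hx => ?_
      rw [← Finset.HasAntidiagonal.mem_antidiagonal.1 hx, pow_add]
      ring
    have hdelta : ∀ u : ℂ, HasSum (fun n : ℕ => (if n = 0 then (1 : ℂ) else 0) * u ^ n) 1 := by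
      intro u
      have h1 := hasSum_single (f := fun n : ℕ => (if n = 0 then (1 : ℂ) else 0) * u ^ n) 0
        (fun n hn => by simp [hn])
      simpa using h1
    refine uniq_hd7 hρ (fun u hu => ?_) (fun u hu => ?_)
    · have h1 := summable_norm_sum_mul_antidiagonal_of_summable_norm (hna u) (hnα u hu)
      have h2 : Summable fun n : ℕ => ‖(if n = 0 then (1 : ℂ) else 0) * u ^ n‖ := (hdelta u).summable.norm
      refine Summable.of_nonneg_of_le (fun _ => norm_nonneg _) (fun n => ?_) (h1.add h2)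
      rw [sub_mul, ← hterm u n]
      exact norm_sub_le _ _
    · have h1 := summable_norm_sum_mul_antidiagonal_of_summable_norm (hna u) (hnα u hu)
      have h2 := tsum_mul_tsum_eq_tsum_sum_antidiagonal_of_summable_norm (hna u) (hnα u hu)
      rw [(hs u).tsum_eq, (hsum u hu).tsum_eq, mul_inv_cancel₀ (h0 u hu.le)] at h2
      have h3 : HasSum (fun n => ∑ x ∈ Finset.HasAntidiagonal.antidiagonal n, (a x.1 * u ^ x.1) * (α x.2 * u ^ x.2)) 1 := by
        rw [h2]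
        exact h1.of_norm.hasSum
      have h4 := h3.sub (hdelta u)
      rw [sub_self] at h4
      have h5 : (fun n => (∑ x ∈ Finset.HasAntidiagonal.antidiagonal n, a x.1 * α x.2 -
          (if n = 0 then 1 else 0)) * u ^ n) = fun n =>
          ∑ x ∈ Finset.HasAntidiagonal.antidiagonal n, (a x.1 * u ^ x.1) * (α x.2 * u ^ x.2) -
            (if n = 0 then (1 : ℂ) else 0) * u ^ n := by
        funext n
        rw [sub_mul, hterm u n]
      rw [h5]
      exact h4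
  have hmk : PowerSeries.mk a * PowerSeries.mk α = 1 := by
    ext n
    rw [PowerSeries.coeff_mul, PowerSeries.coeff_one]
    simp only [PowerSeries.coeff_mk]
    exact sub_eq_zero.1 (hprod n)
  have hc0 : PowerSeries.constantCoeff (PowerSeries.mk a) ≠ 0 := by
    intro h
    have h1 := congrArg PowerSeries.constantCoeff hmk
    rw [map_mul, h, zero_mul, map_one] at h1
    exact zero_ne_one h1
  have hinv : (PowerSeries.mk a)⁻¹ = PowerSeries.mk α := by
    rw [PowerSeries.inv_eq_iff_mul_eq_one hc0, mul_comm]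
    exact hmk
  rw [hinv]
  simp only [PowerSeries.coeff_mk]
  exact ⟨hbd, hsum⟩

/-! ## Piece [HD-D8] (this block) -/

/-- PROOF.  `Z = {(q,u) : q ∈ X, ‖u‖ ≤ 2, S (quot c w) q (w q u) = 0}` is compact and `‖u‖ > 1` on it:
take `ρ = (1 + min ‖u‖)/2` (or `ρ = 3/2` if `Z` is empty).  `M` = maximum of the continuous function
`‖(S (quot c w) q (w q u))⁻¹‖` on `X × closedBall 0 ρ`. -/
theorem exists_rho (hX : IsCompact X) (hc : Ent X c) (hw : ContinuousOn w X)
    (hφ : ∀ q ∈ X, ∀ u : ℂ, ‖u‖ ≤ 1 → S (quot c w) q (w q * u) ≠ 0) :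
    ∃ ρ M : ℝ, 1 < ρ ∧ ∀ q ∈ X, ∀ u : ℂ, ‖u‖ ≤ ρ → S (quot c w) q (w q * u) ≠ 0 ∧
      ‖(S (quot c w) q (w q * u))⁻¹‖ ≤ M := by
  obtain ⟨B, hB⟩ := hX.exists_bound_of_continuousOn hw
  have hQ : Ent X (SokalHD.quot c w) := Ent.quot hc hw hB
  have hcont : ContinuousOn (fun p : ℂ × ℂ => S (SokalHD.quot c w) p.1 (w p.1 * p.2))
      (X ×ˢ univ) := by
    have h1 : ContinuousOn (fun p : ℂ × ℂ => (p.1, w p.1 * p.2)) (X ×ˢ univ) := by
      refine continuousOn_fst.prodMk (ContinuousOn.mul ?_ continuousOn_snd)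
      exact hw.comp continuousOn_fst fun p hp => hp.1
    exact hQ.continuousOn.comp h1 fun p hp => ⟨hp.1, mem_univ _⟩
  obtain ⟨ρ, hρ1, hρ⟩ : ∃ ρ : ℝ, 1 < ρ ∧ ∀ q ∈ X, ∀ u : ℂ, ‖u‖ ≤ ρ →
      S (SokalHD.quot c w) q (w q * u) ≠ 0 := by
    have hK2 : IsCompact (X ×ˢ closedBall (0 : ℂ) 2) := hX.prod (isCompact_closedBall 0 2)
    have hc2 : ContinuousOn (fun p : ℂ × ℂ => S (SokalHD.quot c w) p.1 (w p.1 * p.2))
        (X ×ˢ closedBall (0 : ℂ) 2) := hcont.mono (prod_mono_right (subset_univ _))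
    have hZc : IsClosed ((X ×ˢ closedBall (0 : ℂ) 2) ∩
        (fun p : ℂ × ℂ => S (SokalHD.quot c w) p.1 (w p.1 * p.2)) ⁻¹' {0}) :=
      hc2.preimage_isClosed_of_isClosed hK2.isClosed isClosed_singleton
    have hZ : IsCompact ((X ×ˢ closedBall (0 : ℂ) 2) ∩
        (fun p : ℂ × ℂ => S (SokalHD.quot c w) p.1 (w p.1 * p.2)) ⁻¹' {0}) :=
      hK2.of_isClosed_subset hZc inter_subset_left
    rcases Set.eq_empty_or_nonempty ((X ×ˢ closedBall (0 : ℂ) 2) ∩
        (fun p : ℂ × ℂ => S (SokalHD.quot c w) p.1 (w p.1 * p.2)) ⁻¹' {0}) with hE | hne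
    · refine ⟨2, by norm_num, fun q hq u hu hz => ?_⟩
      have hmem : (q, u) ∈ ((X ×ˢ closedBall (0 : ℂ) 2) ∩
          (fun p : ℂ × ℂ => S (SokalHD.quot c w) p.1 (w p.1 * p.2)) ⁻¹' {0}) :=
        ⟨⟨hq, by simpa using hu⟩, hz⟩
      rw [hE] at hmem
      exact hmem
    · obtain ⟨p0, hp0, hmin⟩ := hZ.exists_isMinOn hne
        (f := fun p : ℂ × ℂ => ‖p.2‖) (by fun_prop)
      have hm1 : 1 < ‖p0.2‖ := by
        by_contra hle
        exact hφ p0.1 hp0.1.1 p0.2 (not_lt.1 hle) hp0.2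
      have hm2 : ‖p0.2‖ ≤ 2 := by simpa using hp0.1.2
      refine ⟨(1 + ‖p0.2‖) / 2, by linarith, fun q hq u hu hz => ?_⟩
      have hmem : (q, u) ∈ ((X ×ˢ closedBall (0 : ℂ) 2) ∩
          (fun p : ℂ × ℂ => S (SokalHD.quot c w) p.1 (w p.1 * p.2)) ⁻¹' {0}) := by
        refine ⟨⟨hq, ?_⟩, hz⟩
        rw [mem_closedBall_zero_iff]
        show ‖u‖ ≤ 2
        linarith
      have h3 : ‖p0.2‖ ≤ ‖u‖ := isMinOn_iff.1 hmin (q, u) hmem
      linarith
  have hK3 : IsCompact (X ×ˢ closedBall (0 : ℂ) ρ) := hX.prod (isCompact_closedBall 0 ρ)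
  have hc3 : ContinuousOn (fun p : ℂ × ℂ => (S (SokalHD.quot c w) p.1 (w p.1 * p.2))⁻¹)
      (X ×ˢ closedBall (0 : ℂ) ρ) := by
    refine (hcont.mono (prod_mono_right (subset_univ _))).inv₀ ?_
    rintro ⟨q, u⟩ ⟨hq, hu⟩
    exact hρ q hq u (by simpa using hu)
  obtain ⟨M, hM⟩ := hK3.exists_bound_of_continuousOn hc3
  refine ⟨ρ, M, hρ1, fun q hq u hu => ⟨hρ q hq u hu, ?_⟩⟩
  exact hM (q, u) ⟨hq, by simpa using hu⟩

private theorem quot_succ_rcp (h : Ent X c) {B : ℝ} (hB : ∀ q ∈ X, ‖w q‖ ≤ B) {q : ℂ} (hq : q ∈ X)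
    (n : ℕ) : w q * c (n + 1) q = w q * SokalHD.quot c w (n + 1) q - SokalHD.quot c w n q := by
  obtain ⟨C, hC, hb⟩ := h.quot_bound (le_max_right B 0) one_pos
  have hs : Summable fun l => c (n + 1 + l) q * w q ^ (l + 1) := by
    refine Summable.of_norm_bounded (g := fun l : ℕ => C * (1 / 2 : ℝ) ^ l)
      ((summable_geometric_of_lt_one (by norm_num) (by norm_num)).mul_left C) fun l => ?_
    have h2 := hb n l q hq (w q) ((hB q hq).trans (le_max_left _ _))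
    rwa [one_pow, mul_one] at h2
  have h1 := hs.tsum_eq_zero_add
  have h3 : (∑' l, c (n + 1 + (l + 1)) q * w q ^ (l + 1 + 1)) =
      w q * ∑' l, c (n + 1 + 1 + l) q * w q ^ (l + 1) := by
    rw [← tsum_mul_left]
    refine tsum_congr fun l => ?_
    have e : n + 1 + (l + 1) = n + 1 + 1 + l := by ring
    rw [e, pow_succ _ (l + 1)]
    ring
  rw [h3, add_zero, zero_add, pow_one] at h1
  show w q * c (n + 1) q = w q * (-(∑' l, c (n + 1 + 1 + l) q * w q ^ (l + 1))) -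
    -(∑' l, c (n + 1 + l) q * w q ^ (l + 1))
  rw [h1]
  ring

/-- Algebra: `β_n w^n = ∑_{i ≤ n} α_i`.
PROOF.  With `a n = quot c w n q · w^n`: `c n q w^n = a n - a (n-1)` (`Ent.quot_mul` at the level of
coefficients: `w c_n = w quot_n - quot_{n-1}`), i.e. `mk (c n q w^n) = (1 - X) mk a`; rescaling:
`mk (rcp c n q · w^n) = (mk (c n q w^n))⁻¹ = (1 - X)⁻¹ (mk a)⁻¹`, and
`coeff n ((1 - X)⁻¹ ψ) = ∑_{i ≤ n} coeff i ψ`. -/
theorem rcp_eq (hc : Ent X c) (hw : ContinuousOn w X) {B : ℝ} (hB : ∀ q ∈ X, ‖w q‖ ≤ B) {q : ℂ}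
    (hq : q ∈ X) (h1 : c 0 q = 1) (hw0 : w q ≠ 0) (h0 : S c q (w q) = 0) (n : ℕ) :
    rcp c n q * w q ^ n = ∑ i ∈ Finset.range (n + 1),
      PowerSeries.coeff i (PowerSeries.mk fun m => SokalHD.quot c w m q * w q ^ m)⁻¹ := by
  -- `A = Σ quot_m w^m X^m`, `R = Σ rcp_m w^m X^m`
  obtain ⟨A, hA⟩ : ∃ A : PowerSeries ℂ,
      A = PowerSeries.mk fun m => SokalHD.quot c w m q * w q ^ m := ⟨_, rfl⟩
  obtain ⟨D, hD⟩ : ∃ D : PowerSeries ℂ, D = PowerSeries.mk fun m => c m q := ⟨_, rfl⟩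
  obtain ⟨R, hR⟩ : ∃ R : PowerSeries ℂ, R = PowerSeries.rescale (w q) D⁻¹ := ⟨_, rfl⟩
  have hRn : ∀ m, PowerSeries.coeff m R = rcp c m q * w q ^ m := by
    intro m
    rw [hR, PowerSeries.coeff_rescale, hD, mul_comm]
    rfl
  have hD1 : D * D⁻¹ = 1 := by
    refine PowerSeries.mul_inv_cancel D ?_
    rw [hD, ← PowerSeries.coeff_zero_eq_constantCoeff_apply, PowerSeries.coeff_mk, h1]
    exact one_ne_zero
  have hA0 : PowerSeries.constantCoeff A ≠ 0 := by
    rw [hA, ← PowerSeries.coeff_zero_eq_constantCoeff_apply, PowerSeries.coeff_mk, pow_zero, mul_one,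
      hc.quot_zero hq h0, h1]
    exact one_ne_zero
  have hA1 : A * A⁻¹ = 1 := PowerSeries.mul_inv_cancel A hA0
  have hDA : PowerSeries.rescale (w q) D = (1 - PowerSeries.X) * A := by
    ext m
    rw [PowerSeries.coeff_rescale, hD, PowerSeries.coeff_mk, sub_mul, one_mul, map_sub]
    cases m with
    | zero =>
      rw [PowerSeries.coeff_zero_X_mul, hA, PowerSeries.coeff_mk, pow_zero, hc.quot_zero hq h0]
      ring
    | succ m =>
      rw [PowerSeries.coeff_succ_X_mul, hA, PowerSeries.coeff_mk, PowerSeries.coeff_mk]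
      have e := quot_succ_rcp hc hB hq m
      rw [pow_succ]
      linear_combination (w q ^ m) * e
  have hRA : A⁻¹ = (1 - PowerSeries.X) * R := by
    have h3 : (1 - PowerSeries.X) * A * R = 1 := by
      rw [← hDA, hR, ← map_mul, hD1, map_one]
    calc A⁻¹ = A⁻¹ * ((1 - PowerSeries.X) * A * R) := by rw [h3, mul_one]
      _ = (A * A⁻¹) * ((1 - PowerSeries.X) * R) := by ring
      _ = (1 - PowerSeries.X) * R := by rw [hA1, one_mul]
  rw [← hA, ← hRn]
  induction n with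
  | zero =>
    rw [zero_add, Finset.sum_range_one, hRA, sub_mul, one_mul, map_sub, PowerSeries.coeff_zero_X_mul,
      sub_zero]
  | succ n ih =>
    rw [Finset.sum_range_succ, ← ih, hRA, sub_mul, one_mul, map_sub, PowerSeries.coeff_succ_X_mul]
    ring

/-- PROOF.  `exists_rho`, `recip_coeff` (`φ u = S (quot c w) q (w u)`, `a n = quot c w n q · w^n`,
`‖α n‖ ≤ M ρ^{-n}`, `∑ α n = 1/φ(1)`), `rcp_eq`: `‖rcp c n q w^n - 1/φ(1)‖ ≤ ∑_{i>n} M ρ^{-i}`, and
`‖φ(1)‖` is bounded on the compact `X`. -/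
theorem rcp_tendsto (hX : IsCompact X) (hc : Ent X c) (h1 : ∀ q ∈ X, c 0 q = 1)
    (hw : ContinuousOn w X) (h0 : ∀ q ∈ X, S c q (w q) = 0)
    (hφ : ∀ q ∈ X, ∀ u : ℂ, ‖u‖ ≤ 1 → S (quot c w) q (w q * u) ≠ 0) {ε : ℝ} (hε : 0 < ε) :
    ∃ N : ℕ, ∀ n ≥ N, ∀ q ∈ X, ‖rcp c n q * w q ^ n * S (quot c w) q (w q) - 1‖ ≤ ε := by
  obtain ⟨B, hB⟩ := hX.exists_bound_of_continuousOn hw
  have hQ : Ent X (SokalHD.quot c w) := Ent.quot hc hw hB
  obtain ⟨ρ, M, hρ1, hρ⟩ := exists_rho hX hc hw hφ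
  have hρ0 : 0 < ρ := by linarith
  have hcP : ContinuousOn (fun q : ℂ => ((q, w q) : ℂ × ℂ)) X := continuousOn_id.prodMk hw
  have hcL : ContinuousOn ((fun p : ℂ × ℂ => S (SokalHD.quot c w) p.1 p.2) ∘
      fun q : ℂ => ((q, w q) : ℂ × ℂ)) X :=
    hQ.continuousOn.comp hcP fun q hq => ⟨hq, mem_univ _⟩
  obtain ⟨L, hL⟩ : ∃ L : ℝ, ∀ q ∈ X, ‖S (SokalHD.quot c w) q (w q)‖ ≤ L :=
    hX.exists_bound_of_continuousOn hcL
  have hr0 : 0 ≤ ρ⁻¹ := by positivity
  have hr1 : ρ⁻¹ < 1 := inv_lt_one_of_one_lt₀ hρ1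
  have hr2 : 0 < 1 - ρ⁻¹ := by linarith
  have hlim : Tendsto (fun n : ℕ => |L| * (|M| * ρ⁻¹ ^ (n + 1) / (1 - ρ⁻¹))) atTop (𝓝 0) := by
    have h2 : Tendsto (fun n : ℕ => ρ⁻¹ ^ (n + 1)) atTop (𝓝 0) :=
      (tendsto_pow_atTop_nhds_zero_of_lt_one hr0 hr1).comp (tendsto_add_atTop_nat 1)
    have h3 := ((h2.const_mul |M|).div_const (1 - ρ⁻¹)).const_mul |L|
    simpa using h3
  obtain ⟨N, hN⟩ := eventually_atTop.1 ((tendsto_order.1 hlim).2 ε hε)
  refine ⟨N, fun n hn q hq => ?_⟩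
  have hw0 : w q ≠ 0 := by
    intro hz
    have h2 := h0 q hq
    rw [hz, S_zero, h1 q hq] at h2
    exact one_ne_zero h2
  have hs : ∀ u : ℂ, HasSum (fun n => SokalHD.quot c w n q * w q ^ n * u ^ n)
      (S (SokalHD.quot c w) q (w q * u)) := by
    intro u
    have h2 := (hQ.summable hq (w q * u)).hasSum
    have h3 : (fun n => SokalHD.quot c w n q * w q ^ n * u ^ n) =
        fun n => SokalHD.quot c w n q * (w q * u) ^ n := by
      funext n
      rw [mul_pow, mul_assoc]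
    rw [h3]
    exact h2
  obtain ⟨α, hαd⟩ : ∃ α : ℕ → ℂ, α = fun i => PowerSeries.coeff i
      (PowerSeries.mk fun m => SokalHD.quot c w m q * w q ^ m)⁻¹ := ⟨_, rfl⟩
  obtain ⟨hα, hsum⟩ : (∀ n, ‖α n‖ ≤ M / ρ ^ n) ∧ ∀ u : ℂ, ‖u‖ < ρ →
      HasSum (fun n => α n * u ^ n) (S (SokalHD.quot c w) q (w q * u))⁻¹ := by
    rw [hαd]
    exact recip_coeff (a := fun m => SokalHD.quot c w m q * w q ^ m)
      (φ := fun u => S (SokalHD.quot c w) q (w q * u)) hρ0
      ((hQ.differentiable hq).comp (differentiable_id.const_mul (w q))) hs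
      (fun u hu => (hρ q hq u hu).1) (fun u hu => (hρ q hq u hu).2)
  have hrcp : rcp c n q * w q ^ n = ∑ i ∈ Finset.range (n + 1), α i := by
    rw [hαd]
    exact rcp_eq hc hw hB hq (h1 q hq) hw0 (h0 q hq) n
  clear hαd
  have hsum1 := hsum 1 (by simpa using hρ1)
  simp only [one_pow, mul_one] at hsum1
  have hα' : ∀ n, ‖α n‖ ≤ |M| * ρ⁻¹ ^ n := by
    intro n
    refine (hα n).trans ?_
    rw [div_eq_mul_inv, inv_pow]
    exact mul_le_mul_of_nonneg_right (le_abs_self M) (by positivity)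
  have htail := norm_sub_le_of_geometric_bound_of_hasSum hr1 hα' hsum1 (n + 1)
  have hne : S (SokalHD.quot c w) q (w q) ≠ 0 := by
    have h2 := hφ q hq 1 (by simp)
    rwa [mul_one] at h2
  have e1 : (∑ i ∈ Finset.range (n + 1), α i) * S (SokalHD.quot c w) q (w q) - 1 =
      S (SokalHD.quot c w) q (w q) * ((∑ i ∈ Finset.range (n + 1), α i) -
      (S (SokalHD.quot c w) q (w q))⁻¹) := by
    rw [mul_sub, mul_inv_cancel₀ hne, mul_comm]
  rw [hrcp, e1, norm_mul]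
  refine le_trans (mul_le_mul ((hL q hq).trans (le_abs_self L)) htail (norm_nonneg _)
    (abs_nonneg L)) (hN n hn).le

end SokalHD
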