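import Pool.Agent.Lib_MP_af4de1_hd.DLog

/-! # Argument principle on a convex compact set (no zeros if there is a continuous logarithm) -/

namespace SokalHD

open Complex Set Topology Metric Filter

variable {K : Set ℂ}

/-! ## Piece [HD-D5] (this block) -/

/-- PROOF.  `b θ = a + e^{iθ} / gauge (K - a) (e^{iθ})`: `gauge` is continuous
(`continuous_gauge`, as `K - a` is a convex neighbourhood of `0`), positive away from `0`
(`K - a` bounded), and `b θ ∈ frontier K` (`gauge_eq_one_iff_mem_frontier`).  So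
`b θ - a = r(θ) e^{iθ}` with `r` continuous, positive, `2π`-periodic. -/
theorem exists_boundary_param (hK : IsCompact K) (hc : Convex ℝ K) {a : ℂ} (ha : a ∈ interior K) :
    ∃ r : ℝ → ℝ, Continuous r ∧ (∀ θ, 0 < r θ) ∧ (∀ θ, r (θ + 2 * Real.pi) = r θ) ∧
      ∀ θ, a + r θ * exp (θ * I) ∈ frontier K := by
  set s : Set ℂ := (fun z => a + z) ⁻¹' K with hs
  have hsc : Convex ℝ s := hc.translate_preimage_right a
  have hs0 : s ∈ 𝓝 (0 : ℂ) := by
    have h1 : Tendsto (fun z : ℂ => a + z) (𝓝 0) (𝓝 a) := by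
      have h2 : Continuous fun z : ℂ => a + z := by fun_prop
      simpa using h2.tendsto 0
    exact h1 (mem_interior_iff_mem_nhds.1 ha)
  have hsb : Bornology.IsBounded s := by
    have h1 : s ⊆ (fun z => z - a) '' K := by
      intro z hz
      exact ⟨a + z, hz, by ring⟩
    exact ((hK.image (by fun_prop : Continuous fun z : ℂ => z - a)).isBounded).subset h1
  have hvb : Bornology.IsVonNBounded ℝ s := NormedSpace.isVonNBounded_of_isBounded ℝ hsb
  have hpos : ∀ θ : ℝ, 0 < gauge s (exp (θ * I)) := fun θ =>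
    (gauge_pos (absorbent_nhds_zero hs0) hvb).2 (exp_ne_zero _)
  refine ⟨fun θ => (gauge s (exp (θ * I)))⁻¹, ?_, fun θ => inv_pos.2 (hpos θ), fun θ => ?_, fun θ => ?_⟩
  · refine Continuous.inv₀ ((continuous_gauge hsc hs0).comp (by fun_prop)) fun θ => (hpos θ).ne'
  · have : exp (((θ + 2 * Real.pi : ℝ) : ℂ) * I) = exp (θ * I) := by
      push_cast
      rw [add_mul, exp_add, exp_two_pi_mul_I, mul_one]
    simp only [this]
  · have h1 : gauge s (((gauge s (exp (θ * I)))⁻¹ : ℝ) • exp (θ * I)) = 1 := by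
      rw [gauge_smul_of_nonneg (inv_pos.2 (hpos θ)).le, smul_eq_mul, inv_mul_cancel₀ (hpos θ).ne']
    have h2 := (gauge_eq_one_iff_mem_frontier hsc hs0).1 h1
    rw [hs] at h2
    have h3 : (fun z => a + z) ⁻¹' (frontier K) = frontier ((fun z => a + z) ⁻¹' K) :=
      (Homeomorph.addLeft a).preimage_frontier K
    rw [← h3, Set.mem_preimage, Complex.real_smul] at h2
    exact h2

/-- PROOF.  With `r` from `exists_boundary_param`, `b θ = a + r θ e^{iθ}`:
`exp (ℓ (b θ) - m (log (r θ) + iθ)) = 1`, so `ℓ (b θ) - m (log (r θ) + iθ)` is continuous with values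
in `2πiℤ`, hence constant; at `θ` and `θ + 2π` it differs by `-2πim`.  So `m = 0`. -/
theorem no_log_pow (hK : IsCompact K) (hc : Convex ℝ K) {a : ℂ} (ha : a ∈ interior K) {m : ℕ}
    {ℓ : ℂ → ℂ} (hℓ : ContinuousOn ℓ (frontier K))
    (h : ∀ q ∈ frontier K, exp (ℓ q) = (q - a) ^ m) : m = 0 := by
  obtain ⟨r, hrc, hr0, hrp, hrf⟩ := exists_boundary_param hK hc ha
  set c : ℝ → ℂ := fun θ => ℓ (a + r θ * exp (θ * I)) - m * (Real.log (r θ) + θ * I) with hcdef
  have hcc : Continuous c := by
    have h1 : Continuous fun θ : ℝ => a + r θ * exp (θ * I) := by fun_prop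
    have h2 : Continuous fun θ : ℝ => ℓ (a + r θ * exp (θ * I)) :=
      continuous_iff_continuousAt.2 fun θ => by
        have h3 : ContinuousOn (fun θ : ℝ => ℓ (a + r θ * exp (θ * I))) univ :=
          hℓ.comp h1.continuousOn fun x _ => hrf x
        exact h3.continuousAt univ_mem
    have h4 : Continuous fun θ : ℝ => Real.log (r θ) := hrc.log fun θ => (hr0 θ).ne'
    exact h2.sub (by fun_prop)
  have hexp : ∀ θ, exp (c θ) = 1 := by
    intro θ
    have e1 : exp ((m : ℂ) * (Real.log (r θ) + θ * I)) = (r θ * exp (θ * I)) ^ m := by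
      rw [exp_nat_mul, exp_add, ← ofReal_exp, Real.exp_log (hr0 θ)]
    have e2 := h _ (hrf θ)
    rw [add_sub_cancel_left] at e2
    show exp (ℓ (a + r θ * exp (θ * I)) - m * (Real.log (r θ) + θ * I)) = 1
    rw [exp_sub, e1, e2, div_self]
    exact pow_ne_zero _ (mul_ne_zero (by exact_mod_cast (hr0 θ).ne') (exp_ne_zero _))
  have hint : ∀ θ, ∃ n : ℤ, (c θ).im / (2 * Real.pi) = n := by
    intro θ
    obtain ⟨n, hn⟩ := exp_eq_one_iff.1 (hexp θ)
    refine ⟨n, ?_⟩
    rw [hn]
    have h1 : ((n : ℂ) * (2 * Real.pi * I)).im = n * (2 * Real.pi) := by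
      have : (n : ℂ) * (2 * Real.pi * I) = ((n * (2 * Real.pi) : ℝ) : ℂ) * I := by
        push_cast
        ring
      rw [this]
      simp
    rw [h1, mul_div_cancel_right₀ _ Real.two_pi_pos.ne']
  have hper : (c (2 * Real.pi)).im / (2 * Real.pi) = (c 0).im / (2 * Real.pi) - m := by
    have e0 : r (2 * Real.pi) = r 0 := by simpa using hrp 0
    have e1 : exp (((2 * Real.pi : ℝ) : ℂ) * I) = exp (((0 : ℝ) : ℂ) * I) := by
      push_cast
      rw [exp_two_pi_mul_I, zero_mul, exp_zero]
    have e2 : c (2 * Real.pi) = c 0 - ((m * (2 * Real.pi) : ℝ) : ℂ) * I := by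
      simp only [hcdef, e0, e1]
      push_cast
      ring
    rw [e2]
    simp only [sub_im, mul_im, ofReal_re, ofReal_im, I_re, I_im, mul_zero, mul_one, zero_mul, add_zero]
    rw [sub_div, mul_div_cancel_right₀ _ Real.two_pi_pos.ne']
  by_contra hm
  have hm1 : (1 : ℝ) ≤ m := by exact_mod_cast Nat.one_le_iff_ne_zero.2 hm
  have hg : Continuous fun θ : ℝ => (c θ).im / (2 * Real.pi) :=
    (continuous_im.comp hcc).div_const _
  obtain ⟨θ, hθ⟩ := mem_range_of_exists_le_of_exists_ge hg
    (c := (c 0).im / (2 * Real.pi) - 1 / 2) ⟨2 * Real.pi, by rw [hper]; linarith⟩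
    ⟨0, by linarith⟩
  obtain ⟨n, hn⟩ := hint θ
  obtain ⟨n0, hn0⟩ := hint 0
  simp only at hθ
  rw [hn, hn0] at hθ
  have h1 : (2 * n : ℝ) = 2 * n0 - 1 := by linarith
  have h2 : 2 * n = 2 * n0 - 1 := by exact_mod_cast h1
  omega

/-! ## Piece [HD-D6] (this block) -/

/-- PROOF.  For `q ∈ frontier K`, `a, b ∈ interior K`: `(q - b)/(q - a) ∈ slitPlane`; otherwise
`q - b = -t (q - a)`, `t ≥ 0`, so `q = (b + t a)/(1 + t)` is in the (convex) interior. -/
theorem div_mem_slitPlane (hc : Convex ℝ K) {a b q : ℂ} (ha : a ∈ interior K)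
    (hb : b ∈ interior K) (hq : q ∈ frontier K) : (q - b) / (q - a) ∈ slitPlane := by
  have hqi : q ∉ interior K := fun h => hq.2 h
  have hqa : q - a ≠ 0 := by
    intro h
    rw [sub_eq_zero] at h
    exact hqi (h ▸ ha)
  by_contra hcon
  rw [mem_slitPlane_iff, not_or, not_lt, not_not] at hcon
  obtain ⟨h1, h2⟩ := hcon
  set t : ℝ := -((q - b) / (q - a)).re with ht
  have ht0 : 0 ≤ t := by linarith
  have h3 : (q - b) / (q - a) = ((-t : ℝ) : ℂ) := by
    apply Complex.ext
    · rw [ofReal_re, ht, neg_neg]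
    · rw [ofReal_im, h2]
  rw [div_eq_iff hqa] at h3
  have h4 : (1 + (t : ℂ)) ≠ 0 := by
    have : ((1 + t : ℝ) : ℂ) ≠ 0 := by
      rw [Ne, ofReal_eq_zero]
      linarith
    push_cast at this
    exact this
  have h5 : q = (1 / (1 + t) : ℝ) • b + (t / (1 + t) : ℝ) • a := by
    simp only [real_smul]
    push_cast
    field_simp
    push_cast at h3
    linear_combination h3
  apply hqi
  rw [h5]
  refine hc.interior hb ha (by positivity) (by positivity) ?_
  field_simp

/-- Factorisation.
PROOF.  The zeros of `f` in `K` are in the open set `interior K` and form a closed subset of the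
compact `K`; `f` is analytic and not identically `0` on the connected `interior K` (else `f = 0` on
`K = closure (interior K)`), so the zero set is finite and all orders are finite.  Induction on the
number of zeros: for a zero `b` of order `n`, `f = (q - b)^n g` with `g` continuous on `K`, analytic
in the interior, `g b ≠ 0`. -/
theorem exists_factor (hK : IsCompact K) (hc : Convex ℝ K) (hi : (interior K).Nonempty) {f : ℂ → ℂ}
    (hf : ContinuousOn f K) (hd : DifferentiableOn ℂ f (interior K))
    (h0 : ∀ q ∈ frontier K, f q ≠ 0) : ∃ (s : Multiset ℂ) (g : ℂ → ℂ), (∀ b ∈ s, b ∈ interior K) ∧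
      ContinuousOn g K ∧ (∀ q ∈ K, g q ≠ 0) ∧
      ∀ q ∈ K, f q = (s.map fun b => q - b).prod * g q := by
  have hint : ∀ {f : ℂ → ℂ}, (∀ q ∈ frontier K, f q ≠ 0) → ∀ q ∈ K, f q = 0 → q ∈ interior K := by
    intro f h0 q hq h
    by_contra hn
    exact h0 q ⟨subset_closure hq, hn⟩ h
  have hfr : (frontier K).Nonempty := by
    rw [nonempty_frontier_iff]
    exact ⟨hi.mono interior_subset, fun h => noncompact_univ ℂ (h ▸ hK)⟩
  have hcl : K ⊆ closure (interior K) := by
    rw [hc.closure_interior_eq_closure_of_nonempty_interior hi]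
    exact subset_closure
  have hnz : ∀ {f : ℂ → ℂ}, ContinuousOn f K → (∀ q ∈ frontier K, f q ≠ 0) →
      ¬ ∀ q ∈ interior K, f q = 0 := by
    intro f hf h0 h
    obtain ⟨q, hq⟩ := hfr
    have hqK : q ∈ K := hK.isClosed.frontier_subset hq
    refine h0 q hq ?_
    have h1 : q ∈ closure (interior K) := hcl hqK
    have h2 : ContinuousWithinAt f (interior K) q := (hf q hqK).mono interior_subset
    have h3 := h2.mem_closure_image h1
    have h4 : f '' interior K ⊆ {0} := by
      rintro _ ⟨x, hx, rfl⟩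
      exact h x hx
    have h5 := closure_mono h4 h3
    rwa [closure_singleton, mem_singleton_iff] at h5
  have hfin : ∀ {f : ℂ → ℂ}, ContinuousOn f K → DifferentiableOn ℂ f (interior K) →
      (∀ q ∈ frontier K, f q ≠ 0) → {q ∈ K | f q = 0}.Finite := by
    intro f hf hd h0
    by_contra hinf
    have hZK : {q ∈ K | f q = 0} ⊆ K := fun q hq => hq.1
    obtain ⟨z, hzK, hz⟩ := Set.Infinite.exists_accPt_of_subset_isCompact hinf hK hZK
    have hfr' : ∃ᶠ w in 𝓝[≠] z, w ∈ {q ∈ K | f q = 0} := accPt_iff_frequently_nhdsNE.1 hz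
    have hfz : f z = 0 := by
      have h1 : z ∈ closure {q ∈ K | f q = 0} := by
        rw [mem_closure_iff_frequently]
        exact hfr'.filter_mono nhdsWithin_le_nhds
      have h2 : ContinuousWithinAt f {q ∈ K | f q = 0} z := (hf z hzK).mono hZK
      have h3 := h2.mem_closure_image h1
      have h4 : f '' {q ∈ K | f q = 0} ⊆ {0} := by
        rintro _ ⟨x, hx, rfl⟩
        exact hx.2
      have h5 := closure_mono h4 h3
      rwa [closure_singleton, mem_singleton_iff] at h5
    have hzi : z ∈ interior K := hint h0 z hzK hfz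
    have han : AnalyticOnNhd ℂ f (interior K) := hd.analyticOnNhd isOpen_interior
    have := han.eqOn_zero_of_preconnected_of_frequently_eq_zero hc.interior.isPreconnected hzi
      (hfr'.mono fun w hw => hw.2)
    exact hnz hf h0 fun q hq => this hq
  obtain ⟨n, hn⟩ : ∃ n, {q ∈ K | f q = 0}.ncard = n := ⟨_, rfl⟩
  induction n generalizing f with
  | zero =>
    have h1 : {q ∈ K | f q = 0} = ∅ := (Set.ncard_eq_zero (hfin hf hd h0)).1 hn
    refine ⟨0, f, by simp, hf, fun q hq h => ?_, fun q _ => by simp⟩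
    have : q ∈ {q ∈ K | f q = 0} := ⟨hq, h⟩
    rw [h1] at this
    exact this
  | succ n ih =>
    have hne : {q ∈ K | f q = 0}.Nonempty := by
      rw [← Set.ncard_pos (hfin hf hd h0), hn]
      exact Nat.succ_pos n
    obtain ⟨b, hbK, hb⟩ := hne
    have hbi : b ∈ interior K := hint h0 b hbK hb
    have han : AnalyticOnNhd ℂ f (interior K) := hd.analyticOnNhd isOpen_interior
    have hev : ¬ ∀ᶠ z in 𝓝 b, f z = 0 := by
      intro h
      exact hnz hf h0 fun q hq =>
        han.eqOn_zero_of_preconnected_of_eventuallyEq_zero hc.interior.isPreconnected hbi h hq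
    obtain ⟨m, g0, hg0, hg0b, hfg⟩ := ((han b hbi).exists_eventuallyEq_pow_smul_nonzero_iff).2 hev
    have hm : m ≠ 0 := by
      rintro rfl
      have := hfg.self_of_nhds
      rw [hb, pow_zero, one_smul] at this
      exact hg0b this.symm
    classical
    set g : ℂ → ℂ := fun q => if q = b then g0 b else f q / (q - b) ^ m with hgdef
    have hgb : g b = g0 b := by simp [hgdef]
    have hgne : ∀ q, q ≠ b → g q = f q / (q - b) ^ m := fun q hq => by simp [hgdef, hq]
    have hgg0 : g =ᶠ[𝓝 b] g0 := by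
      filter_upwards [hfg] with z hz
      by_cases h : z = b
      · rw [h, hgb]
      · rw [hgne z h, hz, smul_eq_mul, mul_div_cancel_left₀ _ (pow_ne_zero _ (sub_ne_zero.2 h))]
    have hgana : AnalyticAt ℂ g b := hg0.congr hgg0.symm
    have hfac : ∀ q, f q = (q - b) ^ m * g q := by
      intro q
      by_cases h : q = b
      · rw [h, hb, sub_self, zero_pow hm, zero_mul]
      · rw [hgne q h, mul_div_cancel₀ _ (pow_ne_zero _ (sub_ne_zero.2 h))]
    have hgeq : ∀ q, q ≠ b → g =ᶠ[𝓝 q] fun q => f q / (q - b) ^ m := by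
      intro q hq
      filter_upwards [isOpen_ne.mem_nhds hq] with z hz
      exact hgne z hz
    have hgc : ContinuousOn g K := by
      intro q hq
      by_cases h : q = b
      · rw [h]
        exact hgana.continuousAt.continuousWithinAt
      · have h1 : ContinuousWithinAt (fun q => f q / (q - b) ^ m) K q :=
          (hf q hq).div (by fun_prop) (pow_ne_zero _ (sub_ne_zero.2 h))
        exact h1.congr_of_eventuallyEq ((hgeq q h).filter_mono nhdsWithin_le_nhds) (hgne q h)
    have hgd : DifferentiableOn ℂ g (interior K) := by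
      intro q hq
      by_cases h : q = b
      · rw [h]
        exact hgana.differentiableAt.differentiableWithinAt
      · have h1 : DifferentiableWithinAt ℂ (fun q => f q / (q - b) ^ m) (interior K) q :=
          (hd q hq).div (by fun_prop) (pow_ne_zero _ (sub_ne_zero.2 h))
        exact h1.congr_of_eventuallyEq ((hgeq q h).filter_mono nhdsWithin_le_nhds) (hgne q h)
    have hgf : ∀ q ∈ frontier K, g q ≠ 0 := by
      intro q hq h
      exact h0 q hq (by rw [hfac q, h, mul_zero])
    have hset : {q ∈ K | g q = 0} = {q ∈ K | f q = 0} \ {b} := by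
      ext q
      constructor
      · rintro ⟨h1, h2⟩
        refine ⟨⟨h1, by rw [hfac q, h2, mul_zero]⟩, ?_⟩
        rintro rfl
        exact hg0b (hgb ▸ h2)
      · rintro ⟨⟨h1, h2⟩, h3⟩
        refine ⟨h1, ?_⟩
        have h4 := hfac q
        rw [h2] at h4
        rcases mul_eq_zero.1 h4.symm with h5 | h5
        · exact absurd (sub_eq_zero.1 (pow_eq_zero_iff hm |>.1 h5)) h3
        · exact h5
    have hcard : {q ∈ K | g q = 0}.ncard = n := by
      rw [hset, Set.ncard_sdiff_singleton_of_mem (show b ∈ {q ∈ K | f q = 0} from ⟨hbK, hb⟩), hn]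
      rfl
    obtain ⟨s, g', hs, hg'c, hg'0, hg'⟩ := ih hgc hgd hgf hcard
    refine ⟨Multiset.replicate m b + s, g', ?_, hg'c, hg'0, ?_⟩
    · intro c hcs
      rcases Multiset.mem_add.1 hcs with h | h
      · rw [Multiset.eq_of_mem_replicate h]
        exact hbi
      · exact hs c h
    · intro q hq
      rw [hfac q, hg' q hq, Multiset.map_add, Multiset.prod_add, Multiset.map_replicate,
        Multiset.prod_replicate, mul_assoc]

/-- PROOF.  `exists_factor`; `g = exp ℓ_g` on `K` (`exists_log_convex`); with `a ∈ interior K` and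
`m = s.card`, on the frontier
`(q - a)^m = exp (L q - ℓ_g q - ∑_{b ∈ s} log ((q - b)/(q - a)))` (`div_mem_slitPlane`), so `m = 0`
by `no_log_pow` and `f = g ≠ 0`. -/
theorem ne_zero_of_log (hK : IsCompact K) (hc : Convex ℝ K) (hi : (interior K).Nonempty)
    {f L : ℂ → ℂ} (hf : ContinuousOn f K) (hd : DifferentiableOn ℂ f (interior K))
    (hL : ContinuousOn L (frontier K)) (h : ∀ q ∈ frontier K, exp (L q) = f q) :
    ∀ q ∈ K, f q ≠ 0 := by
  obtain ⟨s, g, hs, hgc, hg0, hfac⟩ := exists_factor hK hc hi hf hd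
    (fun q hq => by rw [← h q hq]; exact exp_ne_zero _)
  obtain ⟨a, ha⟩ := hi
  have hfK : frontier K ⊆ K := hK.isClosed.frontier_subset
  obtain ⟨ℓg, hℓc, hℓ⟩ := exists_log_convex hK hc (interior_subset ha) hgc hg0
  have hlam : ∀ s : Multiset ℂ, (∀ b ∈ s, b ∈ interior K) → ∃ lam : ℂ → ℂ,
      ContinuousOn lam (frontier K) ∧ ∀ q ∈ frontier K,
        exp (lam q) * (q - a) ^ s.card = (s.map fun b => q - b).prod := by
    intro s
    induction s using Multiset.induction_on with
    | empty =>
      intro _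
      exact ⟨fun _ => 0, continuousOn_const, fun q _ => by simp⟩
    | cons b s ih =>
      intro hb
      obtain ⟨lam, h1, h2⟩ := ih fun c hcs => hb c (Multiset.mem_cons_of_mem hcs)
      have hbi := hb b (Multiset.mem_cons_self b s)
      have hqa : ∀ q ∈ frontier K, q - a ≠ 0 := by
        intro q hq h
        rw [sub_eq_zero] at h
        exact hq.2 (h ▸ ha)
      refine ⟨fun q => lam q + Complex.log ((q - b) / (q - a)), ?_, ?_⟩
      · refine h1.add ?_
        refine ContinuousOn.clog ?_ fun q hq => div_mem_slitPlane hc ha hbi hq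
        exact ContinuousOn.div (by fun_prop) (by fun_prop) hqa
      · intro q hq
        have h3 : (q - b) / (q - a) ≠ 0 := slitPlane_ne_zero (div_mem_slitPlane hc ha hbi hq)
        have h4 := hqa q hq
        rw [Multiset.map_cons, Multiset.prod_cons, Multiset.card_cons, ← h2 q hq, Complex.exp_add,
          Complex.exp_log h3, pow_succ]
        field_simp
  obtain ⟨lam, hl1, hl2⟩ := hlam s hs
  have hm : s.card = 0 := by
    refine no_log_pow hK hc ha (ℓ := fun q => L q - ℓg q - lam q)
      ((hL.sub (hℓc.mono hfK)).sub hl1) fun q hq => ?_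
    rw [Complex.exp_sub, Complex.exp_sub, h q hq, hℓ q (hfK hq), hfac q (hfK hq), ← hl2 q hq]
    have h3 := hg0 q (hfK hq)
    have h4 := Complex.exp_ne_zero (lam q)
    field_simp
  rw [Multiset.card_eq_zero] at hm
  intro q hq
  rw [hfac q hq, hm, Multiset.map_zero, Multiset.prod_zero, one_mul]
  exact hg0 q hq

/-- Maximum principle on `K`.
PROOF.  `Complex.norm_le_of_forall_mem_frontier_norm_le` with `U = interior K`;
`closure (interior K) = K`, `frontier (interior K) = frontier K` for convex compact `K` with interior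
points (`Convex.closure_interior_eq_closure_of_nonempty_interior`). -/
theorem max_principle (hK : IsCompact K) (hc : Convex ℝ K) (hi : (interior K).Nonempty)
    {f : ℂ → ℂ} (hf : ContinuousOn f K) (hd : DifferentiableOn ℂ f (interior K)) {C : ℝ}
    (h : ∀ q ∈ frontier K, ‖f q‖ ≤ C) : ∀ q ∈ K, ‖f q‖ ≤ C := by
  intro q hq
  have hcl : closure (interior K) = K := by
    rw [hc.closure_interior_eq_closure_of_nonempty_interior hi, hK.isClosed.closure_eq]
  refine Complex.norm_le_of_forall_mem_frontier_norm_le (U := interior K)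
    (hK.isBounded.subset interior_subset) ⟨hd, by rw [hcl]; exact hf⟩
    (fun z hz => h z (frontier_interior_subset hz)) (by rw [hcl]; exact hq)

end SokalHD
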