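import Pool.Agent.Lib_MP_af4de1_hd.DRcp
import Pool.Agent.Lib_MP_af4de1_hd.DZ

/-! # Part (d): extension of the smallest zero from the frontier to `K` -/

namespace SokalHD

open Complex SokalF Filter Topology Metric Set

variable {K : Set ℂ} {c : ℕ → ℂ → ℂ} {w L : ℂ → ℂ}

/-! ## Piece [HD-D9] (this file) -/

private theorem cont_hds {α : Type*} [TopologicalSpace α] {s : Set α} {X : Set ℂ} {c : ℕ → ℂ → ℂ}
    (h : Ent X c) {f g : α → ℂ} (hf : ContinuousOn f s) (hg : ContinuousOn g s)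
    (hX : ∀ a ∈ s, f a ∈ X) : ContinuousOn (fun a => S c (f a) (g a)) s := by
  have h1 : ContinuousOn ((fun p : ℂ × ℂ => S c p.1 p.2) ∘ fun a => (f a, g a)) s :=
    ContinuousOn.comp h.continuousOn (hf.prodMk hg) fun a ha => ⟨hX a ha, mem_univ _⟩
  exact h1

/-- A continuous logarithm of the quotient on a compact set. -/
private theorem log_quot_hds {X : Set ℂ} (hX : IsCompact X) {c : ℕ → ℂ → ℂ} {w : ℂ → ℂ} (hc : Ent X c)
    (h1 : ∀ q ∈ X, c 0 q = 1) (hw : ContinuousOn w X) (h0 : ∀ q ∈ X, S c q (w q) = 0)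
    (hφ : ∀ q ∈ X, ∀ u : ℂ, ‖u‖ ≤ 1 → S (quot c w) q (w q * u) ≠ 0) {u : ℂ} (hu : ‖u‖ ≤ 1) :
    ∃ ℓ : ℂ → ℂ, ContinuousOn ℓ X ∧ ∀ q ∈ X, exp (ℓ q) = S (quot c w) q (w q * u) := by
  obtain ⟨B, hB⟩ := hX.exists_bound_of_continuousOn hw
  have hQ : Ent X (quot c w) := hc.quot hw hB
  have hcont : ContinuousOn (fun p : ℂ × ℝ => S (quot c w) p.1 (w p.1 * (p.2 * u)))
      (X ×ˢ Icc (0 : ℝ) 1) := by
    refine cont_hds hQ continuousOn_fst ?_ fun p hp => hp.1
    refine ContinuousOn.mul ?_ ?_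
    · exact hw.comp continuousOn_fst fun p hp => hp.1
    · exact (by fun_prop : Continuous fun p : ℂ × ℝ => (p.2 : ℂ) * u).continuousOn
  obtain ⟨ℓ, hℓ, he⟩ := exists_log hX (φ := fun q t => S (quot c w) q (w q * (t * u))) hcont
    (fun q hq t ht => by
      refine hφ q hq _ ?_
      rw [norm_mul, Complex.norm_real, Real.norm_eq_abs, abs_of_nonneg ht.1]
      exact mul_le_one₀ ht.2 (norm_nonneg _) hu)
    (fun q hq => by
      show S (quot c w) q (w q * (((0 : ℝ) : ℂ) * u)) = 1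
      rw [Complex.ofReal_zero, zero_mul, mul_zero, S_zero, hc.quot_zero hq (h0 q hq), h1 q hq])
  refine ⟨ℓ, hℓ, fun q hq => ?_⟩
  rw [he q hq]
  show S (quot c w) q (w q * (((1 : ℝ) : ℂ) * u)) = _
  rw [Complex.ofReal_one, one_mul]

private theorem ent_mono_hds {X Y : Set ℂ} {c : ℕ → ℂ → ℂ} (h : Ent X c) (hY : Y ⊆ X) : Ent Y c :=
  ⟨fun n => (h.1 n).mono hY, fun R hR => by
    obtain ⟨C, hC, hb⟩ := h.2 R hR
    exact ⟨C, hC, fun n q hq => hb n q (hY hq)⟩⟩

private theorem w_ne_hds {X : Set ℂ} {c : ℕ → ℂ → ℂ} {w : ℂ → ℂ}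
    (h1 : ∀ q ∈ X, c 0 q = 1) (h0 : ∀ q ∈ X, S c q (w q) = 0) {q : ℂ} (hq : q ∈ X) : w q ≠ 0 := by
  intro h
  have h2 := h0 q hq
  rw [h, S_zero, h1 q hq] at h2
  exact one_ne_zero h2

/-- PROOF.  On the frontier `φ(q) := S (quot c w) q (w q) ≠ 0`, `φ(q) = exp (ℓ q)` by `exists_log`
(`φ q t := S (quot c w) q (t w q)`, value `quot c w 0 q = c 0 q = 1` at `t = 0`).  For `n ≥ N`
(`rcp_tendsto`, `ε = 1/2`): `rcp c n q = exp (-n (L q + πi) - ℓ q + log (1 + δ))`,
`δ = rcp c n q w^n φ - 1`, `‖δ‖ ≤ 1/2` (`w = exp (L q + πi)`).  So `rcp c n` has a continuous logarithm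
on the frontier; `ne_zero_of_log`. -/
theorem rcp_ne_zero (hK : IsCompact K) (hcv : Convex ℝ K) (hi : (interior K).Nonempty)
    (hc : Ent K c) (hcd : ∀ n, DifferentiableOn ℂ (c n) (interior K)) (h1 : ∀ q ∈ K, c 0 q = 1)
    (hw : ContinuousOn w (frontier K)) (h0 : ∀ q ∈ frontier K, S c q (w q) = 0)
    (hφ : ∀ q ∈ frontier K, ∀ u : ℂ, ‖u‖ ≤ 1 → S (quot c w) q (w q * u) ≠ 0)
    (hL : ContinuousOn L (frontier K)) (hLw : ∀ q ∈ frontier K, exp (L q) = - w q) :
    ∃ N : ℕ, ∀ n ≥ N, ∀ q ∈ K, rcp c n q ≠ 0 := by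
  have hsub : frontier K ⊆ K := hK.isClosed.frontier_subset
  have hX : IsCompact (frontier K) := hK.of_isClosed_subset isClosed_frontier hsub
  have hcX : Ent (frontier K) c := ent_mono_hds hc hsub
  have h1X : ∀ q ∈ frontier K, c 0 q = 1 := fun q hq => h1 q (hsub hq)
  obtain ⟨ℓ, hℓ, hℓe⟩ := log_quot_hds hX hcX h1X hw h0 hφ (u := 1) (by simp)
  obtain ⟨B, hB⟩ := hX.exists_bound_of_continuousOn hw
  have hQ : Ent (frontier K) (quot c w) := hcX.quot hw hB
  obtain ⟨N, hN⟩ := rcp_tendsto hX hcX h1X hw h0 hφ (ε := 1 / 2) (by norm_num)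
  refine ⟨N, fun n hn => ?_⟩
  have hrc : ContinuousOn (rcp c n) K := rcp_continuousOn hc.1 h1 n
  have hv : ContinuousOn (fun q => rcp c n q * w q ^ n * S (quot c w) q (w q)) (frontier K) := by
    refine ((hrc.mono hsub).mul (hw.pow n)).mul ?_
    exact cont_hds (f := fun q => q) hQ continuousOn_id hw fun q hq => hq
  have hsl : ∀ q ∈ frontier K, rcp c n q * w q ^ n * S (quot c w) q (w q) ∈ slitPlane := by
    intro q hq
    have h2 := hN n hn q hq
    have h3 : 1 + (rcp c n q * w q ^ n * S (quot c w) q (w q) - 1) ∈ slitPlane :=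
      mem_slitPlane_of_norm_lt_one (lt_of_le_of_lt h2 (by norm_num))
    rwa [add_sub_cancel] at h3
  refine ne_zero_of_log hK hcv hi hrc
    (rcp_differentiableOn hcd (fun q hq => h1 q (interior_subset hq)) n)
    (L := fun q => Complex.log (rcp c n q * w q ^ n * S (quot c w) q (w q)) -
      n * (L q + Real.pi * I) - ℓ q) ?_ ?_
  · refine ((hv.clog hsl).sub ?_).sub hℓ
    exact continuousOn_const.mul (hL.add continuousOn_const)
  · intro q hq
    have hw0 : w q ≠ 0 := w_ne_hds h1X h0 hq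
    have hφ0 : S (quot c w) q (w q) ≠ 0 := by
      have := hφ q hq 1 (by simp)
      rwa [mul_one] at this
    have e1 : exp (L q + Real.pi * I) = w q := by
      rw [exp_add, hLw q hq, exp_pi_mul_I]
      ring
    have e2 := hℓe q hq
    rw [mul_one] at e2
    rw [exp_sub, exp_sub, exp_log (slitPlane_ne_zero (hsl q hq)), exp_nat_mul, e1, e2]
    field_simp

/-- PROOF.  `r n = rcp c n / rcp c (n+1)` (`n ≥ N`) is continuous on `K`, holomorphic inside; on the
frontier `r n = w (1+δ_n)/(1+δ_{n+1}) → w` uniformly (`w` bounded there), so `r n` is uniformly Cauchy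
on the frontier, hence on `K` (`max_principle`); let `W` be the limit: continuous on `K`,
holomorphic inside (`TendstoLocallyUniformlyOn.differentiableOn`), `= w` on the frontier.  In the same
way `1 / r n` is bounded on the frontier by a constant `C`, so `‖r n‖ ≥ 1/C` on `K` and `W ≠ 0`.
`q ↦ S c q (W q)` is continuous on `K` (`Ent.continuousOn`), holomorphic inside
(`Ent.differentiableOn`), `0` on the frontier, so `0` on `K` (`max_principle`). -/
theorem exists_W (hK : IsCompact K) (hcv : Convex ℝ K) (hi : (interior K).Nonempty)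
    (hc : Ent K c) (hcd : ∀ n, DifferentiableOn ℂ (c n) (interior K)) (h1 : ∀ q ∈ K, c 0 q = 1)
    (hw : ContinuousOn w (frontier K)) (h0 : ∀ q ∈ frontier K, S c q (w q) = 0)
    (hφ : ∀ q ∈ frontier K, ∀ u : ℂ, ‖u‖ ≤ 1 → S (quot c w) q (w q * u) ≠ 0)
    (hL : ContinuousOn L (frontier K)) (hLw : ∀ q ∈ frontier K, exp (L q) = - w q) :
    ∃ W : ℂ → ℂ, ContinuousOn W K ∧ DifferentiableOn ℂ W (interior K) ∧
      (∀ q ∈ frontier K, W q = w q) ∧ ∀ q ∈ K, W q ≠ 0 ∧ S c q (W q) = 0 := by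
  have hsub : frontier K ⊆ K := hK.isClosed.frontier_subset
  have hX : IsCompact (frontier K) := hK.of_isClosed_subset isClosed_frontier hsub
  have hcX : Ent (frontier K) c := ent_mono_hds hc hsub
  have h1X : ∀ q ∈ frontier K, c 0 q = 1 := fun q hq => h1 q (hsub hq)
  have hwne : ∀ q ∈ frontier K, w q ≠ 0 := fun q hq => w_ne_hds h1X h0 hq
  have hφ0 : ∀ q ∈ frontier K, S (quot c w) q (w q) ≠ 0 := by
    intro q hq
    have := hφ q hq 1 (by simp)
    rwa [mul_one] at this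
  obtain ⟨B0, hB0⟩ := hX.exists_bound_of_continuousOn hw
  obtain ⟨B1, hB1⟩ := hX.exists_bound_of_continuousOn (hw.inv₀ hwne)
  obtain ⟨B, hBpos, hB, hBi⟩ : ∃ B : ℝ, 0 < B ∧ (∀ q ∈ frontier K, ‖w q‖ ≤ B) ∧
      ∀ q ∈ frontier K, ‖(w q)⁻¹‖ ≤ B := by
    refine ⟨|B0| + |B1| + 1, by positivity, fun q hq => ?_, fun q hq => ?_⟩
    · have := (hB0 q hq).trans (le_abs_self B0)
      linarith [abs_nonneg B1]
    · have h3 : ‖(w q)⁻¹‖ ≤ |B1| := (hB1 q hq).trans (le_abs_self B1)
      linarith [abs_nonneg B0]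
  obtain ⟨N0, hN0⟩ := rcp_ne_zero hK hcv hi hc hcd h1 hw h0 hφ hL hLw
  have hrc : ∀ n, ContinuousOn (rcp c n) K := rcp_continuousOn hc.1 h1
  have hrd : ∀ n, DifferentiableOn ℂ (rcp c n) (interior K) :=
    rcp_differentiableOn hcd (fun q hq => h1 q (interior_subset hq))
  obtain ⟨r, hr⟩ : ∃ r : ℕ → ℂ → ℂ, r = fun n q => rcp c n q / rcp c (n + 1) q := ⟨_, rfl⟩
  have rc : ∀ n ≥ N0, ContinuousOn (r n) K := by
    intro n hn
    rw [hr]
    exact (hrc n).div (hrc (n + 1)) fun q hq => hN0 (n + 1) (by omega) q hq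
  have rd : ∀ n ≥ N0, DifferentiableOn ℂ (r n) (interior K) := by
    intro n hn
    rw [hr]
    exact (hrd n).div (hrd (n + 1)) fun q hq => hN0 (n + 1) (by omega) q (interior_subset hq)
  -- on the frontier
  have key : ∀ n, ∀ q ∈ frontier K, ∀ ε : ℝ, ε ≤ 1 / 2 →
      ‖rcp c n q * w q ^ n * S (quot c w) q (w q) - 1‖ ≤ ε →
      ‖rcp c (n + 1) q * w q ^ (n + 1) * S (quot c w) q (w q) - 1‖ ≤ ε →
      ‖r n q - w q‖ ≤ 4 * B * ε ∧ ‖(r n q)⁻¹‖ ≤ 3 * B := by
    intro n q hq ε hε ha hb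
    obtain ⟨a, hae⟩ : ∃ a, a = rcp c n q * w q ^ n * S (quot c w) q (w q) := ⟨_, rfl⟩
    obtain ⟨b, hbe⟩ : ∃ b, b = rcp c (n + 1) q * w q ^ (n + 1) * S (quot c w) q (w q) := ⟨_, rfl⟩
    rw [← hae] at ha
    rw [← hbe] at hb
    have hw0 := hwne q hq
    have hf0 := hφ0 q hq
    have na : 1 / 2 ≤ ‖a‖ := by
      have h2 := norm_sub_norm_le (1 : ℂ) (1 - a)
      rw [norm_one, sub_sub_cancel, norm_sub_rev 1 a] at h2
      linarith
    have nb : 1 / 2 ≤ ‖b‖ := by
      have h2 := norm_sub_norm_le (1 : ℂ) (1 - b)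
      rw [norm_one, sub_sub_cancel, norm_sub_rev 1 b] at h2
      linarith
    have nb2 : ‖b‖ ≤ 3 / 2 := by
      have h2 := norm_add_le (b - 1) 1
      rw [sub_add_cancel, norm_one] at h2
      linarith
    have a0 : a ≠ 0 := norm_pos_iff.1 (by linarith)
    have b0 : b ≠ 0 := norm_pos_iff.1 (by linarith)
    have ea : rcp c n q = a / (w q ^ n * S (quot c w) q (w q)) := by
      rw [hae]
      field_simp
    have eb : rcp c (n + 1) q = b / (w q ^ (n + 1) * S (quot c w) q (w q)) := by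
      rw [hbe]
      field_simp
    have er : r n q = w q * (a / b) := by
      rw [hr]
      show rcp c n q / rcp c (n + 1) q = _
      rw [ea, eb, pow_succ]
      field_simp
    constructor
    · have e2 : r n q - w q = w q * ((a - 1) - (b - 1)) / b := by
        rw [er]
        field_simp
        ring
      rw [e2, norm_div, norm_mul, div_le_iff₀ (by linarith)]
      have h3 : ‖(a - 1) - (b - 1)‖ ≤ 2 * ε := (norm_sub_le _ _).trans (by linarith)
      have h4 : ‖w q‖ * ‖(a - 1) - (b - 1)‖ ≤ B * (2 * ε) :=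
        mul_le_mul (hB q hq) h3 (norm_nonneg _) hBpos.le
      have hε0 : 0 ≤ ε := (norm_nonneg _).trans ha
      have h5 : 4 * B * ε * (1 / 2) ≤ 4 * B * ε * ‖b‖ :=
        mul_le_mul_of_nonneg_left nb (by positivity)
      linarith
    · have e2 : (r n q)⁻¹ = (w q)⁻¹ * (b / a) := by
        rw [er]
        field_simp
      rw [e2, norm_mul, norm_div]
      have h3 : ‖b‖ / ‖a‖ ≤ 3 := by
        rw [div_le_iff₀ (by linarith)]
        linarith
      calc ‖(w q)⁻¹‖ * (‖b‖ / ‖a‖) ≤ B * 3 :=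
            mul_le_mul (hBi q hq) h3 (by positivity) hBpos.le
        _ = 3 * B := by ring
  have hfr : ∀ ε : ℝ, 0 < ε → ∃ N, ∀ n ≥ N, ∀ q ∈ frontier K, ‖r n q - w q‖ ≤ ε := by
    intro ε hε
    obtain ⟨N, hN⟩ := rcp_tendsto hX hcX h1X hw h0 hφ (ε := min (1 / 2) (ε / (4 * B)))
      (lt_min (by norm_num) (by positivity))
    refine ⟨N, fun n hn q hq => ?_⟩
    have h2 := (key n q hq _ (min_le_left _ _) (hN n hn q hq) (hN (n + 1) (by omega) q hq)).1
    refine h2.trans ?_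
    calc 4 * B * min (1 / 2) (ε / (4 * B)) ≤ 4 * B * (ε / (4 * B)) :=
          mul_le_mul_of_nonneg_left (min_le_right _ _) (by positivity)
      _ = ε := by field_simp
  have hinv : ∃ N ≥ N0, ∀ n ≥ N, ∀ q ∈ K, ‖(r n q)⁻¹‖ ≤ 3 * B := by
    obtain ⟨N, hN⟩ := rcp_tendsto hX hcX h1X hw h0 hφ (ε := 1 / 2) (by norm_num)
    refine ⟨max N N0, le_max_right _ _, fun n hn => ?_⟩
    have hn1 : N ≤ n := (le_max_left _ _).trans hn
    have hn2 : N0 ≤ n := (le_max_right _ _).trans hn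
    have r0 : ∀ q ∈ K, r n q ≠ 0 := by
      intro q hq
      rw [hr]
      exact div_ne_zero (hN0 n hn2 q hq) (hN0 (n + 1) (by omega) q hq)
    refine max_principle hK hcv hi ((rc n hn2).inv₀ r0)
      ((rd n hn2).inv fun q hq => r0 q (interior_subset hq)) fun q hq => ?_
    exact (key n q hq _ le_rfl (hN n hn1 q hq) (hN (n + 1) (by omega) q hq)).2
  -- the limit
  have hcau : UniformCauchySeqOn r atTop K := by
    rw [Metric.uniformCauchySeqOn_iff]
    intro ε hε
    obtain ⟨N, hN⟩ := hfr (ε / 4) (by positivity)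
    refine ⟨max N N0, fun m hm n hn q hq => ?_⟩
    have hm1 : N ≤ m := (le_max_left _ _).trans hm
    have hm2 : N0 ≤ m := (le_max_right _ _).trans hm
    have hn1 : N ≤ n := (le_max_left _ _).trans hn
    have hn2 : N0 ≤ n := (le_max_right _ _).trans hn
    have h2 := max_principle hK hcv hi (f := fun q => r m q - r n q) ((rc m hm2).sub (rc n hn2))
      ((rd m hm2).sub (rd n hn2)) (C := ε / 2) (fun q hq => by
        have e : r m q - r n q = (r m q - w q) - (r n q - w q) := by ring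
        rw [e]
        refine (norm_sub_le _ _).trans ?_
        have a1 := hN m hm1 q hq
        have a2 := hN n hn1 q hq
        linarith) q hq
    rw [dist_eq_norm]
    exact lt_of_le_of_lt h2 (by linarith)
  have hlim : ∀ q, ∃ l, q ∈ K → Tendsto (fun n => r n q) atTop (𝓝 l) := by
    intro q
    by_cases hq : q ∈ K
    · have h2 : CauchySeq fun n => r n q := hcau.cauchySeq hq
      obtain ⟨l, hl⟩ := cauchySeq_tendsto_of_complete h2
      exact ⟨l, fun _ => hl⟩
    · exact ⟨0, fun h => absurd h hq⟩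
  choose W hW using hlim
  have hu : TendstoUniformlyOn r W atTop K := hcau.tendstoUniformlyOn_of_tendsto fun q hq => hW q hq
  have hWc : ContinuousOn W K :=
    hu.continuousOn ((eventually_atTop.2 ⟨N0, fun n hn => rc n hn⟩).frequently)
  have hWd : DifferentiableOn ℂ W (interior K) :=
    (hu.mono interior_subset).tendstoLocallyUniformlyOn.differentiableOn
      (eventually_atTop.2 ⟨N0, fun n hn => rd n hn⟩) isOpen_interior
  have hWw : ∀ q ∈ frontier K, W q = w q := by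
    intro q hq
    refine tendsto_nhds_unique (hW q (hsub hq)) ?_
    rw [Metric.tendsto_atTop]
    intro ε hε
    obtain ⟨N, hN⟩ := hfr (ε / 2) (by positivity)
    refine ⟨N, fun n hn => ?_⟩
    rw [dist_eq_norm]
    exact lt_of_le_of_lt (hN n hn q hq) (by linarith)
  obtain ⟨BW, hBW⟩ := hK.exists_bound_of_continuousOn hWc
  refine ⟨W, hWc, hWd, hWw, fun q hq => ⟨?_, ?_⟩⟩
  · obtain ⟨N, hN0', hN⟩ := hinv
    intro hW0
    have h2 : ∀ n ≥ N, 1 / (3 * B) ≤ ‖r n q‖ := by
      intro n hn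
      have h3 := hN n hn q hq
      have h4 : r n q ≠ 0 := by
        rw [hr]
        exact div_ne_zero (hN0 n (by omega) q hq) (hN0 (n + 1) (by omega) q hq)
      have h5 : 0 < ‖r n q‖ := norm_pos_iff.2 h4
      rw [norm_inv] at h3
      rw [div_le_iff₀ (by positivity)]
      have h6 : ‖r n q‖⁻¹ * ‖r n q‖ ≤ 3 * B * ‖r n q‖ := mul_le_mul_of_nonneg_right h3 h5.le
      rw [inv_mul_cancel₀ h5.ne'] at h6
      linarith
    have h3 : 1 / (3 * B) ≤ ‖W q‖ :=
      ge_of_tendsto (hW q hq).norm (eventually_atTop.2 ⟨N, h2⟩)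
    rw [hW0, norm_zero] at h3
    have h4 : 0 < 1 / (3 * B) := by positivity
    linarith
  · have hg : ContinuousOn (fun q => S c q (W q)) K :=
      cont_hds (f := fun q => q) hc continuousOn_id hWc fun q hq => hq
    have hgd : DifferentiableOn ℂ (fun q => S c q (W q)) (interior K) :=
      Ent.differentiableOn isOpen_interior interior_subset hc hcd hWd
        fun q hq => hBW q (interior_subset hq)
    have h2 := max_principle hK hcv hi hg hgd (C := 0) (fun q hq => by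
      rw [hWw q hq, h0 q hq, norm_zero]) q hq
    exact norm_le_zero_iff.1 h2

/-- PROOF.  For fixed `u`, `‖u‖ ≤ 1`, the function `f q = S (quot c W) q (W q * u)` is continuous on
`K`, holomorphic in the interior (`Ent.quot`, `Ent.quot_differentiableOn`, `Ent.differentiableOn`).
On the frontier `quot c W n q = quot c w n q` (same value of `W` and `w` at `q`), `f = exp ℓ` with a
continuous `ℓ` by `exists_log` (`φ q t = S (quot c w) q (w q * (t u))`, `φ q 0 = quot c w 0 q = 1`).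
`ne_zero_of_log`. -/
theorem W_unique (hK : IsCompact K) (hcv : Convex ℝ K) (hi : (interior K).Nonempty)
    (hc : Ent K c) (hcd : ∀ n, DifferentiableOn ℂ (c n) (interior K)) (h1 : ∀ q ∈ K, c 0 q = 1)
    {W : ℂ → ℂ} (hW : ContinuousOn W K) (hWd : DifferentiableOn ℂ W (interior K))
    (h0 : ∀ q ∈ K, S c q (W q) = 0)
    (hφ : ∀ q ∈ frontier K, ∀ u : ℂ, ‖u‖ ≤ 1 → S (quot c W) q (W q * u) ≠ 0) :
    ∀ q ∈ K, ∀ u : ℂ, ‖u‖ ≤ 1 → S (quot c W) q (W q * u) ≠ 0 := by
  intro q hq u hu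
  have hsub : frontier K ⊆ K := hK.isClosed.frontier_subset
  have hX : IsCompact (frontier K) := hK.of_isClosed_subset isClosed_frontier hsub
  have hcX : Ent (frontier K) c := ent_mono_hds hc hsub
  obtain ⟨ℓ, hℓ, hℓe⟩ := log_quot_hds hX hcX (fun q hq => h1 q (hsub hq)) (hW.mono hsub)
    (fun q hq => h0 q (hsub hq)) hφ hu
  obtain ⟨B, hB⟩ := hK.exists_bound_of_continuousOn hW
  have hQ : Ent K (quot c W) := hc.quot hW hB
  have hf : ContinuousOn (fun q => S (quot c W) q (W q * u)) K :=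
    cont_hds (f := fun q => q) hQ continuousOn_id (hW.mul continuousOn_const) fun q hq => hq
  have hfd : DifferentiableOn ℂ (fun q => S (quot c W) q (W q * u)) (interior K) := by
    refine Ent.differentiableOn (W := fun q => W q * u) (B := B) isOpen_interior interior_subset hQ
      (fun n => Ent.quot_differentiableOn isOpen_interior interior_subset hc hcd hWd
        (fun q hq => hB q (interior_subset hq)) n) (hWd.mul (differentiableOn_const u)) ?_
    intro q hq
    rw [norm_mul]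
    have h2 := hB q (interior_subset hq)
    calc ‖W q‖ * ‖u‖ ≤ ‖W q‖ * 1 := mul_le_mul_of_nonneg_left hu (norm_nonneg _)
      _ ≤ B := by rw [mul_one]; exact h2
  exact ne_zero_of_log hK hcv hi hf hfd hℓ hℓe q hq

end SokalHD
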