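import Pool.Agent.Lib_MP_af4de1_hd.DS
import Pool.Agent.Lib_MP_af4de1_hd.DMin

/-!
# Part (d): one step of the induction over the number of zeros

Notation: `c = Cf d`, `z_j = w j q / q^j` (`j < k`), `z_k = W q / q^k`, `G q ζ = S (quot c W) q ζ`, so
`F q z = ∏_{j<k} (1 - z/z_j) · S c q (q^k z)` and `W q · S c q ζ = (W q - ζ) · G q ζ` (`Ent.quot_mul`).
-/

namespace SokalHD

open Complex SokalF Filter Topology Metric Set

variable {K : Set ℂ} {k : ℕ} {d : ℕ → ℂ → ℂ} {w : ℕ → ℂ → ℂ} {W : ℂ → ℂ}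

/-- The next normalised zero on the frontier. -/
structure Bd (K : Set ℂ) (k : ℕ) (d : ℕ → ℂ → ℂ) (w : ℕ → ℂ → ℂ) (W : ℂ → ℂ) : Prop where
  zero : ∀ q ∈ frontier K, S (Cf d) q (W q) = 0
  ne : ∀ q ∈ frontier K, W q ≠ 0
  min : ∀ q ∈ frontier K, ∀ ζ, S (Cf d) q ζ = 0 → ‖W q‖ < ‖ζ‖ ∨ ζ = W q
  simple : ∀ q ∈ frontier K, q ≠ 0 → F q (q * (W q / q ^ k)) ≠ 0
  star : ∀ q ∈ frontier K, q ≠ 0 → ∀ i < k, ∀ τ : ℝ, 1 ≤ τ →
    w i q / q ^ i ≠ τ * (q * (W q / q ^ k))
  at0 : (0 : ℂ) ∈ frontier K → W 0 = -((k : ℂ) + 1)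

/-! ## Piece [HD-D12] (this block) -/

/-- Two sorted lists of the first zeros agree.
PROOF.  Strong induction on `j`: `a j` is a zero, so (`b` complete) it is a `b i` or larger than
all `b i`, `i < k`; etc.  (The `a j` and the `b j` are the `k` smallest zeros in increasing order.) -/
theorem first_unique {q : ℂ} {a b : ℕ → ℂ} {Z : Set ℂ}
    (ha : ∀ j < k, a j ∈ Z) (ham : ∀ i j, i < j → j < k → ‖a i‖ < ‖a j‖)
    (hac : ∀ u ∈ Z, (∃ j < k, u = a j) ∨ ∀ j < k, ‖a j‖ < ‖u‖)
    (hb : ∀ j < k, b j ∈ Z) (hbm : ∀ i j, i < j → j < k → ‖b i‖ < ‖b j‖)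
    (hbc : ∀ u ∈ Z, (∃ j < k, u = b j) ∨ ∀ j < k, ‖b j‖ < ‖u‖) : ∀ j < k, a j = b j := by
  intro j
  induction j using Nat.strong_induction_on with
  | _ j ih =>
    intro hj
    have key : ∀ a b : ℕ → ℂ, (∀ j < k, a j ∈ Z) → (∀ i j, i < j → j < k → ‖a i‖ < ‖a j‖) →
        (∀ i j, i < j → j < k → ‖b i‖ < ‖b j‖) →
        (∀ u ∈ Z, (∃ j < k, u = b j) ∨ ∀ j < k, ‖b j‖ < ‖u‖) → (∀ i < j, a i = b i) →
        ‖b j‖ ≤ ‖a j‖ := by
      intro a b ha ham hbm hbc hab
      rcases hbc (a j) (ha j hj) with ⟨i, hi, hi2⟩ | h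
      · rcases lt_trichotomy i j with h1 | h1 | h1
        · exfalso
          have h2 := ham i j h1 hj
          rw [hab i h1, ← hi2] at h2
          exact lt_irrefl _ h2
        · rw [hi2, h1]
        · rw [hi2]
          exact (hbm j i h1 hi).le
      · exact (h j hj).le
    have h1 := key a b ha ham hbm hbc fun i hi => ih i hi (hi.trans hj)
    have h2 := key b a hb hbm ham hac fun i hi => (ih i hi (hi.trans hj)).symm
    rcases hbc (a j) (ha j hj) with ⟨i, hi, hi2⟩ | h
    · rcases lt_trichotomy i j with h3 | h3 | h3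
      · exfalso
        have h4 := hbm i j h3 hj
        rw [← hi2] at h4
        linarith
      · rw [hi2, h3]
      · exfalso
        have h4 := hbm j i h3 hi
        rw [← hi2] at h4
        linarith
    · exfalso
      have h4 := h j hj
      linarith

/-- PROOF.  From `State.fac`: `F q (w j q / q ^ j) = 0` (`j < k`) and `F q u = 0` implies
`u = w j q / q^j` for a `j < k` or `S (Cf d) q (q^k u) = 0`, and then `u` is larger than all
`w j q / q^j` (`State.gt`). -/
theorem State.complete (h : State K k d w) {q : ℂ} (hq : q ∈ K) (hq0 : q ≠ 0) :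
    (∀ j < k, F q (w j q / q ^ j) = 0) ∧ ∀ u, F q u = 0 → (∃ j < k, u = w j q / q ^ j) ∨
      (S (Cf d) q (q ^ k * u) = 0 ∧ ∀ j < k, ‖w j q / q ^ j‖ < ‖u‖) := by
  constructor
  · intro j hj
    rw [h.fac q hq hq0, Finset.prod_eq_zero (Finset.mem_range.2 hj), zero_mul]
    have h1 : q ^ j ≠ 0 := pow_ne_zero _ hq0
    have h2 := h.wne j hj q hq
    rw [mul_div_cancel₀ _ h1, div_self h2, sub_self]
  · intro u hu
    rw [h.fac q hq hq0, mul_eq_zero] at hu
    rcases hu with h1 | h1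
    · left
      obtain ⟨j, hj, h2⟩ := Finset.prod_eq_zero_iff.1 h1
      rw [Finset.mem_range] at hj
      refine ⟨j, hj, ?_⟩
      have h3 : q ^ j ≠ 0 := pow_ne_zero _ hq0
      have h4 := h.wne j hj q hq
      rw [eq_div_iff h3]
      rw [sub_eq_zero, eq_div_iff h4, one_mul] at h2
      rw [h2, mul_comm]
    · right
      exact ⟨h1, fun j hj => h.gt q hq hq0 j hj u h1⟩

/-- restriction of a family -/
private theorem ent_mono_hd12 {X Y : Set ℂ} {c : ℕ → ℂ → ℂ} (h : Ent X c) (hY : Y ⊆ X) : Ent Y c :=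
  ⟨fun n => (h.1 n).mono hY, fun R hR => by
    obtain ⟨C, hC, hb⟩ := h.2 R hR
    exact ⟨C, hC, fun n q hq => hb n q (hY hq)⟩⟩

private theorem S_zero_hd12 (h : State K k d w) {q : ℂ} (hq : q ∈ K) : S (Cf d) q 0 = 1 := by
  rw [S_zero]
  simp [Cf, h.one q hq]

private theorem S_at0_hd12 (h : State K k d w) (h0 : (0 : ℂ) ∈ K) (ζ : ℂ) :
    S (Cf d) 0 ζ = 1 + ζ / ((k : ℂ) + 1) := by
  have hk : (k.factorial : ℂ) ≠ 0 := Nat.cast_ne_zero.2 k.factorial_ne_zero
  have hk1 : ((k : ℂ) + 1) ≠ 0 := Nat.cast_add_one_ne_zero k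
  rw [S_Cf_at_zero, h.d0 h0 0, h.d0 h0 1, zero_add, div_self hk, add_comm 1 k, Nat.factorial_succ]
  push_cast
  field_simp

/-- The next zero on the frontier.
PROOF.  `q ≠ 0`: let `z` be given by `hB`; by `first_unique` (`Z` = zeros of `F q`, first `k` zeros)
`z j = w j q / q^j` for `j < k`.  `z k` is a zero, not one of the first `k`, so
`S (Cf d) q (q^k z k) = 0`; put `W q = q^k z k` (`≠ 0`, as `F q 0 = 1`).  If `S (Cf d) q ζ = 0` then
`u = ζ / q^k` is a zero of `F q` larger than the `w j q/q^j`, so by completeness of `z` (`k+1` zeros)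
`u = z k` or `‖z k‖ < ‖u‖`.  `q = 0`: `S_Cf_at_zero`, `State.d0`, `State.one`:
`S (Cf d) 0 ζ = 1 + ζ/(k+1)`, `W 0 = -(k+1)`. -/
theorem exists_Bd (hcl : IsClosed K) (h : State K k d w)
    (hB : ∀ q ∈ frontier K, q ≠ 0 → ∃ z, First q (k + 1) z ∧ StarN q (k + 1) z) :
    ∃ W, Bd K k d w W := by
  have hfr : frontier K ⊆ K := hcl.frontier_subset
  have hex : ∀ q : ℂ, ∃ x : ℂ, q ∈ frontier K → S (Cf d) q x = 0 ∧ x ≠ 0 ∧
      (∀ ζ, S (Cf d) q ζ = 0 → ‖x‖ < ‖ζ‖ ∨ ζ = x) ∧ (q ≠ 0 → F q (q * (x / q ^ k)) ≠ 0) ∧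
      (q ≠ 0 → ∀ i < k, ∀ τ : ℝ, 1 ≤ τ → w i q / q ^ i ≠ τ * (q * (x / q ^ k))) ∧
      (q = 0 → x = -((k : ℂ) + 1)) := by
    intro q
    by_cases hqf : q ∈ frontier K
    swap
    · exact ⟨0, fun hq => absurd hq hqf⟩
    have hqK := hfr hqf
    by_cases hq0 : q = 0
    · subst hq0
      have hk1 : ((k : ℂ) + 1) ≠ 0 := Nat.cast_add_one_ne_zero k
      refine ⟨-((k : ℂ) + 1), fun _ => ⟨?_, neg_ne_zero.2 hk1, fun ζ hζ => Or.inr ?_,
        fun h1 => absurd rfl h1, fun h1 => absurd rfl h1, fun _ => rfl⟩⟩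
      · rw [S_at0_hd12 h hqK, neg_div, div_self hk1, add_neg_cancel]
      · rw [S_at0_hd12 h hqK] at hζ
        field_simp at hζ
        linear_combination hζ
    · obtain ⟨z, ⟨hz1, hz2, hz3⟩, hst⟩ := hB q hqf hq0
      have hqk : q ^ k ≠ 0 := pow_ne_zero _ hq0
      obtain ⟨hc1, hc2⟩ := h.complete hqK hq0
      have huniq : ∀ j < k, z j = w j q / q ^ j := by
        refine first_unique (q := q) (Z := {u | F q u = 0}) (fun j hj => (hz1 j (by omega)).1)
          (fun i j hij hj => hz2 i j hij (by omega)) ?_ hc1 (fun i j hij hj => h.lt q hqK hq0 i j hij hj) ?_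
        · intro u hu
          rcases hz3 u hu with ⟨j, hj, h1⟩ | h1
          · by_cases hjk : j = k
            · right
              intro i hi
              rw [h1, hjk]
              exact hz2 i k hi (Nat.lt_succ_self k)
            · exact Or.inl ⟨j, by omega, h1⟩
          · exact Or.inr fun j hj => h1 j (by omega)
        · intro u hu
          rcases hc2 u hu with h1 | h1
          · exact Or.inl h1
          · exact Or.inr h1.2
      have hzk := (hz1 k (Nat.lt_succ_self k)).1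
      have hSk : S (Cf d) q (q ^ k * z k) = 0 := by
        rcases hc2 (z k) hzk with ⟨j, hj, h1⟩ | h1
        · exfalso
          rw [← huniq j hj] at h1
          have h2 := hz2 j k hj (Nat.lt_succ_self k)
          rw [h1] at h2
          exact lt_irrefl _ h2
        · exact h1.1
      have hx : q ^ k * z k / q ^ k = z k := mul_div_cancel_left₀ _ hqk
      refine ⟨q ^ k * z k, fun _ => ⟨hSk, ?_, ?_, fun _ => ?_, fun _ => ?_, fun h1 => absurd h1 hq0⟩⟩
      · intro h1
        rw [h1, S_zero_hd12 h hqK] at hSk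
        exact one_ne_zero hSk
      · intro ζ hζ
        have hu : q ^ k * (ζ / q ^ k) = ζ := mul_div_cancel₀ _ hqk
        have h2 : F q (ζ / q ^ k) = 0 := by
          rw [h.fac q hqK hq0, hu, hζ, mul_zero]
        rcases hz3 _ h2 with ⟨j, hj, h1⟩ | h1
        · by_cases hjk : j = k
          · right
            rw [← hu, h1, hjk]
          · exfalso
            have hj' : j < k := by omega
            have h3 := h.gt q hqK hq0 j hj' (ζ / q ^ k) (by rw [hu]; exact hζ)
            rw [h1, huniq j hj'] at h3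
            exact lt_irrefl _ h3
        · left
          have h3 := h1 k (Nat.lt_succ_self k)
          have h4 : ‖ζ‖ = ‖q ^ k‖ * ‖ζ / q ^ k‖ := by
            rw [← norm_mul, hu]
          rw [h4, norm_mul]
          exact mul_lt_mul_of_pos_left h3 (norm_pos_iff.2 hqk)
      · rw [hx]
        exact (hz1 k (Nat.lt_succ_self k)).2
      · intro i hi τ hτ
        rw [hx, ← huniq i hi]
        exact hst i k hi (Nat.lt_succ_self k) τ hτ
  choose W hW using hex
  exact ⟨W, fun q hq => (hW q hq).1, fun q hq => (hW q hq).2.1, fun q hq => (hW q hq).2.2.1,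
    fun q hq => (hW q hq).2.2.2.1, fun q hq => (hW q hq).2.2.2.2.1,
    fun hq => (hW 0 hq).2.2.2.2.2 rfl⟩

/-- PROOF.  `continuousOn_min` with `X = frontier K` (compact, contained in `K`), `c = Cf d`. -/
theorem Bd.continuousOn (hK : IsCompact K) (h1 : ∀ q ∈ K, ‖q‖ ≤ 1) (h : State K k d w)
    (hb : Bd K k d w W) : ContinuousOn W (frontier K) := by
  have hfr : frontier K ⊆ K := hK.isClosed.frontier_subset
  have hX : IsCompact (frontier K) := hK.of_isClosed_subset isClosed_frontier hfr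
  refine continuousOn_min hX (ent_mono_hd12 (h.ent.Cf h1) hfr) (fun q hq => ?_) hb.zero hb.min
  have h2 := S_zero_hd12 h (hfr hq)
  rwa [S_zero] at h2

/-! ## Piece [HD-D13] (this block) -/

/-- Value at `q = 0`: `G 0 ζ = 1`.
PROOF.  `S_quot_Cf`, `S_zero`-like: `S (Cf (dquot d W)) 0 (0 * ζ) = Cf (dquot d W) 0 0 =
dquot d W 0 0 = -(d 1 0 * W 0)` (`dquot_at_zero`), `d 1 0 = k!/(k+1)!`, `W 0 = -(k+1)`. -/
theorem quot_at_zero (h : State K k d w) (h0 : (0 : ℂ) ∈ K) (hW : W 0 = -((k : ℂ) + 1)) (ζ : ℂ) :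
    S (quot (Cf d) W) 0 ζ = 1 := by
  have hk : (k.factorial : ℂ) ≠ 0 := Nat.cast_ne_zero.2 k.factorial_ne_zero
  have hk1 : ((k : ℂ) + 1) ≠ 0 := Nat.cast_add_one_ne_zero k
  rw [S_quot_Cf, zero_mul, S_zero]
  have h1 : Cf (dquot d W) 0 0 = dquot d W 0 0 := by
    simp [Cf]
  rw [h1, dquot_at_zero, h.d0 h0 (0 + 1), hW, zero_add, add_comm 1 k, Nat.factorial_succ]
  push_cast
  field_simp

/-- `W q` is a simple zero and there is no other zero of modulus `≤ ‖W q‖`.
PROOF.  `ζ = W q u`.  If `u ≠ 1` and `G q ζ = 0` then `S (Cf d) q ζ = 0` (`Ent.quot_mul`, `W q ≠ 0`),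
`‖ζ‖ ≤ ‖W q‖`, so `ζ = W q` by `Bd.min`: contradiction.  `u = 1`, `q ≠ 0`: differentiate
`F q z = P z · S (Cf d) q (q^k z)` and `W q · S (Cf d) q ζ = (W q - ζ) G q ζ` at `z_k = W q/q^k`:
`F q (q z_k) = F'(z_k) = - P (z_k) q^k G q (W q) / W q`, so `G q (W q) = 0` contradicts `Bd.simple`.
`q = 0`: `quot_at_zero`. -/
theorem Bd.quot_ne (hK : IsCompact K) (h1 : ∀ q ∈ K, ‖q‖ ≤ 1) (h : State K k d w)
    (hb : Bd K k d w W) : ∀ q ∈ frontier K, ∀ u : ℂ, ‖u‖ ≤ 1 →
      S (quot (Cf d) W) q (W q * u) ≠ 0 := by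
  intro q hq u hu h0
  have hfr : frontier K ⊆ K := hK.isClosed.frontier_subset
  have hX : IsCompact (frontier K) := hK.of_isClosed_subset isClosed_frontier hfr
  have hqK := hfr hq
  have hent : Ent (frontier K) (Cf d) := ent_mono_hd12 (h.ent.Cf h1) hfr
  have hWc := hb.continuousOn hK h1 h
  obtain ⟨B, hB⟩ := hX.exists_bound_of_continuousOn hWc
  have hmul := fun ζ => hent.quot_mul hWc hB hq (hb.zero q hq) ζ
  have hWne := hb.ne q hq
  by_cases hu1 : u = 1
  · subst hu1
    rw [mul_one] at h0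
    by_cases hq0 : q = 0
    · subst hq0
      rw [quot_at_zero h hqK (hb.at0 hq)] at h0
      exact one_ne_zero h0
    · have hQ : Ent (frontier K) (SokalHD.quot (Cf d) W) := Ent.quot hent hWc hB
      have hqk : q ^ k ≠ 0 := pow_ne_zero _ hq0
      have hGd : HasDerivAt (S (SokalHD.quot (Cf d) W) q)
          (deriv (S (SokalHD.quot (Cf d) W) q) (W q)) (W q) :=
        (hQ.differentiable hq (W q)).hasDerivAt
      have h2 : HasDerivAt (fun ζ => (W q - ζ) * S (SokalHD.quot (Cf d) W) q ζ) 0 (W q) := by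
        have h3 := ((hasDerivAt_id (W q)).const_sub (W q)).mul hGd
        have h4 : -1 * S (SokalHD.quot (Cf d) W) q (W q) +
            (W q - id (W q)) * deriv (S (SokalHD.quot (Cf d) W) q) (W q) = 0 := by
          rw [h0, id]
          ring
        rw [h4] at h3
        exact h3
      have h5 : HasDerivAt (S (Cf d) q) 0 (W q) := by
        have h6 := h2.const_mul (W q)⁻¹
        rw [mul_zero] at h6
        have h7 : (fun ζ => (W q)⁻¹ * ((W q - ζ) * S (SokalHD.quot (Cf d) W) q ζ)) = S (Cf d) q := by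
          funext ζ
          rw [← hmul ζ, ← mul_assoc, inv_mul_cancel₀ hWne, one_mul]
        rwa [h7] at h6
      obtain ⟨z, hz⟩ : ∃ z, z = W q / q ^ k := ⟨_, rfl⟩
      have hqz : q ^ k * z = W q := by
        rw [hz]
        exact mul_div_cancel₀ _ hqk
      have h8 : HasDerivAt (fun y => S (Cf d) q (q ^ k * y)) 0 z := by
        have h9 : HasDerivAt (fun y : ℂ => q ^ k * y) (q ^ k) z := by
          simpa using (hasDerivAt_id z).const_mul (q ^ k)
        have h10 : HasDerivAt (S (Cf d) q) 0 (q ^ k * z) := by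
          rw [hqz]
          exact h5
        have h11 := h10.comp z h9
        rw [zero_mul] at h11
        exact h11
      have hPd : DifferentiableAt ℂ (fun y => ∏ j ∈ Finset.range k, (1 - q ^ j * y / w j q)) z := by
        refine DifferentiableAt.fun_finsetProd fun j _ => ?_
        exact ((differentiableAt_id.const_mul _).div_const _).const_sub _
      have h12 := hPd.hasDerivAt.mul h8
      rw [hqz, hb.zero q hq, mul_zero, mul_zero, add_zero] at h12
      have h13 : HasDerivAt (F q) 0 z := by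
        have h14 : F q = fun y => (∏ j ∈ Finset.range k, (1 - q ^ j * y / w j q)) *
            S (Cf d) q (q ^ k * y) := by
          funext y
          exact h.fac q hqK hq0 y
        rw [h14]
        exact h12
      have h15 := h13.unique (hasDerivAt_F (h1 q hqK) z)
      refine hb.simple q hq hq0 ?_
      rw [← hz]
      exact h15.symm
  · have h2 : S (Cf d) q (W q * u) = 0 := by
      have h3 := hmul (W q * u)
      rw [h0, mul_zero] at h3
      exact (mul_eq_zero.1 h3).resolve_left hWne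
    rcases hb.min q hq _ h2 with h3 | h3
    · rw [norm_mul] at h3
      have h4 := mul_le_mul_of_nonneg_left hu (norm_nonneg (W q))
      rw [mul_one] at h4
      linarith
    · exact hu1 ((mul_right_eq_self₀.1 h3).resolve_right hWne)

/-! ## Piece [HD-D14] (this block) -/

private theorem ent_mono_hdd14 {X Y : Set ℂ} {c : ℕ → ℂ → ℂ} (h : Ent X c) (hXY : Y ⊆ X) :
    Ent Y c :=
  ⟨fun n => (h.1 n).mono hXY, fun R hR => by
    obtain ⟨C, h1, h2⟩ := h.2 R hR
    exact ⟨C, h1, fun n q hq => h2 n q (hXY hq)⟩⟩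

private theorem quot_mul_hdd14 (h1 : ∀ q ∈ K, ‖q‖ ≤ 1) (h : State K k d w) {q : ℂ} (hq : q ∈ K)
    (h0 : S (Cf d) q (W q) = 0) :
    Ent {q} (quot (Cf d) W) ∧ ∀ ζ, W q * S (Cf d) q ζ = (W q - ζ) * S (quot (Cf d) W) q ζ := by
  have hc : Ent ({q} : Set ℂ) (Cf d) := ent_mono_hdd14 (h.ent.Cf h1) (singleton_subset_iff.2 hq)
  have hw : ContinuousOn W ({q} : Set ℂ) := continuousOn_singleton W q
  have hB : ∀ p ∈ ({q} : Set ℂ), ‖W p‖ ≤ ‖W q‖ := by
    intro p hp
    rw [mem_singleton_iff.1 hp]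
  exact ⟨hc.quot hw hB, fun ζ => hc.quot_mul hw hB (mem_singleton q) h0 ζ⟩

/-- The identity behind the logarithm of `-W`.
PROOF.  `q ≠ 0`, `z_k = W q/q^k`, `z_i = w i q/q^i`: `F q z = ∏_{i<k} (1 - z/z_i) · (1 - z/z_k) ·
G q (q^k z)`.  `F'(z_k) = - ∏_{i<k} (1 - z_k/z_i) G q (W q) / z_k` equals
`F q (q z_k) = (1 - q) ∏_{i<k} (1 - q z_k/z_i) G q (q W q)`.  Here
`1 - z_k/z_i = -(z_k/z_i)(1 - z_i/z_k)` and `1 - q z_k/z_i = -(q z_k/z_i)(1 - z_i/(q z_k))`, and
`z_i/z_k = q^(k-i) w_i/W`, `z_i/(q z_k) = q^(k-i-1) w_i/W`; the product of the ratios is `q^k`.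
`q = 0`: `G = 1` (`quot_at_zero`), only the factor `i = k-1` on the left is not `1`; it is
`1 - k/(k+1)`.  (`F'(z) = F q (q z)`: `hasDerivAt_F`.) -/
theorem Bd.identity (hK : IsCompact K) (h1 : ∀ q ∈ K, ‖q‖ ≤ 1) (h : State K k d w)
    (hb : Bd K k d w W) : ∀ q ∈ frontier K,
      - W q * ((1 - q) * (∏ i ∈ Finset.range k, (1 - q ^ (k - i - 1) * w i q / W q)) *
        S (quot (Cf d) W) q (q * W q)) =
      (∏ i ∈ Finset.range k, (1 - q ^ (k - i) * w i q / W q)) * S (quot (Cf d) W) q (W q) := by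
  intro q hqf
  have hq : q ∈ K := hK.isClosed.frontier_subset hqf
  by_cases hq0 : q = 0
  · subst hq0
    rw [quot_at_zero h hq (hb.at0 hqf), quot_at_zero h hq (hb.at0 hqf), mul_one, mul_one, sub_zero,
      one_mul]
    have h3 : ∏ i ∈ Finset.range k, (1 - (0 : ℂ) ^ (k - i) * w i 0 / W 0) = 1 := by
      refine Finset.prod_eq_one fun i hi => ?_
      have h4 : k - i ≠ 0 := by
        have := Finset.mem_range.1 hi
        omega
      rw [zero_pow h4, zero_mul, zero_div, sub_zero]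
    rw [h3, hb.at0 hqf]
    rcases Nat.eq_zero_or_pos k with hk | hk
    · subst hk
      simp
    · obtain ⟨m, rfl⟩ : ∃ m, k = m + 1 := ⟨k - 1, by omega⟩
      rw [Finset.prod_range_succ]
      have h5 : ∏ i ∈ Finset.range m, (1 - (0 : ℂ) ^ (m + 1 - i - 1) * w i 0 /
          -(((m + 1 : ℕ) : ℂ) + 1)) = 1 := by
        refine Finset.prod_eq_one fun i hi => ?_
        have h4 : m + 1 - i - 1 ≠ 0 := by
          have := Finset.mem_range.1 hi
          omega
        rw [zero_pow h4, zero_mul, zero_div, sub_zero]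
      rw [h5, h.w0 hq m (Nat.lt_succ_self m)]
      have h6 : m + 1 - m - 1 = 0 := by omega
      rw [h6, pow_zero]
      have h7 : (((m + 1 : ℕ) : ℂ) + 1) ≠ 0 := by exact_mod_cast Nat.succ_ne_zero (m + 1)
      field_simp
      push_cast
      ring
  · have hW := hb.ne q hqf
    have h0 := hb.zero q hqf
    obtain ⟨hent, hmul⟩ := quot_mul_hdd14 h1 h hq h0
    set G : ℂ → ℂ := S (quot (Cf d) W) q with hG
    have hGd : Differentiable ℂ G := hent.differentiable (mem_singleton q)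
    set P : ℂ → ℂ := fun z => ∏ j ∈ Finset.range k, (1 - q ^ j * z / w j q) with hP
    have hPd : Differentiable ℂ P := by
      rw [hP]
      fun_prop
    have hqk : q ^ k ≠ 0 := pow_ne_zero k hq0
    have hF : ∀ z, F q z = P z * G (q ^ k * z) * (1 - q ^ k * z / W q) := by
      intro z
      have h3 := h.fac q hq hq0 z
      have h4 := hmul (q ^ k * z)
      have h5 : S (Cf d) q (q ^ k * z) = (1 - q ^ k * z / W q) * G (q ^ k * z) := by
        field_simp
        linear_combination h4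
      rw [h3, h5]
      ring
    set zk : ℂ := W q / q ^ k with hzk
    have hqz : q ^ k * zk = W q := by
      rw [hzk]
      field_simp
    have hd1 : HasDerivAt (F q) (F q (q * zk)) zk := hasDerivAt_F (h1 q hq) zk
    have hd2 : HasDerivAt (fun z => P z * G (q ^ k * z) * (1 - q ^ k * z / W q))
        (P zk * G (W q) * (-(q ^ k / W q))) zk := by
      have h3 : DifferentiableAt ℂ (fun z => P z * G (q ^ k * z)) zk :=
        (hPd zk).mul ((hGd _).comp zk ((differentiableAt_id).const_mul (q ^ k)))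
      have h4 : HasDerivAt (fun z : ℂ => 1 - q ^ k * z / W q) (-(q ^ k / W q)) zk := by
        have := (((hasDerivAt_id zk).const_mul (q ^ k)).div_const (W q)).const_sub 1
        simpa using this
      have h6 : (1 : ℂ) - q ^ k * zk / W q = 0 := by
        rw [hqz, div_self hW, sub_self]
      have h5 : HasDerivAt (fun z => P z * G (q ^ k * z) * (1 - q ^ k * z / W q))
          (deriv (fun z => P z * G (q ^ k * z)) zk * (1 - q ^ k * zk / W q) +
            P zk * G (q ^ k * zk) * -(q ^ k / W q)) zk := h3.hasDerivAt.mul h4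
      refine h5.congr_deriv ?_
      rw [h6, mul_zero, zero_add, hqz]
    have hd3 : F q (q * zk) = P zk * G (W q) * (-(q ^ k / W q)) := by
      refine hd1.unique ?_
      exact hd2.congr_of_eventuallyEq (Eventually.of_forall hF)
    have hd4 : F q (q * zk) = P (q * zk) * G (q * W q) * (1 - q) := by
      rw [hF (q * zk)]
      have h3 : q ^ k * (q * zk) = q * W q := by
        rw [← hqz]
        ring
      rw [h3, mul_div_assoc, div_self hW, mul_one]
    have hwne : ∀ i ∈ Finset.range k, w i q ≠ 0 := fun i hi =>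
      h.wne i (Finset.mem_range.1 hi) q hq
    have hP1 : P zk = (∏ i ∈ Finset.range k, (-(W q / (q ^ (k - i) * w i q)))) *
        ∏ i ∈ Finset.range k, (1 - q ^ (k - i) * w i q / W q) := by
      rw [← Finset.prod_mul_distrib]
      refine Finset.prod_congr rfl fun i hi => ?_
      have h3 := hwne i hi
      have h4 : q ^ k = q ^ i * q ^ (k - i) := by
        rw [← pow_add]
        congr 1
        have := Finset.mem_range.1 hi
        omega
      have h5 : q ^ i ≠ 0 := pow_ne_zero _ hq0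
      have h6 : q ^ (k - i) ≠ 0 := pow_ne_zero _ hq0
      rw [hzk, h4]
      field_simp
      ring
    have hP2 : P (q * zk) = (q ^ k * ∏ i ∈ Finset.range k, (-(W q / (q ^ (k - i) * w i q)))) *
        ∏ i ∈ Finset.range k, (1 - q ^ (k - i - 1) * w i q / W q) := by
      have h3 : q ^ k = ∏ _i ∈ Finset.range k, q := by
        rw [Finset.prod_const, Finset.card_range]
      rw [h3, ← Finset.prod_mul_distrib, ← Finset.prod_mul_distrib]
      refine Finset.prod_congr rfl fun i hi => ?_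
      have h3 := hwne i hi
      have h4 : q ^ k = q ^ i * (q ^ (k - i - 1) * q) := by
        rw [← pow_succ, ← pow_add]
        congr 1
        have := Finset.mem_range.1 hi
        omega
      have h7 : q ^ (k - i) = q ^ (k - i - 1) * q := by
        rw [← pow_succ]
        congr 1
        have := Finset.mem_range.1 hi
        omega
      have h5 : q ^ i ≠ 0 := pow_ne_zero _ hq0
      have h6 : q ^ (k - i - 1) ≠ 0 := pow_ne_zero _ hq0
      rw [hzk, h4, h7]
      field_simp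
      ring
    have hQ : ∏ i ∈ Finset.range k, (-(W q / (q ^ (k - i) * w i q))) ≠ 0 := by
      refine Finset.prod_ne_zero_iff.2 fun i hi => ?_
      exact neg_ne_zero.2 (div_ne_zero hW (mul_ne_zero (pow_ne_zero _ hq0) (hwne i hi)))
    have hfin := hd3.symm.trans hd4
    rw [hP1, hP2] at hfin
    have hfin2 : (q ^ k * ∏ i ∈ Finset.range k, (-(W q / (q ^ (k - i) * w i q)))) *
        (- W q * ((1 - q) * (∏ i ∈ Finset.range k, (1 - q ^ (k - i - 1) * w i q / W q)) *
        G (q * W q))) = (q ^ k * ∏ i ∈ Finset.range k, (-(W q / (q ^ (k - i) * w i q)))) *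
        ((∏ i ∈ Finset.range k, (1 - q ^ (k - i) * w i q / W q)) * G (W q)) := by
      have h3 : (∏ i ∈ Finset.range k, (-(W q / (q ^ (k - i) * w i q)))) *
        (∏ i ∈ Finset.range k, (1 - q ^ (k - i) * w i q / W q)) * G (W q) * (-(q ^ k / W q)) *
          (- W q) = q ^ k * (∏ i ∈ Finset.range k, (-(W q / (q ^ (k - i) * w i q)))) *
        ((∏ i ∈ Finset.range k, (1 - q ^ (k - i) * w i q / W q)) * G (W q)) := by
        field_simp
      rw [← h3, hfin]
      ring
    exact mul_left_cancel₀ (mul_ne_zero hqk hQ) hfin2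

/-- PROOF.  `1 - z_i/z_k` with `‖z_i/z_k‖ < 1` (`State.gt`), `= 1` for `q = 0`. -/
theorem Bd.slit1 (hK : IsCompact K) (h : State K k d w) (hb : Bd K k d w W) :
    ∀ q ∈ frontier K, ∀ i < k, 1 - q ^ (k - i) * w i q / W q ∈ slitPlane := by
  intro q hqf i hi
  have hq : q ∈ K := hK.isClosed.frontier_subset hqf
  by_cases hq0 : q = 0
  · subst hq0
    rw [zero_pow (by omega : k - i ≠ 0), zero_mul, zero_div, sub_zero]
    exact one_mem_slitPlane
  · have hW := hb.ne q hqf
    have hqk : q ^ k ≠ 0 := pow_ne_zero k hq0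
    have h3 := h.gt q hq hq0 i hi (W q / q ^ k) (by
      rw [mul_div_cancel₀ _ hqk]
      exact hb.zero q hqf)
    have h4 : q ^ (k - i) * w i q / W q = (w i q / q ^ i) / (W q / q ^ k) := by
      have h5 : q ^ k = q ^ i * q ^ (k - i) := by
        rw [← pow_add]
        congr 1
        omega
      have h6 : q ^ i ≠ 0 := pow_ne_zero _ hq0
      rw [h5]
      field_simp
    have h5 : ‖q ^ (k - i) * w i q / W q‖ < 1 := by
      rw [h4, norm_div]
      exact (div_lt_one ((norm_nonneg _).trans_lt h3)).2 h3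
    left
    have h6 := Complex.re_le_norm (q ^ (k - i) * w i q / W q)
    rw [sub_re, one_re]
    linarith

/-- PROOF.  `1 - z_i/(q z_k)`; if it is a real number `≤ 0` then `z_i = τ q z_k` with `τ ≥ 1`:
contradiction to `Bd.star`.  `q = 0`: it is `1` or `1 - k/(k+1)`. -/
theorem Bd.slit2 (hK : IsCompact K) (h : State K k d w) (hb : Bd K k d w W) :
    ∀ q ∈ frontier K, ∀ i < k, 1 - q ^ (k - i - 1) * w i q / W q ∈ slitPlane := by
  intro q hqf i hi
  have hq : q ∈ K := hK.isClosed.frontier_subset hqf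
  by_cases hq0 : q = 0
  · subst hq0
    by_cases hik : k - i - 1 = 0
    · rw [hik, pow_zero, one_mul, hb.at0 hqf, h.w0 hq i hi]
      have h3 : (1 : ℂ) - -((i : ℂ) + 1) / -((k : ℂ) + 1) = ((1 / ((k : ℝ) + 1) : ℝ) : ℂ) := by
        have h4 : k = i + 1 := by omega
        have h5 : ((k : ℂ) + 1) ≠ 0 := by exact_mod_cast Nat.succ_ne_zero k
        push_cast
        field_simp
        rw [h4]
        push_cast
        ring
      rw [h3, ofReal_mem_slitPlane]
      positivity
    · rw [zero_pow hik, zero_mul, zero_div, sub_zero]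
      exact one_mem_slitPlane
  · have hW := hb.ne q hqf
    by_contra hcon
    rw [mem_slitPlane_iff, not_or, not_lt, not_not] at hcon
    obtain ⟨h3, h4⟩ := hcon
    set b : ℂ := q ^ (k - i - 1) * w i q / W q with hbdef
    have h5 : b = ((b.re : ℝ) : ℂ) := by
      apply Complex.ext
      · simp
      · rw [ofReal_im]
        rw [sub_im, one_im] at h4
        linarith
    have h6 : 1 ≤ b.re := by
      rw [sub_re, one_re] at h3
      linarith
    refine hb.star q hqf hq0 i hi b.re h6 ?_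
    rw [← h5, hbdef]
    have h7 : q ^ k = q ^ i * q ^ (k - i - 1) * q := by
      rw [← pow_add, ← pow_succ]
      congr 1
      omega
    have h8 : q ^ i ≠ 0 := pow_ne_zero _ hq0
    have h9 : q ^ (k - i - 1) ≠ 0 := pow_ne_zero _ hq0
    rw [h7]
    field_simp

private theorem log_S_hdd14 {X : Set ℂ} {c : ℕ → ℂ → ℂ} (hX : IsCompact X)
    (hcont : ContinuousOn (fun p : ℂ × ℂ => S c p.1 p.2) (X ×ˢ univ)) {g : ℂ → ℂ}
    (hg : ContinuousOn g X) (h0 : ∀ q ∈ X, ∀ t ∈ Icc (0 : ℝ) 1, S c q (g q * (t : ℂ)) ≠ 0)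
    (h1 : ∀ q ∈ X, S c q 0 = 1) :
    ∃ ℓ : ℂ → ℂ, ContinuousOn ℓ X ∧ ∀ q ∈ X, exp (ℓ q) = S c q (g q) := by
  have h3 : ContinuousOn (fun p : ℂ × ℝ => ((p.1, g p.1 * (p.2 : ℂ)) : ℂ × ℂ))
      (X ×ˢ Icc (0 : ℝ) 1) := by
    refine ContinuousOn.prodMk continuousOn_fst ?_
    refine ContinuousOn.mul (hg.comp continuousOn_fst fun p hp => hp.1) ?_
    fun_prop
  have h4 : ContinuousOn (fun p : ℂ × ℝ => S c p.1 (g p.1 * (p.2 : ℂ))) (X ×ˢ Icc (0 : ℝ) 1) :=
    hcont.comp h3 fun p hp => ⟨hp.1, mem_univ _⟩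
  have h5 : ∀ q ∈ X, S c q (g q * ((0 : ℝ) : ℂ)) = 1 := by
    intro q hq
    rw [ofReal_zero, mul_zero]
    exact h1 q hq
  obtain ⟨ℓ, hℓ, hℓ2⟩ := exists_log (φ := fun (q : ℂ) (t : ℝ) => S c q (g q * (t : ℂ))) hX h4 h0 h5
  refine ⟨ℓ, hℓ, fun q hq => ?_⟩
  have h6 := hℓ2 q hq
  simp only [ofReal_one, mul_one] at h6
  exact h6

/-- The continuous logarithm of `-W`.
PROOF.  `L = ℓ₂ - ℓ₁ - log (1 - q) + ∑_{i<k} (log (1 - q^(k-i) w_i/W) - log (1 - q^(k-i-1) w_i/W))`,
`exp ℓ₂ = G q (W q)` (`exists_log`, `φ q t = G q (W q * t)`, `φ q 0 = quot (Cf d) W 0 q = 1` by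
`Ent.quot_zero`), `exp ℓ₁ = G q (q W q)` (`φ q t = G q (W q * (q t))`); nonzero by `Bd.quot_ne`.
`1 - q ∈ slitPlane` as `‖q‖ ≤ 1`, `q ≠ 1`. -/
theorem Bd.exists_L (hK : IsCompact K) (h1 : ∀ q ∈ K, ‖q‖ ≤ 1) (h2 : (1 : ℂ) ∉ K)
    (h : State K k d w) (hb : Bd K k d w W) (hW : ContinuousOn W (frontier K)) :
    ∃ L : ℂ → ℂ, ContinuousOn L (frontier K) ∧ ∀ q ∈ frontier K, exp (L q) = - W q := by
  have hfK : frontier K ⊆ K := hK.isClosed.frontier_subset
  have hX : IsCompact (frontier K) := hK.of_isClosed_subset isClosed_frontier hfK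
  obtain ⟨B, hB⟩ := hX.exists_bound_of_continuousOn hW
  have hc : Ent (frontier K) (Cf d) := ent_mono_hdd14 (h.ent.Cf h1) hfK
  have hent : Ent (frontier K) (quot (Cf d) W) := hc.quot hW hB
  have hcont := hent.continuousOn
  have hq0 : ∀ q ∈ frontier K, S (quot (Cf d) W) q 0 = 1 := by
    intro q hq
    rw [S_zero, hc.quot_zero hq (hb.zero q hq)]
    simp [Cf, h.one q (hfK hq)]
  have hne := hb.quot_ne hK h1 h
  obtain ⟨ℓ2, hℓ2c, hℓ2⟩ := log_S_hdd14 hX hcont hW
    (fun q hq t ht => hne q hq t (by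
      rw [norm_real, Real.norm_eq_abs, abs_of_nonneg ht.1]
      exact ht.2)) hq0
  obtain ⟨ℓ1, hℓ1c, hℓ1⟩ := log_S_hdd14 hX hcont (g := fun q => W q * q) (hW.mul continuousOn_id)
    (fun q hq t ht => by
      have h3 := hne q hq (q * t) (by
        rw [norm_mul, norm_real, Real.norm_eq_abs, abs_of_nonneg ht.1]
        exact mul_le_one₀ (h1 q (hfK hq)) ht.1 ht.2)
      rwa [← mul_assoc] at h3) hq0
  have hslit : ∀ q ∈ frontier K, (1 : ℂ) - q ∈ slitPlane := by
    intro q hq
    have h3 := h1 q (hfK hq)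
    have h4 := Complex.re_le_norm q
    rw [mem_slitPlane_iff]
    by_contra hcon
    rw [not_or, not_lt, not_not, sub_re, sub_im, one_re, one_im] at hcon
    obtain ⟨h5, h6⟩ := hcon
    apply h2
    have h7 : q = 1 := by
      apply Complex.ext
      · rw [one_re]
        linarith
      · rw [one_im]
        linarith
    rw [← h7]
    exact hfK hq
  refine ⟨fun q => ℓ2 q - ℓ1 q - Complex.log (1 - q) + ∑ i ∈ Finset.range k,
    (Complex.log (1 - q ^ (k - i) * w i q / W q) -
      Complex.log (1 - q ^ (k - i - 1) * w i q / W q)), ?_, ?_⟩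
  · refine ((hℓ2c.sub hℓ1c).sub ?_).add ?_
    · exact ContinuousOn.clog (by fun_prop) hslit
    · refine continuousOn_finsetSum _ fun i hi => ?_
      have hwi : ContinuousOn (w i) (frontier K) :=
        (h.wc i (Finset.mem_range.1 hi)).mono hfK
      refine ContinuousOn.sub ?_ ?_
      · refine ContinuousOn.clog ?_ fun q hq => hb.slit1 hK h q hq i (Finset.mem_range.1 hi)
        refine ContinuousOn.sub continuousOn_const ?_
        refine ContinuousOn.div ?_ hW hb.ne
        exact ContinuousOn.mul (by fun_prop) hwi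
      · refine ContinuousOn.clog ?_ fun q hq => hb.slit2 hK h q hq i (Finset.mem_range.1 hi)
        refine ContinuousOn.sub continuousOn_const ?_
        refine ContinuousOn.div ?_ hW hb.ne
        exact ContinuousOn.mul (by fun_prop) hwi
  · intro q hq
    have hid := hb.identity hK h1 h q hq
    have e2 := hℓ2 q hq
    have e1 : Complex.exp (ℓ1 q) = S (quot (Cf d) W) q (q * W q) := by
      rw [mul_comm q (W q)]
      exact hℓ1 q hq
    have n1 : S (quot (Cf d) W) q (q * W q) ≠ 0 := by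
      rw [← e1]
      exact Complex.exp_ne_zero _
    have n2 := slitPlane_ne_zero (hslit q hq)
    have n3 : ∏ i ∈ Finset.range k, (1 - q ^ (k - i - 1) * w i q / W q) ≠ 0 :=
      Finset.prod_ne_zero_iff.2 fun i hi =>
        slitPlane_ne_zero (hb.slit2 hK h q hq i (Finset.mem_range.1 hi))
    rw [Complex.exp_add, Complex.exp_sub, Complex.exp_sub, Complex.exp_log n2, e1, e2,
      Complex.exp_sum]
    have h3 : ∏ i ∈ Finset.range k, Complex.exp (Complex.log (1 - q ^ (k - i) * w i q / W q) -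
        Complex.log (1 - q ^ (k - i - 1) * w i q / W q)) =
        (∏ i ∈ Finset.range k, (1 - q ^ (k - i) * w i q / W q)) /
          ∏ i ∈ Finset.range k, (1 - q ^ (k - i - 1) * w i q / W q) := by
      rw [← Finset.prod_div_distrib]
      refine Finset.prod_congr rfl fun i hi => ?_
      rw [Complex.exp_sub,
        Complex.exp_log (slitPlane_ne_zero (hb.slit1 hK h q hq i (Finset.mem_range.1 hi))),
        Complex.exp_log (slitPlane_ne_zero (hb.slit2 hK h q hq i (Finset.mem_range.1 hi)))]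
    rw [h3]
    have h4 : ∀ A B Q P1 P2 v : ℂ, B ≠ 0 → Q ≠ 0 → P2 ≠ 0 → -v * (Q * P2 * B) = P1 * A →
        A / B / Q * (P1 / P2) = -v := by
      intro A B Q P1 P2 v hB hQ hP h5
      field_simp
      linear_combination -h5
    exact h4 _ _ _ _ _ _ n1 n2 n3 hid

/-! ## Piece [HD-D15] (this block) -/

private theorem W_at_zero_D15 (h : State K k d w) (h0 : (0 : ℂ) ∈ K)
    (hz : S (Cf d) 0 (W 0) = 0) : W 0 = -((k : ℂ) + 1) := by
  rw [S_Cf_at_zero, h.d0 h0, h.d0 h0, zero_add, add_comm 1 k, Nat.factorial_succ] at hz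
  have hf : (k.factorial : ℂ) ≠ 0 := by exact_mod_cast k.factorial_ne_zero
  have hk : (k : ℂ) + 1 ≠ 0 := by exact_mod_cast Nat.succ_ne_zero k
  rw [div_self hf] at hz
  push_cast at hz
  have e : (k.factorial : ℂ) / (((k : ℂ) + 1) * (k.factorial : ℂ)) = 1 / ((k : ℂ) + 1) := by
    field_simp
  rw [e] at hz
  have e2 : W 0 = ((k : ℂ) + 1) * (1 / ((k : ℂ) + 1) * W 0) := by
    field_simp
  rw [e2]
  linear_combination ((k : ℂ) + 1) * hz

/-- The new state.
PROOF.  `Ent.dquot`, `Ent.dquot_differentiableOn`; `dquot d W 0 q = 1`: `quot_Cf` (`n = 0`) and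
`Ent.quot_zero`; `fac`: `S (Cf d) q ζ = (1 - ζ/W q) S (Cf (dquot d W)) q (q ζ)` (`Ent.quot_mul`,
`S_quot_Cf`) with `ζ = q^k z`; `lt`: `State.gt` for `z = W q/q^k`; `gt`: if
`S (Cf (dquot d W)) q (q^(k+1) z) = 0` then `S (quot (Cf d) W) q ζ = 0` for `ζ = q^k z`
(`S_quot_Cf`), so `S (Cf d) q ζ = 0` and `State.gt` applies for `j < k`; for `j = k`:
`‖ζ‖ ≤ ‖W q‖` would give `ζ = W q u`, `‖u‖ ≤ 1`: contradiction to `hu`.  `d0`: `dquot_at_zero` and
`W 0 = -(k+1)` from `0 = S (Cf d) 0 (W 0) = 1 + W 0/(k+1)`. -/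
theorem State.succ (hK : IsCompact K) (h1 : ∀ q ∈ K, ‖q‖ ≤ 1) (h : State K k d w)
    (hW : ContinuousOn W K) (hWd : DifferentiableOn ℂ W (interior K)) (hW0 : ∀ q ∈ K, W q ≠ 0)
    (hWz : ∀ q ∈ K, S (Cf d) q (W q) = 0)
    (hu : ∀ q ∈ K, ∀ u : ℂ, ‖u‖ ≤ 1 → S (quot (Cf d) W) q (W q * u) ≠ 0) :
    State K (k + 1) (dquot d W) (Function.update w k W) := by
  obtain ⟨B, hB⟩ := hK.exists_bound_of_continuousOn hW
  have hEc : Ent K (Cf d) := h.ent.Cf h1
  have hupk : ∀ q, Function.update w k W k q = W q := fun q => by rw [Function.update_self]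
  have hupj : ∀ j, j < k → ∀ q, Function.update w k W j q = w j q := fun j hj q => by
    rw [Function.update_of_ne hj.ne]
  have hmul : ∀ q ∈ K, ∀ ζ, S (Cf d) q ζ = (1 - ζ / W q) * S (Cf (dquot d W)) q (q * ζ) := by
    intro q hq ζ
    have e1 := hEc.quot_mul hW hB hq (hWz q hq) ζ
    rw [S_quot_Cf] at e1
    have e2 := hW0 q hq
    have e3 : (1 - ζ / W q) = (W q - ζ) / W q := by field_simp
    rw [e3, div_mul_eq_mul_div, eq_div_iff e2, mul_comm, e1]
  refine ⟨h.ent.dquot h1 hW hB, fun n => ?_, fun q hq => ?_, fun j hj => ?_, fun j hj q hq => ?_,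
    fun q hq hq0 z => ?_, fun q hq hq0 i j hij hj => ?_, fun q hq hq0 j hj z hz => ?_,
    fun h0 n => ?_, fun h0 j hj => ?_⟩
  · exact h.ent.dquot_differentiableOn isOpen_interior interior_subset h1 h.diff hWd
      (fun q hq => hB q (interior_subset hq)) n
  · have e1 := hEc.quot_zero hq (hWz q hq)
    rw [quot_Cf] at e1
    simpa [Cf, h.one q hq] using e1
  · rcases Nat.lt_succ_iff_lt_or_eq.1 hj with hj | rfl
    · rw [Function.update_of_ne hj.ne]
      exact h.wc j hj
    · rw [Function.update_self]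
      exact hW
  · rcases Nat.lt_succ_iff_lt_or_eq.1 hj with hj | rfl
    · rw [Function.update_of_ne hj.ne]
      exact h.wne j hj q hq
    · rw [Function.update_self]
      exact hW0 q hq
  · rw [h.fac q hq hq0 z, Finset.prod_range_succ, hmul q hq, hupk, ← mul_assoc]
    have e1 : q * (q ^ k * z) = q ^ (k + 1) * z := by ring
    rw [e1]
    congr 2
    refine Finset.prod_congr rfl fun j hj => ?_
    rw [hupj j (Finset.mem_range.1 hj)]
  · rcases Nat.lt_succ_iff_lt_or_eq.1 hj with hj | rfl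
    · rw [hupj i (hij.trans hj), hupj j hj]
      exact h.lt q hq hq0 i j hij hj
    · rw [hupj i hij, hupk]
      refine h.gt q hq hq0 i hij _ ?_
      rw [mul_div_cancel₀ _ (pow_ne_zero _ hq0)]
      exact hWz q hq
  · have e1 : S (quot (Cf d) W) q (q ^ k * z) = 0 := by
      rw [S_quot_Cf, ← hz]
      congr 1
      ring
    rcases Nat.lt_succ_iff_lt_or_eq.1 hj with hj | rfl
    · rw [hupj j hj]
      refine h.gt q hq hq0 j hj z ?_
      rw [hmul q hq, ← S_quot_Cf, e1, mul_zero]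
    · rw [hupk]
      by_contra hc
      push Not at hc
      have hqj : q ^ j ≠ 0 := pow_ne_zero _ hq0
      have e2 : ‖q ^ j * z‖ ≤ ‖W q‖ := by
        rw [norm_div, le_div_iff₀ (norm_pos_iff.2 hqj)] at hc
        rw [norm_mul, mul_comm]
        exact hc
      have e3 : ‖q ^ j * z / W q‖ ≤ 1 := by
        rw [norm_div]
        exact div_le_one_of_le₀ e2 (norm_nonneg _)
      apply hu q hq _ e3
      rw [mul_div_cancel₀ _ (hW0 q hq)]
      exact e1
  · rw [dquot_at_zero, h.d0 h0, W_at_zero_D15 h h0 (hWz 0 h0)]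
    have e1 : n + 1 + k = n + (k + 1) := by ring
    rw [e1, Nat.factorial_succ k]
    push_cast
    ring
  · rcases Nat.lt_succ_iff_lt_or_eq.1 hj with hj | rfl
    · rw [hupj j hj]
      exact h.w0 h0 j hj
    · rw [hupk]
      exact W_at_zero_D15 h h0 (hWz 0 h0)

/-- The initial state. -/
theorem State.init (h1 : ∀ q ∈ K, ‖q‖ ≤ 1) (w : ℕ → ℂ → ℂ) :
    State K 0 (fun n _ => ((n.factorial : ℂ))⁻¹) w := by
  refine ⟨⟨fun n => continuousOn_const, fun R hR => ⟨Real.exp R, (Real.exp_pos R).le, fun n q _ => ?_⟩⟩,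
    fun n => differentiableOn_const _, fun q _ => by simp, fun j hj => absurd hj (Nat.not_lt_zero j),
    fun j hj => absurd hj (Nat.not_lt_zero j), fun q _ _ z => ?_,
    fun q _ _ i j _ hj => absurd hj (Nat.not_lt_zero j), fun q _ _ j hj => absurd hj (Nat.not_lt_zero j),
    fun _ n => ?_, fun _ j hj => absurd hj (Nat.not_lt_zero j)⟩
  · rw [norm_inv, Complex.norm_natCast, inv_mul_eq_div]
    exact Real.pow_div_factorial_le_exp R hR.le n
  · rw [Finset.prod_range_zero, one_mul, pow_zero, one_mul]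
    unfold F S Cf
    refine tsum_congr fun n => ?_
    rw [div_eq_mul_inv]
    ring
  · simp

/-- One step. -/
theorem State.step (hK : IsCompact K) (hcv : Convex ℝ K) (hi : (interior K).Nonempty)
    (h1 : ∀ q ∈ K, ‖q‖ ≤ 1) (h2 : (1 : ℂ) ∉ K) (h : State K k d w)
    (hB : ∀ q ∈ frontier K, q ≠ 0 → ∃ z, First q (k + 1) z ∧ StarN q (k + 1) z) :
    ∃ d' w', State K (k + 1) d' w' := by
  obtain ⟨W, hb⟩ := exists_Bd hK.isClosed h hB
  have hWc := hb.continuousOn hK h1 h
  have hq := hb.quot_ne hK h1 h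
  obtain ⟨L, hL, hLW⟩ := hb.exists_L hK h1 h2 h hWc
  have hc : Ent K (Cf d) := h.ent.Cf h1
  have hcd : ∀ n, DifferentiableOn ℂ (Cf d n) (interior K) := fun n =>
    (differentiableOn_id.pow _).mul (h.diff n)
  have hc1 : ∀ q ∈ K, Cf d 0 q = 1 := fun q hq => by simp [Cf, h.one q hq]
  obtain ⟨W', hW', hWd', hWf, hW0⟩ := exists_W hK hcv hi hc hcd hc1 hWc hb.zero hq hL hLW
  have hq' : ∀ q ∈ frontier K, ∀ u : ℂ, ‖u‖ ≤ 1 → S (quot (Cf d) W') q (W' q * u) ≠ 0 := by
    intro q hqf u hu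
    have h3 : S (quot (Cf d) W') q (W' q * u) = S (quot (Cf d) W) q (W q * u) := by
      simp only [S, quot, hWf q hqf]
    rw [h3]
    exact hq q hqf u hu
  exact ⟨_, _, h.succ hK h1 hW' hWd' (fun q hq => (hW0 q hq).1) (fun q hq => (hW0 q hq).2)
    (W_unique hK hcv hi hc hcd hc1 hW' hWd' (fun q hq => (hW0 q hq).2) hq')⟩

end SokalHD
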