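import Pool.Agent.Lib_MP_af4de1.Basic

/-!
# Half disc `Re q ≤ 0` for Sokal's `F(z;q)`: interface between the four parts

`q` on the unit circle, `Re q ≤ 0`.  `E2 q z`: if `F(z;q) = 0` then `Re conj(G) D²G < 0` at `z`, where
`G = F(·/q;q)`, `DG = z G' = (z/q) F(z) = 0`, `D²G = (z²/q) F(qz)`.

* part (a): `E2 q z` for `‖z‖ ≥ R0`;
* part (b): `E2 q z` for `‖z‖ ≤ R0` (certificate);
* part (c): `E2` at all zeros of modulus `r` ⇒ at most one zero of modulus `r`, simple;
* part (d): `Good q` on the arc ⇒ all zeros simple in the half disc.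
-/

namespace SokalHD

open Complex SokalF

/-- The condition (E2) at the point `z`. -/
def E2 (q z : ℂ) : Prop :=
  F q z = 0 → ((starRingEnd ℂ) (F q (z / q)) * (z ^ 2 / q * F q (q * z))).re < 0

/-- All zeros simple, at most one zero on each circle. -/
def Good (q : ℂ) : Prop :=
  (∀ z, F q z = 0 → deriv (F q) z ≠ 0) ∧ ∀ z w, F q z = 0 → F q w = 0 → ‖z‖ = ‖w‖ → z = w

/-- The radius that separates parts (a) and (b). -/
noncomputable def R0 : ℝ := 40

end SokalHD
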