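import Pool.Agent.Lib_MP_af4de1_hd.Defs

/-! # Half disc: the four parts and the theorem -/

namespace SokalHD

open Complex SokalF

/-- Part (a): large zeros. -/
theorem partA {q z : ℂ} (hq : ‖q‖ = 1) (hre : q.re ≤ 0) (hz : R0 ≤ ‖z‖) : E2 q z := by sorry

/-- Part (b): zeros of modulus `≤ R0` (certificate); by conjugation only `Im q ≥ 0` is needed. -/
theorem partB {q z : ℂ} (hq : ‖q‖ = 1) (hre : q.re ≤ 0) (hz : ‖z‖ ≤ R0) : E2 q z := by sorry

/-- Part (c): E2 at all zeros ⇒ simple zeros of distinct moduli (any `q` on the circle). -/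
theorem partC {q : ℂ} (hq : ‖q‖ = 1) (h : ∀ z, E2 q z) : Good q := by sorry

/-- Part (d): the interior. -/
theorem partD (h : ∀ q : ℂ, ‖q‖ = 1 → q.re ≤ 0 → Good q) {q : ℂ} (hq0 : 0 < ‖q‖) (hq1 : ‖q‖ ≤ 1)
    (hre : q.re ≤ 0) : Good q := by sorry

/-- The theorem. -/
theorem main {q : ℂ} (hq0 : 0 < ‖q‖) (hq1 : ‖q‖ ≤ 1) (hre : q.re ≤ 0) : Good q :=
  partD (fun p hp hpre => partC hp fun z => (le_total R0 ‖z‖).elim
    (fun h => partA hp hpre h) (fun h => partB hp hpre h)) hq0 hq1 hre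

end SokalHD
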